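import Pool.Agent.AIC.ASid

/-!
The Artin-Schreier elements for the lower bound: take `y = tr s n (c W) - corr s n a β c Ξ` in `ASid.as_id`; `w c ≤ 1`.
(`algebraMap` commutes with `theta`.)
-/

set_option autoImplicit false

namespace Pool.Agent.AIC

open scoped WithZero

theorem as_lower {F L : Type*} [Field F] [Field L] [Algebra F L] (p d n a s : ℕ) [Fact p.Prime]
    [CharP L p] (hsp : s = p ^ d) (ha : a ≤ n) (hFn : ∀ c : F, c ^ (s ^ n) = c)
    (β : ℕ → F) (w : Valuation L ℤᵐ⁰) (hF : ∀ c : F, c ≠ 0 → w (algebraMap F L c) = 1)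
    (W Ξ : L) (hW : w (W ^ (s ^ n) - W - ∑ j ∈ Finset.range (a + 1),
      algebraMap F L (β j) * Ξ ^ (s ^ j)) < 1) (c : F) :
    ∃ y : L, w (y ^ s - y - algebraMap F L (theta s n a β c) * Ξ) < 1 := by
  have hth : algebraMap F L (theta s n a β c) =
      theta s n a (fun j => algebraMap F L (β j)) (algebraMap F L c) := by
    simp only [theta, map_sum, map_pow, map_mul]
  have key := as_id p d n a s hsp ha (fun j => algebraMap F L (β j)) (algebraMap F L c) W Ξ
    (by rw [← map_pow, hFn]) (fun j => by rw [← map_pow, hFn])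
  refine ⟨tr s n (algebraMap F L c * W) -
    corr s n a (fun j => algebraMap F L (β j)) (algebraMap F L c) Ξ, ?_⟩
  rw [hth, key, map_mul]
  by_cases h0 : c = 0
  · rw [h0, map_zero, map_zero, zero_mul]
    exact zero_lt_one
  · rw [hF c h0, one_mul]
    exact hW

end Pool.Agent.AIC
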