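import Pool.Agent.AIC.ASid

/-!
The upper bound for the unipotent part of the inertia group.

PROOF. Let `y = tr s n (c W) - corr s n a β c Ξ` (all constants mapped to `L`). By `ASid.as_id` and `theta = 0`, `w (y^s - y) < 1`
(`w c ≤ 1`), hence `w y ≤ 1` (if `w y > 1` then `w (y^s - y) = (w y)^s > 1`, `s ≥ 2`). So `w (g y - y) < 1`. Now `g (corr) = corr` since `g`
fixes `F` and `Ξ`, and `g (tr (c W)) = tr (c W + c b) = tr (c W) + tr (c b)` (`g W = W + b`; `tr` is additive in characteristic `p` because
`s` is a power of `p`). So `g y - y = algebraMap F L (tr s n (c * b))`, of value `0` or `1`; hence it is `0`.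
(`algebraMap` commutes with `tr`, `corr`, `theta`.)
-/

set_option autoImplicit false

namespace Pool.Agent.AIC

open scoped WithZero

theorem tr_add {L : Type*} [Field L] (p d n s : ℕ) [Fact p.Prime] [CharP L p]
    (hsp : s = p ^ d) (x y : L) : tr s n (x + y) = tr s n x + tr s n y := by
  unfold tr
  rw [← Finset.sum_add_distrib]
  apply Finset.sum_congr rfl
  intro j _
  rw [hsp, ← pow_mul, add_pow_char_pow]

theorem as_upper {F L : Type*} [Field F] [Field L] [Algebra F L] (p d n a s : ℕ) [Fact p.Prime]
    [CharP L p] (hsp : s = p ^ d) (hs2 : 2 ≤ s) (ha : a ≤ n) (hFn : ∀ c : F, c ^ (s ^ n) = c)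
    (β : ℕ → F) (w : Valuation L ℤᵐ⁰) (hF : ∀ c : F, c ≠ 0 → w (algebraMap F L c) = 1)
    (W Ξ : L) (hW : w (W ^ (s ^ n) - W - ∑ j ∈ Finset.range (a + 1),
      algebraMap F L (β j) * Ξ ^ (s ^ j)) < 1)
    (g : L →+* L) (hgF : ∀ c : F, g (algebraMap F L c) = algebraMap F L c)
    (hg : ∀ y, w y ≤ 1 → w (g y - y) < 1) (hgΞ : g Ξ = Ξ) (b : F)
    (hgW : g W = W + algebraMap F L b) (c : F) (hc : theta s n a β c = 0) :
    tr s n (c * b) = 0 := by
  have hth : theta s n a (fun j => algebraMap F L (β j)) (algebraMap F L c) = 0 := by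
    have : algebraMap F L (theta s n a β c) =
        theta s n a (fun j => algebraMap F L (β j)) (algebraMap F L c) := by
      simp only [theta, map_sum, map_pow, map_mul]
    rw [← this, hc, map_zero]
  have key := as_id p d n a s hsp ha (fun j => algebraMap F L (β j)) (algebraMap F L c) W Ξ
    (by rw [← map_pow, hFn]) (fun j => by rw [← map_pow, hFn])
  rw [hth, zero_mul, sub_zero] at key
  set y := tr s n (algebraMap F L c * W) -
    corr s n a (fun j => algebraMap F L (β j)) (algebraMap F L c) Ξ with hy
  have h1 : w (y ^ s - y) < 1 := by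
    rw [key, map_mul]
    by_cases h0 : c = 0
    · rw [h0, map_zero, map_zero, zero_mul]
      exact zero_lt_one
    · rw [hF c h0, one_mul]
      exact hW
  have h2 : w y ≤ 1 := by
    by_contra hlt
    rw [not_le] at hlt
    have h3 : w y < w (y ^ s) := by
      rw [map_pow]
      calc w y = w y ^ 1 := (pow_one _).symm
        _ < w y ^ s := pow_lt_pow_right₀ hlt (by omega)
    have h4 : w (y ^ s - y) = w (y ^ s) := Valuation.map_sub_eq_of_lt_left w h3
    rw [h4] at h1
    exact absurd (hlt.trans (h3.trans h1)) (lt_irrefl _)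
  have h5 := hg y h2
  have h6 : g y - y = algebraMap F L (tr s n (c * b)) := by
    have e1 : g (tr s n (algebraMap F L c * W)) =
        tr s n (algebraMap F L c * W) + algebraMap F L (tr s n (c * b)) := by
      have e2 : g (tr s n (algebraMap F L c * W)) = tr s n (g (algebraMap F L c * W)) := by
        simp only [tr, map_sum, map_pow]
      have e3 : algebraMap F L (tr s n (c * b)) = tr s n (algebraMap F L c * algebraMap F L b) := by
        simp only [tr, map_sum, map_pow, map_mul]
      rw [e2, e3, map_mul, hgF, hgW, mul_add, tr_add p d n s hsp]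
    have e4 : g (corr s n a (fun j => algebraMap F L (β j)) (algebraMap F L c) Ξ) =
        corr s n a (fun j => algebraMap F L (β j)) (algebraMap F L c) Ξ := by
      simp only [corr, map_sum, map_pow, map_mul, hgF, hgΞ]
    rw [hy, map_sub, e1, e4]
    ring
  by_contra hne
  rw [h6, hF _ hne] at h5
  exact absurd h5 (lt_irrefl _)

end Pool.Agent.AIC
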