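import Pool.Agent.AIC.Defs

/-!
The Artin-Schreier identity.

PROOF. `s` is a power of `p`, so `y ↦ y ^ s` is additive. With `Z = tr s n (c W) = ∑_{l<n} (c W)^(s^l)`: `Z^s - Z = (c W)^(s^n) - c W = c (W^q - W)`
(telescoping, `c^q = c`, `q = s^n`). With `D = corr s n a β c Ξ = ∑_{j≤a} ∑_{l<j} ((β j c)^(s^(n-j)) Ξ)^(s^l)`:
`D^s - D = ∑_{j≤a} (((β j c)^(s^(n-j)) Ξ)^(s^j) - (β j c)^(s^(n-j)) Ξ) = ∑_{j≤a} β j c Ξ^(s^j) - theta * Ξ`
(as `(β j c)^(s^(n-j) s^j) = (β j c)^q = β j c`, using `j ≤ a ≤ n`). Subtract.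
-/

set_option autoImplicit false

namespace Pool.Agent.AIC


theorem tr_pow_sub {L : Type*} [Field L] (p d n s : ℕ) [Fact p.Prime] [CharP L p]
    (hsp : s = p ^ d) (y : L) : (tr s n y) ^ s - tr s n y = y ^ (s ^ n) - y := by
  have h : (tr s n y) ^ s = ∑ j ∈ Finset.range n, y ^ (s ^ (j + 1)) := by
    unfold tr
    nth_rewrite 2 [hsp]
    rw [sum_pow_char_pow p d]
    apply Finset.sum_congr rfl
    intro j _
    rw [← hsp, ← pow_mul, pow_succ]
  rw [h]
  unfold tr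
  rw [← Finset.sum_sub_distrib, Finset.sum_range_sub (fun j => y ^ (s ^ j)) n, pow_zero, pow_one]

theorem as_id {L : Type*} [Field L] (p d n a s : ℕ) [Fact p.Prime] [CharP L p] (hsp : s = p ^ d)
    (ha : a ≤ n) (β : ℕ → L) (c W Ξ : L) (hc : c ^ (s ^ n) = c)
    (hβ : ∀ j, (β j) ^ (s ^ n) = β j) :
    (tr s n (c * W) - corr s n a β c Ξ) ^ s - (tr s n (c * W) - corr s n a β c Ξ)
      - theta s n a β c * Ξ =
    c * (W ^ (s ^ n) - W - ∑ j ∈ Finset.range (a + 1), β j * Ξ ^ (s ^ j)) := by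
  have h1 := tr_pow_sub p d n s hsp (c * W)
  have h2 : (corr s n a β c Ξ) ^ s - corr s n a β c Ξ =
      ∑ j ∈ Finset.range (a + 1), (β j * c * Ξ ^ (s ^ j) - (β j * c) ^ (s ^ (n - j)) * Ξ) := by
    have e1 : (corr s n a β c Ξ) = ∑ j ∈ Finset.range (a + 1),
        tr s j ((β j * c) ^ (s ^ (n - j)) * Ξ) := rfl
    have e2 : (corr s n a β c Ξ) ^ s = ∑ j ∈ Finset.range (a + 1),
        (tr s j ((β j * c) ^ (s ^ (n - j)) * Ξ)) ^ s := by
      rw [e1]
      nth_rewrite 3 [hsp]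
      rw [sum_pow_char_pow p d]
      apply Finset.sum_congr rfl
      intro j _
      rw [← hsp]
    rw [e2, e1, ← Finset.sum_sub_distrib]
    apply Finset.sum_congr rfl
    intro j hj
    rw [tr_pow_sub p d j s hsp]
    have hj' : j ≤ n := by
      rw [Finset.mem_range] at hj
      omega
    rw [mul_pow, ← pow_mul, ← pow_add, Nat.sub_add_cancel hj', mul_pow (β j) c (s ^ n), hc, hβ j]
  have h3 : (tr s n (c * W) - corr s n a β c Ξ) ^ s =
      (tr s n (c * W)) ^ s - (corr s n a β c Ξ) ^ s := by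
    conv_lhs => rw [hsp]
    rw [sub_pow_char_pow]
    rw [← hsp]
  have h4 : theta s n a β c * Ξ =
      ∑ j ∈ Finset.range (a + 1), (β j * c) ^ (s ^ (n - j)) * Ξ := by
    unfold theta
    rw [Finset.sum_mul]
  have h5 : ∑ j ∈ Finset.range (a + 1), β j * c * Ξ ^ (s ^ j) =
      c * ∑ j ∈ Finset.range (a + 1), β j * Ξ ^ (s ^ j) := by
    rw [Finset.mul_sum]
    apply Finset.sum_congr rfl
    intro j _
    ring
  rw [Finset.sum_sub_distrib, h5] at h2
  rw [mul_pow, hc] at h1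
  rw [h3, h4]
  linear_combination h1 - h2

end Pool.Agent.AIC
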