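import Pool.Agent.AIC.Defs

/-!
The exponents are integers.

PROOF. Let `m = orderOf t`, `s = card S`, `q = card F`. `t ^ (q - 1) = 1`, so `m ∣ q - 1`; this gives `N`. Since `t ^ 2 ∈ S`,
`(t ^ 2) ^ s = t ^ 2`, so `(t ^ 2) ^ (s ^ i) = t ^ 2` for all `i`; and `t ^ q = t`. Hence
`t ^ (s ^ j * (q + 1)) = (t ^ (q + 1)) ^ (s ^ j) = (t ^ 2) ^ (s ^ j) = t ^ 2 = (t ^ 2) ^ (s ^ a) = t ^ (2 * s ^ a)`; as
`2 * s ^ a ≤ q + 1 ≤ s ^ j * (q + 1)`, `m` divides the difference (`pow_inj_mod`/`orderOf_dvd_iff_pow_eq_one`).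
-/

set_option autoImplicit false

namespace Pool.Agent.AIC

open Module

theorem arith {F : Type*} [Field F] [Finite F] (S : Subfield F) (t : Fˣ) (ht : (t : F) ^ 2 ∈ S)
    (a : ℕ) (h : 2 * Nat.card S ^ a ≤ Nat.card F + 1) :
    ∃ (N : ℕ) (ε : ℕ → ℕ), orderOf t ∣ Nat.card F - 1 ∧
      orderOf t * N = Nat.card S ^ a * (Nat.card F - 1) ∧
      ∀ j, j ≤ a → orderOf t * ε j + 2 * Nat.card S ^ a = Nat.card S ^ j * (Nat.card F + 1) := by
  classical
  have hF := Fintype.ofFinite F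
  have hSF := Fintype.ofFinite S
  have hq : 1 < Nat.card F := Finite.one_lt_card
  have hs : 1 < Nat.card S := Finite.one_lt_card
  have h1 : t ^ (Nat.card F - 1) = 1 := by
    rw [← Nat.card_units]
    exact pow_card_eq_one'
  have hdvd : orderOf t ∣ Nat.card F - 1 := orderOf_dvd_of_pow_eq_one h1
  have hsq : ∀ i : ℕ, (t ^ 2) ^ (Nat.card S ^ i) = t ^ 2 := by
    intro i
    ext
    push_cast
    have h2 : (⟨(t : F) ^ 2, ht⟩ : S) ^ (Nat.card S ^ i) = ⟨(t : F) ^ 2, ht⟩ := by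
      rw [Nat.card_eq_fintype_card]
      exact FiniteField.pow_card_pow i _
    have h3 := congrArg (Subtype.val) h2
    simpa using h3
  have hq1 : t ^ (Nat.card F + 1) = t ^ 2 := by
    have : Nat.card F + 1 = (Nat.card F - 1) + 2 := by omega
    rw [this, pow_add, h1, one_mul]
  obtain ⟨N0, hN0⟩ := hdvd
  have hε : ∀ j, j ≤ a → ∃ e, orderOf t * e + 2 * Nat.card S ^ a = Nat.card S ^ j * (Nat.card F + 1) := by
    intro j _
    have hle : 2 * Nat.card S ^ a ≤ Nat.card S ^ j * (Nat.card F + 1) := by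
      have : 1 ≤ Nat.card S ^ j := Nat.one_le_pow _ _ (by omega)
      nlinarith
    have heq : t ^ (2 * Nat.card S ^ a) = t ^ (Nat.card S ^ j * (Nat.card F + 1)) := by
      rw [mul_comm (Nat.card S ^ j), pow_mul, pow_mul, hq1, hsq, hsq]
    rw [pow_eq_pow_iff_modEq] at heq
    obtain ⟨e, he⟩ := (Nat.modEq_iff_dvd' hle).1 heq
    exact ⟨e, by omega⟩
  choose! ε hε using hε
  exact ⟨Nat.card S ^ a * N0, ε, ⟨N0, hN0⟩, by rw [hN0]; ring, hε⟩

end Pool.Agent.AIC
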