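import Pool.Agent.AIC.Coef1

/-!
The coefficients `β j`.

PROOF. Let `s = card S`, so `c ^ (s ^ n) = c` on `F` (`card F = s ^ n`), and `a ≤ n`. Take `π` from `Coef1.coef1`. Put
`β j = (π (a - j) / π 0) ^ (s ^ (n - (a - j)))` for `j ≤ a` (anything for `j > a`), so that
`(β j) ^ (s ^ (a - j)) = π (a - j) / π 0`. Then `β a = 1` (`(π 0 / π 0) ^ _ = 1`) and `β 0 ≠ 0` (`π a = 1`). Raising to the
power `s ^ a` (injective and additive on `F`):
`(theta s n a β c) ^ (s ^ a) = ∑ j ∈ range (a+1), (β j * c) ^ (s ^ (n - j + a)) = ∑ j, (β j * c) ^ (s ^ (a - j))`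
`= ∑ j, π (a - j) / π 0 * c ^ (s ^ (a - j)) = (π 0)⁻¹ * ∑ i ∈ range (a+1), π i * c ^ (s ^ i)`
(reflect the sum). So it vanishes iff `c ∈ B`.
-/

set_option autoImplicit false

namespace Pool.Agent.AIC

open Module

theorem coef {F : Type*} [Field F] [Finite F] (S : Subfield F) (B : Submodule S F) (a n : ℕ)
    (ha : finrank S B = a) (hn : finrank S F = n) :
    ∃ β : ℕ → F, β a = 1 ∧ β 0 ≠ 0 ∧ ∀ c : F, (theta (Nat.card S) n a β c = 0 ↔ c ∈ B) := by
  classical
  have hF := Fintype.ofFinite F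
  have hSF := Fintype.ofFinite S
  obtain ⟨π, hπa, hπ0, hπ⟩ := coef1 S B a ha
  set s : ℕ := Nat.card S with hs'
  have hs : 1 < s := Finite.one_lt_card
  obtain ⟨p, hpc⟩ := CharP.exists F
  have hpp : p.Prime := (CharP.char_is_prime F p)
  have hfact : Fact p.Prime := ⟨hpp⟩
  have hpS : CharP S p := by
    refine (RingHom.charP_iff S.subtype (Subtype.val_injective) p).2 hpc
  obtain ⟨k, -, hk⟩ := FiniteField.card S p
  have hsk : s = p ^ (k : ℕ) := by rw [hs', Nat.card_eq_fintype_card, hk]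
  have hsum : ∀ (T : Finset ℕ) (g : ℕ → F) (j : ℕ), (∑ i ∈ T, g i) ^ (s ^ j) = ∑ i ∈ T, g i ^ (s ^ j) := by
    intro T g j
    rw [hsk, ← pow_mul]
    exact sum_pow_char_pow p _ T g
  have hcard : Nat.card F = s ^ n := by
    have h1 := Module.natCard_eq_pow_finrank (K := S) (V := F)
    rw [hn, ← hs'] at h1
    exact h1
  have hpow : ∀ c : F, c ^ (s ^ n) = c := by
    intro c
    rw [← hcard, Nat.card_eq_fintype_card]
    exact FiniteField.pow_card c
  have han : a ≤ n := by
    rw [← ha, ← hn]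
    exact Submodule.finrank_le B
  refine ⟨fun j => (π (a - j) / π 0) ^ (s ^ (n - (a - j))), ?_, ?_, fun c => ?_⟩
  · simp only [Nat.sub_self]
    rw [div_self hπ0, one_pow]
  · simp only [Nat.sub_zero]
    rw [hπa]
    exact pow_ne_zero _ (div_ne_zero one_ne_zero hπ0)
  · rw [← hπ c]
    have key : (theta s n a (fun j => (π (a - j) / π 0) ^ (s ^ (n - (a - j)))) c) ^ (s ^ a) =
        (∑ j ∈ Finset.range (a + 1), π j * c ^ (s ^ j)) / π 0 := by
      unfold theta
      rw [hsum, Finset.sum_div, ← Finset.sum_range_reflect]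
      refine Finset.sum_congr rfl fun i hi => ?_
      rw [Finset.mem_range] at hi
      have h1 : a + 1 - 1 - i = a - i := by omega
      rw [h1]
      have h2 : a - (a - i) = i := by omega
      beta_reduce
      rw [h2, ← pow_mul, ← pow_add]
      have h3 : n - (a - i) + a = n + i := by omega
      rw [h3, pow_add, pow_mul, hpow, mul_pow, ← pow_mul, ← pow_add]
      have h4 : n - i + i = n := by omega
      rw [h4, hpow]
      ring
    have h1 : (theta s n a (fun j => (π (a - j) / π 0) ^ (s ^ (n - (a - j)))) c) = 0 ↔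
        (theta s n a (fun j => (π (a - j) / π 0) ^ (s ^ (n - (a - j)))) c) ^ (s ^ a) = 0 := by
      rw [pow_eq_zero_iff (pow_ne_zero _ (by omega))]
    rw [h1, key, div_eq_zero_iff]
    simp [hπ0]

end Pool.Agent.AIC
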