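import Pool.Agent.AIC.Defs

/-!
The `S`-linear polynomial whose set of zeros in `F` is a given `S`-subspace `B`.

PROOF. Write `s = card S` (a power of the characteristic). Choose an `S`-basis `b 0, .., b (a-1)` of `B`. The `a` linear
conditions `∑ j ∈ range (a+1), π j * (b i) ^ (s ^ j) = 0` on `(π 0, .., π a) ∈ F ^ (a+1)` have a non-zero solution
(a linear map `F ^ (a+1) → F ^ a` is not injective). The function `c ↦ P(c) = ∑ π j * c ^ (s ^ j)` is `S`-linear
(`σ ^ (s ^ j) = σ` for `σ ∈ S`, and `s` is a power of the characteristic), so it vanishes on `B`, a set with `s ^ a`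
elements. As a polynomial in `c` it is non-zero of degree `s ^ i` where `i` is the largest index with `π i ≠ 0`, so
`s ^ a ≤ s ^ i`, `i = a`, and `B` is exactly the set of zeros in `F` (at most `s ^ a` roots). Divide by `π a`.
If `π 0` were `0`, then `P = P₁ ^ s` with `P₁ = ∑_{j ≥ 1} (π j)^{1/s} * c ^ (s ^ (j-1))` (the Frobenius of the finite field
`F` is bijective), a non-zero polynomial of degree `s ^ (a-1)` (if `a = 0` then `π 0 = π a = 1` directly) with the same zeros,
at least `s ^ a` of them: contradiction.
-/

set_option autoImplicit false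

namespace Pool.Agent.AIC

open Module

private theorem zeros_le {F : Type*} [Field F] {s : ℕ} (hs : 1 < s) (π : ℕ → F) (m : ℕ)
    (h : ∃ j, j ≤ m ∧ π j ≠ 0) (Z : Finset F)
    (hZ : ∀ c ∈ Z, ∑ j ∈ Finset.range (m + 1), π j * c ^ (s ^ j) = 0) : Z.card ≤ s ^ m := by
  classical
  set P : Polynomial F := ∑ j ∈ Finset.range (m + 1), Polynomial.C (π j) * Polynomial.X ^ (s ^ j) with hP
  have hcoeff : ∀ j, j ≤ m → P.coeff (s ^ j) = π j := by
    intro j hj
    rw [hP, Polynomial.finsetSum_coeff, Finset.sum_eq_single j]
    · simp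
    · intro i _ hij
      rw [Polynomial.coeff_C_mul, Polynomial.coeff_X_pow, if_neg, mul_zero]
      intro h'
      exact hij (Nat.pow_right_injective hs h').symm
    · intro h'
      exact absurd (Finset.mem_range.2 (by omega)) h'
  have hP0 : P ≠ 0 := by
    obtain ⟨j, hj, hj0⟩ := h
    intro h0
    rw [← hcoeff j hj, h0, Polynomial.coeff_zero] at hj0
    exact hj0 rfl
  have hdeg : P.natDegree ≤ s ^ m := by
    rw [hP]
    refine Polynomial.natDegree_sum_le_of_forall_le _ _ fun j hj => ?_
    refine (Polynomial.natDegree_C_mul_X_pow_le _ _).trans ?_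
    exact Nat.pow_le_pow_right (by omega) (by rw [Finset.mem_range] at hj; omega)
  refine (Polynomial.card_le_degree_of_subset_roots (p := P) ?_).trans hdeg
  intro c hc
  rw [Polynomial.mem_roots hP0, Polynomial.IsRoot.def, hP, Polynomial.eval_finsetSum]
  simpa using hZ c hc

theorem coef1 {F : Type*} [Field F] [Finite F] (S : Subfield F) (B : Submodule S F) (a : ℕ)
    (ha : finrank S B = a) :
    ∃ π : ℕ → F, π a = 1 ∧ π 0 ≠ 0 ∧
      ∀ c : F, (∑ j ∈ Finset.range (a + 1), π j * c ^ (Nat.card S ^ j) = 0 ↔ c ∈ B) := by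
  classical
  have hF := Fintype.ofFinite F
  have hSF := Fintype.ofFinite S
  set s : ℕ := Nat.card S with hs'
  have hs : 1 < s := Finite.one_lt_card
  obtain ⟨p, hpc⟩ := CharP.exists F
  have hpp : p.Prime := (CharP.char_is_prime F p)
  have hfact : Fact p.Prime := ⟨hpp⟩
  have hpS : CharP S p := by
    refine (RingHom.charP_iff S.subtype (Subtype.val_injective) p).2 hpc
  obtain ⟨k, -, hk⟩ := FiniteField.card S p
  have hsk : s = p ^ (k : ℕ) := by rw [hs', Nat.card_eq_fintype_card, hk]
  have hadd : ∀ (x y : F) (j : ℕ), (x + y) ^ (s ^ j) = x ^ (s ^ j) + y ^ (s ^ j) := by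
    intro x y j
    rw [hsk, ← pow_mul]
    exact add_pow_char_pow x y p _
  have hσ : ∀ (σ : S) (j : ℕ), (σ : F) ^ (s ^ j) = (σ : F) := by
    intro σ j
    have h2 : σ ^ (s ^ j) = σ := by
      rw [hs', Nat.card_eq_fintype_card]
      exact FiniteField.pow_card_pow j _
    have h3 := congrArg (Subtype.val) h2
    simpa using h3
  -- the `S`-linear map of a coefficient function
  let f : (ℕ → F) → (F →ₗ[S] F) := fun π =>
    { toFun := fun c => ∑ j ∈ Finset.range (a + 1), π j * c ^ (s ^ j)
      map_add' := by
        intro x y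
        rw [← Finset.sum_add_distrib]
        refine Finset.sum_congr rfl fun j _ => ?_
        rw [hadd, mul_add]
      map_smul' := by
        intro σ x
        rw [RingHom.id_apply, Finset.smul_sum]
        refine Finset.sum_congr rfl fun j _ => ?_
        have h2 : σ • x = (σ : F) * x := rfl
        have h3 : σ • (π j * x ^ (s ^ j)) = (σ : F) * (π j * x ^ (s ^ j)) := rfl
        rw [h2, h3, mul_pow, hσ]
        ring }
  have hf : ∀ π c, f π c = ∑ j ∈ Finset.range (a + 1), π j * c ^ (s ^ j) := fun _ _ => rfl
  -- a nonzero solution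
  have hfree : Module.Free S B := inferInstance
  let b : Basis (Fin a) S B := (finBasisOfFinrankEq S B ha)
  let φ : (Fin (a + 1) → F) →ₗ[F] (Fin a → F) :=
    { toFun := fun π i => ∑ j : Fin (a + 1), π j * (b i : F) ^ (s ^ (j : ℕ))
      map_add' := by
        intro x y
        funext i
        simp only [Pi.add_apply, add_mul, Finset.sum_add_distrib]
      map_smul' := by
        intro c x
        funext i
        simp only [Pi.smul_apply, smul_eq_mul, RingHom.id_apply, Finset.mul_sum, mul_assoc] }
  have hker : LinearMap.ker φ ≠ ⊥ := by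
    apply LinearMap.ker_ne_bot_of_finrank_lt
    rw [Module.finrank_fin_fun, Module.finrank_fin_fun]
    omega
  obtain ⟨ρ, hρ, hρ0⟩ := Submodule.exists_mem_ne_zero_of_ne_bot hker
  set π : ℕ → F := fun j => if h : j < a + 1 then ρ ⟨j, h⟩ else 0 with hπ
  have hπρ : ∀ j : Fin (a + 1), π j = ρ j := by
    intro j
    rw [hπ]
    exact dif_pos j.2
  have hzero : f π ∘ₗ B.subtype = 0 := by
    refine b.ext fun i => ?_
    rw [LinearMap.comp_apply, LinearMap.zero_apply, hf]
    have h1 := congrFun (LinearMap.mem_ker.1 hρ) i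
    rw [Finset.sum_range]
    simp only [hπρ]
    exact h1
  have hzB : ∀ c ∈ B, ∑ j ∈ Finset.range (a + 1), π j * c ^ (s ^ j) = 0 := by
    intro c hc
    have := LinearMap.congr_fun hzero ⟨c, hc⟩
    exact this
  have hne : ∃ j, j ≤ a ∧ π j ≠ 0 := by
    by_contra hcon
    push Not at hcon
    apply hρ0
    funext j
    rw [← hπρ, hcon j (by omega)]
    rfl
  have hcardB : (Finset.univ.filter fun c : F => c ∈ B).card = s ^ a := by
    have h1 := Module.natCard_eq_pow_finrank (K := S) (V := B)
    rw [ha] at h1
    rw [← hs'] at h1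
    rw [← h1, ← Fintype.card_subtype, Nat.card_eq_fintype_card]
  have hπa : π a ≠ 0 := by
    intro h0
    rcases Nat.eq_zero_or_pos a with ha0 | ha0
    · obtain ⟨j, hj, hj0⟩ := hne
      have : j = a := by omega
      rw [this] at hj0
      exact hj0 h0
    · have h1 := zeros_le hs π (a - 1) (by
        obtain ⟨j, hj, hj0⟩ := hne
        refine ⟨j, ?_, hj0⟩
        have : j ≠ a := fun h => hj0 (h ▸ h0)
        omega) (Finset.univ.filter fun c : F => c ∈ B) (by
        intro c hc
        have h2 := hzB c (Finset.mem_filter.1 hc).2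
        rw [Finset.sum_range_succ, h0, zero_mul, add_zero] at h2
        rw [Nat.sub_add_cancel ha0]
        exact h2)
      rw [hcardB] at h1
      have h3 : s ^ (a - 1) < s ^ a := Nat.pow_lt_pow_right hs (by omega)
      omega
  have hiff : ∀ c : F, (∑ j ∈ Finset.range (a + 1), π j * c ^ (s ^ j) = 0 ↔ c ∈ B) := by
    have h1 := zeros_le hs π a ⟨a, le_rfl, hπa⟩
      (Finset.univ.filter fun c : F => ∑ j ∈ Finset.range (a + 1), π j * c ^ (s ^ j) = 0) (by
        intro c hc
        exact (Finset.mem_filter.1 hc).2)
    have h2 : (Finset.univ.filter fun c : F => c ∈ B) =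
        Finset.univ.filter fun c : F => ∑ j ∈ Finset.range (a + 1), π j * c ^ (s ^ j) = 0 := by
      apply Finset.eq_of_subset_of_card_le
      · intro c hc
        exact Finset.mem_filter.2 ⟨Finset.mem_univ _, hzB c (Finset.mem_filter.1 hc).2⟩
      · rw [hcardB]
        exact h1
    intro c
    have h3 := Finset.ext_iff.1 h2 c
    simp only [Finset.mem_filter, Finset.mem_univ, true_and] at h3
    exact h3.symm
  have hπ0 : π 0 ≠ 0 := by
    intro h0
    rcases Nat.eq_zero_or_pos a with ha0 | ha0
    · exact hπa (ha0 ▸ h0)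
    · have hsurj : ∀ x : F, ∃ y : F, y ^ s = x := by
        have hinj : Function.Injective (fun y : F => y ^ s) := by
          intro x y hxy
          have h2 : (x - y) ^ s = 0 := by
            have h3 := hadd (x - y) y 1
            rw [pow_one, sub_add_cancel] at h3
            simp only at hxy
            rw [hxy] at h3
            exact left_eq_add.1 (by rw [add_comm]; exact h3)
          exact sub_eq_zero.1 (pow_eq_zero_iff (by omega) |>.1 h2)
        exact fun x => (Finite.injective_iff_surjective.1 hinj) x
      choose root hroot using hsurj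
      have h1 := zeros_le hs (fun j => root (π (j + 1))) (a - 1) ⟨a - 1, le_rfl, by
          rw [Nat.sub_add_cancel ha0]
          intro h2
          have h3 := hroot (π a)
          rw [h2, zero_pow (by omega)] at h3
          exact hπa h3.symm⟩ (Finset.univ.filter fun c : F => c ∈ B) (by
        intro c hc
        have h2 := hzB c (Finset.mem_filter.1 hc).2
        rw [Finset.sum_range_succ', h0, zero_mul, add_zero] at h2
        rw [Nat.sub_add_cancel ha0]
        have h4 : (∑ j ∈ Finset.range a, root (π (j + 1)) * c ^ (s ^ j)) ^ s = 0 := by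
          have h5 : ∀ T : Finset ℕ, (∑ j ∈ T, root (π (j + 1)) * c ^ (s ^ j)) ^ s =
              ∑ j ∈ T, π (j + 1) * c ^ (s ^ (j + 1)) := by
            intro T
            induction T using Finset.induction_on with
            | empty => simp; omega
            | insert x T hx ih =>
              rw [Finset.sum_insert hx, Finset.sum_insert hx, ← ih]
              have h6 := hadd (root (π (x + 1)) * c ^ (s ^ x))
                (∑ j ∈ T, root (π (j + 1)) * c ^ (s ^ j)) 1
              rw [pow_one] at h6
              rw [h6, mul_pow, hroot, ← pow_mul, pow_succ]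
          rw [h5]
          exact h2
        exact (pow_eq_zero_iff (by omega)).1 h4)
      rw [hcardB] at h1
      have h3 : s ^ (a - 1) < s ^ a := Nat.pow_lt_pow_right hs (by omega)
      omega
  refine ⟨fun j => π j / π a, div_self hπa, div_ne_zero hπ0 hπa, fun c => ?_⟩
  rw [← hiff c]
  have h1 : ∑ j ∈ Finset.range (a + 1), π j / π a * c ^ (s ^ j) =
      (∑ j ∈ Finset.range (a + 1), π j * c ^ (s ^ j)) / π a := by
    rw [Finset.sum_div]
    refine Finset.sum_congr rfl fun j _ => ?_
    ring
  rw [h1, div_eq_zero_iff]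
  simp [hπa]

end Pool.Agent.AIC
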