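import Pool.Agent.AIC.Defs

/-!
The polynomial `Y^(q^2) + f Y^q + Y` is monic of degree `q^2` and separable (its derivative is `1`).

PROOF. `q = p ^ n` with `n ≥ 1`, so `derivative (X^(q^2) + C f * X^q + X) = 1` in characteristic `p`, and the polynomial is
coprime to its derivative. The roots in a splitting field: the `aroots` multiset has no duplicates and has
`natDegree = q^2` elements; `r` is a root iff `Rt q (algebraMap K L f) r`.
-/

set_option autoImplicit false

namespace Pool.Agent.AIC

open Polynomial

/-- Differences of roots are roots. -/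
theorem rt_sub {L : Type*} [Field L] {p n : ℕ} [Fact p.Prime] [CharP L p] {f v w : L}
    (hv : Rt (p ^ n) f v) (hw : Rt (p ^ n) f w) : Rt (p ^ n) f (v - w) := by
  unfold Rt at *
  rw [pow_two, pow_mul] at *
  rw [sub_pow_char_pow, sub_pow_char_pow]
  linear_combination hv - hw

section

variable {K : Type*} [Field K] {p n : ℕ} [Fact p.Prime] [CharP K p] (hn : 0 < n)

include hn

private theorem q_gt : 1 < p ^ n := Nat.one_lt_pow (by omega) (Fact.out : p.Prime).one_lt

private theorem deg_lt (f : K) : (C f * X ^ (p ^ n) + X : K[X]).natDegree < (p ^ n) ^ 2 := by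
  have h1 := q_gt (p := p) hn
  refine lt_of_le_of_lt (natDegree_add_le_of_degree_le (n := p ^ n) (natDegree_C_mul_X_pow_le _ _) ?_) ?_
  · rw [natDegree_X]
    omega
  · nlinarith

theorem EP_monic (f : K) : (EP (p ^ n) f).Monic := by
  unfold EP
  rw [add_assoc]
  refine monic_X_pow_add ?_
  exact lt_of_le_of_lt degree_le_natDegree (by exact_mod_cast deg_lt hn f)

theorem EP_natDegree (f : K) : (EP (p ^ n) f).natDegree = (p ^ n) ^ 2 := by
  unfold EP
  rw [add_assoc, natDegree_add_eq_left_of_natDegree_lt, natDegree_X_pow]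
  rw [natDegree_X_pow]
  exact deg_lt hn f

theorem EP_separable (f : K) : (EP (p ^ n) f).Separable := by
  unfold Separable
  have h0 : ((p ^ n : ℕ) : K) = 0 := by
    push_cast
    rw [CharP.cast_eq_zero, zero_pow (by omega)]
  have h : derivative (EP (p ^ n) f) = 1 := by
    unfold EP
    rw [derivative_add, derivative_add, derivative_X_pow, derivative_C_mul, derivative_X_pow, derivative_X]
    have h1 : (((p ^ n) ^ 2 : ℕ) : K) = 0 := by
      rw [Nat.cast_pow, h0]
      norm_num
    rw [h1, h0]
    simp
  rw [h]
  exact isCoprime_one_right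

theorem exists_roots {L : Type*} [Field L] [Algebra K L] (f : K)
    [(EP (p ^ n) f).IsSplittingField K L] :
    ∃ s : Finset L, s.card = (p ^ n) ^ 2 ∧
      ∀ r, r ∈ s ↔ Rt (p ^ n) (algebraMap K L f) r := by
  classical
  refine ⟨((EP (p ^ n) f).rootSet L).toFinset, ?_, fun r => ?_⟩
  · rw [Set.toFinset_card, card_rootSet_eq_natDegree (EP_separable hn f)
      (IsSplittingField.splits L (EP (p ^ n) f)), EP_natDegree hn f]
  · rw [Set.mem_toFinset, mem_rootSet]
    have h0 : EP (p ^ n) f ≠ 0 := (EP_monic hn f).ne_zero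
    simp only [ne_eq, h0, not_false_eq_true, true_and]
    unfold EP Rt
    simp

end

end Pool.Agent.AIC
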