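import Pool.Agent.AIC.EtIff
import Pool.Agent.AIC.Sep

/-!
The splitting field of `Y^(q^2) + f(x) Y^q + Y` is etale over `k[x]`.

PROOF. Use `EtIff.et_iff` with `K = RatFunc k`, `z₀ = RatFunc.X` (transcendental over `k`, and it generates `RatFunc k`
over `k`: `RatFunc.IntermediateField.adjoin_X` or similar). Let `P` be a maximal ideal of `B = integralClosure k[x] L` and
`g` inertial at `P`. Every root `r ∈ L` of `E = Y^(q^2) + f(x) Y^q + Y` is integral over `k[x]`, so in `B`, and if `r ≠ 0`
then `r * (r^(q^2 - 2) + f(x) r^(q-2)) = -1` (`q ≥ 2`), so `r` is a unit of `B`, `r ∉ P`. For a root `v` of `E`, `g v` is again a root, and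
`g v - v` is a root (`Sep.rt_sub`), in
`L`), and `g v - v ∈ P`; so `g v - v = 0`. As `L` is generated over `K` by the roots (`IsSplittingField.adjoin_rootSet`), `g = 1`.
-/

set_option autoImplicit false

namespace Pool.Agent.AIC

open IntermediateField Polynomial

theorem etale_EP (p n : ℕ) [Fact p.Prime] (hn : 0 < n) (k : Type) [Field k] [IsAlgClosed k]
    [CharP k p] (f : k[X]) (L : Type) [Field L] [Algebra k L] [Algebra (RatFunc k) L]
    [IsScalarTower k (RatFunc k) L] [FiniteDimensional (RatFunc k) L] [IsGalois (RatFunc k) L]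
    [(EP (p ^ n) (algebraMap k[X] (RatFunc k) f)).IsSplittingField (RatFunc k) L] :
    Algebra.Etale ↥(Algebra.adjoin k {algebraMap (RatFunc k) L RatFunc.X})
      ↥(integralClosure ↥(Algebra.adjoin k {algebraMap (RatFunc k) L RatFunc.X}) L) := by
  generalize hz : algebraMap (RatFunc k) L RatFunc.X = z
  rw [et_iff (RatFunc.X : RatFunc k) RatFunc.transcendental_X RatFunc.adjoin_X z hz]
  intro P hP g hg
  have hq2 : 2 ≤ p ^ n := Nat.one_lt_pow (by omega) (Fact.out : p.Prime).one_lt
  have hcK : CharP (RatFunc k) p :=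
    charP_of_injective_algebraMap (algebraMap k (RatFunc k)).injective p
  have hcL : CharP L p := charP_of_injective_algebraMap (algebraMap k L).injective p
  set F : L := algebraMap (RatFunc k) L (algebraMap k[X] (RatFunc k) f) with hF
  have hFz : F = aeval z f := by
    rw [hF, ← hz, ← RatFunc.algebraMap_X]
    have h1 : algebraMap k[X] (RatFunc k) f =
        aeval (algebraMap k[X] (RatFunc k) X) f := by
      rw [aeval_algebraMap_apply, aeval_X_left_apply]
    rw [h1, ← aeval_algebraMap_apply]
  have hFA : F ∈ Algebra.adjoin k {z} := by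
    rw [hFz]
    exact aeval_mem_adjoin_singleton k z
  -- roots are integral
  have hint : ∀ r : L, Rt (p ^ n) F r → r ∈ integralClosure (Algebra.adjoin k {z}) L := by
    intro r hr
    refine ⟨X ^ ((p ^ n) ^ 2) + (C (⟨F, hFA⟩ : Algebra.adjoin k {z}) * X ^ (p ^ n) + X), ?_, ?_⟩
    · refine monic_X_pow_add ?_
      refine lt_of_le_of_lt (degree_add_le _ _) (max_lt ?_ ?_)
      · refine lt_of_le_of_lt (degree_C_mul_X_pow_le _ _) ?_
        exact_mod_cast (by nlinarith : p ^ n < (p ^ n) ^ 2)
      · refine lt_of_le_of_lt degree_X_le ?_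
        exact_mod_cast (by nlinarith : 1 < (p ^ n) ^ 2)
    · simp only [eval₂_add, eval₂_mul, eval₂_pow, eval₂_X, eval₂_C]
      unfold Rt at hr
      rw [← add_assoc]
      exact hr
  -- `g` fixes the roots
  have hfix : ∀ r : L, Rt (p ^ n) F r → g r = r := by
    intro r hr
    have hgr : Rt (p ^ n) F (g r) := by
      unfold Rt at hr ⊢
      have hgF : g F = F := by rw [hF]; exact g.commutes _
      have := congrArg g hr
      rw [map_add, map_add, map_mul, map_pow, map_pow, map_zero, hgF] at this
      exact this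
    obtain ⟨c, hc, hcr⟩ := hg ⟨r, hint r hr⟩
    have hcR : Rt (p ^ n) F (c : L) := by
      rw [hcr]
      exact rt_sub hgr hr
    by_contra hne
    have hc0 : (c : L) ≠ 0 := by
      rw [hcr]
      exact sub_ne_zero.2 hne
    have h1 : (c : L) ^ ((p ^ n) ^ 2 - 1) + F * (c : L) ^ (p ^ n - 1) + 1 = 0 := by
      have h2 : (c : L) * ((c : L) ^ ((p ^ n) ^ 2 - 1) + F * (c : L) ^ (p ^ n - 1) + 1) = 0 := by
        have h3 : (c : L) * (c : L) ^ ((p ^ n) ^ 2 - 1) = (c : L) ^ ((p ^ n) ^ 2) := by
          rw [mul_comm, pow_sub_one_mul (by positivity)]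
        have h4 : (c : L) * (c : L) ^ (p ^ n - 1) = (c : L) ^ (p ^ n) := by
          rw [mul_comm, pow_sub_one_mul (by positivity)]
        unfold Rt at hcR
        linear_combination hcR + h3 + F * h4
      exact (mul_eq_zero.1 h2).resolve_left hc0
    have h5 : (1 : integralClosure (Algebra.adjoin k {z}) L) ∈ P := by
      have h6 : (1 : integralClosure (Algebra.adjoin k {z}) L) =
          -(c ^ ((p ^ n) ^ 2 - 1) + algebraMap (Algebra.adjoin k {z}) _ ⟨F, hFA⟩ *
            c ^ (p ^ n - 1)) := by
        apply Subtype.ext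
        change (1 : L) = -((c : L) ^ ((p ^ n) ^ 2 - 1) + F * (c : L) ^ (p ^ n - 1))
        linear_combination h1
      rw [h6]
      refine P.neg_mem (P.add_mem (P.pow_mem_of_mem hc _ ?_)
        (P.mul_mem_left _ (P.pow_mem_of_mem hc _ ?_)))
      · have : 4 ≤ (p ^ n) ^ 2 := by nlinarith
        omega
      · omega
    exact hP.ne_top (P.eq_top_of_isUnit_mem h5 isUnit_one)
  have h8 : (g : L →ₐ[RatFunc k] L) = AlgHom.id (RatFunc k) L := by
    refine AlgHom.ext_of_adjoin_eq_top (IsSplittingField.adjoin_rootSet L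
      (EP (p ^ n) (algebraMap k[X] (RatFunc k) f))) ?_
    intro r hr
    have hr1 : Rt (p ^ n) F r := by
      have := (mem_rootSet.1 hr).2
      unfold EP at this
      simpa [Rt, hF] using this
    exact hfix r hr1
  ext y
  exact congrArg (fun φ : L →ₐ[RatFunc k] L => φ y) h8

end Pool.Agent.AIC
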