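import Pool.Agent.AIC.GTop

/-!
A subgroup containing all upper unipotent matrices and one unipotent matrix fixing another line is everything.

PROOF. Let `g = (x y; z u)`, `z ≠ 0`. Then `g * up a * g⁻¹ = (1 - x z a, x^2 a; - z^2 a, 1 + x z a)`, and
`up (-(x/z)) * (g * up a * g⁻¹) * up (x/z) = (1 0; c 1) =: low c` with `c = - z^2 a ≠ 0`. So `low c ∈ H`. Then
`v = up (-1/c) * low c * up (-1/c) = (0, -1/c; c, 0) ∈ H` and `v * up b * v⁻¹ = low (- c^2 b)`, so `H` contains all lower unipotent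
matrices as well. By the explicit decomposition in `GTop` (`M = up ((a - 1) / c) * low c * up ((d - 1) / c)` if `c ≠ 0`; `M = (M * low 1) * low (-1)`
if `c = 0`) `H = ⊤`.
-/

set_option autoImplicit false

namespace Pool.Agent.AIC

open Matrix
open scoped MatrixGroups

private def lw {F : Type*} [Field F] (c : F) : SL(2, F) :=
  ⟨!![1, 0; c, 1], by simp [det_fin_two]⟩

private theorem lw_val {F : Type*} [Field F] (c : F) :
    (lw c : Matrix (Fin 2) (Fin 2) F) = !![1, 0; c, 1] := rfl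

private def vv {F : Type*} [Field F] (c : F) (hc : c ≠ 0) : SL(2, F) :=
  ⟨!![0, -c⁻¹; c, 0], by simp [det_fin_two, hc]⟩

private theorem vv_val {F : Type*} [Field F] (c : F) (hc : c ≠ 0) :
    ((vv c hc : SL(2, F)) : Matrix (Fin 2) (Fin 2) F) = !![0, -c⁻¹; c, 0] := rfl

private theorem vv_eq {F : Type*} [Field F] (c : F) (hc : c ≠ 0) :
    vv c hc = up (-c⁻¹) * lw c * up (-c⁻¹) := by
  ext i j
  rw [Matrix.SpecialLinearGroup.coe_mul, Matrix.SpecialLinearGroup.coe_mul, lw_val, vv_val, up_val]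
  fin_cases i <;> fin_cases j <;> simp [Matrix.mul_apply, Fin.sum_univ_two, hc]

private theorem lw_eq {F : Type*} [Field F] (c : F) (hc : c ≠ 0) (e : F) :
    lw e = vv c hc * up (-(e / c ^ 2)) * (vv c hc)⁻¹ := by
  rw [eq_mul_inv_iff_mul_eq]
  ext i j
  rw [Matrix.SpecialLinearGroup.coe_mul, Matrix.SpecialLinearGroup.coe_mul, lw_val, vv_val, up_val]
  fin_cases i <;> fin_cases j <;> simp [Matrix.mul_apply, Fin.sum_univ_two]
  field_simp

private theorem low_conj {F : Type*} [Field F] (g : SL(2, F)) (hg : g 1 0 ≠ 0) (a : F) :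
    lw (-(g 1 0 ^ 2 * a)) =
      up (-(g 0 0 / g 1 0)) * (g * up a * g⁻¹) * (up (-(g 0 0 / g 1 0)))⁻¹ := by
  have hdet := g.det_coe
  rw [Matrix.det_fin_two] at hdet
  rw [eq_mul_inv_iff_mul_eq, ← mul_assoc, eq_mul_inv_iff_mul_eq]
  ext i j
  simp only [Matrix.SpecialLinearGroup.coe_mul, lw_val, up_val]
  fin_cases i <;> fin_cases j <;> simp [Matrix.mul_apply, Fin.sum_univ_two]
  · field_simp
    ring
  · field_simp
    ring
  · field_simp
    linear_combination (g 1 0 * a) * hdet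

private theorem fact {F : Type*} [Field F] (M : SL(2, F)) (hc : M 1 0 ≠ 0) :
    M = up ((M 0 0 - 1) / M 1 0) * lw (M 1 0) * up ((M 1 1 - 1) / M 1 0) := by
  have hdet := M.det_coe
  rw [Matrix.det_fin_two] at hdet
  ext i j
  rw [Matrix.SpecialLinearGroup.coe_mul, Matrix.SpecialLinearGroup.coe_mul, lw_val, up_val, up_val]
  fin_cases i <;> fin_cases j <;> simp [Matrix.mul_apply, Fin.sum_univ_two]
  · field_simp
    ring
  · field_simp
    linear_combination -hdet
  · field_simp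
    ring

theorem top_of_full_line {F : Type*} [Field F] (H : Subgroup SL(2, F)) (h : ∀ a : F, up a ∈ H)
    (g : SL(2, F)) (hg : g 1 0 ≠ 0) (a : F) (ha : a ≠ 0) (hga : g * up a * g⁻¹ ∈ H) : H = ⊤ := by
  have hc : -(g 1 0 ^ 2 * a) ≠ 0 := neg_ne_zero.2 (mul_ne_zero (pow_ne_zero _ hg) ha)
  have h1 : lw (-(g 1 0 ^ 2 * a)) ∈ H := by
    rw [low_conj g hg a]
    exact H.mul_mem (H.mul_mem (h _) hga) (H.inv_mem (h _))
  have h2 : vv _ hc ∈ H := by
    rw [vv_eq]
    exact H.mul_mem (H.mul_mem (h _) h1) (h _)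
  have hlw : ∀ c : F, lw c ∈ H := by
    intro e
    rw [lw_eq _ hc e]
    exact H.mul_mem (H.mul_mem h2 (h _)) (H.inv_mem h2)
  have key : ∀ M : SL(2, F), M 1 0 ≠ 0 → M ∈ H := by
    intro M hM
    rw [fact M hM]
    exact H.mul_mem (H.mul_mem (h _) (hlw _)) (h _)
  rw [eq_top_iff]
  intro M _
  by_cases hM : M 1 0 = 0
  · have hdet := M.det_coe
    rw [Matrix.det_fin_two, hM, mul_zero, sub_zero] at hdet
    have hd : M 1 1 ≠ 0 := by
      intro h0
      rw [h0, mul_zero] at hdet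
      exact zero_ne_one hdet
    have h1 : (M * lw 1 : SL(2, F)) 1 0 ≠ 0 := by
      have : (M * lw 1 : SL(2, F)) 1 0 = M 1 1 := by
        rw [Matrix.SpecialLinearGroup.coe_mul, lw_val]
        simp [Matrix.mul_apply, Fin.sum_univ_two, hM]
      rw [this]
      exact hd
    have h2 := H.mul_mem (key _ h1) (H.inv_mem (hlw 1))
    rwa [mul_inv_cancel_right] at h2
  · exact key M hM

end Pool.Agent.AIC
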