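import Pool.Agent.AIC.GFix

/-!
The unipotent parts of the line stabilizers are Sylow subgroups, so they have the same order.

PROOF. Let `P_g = {M ∈ H | ∃ a, M = g * up a * g⁻¹}`, a `p`-subgroup of `H` with `card P_g = card {a | g * up a * g⁻¹ ∈ H}`. CLAIM: `P_g` is a
Sylow `p`-subgroup of `H`. Let `P ≥ P_g` be a `p`-subgroup of `H`. By `GFix.exists_conj_up` there is `g₁` such that every element of `P` is
`g₁ * up b * g₁⁻¹`. Take the given `a ≠ 0` : `g * up a * g⁻¹ = g₁ * up b * g₁⁻¹`, `b ≠ 0`. With `k = g₁⁻¹ * g`: `k * up a = up b * k`,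
which gives `k 1 0 = 0` (compare the entries `(1,1)`: `k 1 0 * a + k 1 1 = k 1 1`). So `k * up c * k⁻¹ = up ((k 0 0)^2 c)`, hence
`g₁ U g₁⁻¹ = g U g⁻¹` and `P ≤ P_g`. Two Sylow subgroups have the same order (`Sylow.card_eq`, or
`Sylow.card_eq_multiplicity`).
-/

set_option autoImplicit false

namespace Pool.Agent.AIC

open Matrix
open scoped MatrixGroups

section line

variable (p : ℕ) [Fact p.Prime] {F : Type*} [Field F]

/-- The group of the elements `g * up a * g⁻¹` of `H`. -/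
def lineGrp (H : Subgroup SL(2, F)) (g : SL(2, F)) : Subgroup H where
  carrier := {M | ∃ a : F, (M : SL(2, F)) = g * up a * g⁻¹}
  mul_mem' := by
    rintro x y ⟨a, ha⟩ ⟨b, hb⟩
    refine ⟨a + b, ?_⟩
    rw [Subgroup.coe_mul, ha, hb, ← up_mul]
    group
  one_mem' := ⟨0, by rw [up_zero]; simp⟩
  inv_mem' := by
    rintro x ⟨a, ha⟩
    refine ⟨-a, ?_⟩
    rw [Subgroup.coe_inv, ha, ← up_inv]
    group

theorem card_lineGrp (H : Subgroup SL(2, F)) (g : SL(2, F)) :
    Nat.card {a : F // g * up a * g⁻¹ ∈ H} = Nat.card (lineGrp H g) := by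
  apply Nat.card_eq_of_bijective
    (fun a : {a : F // g * up a * g⁻¹ ∈ H} =>
      (⟨⟨g * up a.1 * g⁻¹, a.2⟩, ⟨a.1, rfl⟩⟩ : lineGrp H g))
  constructor
  · intro a b h
    have h1 : g * up a.1 * g⁻¹ = g * up b.1 * g⁻¹ := by
      have := congrArg (fun x : lineGrp H g => ((x : H) : SL(2, F))) h
      exact this
    have h2 : up a.1 = up b.1 := by
      have := mul_right_cancel h1
      exact mul_left_cancel this
    exact Subtype.ext (up_injective h2)
  · rintro ⟨⟨M, hM⟩, ⟨a, ha⟩⟩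
    have ha' : M = g * up a * g⁻¹ := ha
    subst ha'
    exact ⟨⟨a, hM⟩, rfl⟩

theorem isPGroup_lineGrp [CharP F p] (H : Subgroup SL(2, F)) (g : SL(2, F)) :
    IsPGroup p (lineGrp H g) := by
  rintro ⟨⟨M, hM⟩, ⟨a, ha⟩⟩
  have ha' : M = g * up a * g⁻¹ := ha
  subst ha'
  refine ⟨1, ?_⟩
  apply Subtype.ext
  apply Subtype.ext
  show (g * up a * g⁻¹) ^ (p ^ 1) = 1
  rw [pow_one, conj_pow, up_pow, CharP.cast_eq_zero, zero_mul, up_zero, mul_one, mul_inv_cancel]

theorem card_line_eq [Finite F] [CharP F p] (H : Subgroup SL(2, F)) (g : SL(2, F))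
    (h : ∃ a : F, a ≠ 0 ∧ g * up a * g⁻¹ ∈ H) :
    Nat.card {a : F // g * up a * g⁻¹ ∈ H} = p ^ (Nat.card H).factorization p := by
  obtain ⟨a, ha0, haH⟩ := h
  rw [card_lineGrp]
  obtain ⟨Q, hQ⟩ := (isPGroup_lineGrp p H g).exists_le_sylow
  have hQ' : IsPGroup p ((Q : Subgroup H).map H.subtype) := Q.isPGroup'.map _
  obtain ⟨g₁, hg₁⟩ := exists_conj_up p _ hQ'
  -- the element `a`
  have hmem : g * up a * g⁻¹ ∈ (Q : Subgroup H).map H.subtype :=
    ⟨⟨g * up a * g⁻¹, haH⟩, hQ ⟨a, rfl⟩, rfl⟩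
  obtain ⟨b₀, hb₀⟩ := hg₁ _ hmem
  set k := g₁⁻¹ * g with hk
  have hk1 : k * up a = up b₀ * k := by
    rw [← hb₀, hk]
    group
  have hk10 : k 1 0 = 0 := by
    have e1 : (k * up a) 1 1 = k 1 0 * a + k 1 1 := by
      rw [mul_entry, up_val]
      simp
    have e2 : (up b₀ * k) 1 1 = k 1 1 := by
      rw [mul_entry, up_val]
      simp
    rw [hk1, e2] at e1
    have e3 : k 1 0 * a = 0 := by linear_combination -e1
    exact (mul_eq_zero.1 e3).resolve_right ha0
  have hle : (Q : Subgroup H) ≤ lineGrp H g := by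
    rintro ⟨M, hM⟩ hMQ
    obtain ⟨b, hb⟩ := hg₁ M ⟨⟨M, hM⟩, hMQ, rfl⟩
    have hup : k⁻¹ * (up b * k) = up ((k⁻¹ * (up b * k)) 0 1) := by
      have f0 : (up b * k) 0 0 = k 0 0 := by
        rw [mul_entry, up_val, hk10]
        simp
      have f1 : (up b * k) 1 0 = 0 := by
        rw [mul_entry, up_val, hk10]
        simp
      refine eq_up _ ?_ ?_
      · rw [inv_mul_10, f0, f1, hk10]
        ring
      · rw [inv_mul_00, f0, f1]
        have hd := det_eq k
        rw [hk10] at hd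
        linear_combination hd
    refine ⟨(k⁻¹ * (up b * k)) 0 1, ?_⟩
    rw [← hup, hk, ← hb]
    show M = _
    group
  have heq : (Q : Subgroup H) = lineGrp H g := le_antisymm hle hQ
  rw [← heq]
  exact Q.card_eq_multiplicity

end line

theorem card_line_const (p : ℕ) [Fact p.Prime] {F : Type*} [Field F] [Finite F] [CharP F p]
    (H : Subgroup SL(2, F)) (g g' : SL(2, F)) (h : ∃ a : F, a ≠ 0 ∧ g * up a * g⁻¹ ∈ H)
    (h' : ∃ a : F, a ≠ 0 ∧ g' * up a * g'⁻¹ ∈ H) :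
    Nat.card {a : F // g * up a * g⁻¹ ∈ H} = Nat.card {a : F // g' * up a * g'⁻¹ ∈ H} := by
  rw [card_line_eq p H g h, card_line_eq p H g' h']

end Pool.Agent.AIC
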