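import Pool.Agent.AIC.Defs

/-!
Eigenvalues of elements of `H`.

PROOF. `η` is a root of `T^2 - (tr M) T + 1 = det (T - M)`, so `M x = η x` for some vector `x ≠ 0`; choose `g ∈ SL(2, F)` with first
column `x` (`g = (x₀ 0; x₁ x₀⁻¹)` if `x₀ ≠ 0`, `g = (0 -x₁⁻¹; x₁ 0)` otherwise). Then `g⁻¹ M g` has first column `(η, 0)`.
-/

set_option autoImplicit false

namespace Pool.Agent.AIC

open Matrix
open scoped MatrixGroups

private theorem eig_col {F : Type*} [Field F] (g M : SL(2, F)) (η : F)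
    (h : ∀ i, (M * g) i 0 = η * g i 0) (i : Fin 2) :
    (g⁻¹ * M * g) i 0 = η * (1 : Matrix (Fin 2) (Fin 2) F) i 0 := by
  have h1 : (g⁻¹ * M * g) i 0 = (g⁻¹ * (M * g)) i 0 := by rw [mul_assoc]
  have h2 : (g⁻¹ * (M * g)) i 0 = g⁻¹ i 0 * (M * g) 0 0 + g⁻¹ i 1 * (M * g) 1 0 := by
    rw [Matrix.SpecialLinearGroup.coe_mul (g⁻¹) (M * g), Matrix.mul_apply, Fin.sum_univ_two]
  have h3 : (g⁻¹ * g) i 0 = g⁻¹ i 0 * g 0 0 + g⁻¹ i 1 * g 1 0 := by
    rw [Matrix.SpecialLinearGroup.coe_mul (g⁻¹) g, Matrix.mul_apply, Fin.sum_univ_two]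
  rw [inv_mul_cancel, Matrix.SpecialLinearGroup.coe_one] at h3
  rw [h1, h2, h 0, h 1, h3]
  ring

theorem eig_pow {F : Type*} [Field F] (H : Subgroup SL(2, F)) (N : ℕ)
    (h : ∀ g : SL(2, F), ∀ M ∈ H, (g⁻¹ * M * g) 1 0 = 0 → ((g⁻¹ * M * g) 0 0) ^ N = 1)
    (M : SL(2, F)) (hM : M ∈ H) (η : F) (hη : η ≠ 0) (htr : M 0 0 + M 1 1 = η + η⁻¹) :
    η ^ N = 1 := by
  have hdet : M 0 0 * M 1 1 - M 0 1 * M 1 0 = 1 := by
    have := M.det_coe
    rwa [det_fin_two] at this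
  -- it suffices to find `g`
  suffices hg : ∃ g : SL(2, F), ∀ i, (M * g) i 0 = η * g i 0 by
    obtain ⟨g, hg⟩ := hg
    have h0 := eig_col g M η hg 0
    have h1 := eig_col g M η hg 1
    have h2 := h g M hM (by rw [h1]; simp)
    rw [h0] at h2
    simpa using h2
  have hroot : (M 0 0 - η) * (M 1 1 - η) - M 0 1 * M 1 0 = 0 := by
    have h1 : η * η⁻¹ = 1 := mul_inv_cancel₀ hη
    linear_combination hdet - η * htr - h1
  have hsing : (!![M 0 0 - η, M 0 1; M 1 0, M 1 1 - η] : Matrix (Fin 2) (Fin 2) F).det = 0 := by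
    rw [det_fin_two_of]; exact hroot
  obtain ⟨x, hx, hx0⟩ := Matrix.exists_mulVec_eq_zero_iff.2 hsing
  have e0 : (M 0 0 - η) * x 0 + M 0 1 * x 1 = 0 := by
    have := congrFun hx0 0
    simpa [Matrix.mulVec, dotProduct, Fin.sum_univ_two] using this
  have e1 : M 1 0 * x 0 + (M 1 1 - η) * x 1 = 0 := by
    have := congrFun hx0 1
    simpa [Matrix.mulVec, dotProduct, Fin.sum_univ_two] using this
  by_cases h0 : x 0 = 0
  · have h1 : x 1 ≠ 0 := by
      intro h1
      apply hx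
      funext i
      fin_cases i
      · exact h0
      · exact h1
    refine ⟨⟨!![0, -(x 1)⁻¹; x 1, 0], ?_⟩, ?_⟩
    · rw [det_fin_two_of]
      field_simp
      ring
    · intro i
      rw [Matrix.SpecialLinearGroup.coe_mul, Matrix.mul_apply, Fin.sum_univ_two]
      fin_cases i
      · show M 0 0 * 0 + M 0 1 * x 1 = η * 0
        rw [h0] at e0
        linear_combination e0
      · show M 1 0 * 0 + M 1 1 * x 1 = η * x 1
        rw [h0] at e1
        linear_combination e1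
  · refine ⟨⟨!![x 0, 0; x 1, (x 0)⁻¹], ?_⟩, ?_⟩
    · rw [det_fin_two_of]
      field_simp
      ring
    · intro i
      rw [Matrix.SpecialLinearGroup.coe_mul, Matrix.mul_apply, Fin.sum_univ_two]
      fin_cases i
      · show M 0 0 * x 0 + M 0 1 * x 1 = η * x 0
        linear_combination e0
      · show M 1 0 * x 0 + M 1 1 * x 1 = η * x 1
        linear_combination e1

end Pool.Agent.AIC
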