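import Pool.Agent.AIC.Defs

/-!
The field theoretic contradiction, case `l ≥ 4`.

PROOF. `D = card S` (odd, `≥ 3`), `χ = quadraticChar F`. `A`, `C` are `S`-subspaces of `F` of codimension `1`.
Let `E = {x | ∃ η ≠ 0, 2 + x = η + η⁻¹ ∧ η ^ (2 (D-1)) = 1}`, `card E ≤ 2 (D - 1)`; if `D = 3` then `η^4 = 1`, `η = ±1` or `η^2 = -1`, so
`x ∈ {0, -4, -2} = {0, -1, 1}`.
(a) If `x = a c` with `a ∈ A`, `c ∈ C` and `x ∉ E` then `χ x * χ (x + 1) = -1`. Indeed the discriminant of `T^2 - (2 + x) T + 1` is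
`x^2 + 4 x = x (x + 1)`; if it were a square `y^2` then `η = ((2 + x) + y) / 2` is a root, `η ≠ 0`, `η + η⁻¹ = 2 + x`, so by `hK` `x ∈ E`. And
`x (x + 1) ≠ 0` is a non-square.
(b) For `x ∈ A C` (same meaning), `-x = (-a) c`; if `-x ∉ E` then `χ (-x) χ (-x + 1) = -1`, i.e. `χ x * χ (x - 1) = -1` (`χ (-1)^2 = 1`).
(c) Suppose `x ∈ A C` and `x + 1 ∈ A C`, `x ∉ E`, `-x ∉ E`, `x + 1 ∉ E`. Then `χ x χ (x+1) = -1`, `χ (x+1) χ (x+2) = -1`, so
`χ x = χ (x + 2) = χ (x - 1)` (characteristic `3`), and `χ x χ (x-1) = (χ x)^2 = 1`, contradicting (b).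
(d) Existence of such `x`: `dim_S A = l - 1 ≥ 3`, so there are `a, a' ∈ A`, `a ≠ 0`, `a' ∉ S a`. Then `a C ≠ a' C` (otherwise
`(a'/a) C ⊆ C`, so `a'/a ∈ S` by `hC`). So `a C + a' C = F`, `card (a C ∩ a' C) = card C * card C / card F = q / D^2 = D^(l-2)`. Choose
`u ∈ a C`, `u' ∈ a' C` with `u' - u = 1`; for `v ∈ a C ∩ a' C`, `x = u + v` satisfies `x ∈ a C`, `x + 1 = u' + v ∈ a' C`. That is `D^(l-2)` elements `x`.
At most `3 * card E` of them are excluded, `3 * 2 (D-1) < D^2 ≤ D^(l-2)` if `D ≥ 9`; if `D = 3` only the elements of `{0, 1, -1}` are excluded and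
`3 < 9 ≤ 3^(l-2)`. (`D` is a power of `3`.)
-/

set_option autoImplicit false

namespace Pool.Agent.AIC

open Matrix
open scoped MatrixGroups

/-- In characteristic `3`, a square root of `x (x + 1)` gives a root of `T + T⁻¹ = 2 + x`. -/
private theorem f4_sq {F : Type*} [Field F] [CharP F 3] (x y : F) (h : x * (x + 1) = y * y) :
    ∃ η : F, η ≠ 0 ∧ 2 + x = η + η⁻¹ := by
  have h3 : (3 : F) = 0 := by exact_mod_cast CharP.cast_eq_zero F 3
  have key : -(2 + x + y) * (2 + x - -(2 + x + y)) = 1 := by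
    linear_combination (-(3 + 3 * x + 2 * y + x ^ 2 + x * y)) * h3 + h
  have hne : -(2 + x + y) ≠ 0 := by
    intro h0
    rw [h0, zero_mul] at key
    exact zero_ne_one key
  refine ⟨-(2 + x + y), hne, ?_⟩
  have hinv : (-(2 + x + y))⁻¹ = 2 + x - -(2 + x + y) := by
    rw [inv_eq_iff_eq_inv]
    exact eq_inv_of_mul_eq_one_left key
  rw [hinv]
  ring

/-- The exceptional set of `field4`. -/
private def f4E (F : Type*) [Field F] (m : ℕ) : Set F :=
  {x | ∃ η : F, η ≠ 0 ∧ 2 + x = η + η⁻¹ ∧ η ^ m = 1}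

private theorem f4_card {F : Type*} [Field F] [Finite F] (m : ℕ) (hm : 0 < m) :
    (f4E F m).ncard ≤ m := by
  classical
  have h1 : f4E F m ⊆ (fun η : F => η + η⁻¹ - 2) '' (↑(Polynomial.nthRootsFinset m (1 : F)) : Set F) := by
    rintro x ⟨η, h0, h2, h3⟩
    refine ⟨η, ?_, ?_⟩
    · rw [Finset.mem_coe, Polynomial.mem_nthRootsFinset hm]
      exact h3
    · show η + η⁻¹ - 2 = x
      rw [← h2]
      ring
  calc (f4E F m).ncard ≤ ((fun η : F => η + η⁻¹ - 2) '' (↑(Polynomial.nthRootsFinset m (1 : F)) : Set F)).ncard :=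
        Set.ncard_le_ncard h1 (Set.toFinite _)
    _ ≤ (↑(Polynomial.nthRootsFinset m (1 : F)) : Set F).ncard := Set.ncard_image_le (Set.toFinite _)
    _ = (Polynomial.nthRootsFinset m (1 : F)).card := Set.ncard_coe_finset _
    _ ≤ m := Polynomial.card_nthRoots _ _ |>.trans' (Multiset.toFinset_card_le _)

private theorem f4_E4 {F : Type*} [Field F] [CharP F 3] : f4E F 4 ⊆ ({0, 1, -1} : Set F) := by
  have h3 : (3 : F) = 0 := by exact_mod_cast CharP.cast_eq_zero F 3
  rintro x ⟨η, h0, h2, h4⟩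
  have hf : (η ^ 2 - 1) * (η ^ 2 + 1) = 0 := by linear_combination h4
  rcases mul_eq_zero.1 hf with h | h
  · have hf2 : (η - 1) * (η + 1) = 0 := by linear_combination h
    rcases mul_eq_zero.1 hf2 with h | h
    · have : η = 1 := by linear_combination h
      subst this
      left
      rw [inv_one] at h2
      linear_combination h2
    · have : η = -1 := by linear_combination h
      subst this
      right; right
      rw [inv_neg, inv_one] at h2
      show x = -1
      linear_combination h2 - h3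
  · right; left
    have hinv : η⁻¹ = -η := by
      symm
      apply eq_inv_of_mul_eq_one_left
      linear_combination -h
    rw [hinv] at h2
    show x = 1
    linear_combination h2 - h3

/-- The core argument: no good `x` exists. -/
private theorem f4_good {F : Type*} [Field F] [Finite F] [CharP F 3] (m : ℕ) (A C : AddSubgroup F)
    (hK : ∀ a ∈ A, ∀ c ∈ C, ∀ η : F, η ≠ 0 → 2 + a * c = η + η⁻¹ → η ^ m = 1)
    (a a' c c' : F) (ha : a ∈ A) (ha' : a' ∈ A) (hc : c ∈ C) (hc' : c' ∈ C)
    (h1 : a * c + 1 = a' * c') (e1 : a * c ∉ f4E F m) (e2 : -(a * c) ∉ f4E F m)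
    (e3 : a * c + 1 ∉ f4E F m) : False := by
  classical
  have := Fintype.ofFinite F
  have h3 : (3 : F) = 0 := by exact_mod_cast CharP.cast_eq_zero F 3
  have key : ∀ a ∈ A, ∀ c ∈ C, a * c ∉ f4E F m →
      quadraticChar F (a * c * (a * c + 1)) = -1 := by
    intro a ha c hc he
    rw [quadraticChar_neg_one_iff_not_isSquare]
    rintro ⟨y, hy⟩
    obtain ⟨η, h0, h2⟩ := f4_sq (a * c) y hy
    exact he ⟨η, h0, h2, hK a ha c hc η h0 h2⟩
  have k1 := key a ha c hc e1
  have k2 := key a ha (-c) (C.neg_mem hc) (by rwa [mul_neg])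
  have k3 := key a' ha' c' hc' (by rwa [← h1])
  rw [← h1] at k3
  have hprod : a * c * (a * c + 1) * (a * -c * (a * -c + 1)) * ((a * c + 1) * (a * c + 1 + 1)) =
      (a * c * (a * c + 1) * (a * c - 1)) * (a * c * (a * c + 1) * (a * c - 1)) := by
    linear_combination ((a * c) ^ 2 * (a * c + 1) ^ 2 * (a * c - 1)) * h3
  have hχ := congrArg (quadraticChar F) hprod
  rw [map_mul, map_mul, k1, k2, k3, map_mul] at hχ
  nlinarith [mul_self_nonneg (quadraticChar F (a * c * (a * c + 1) * (a * c - 1)))]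

theorem field4 {F : Type*} [Field F] [Finite F] [CharP F 3] (S : Subfield F) (l : ℕ)
    (h4 : 4 ≤ l) (hq : Nat.card F = Nat.card S ^ l)
    (A C : AddSubgroup F) (hA : ∀ c : F, (∀ a ∈ A, c * a ∈ A) ↔ c ∈ S)
    (hC : ∀ c : F, (∀ a ∈ C, c * a ∈ C) ↔ c ∈ S)
    (hcA : Nat.card A * Nat.card S = Nat.card F) (hcC : Nat.card C * Nat.card S = Nat.card F)
    (hK : ∀ a ∈ A, ∀ c ∈ C, ∀ η : F, η ≠ 0 → 2 + a * c = η + η⁻¹ →
      η ^ (2 * (Nat.card S - 1)) = 1) : False := by
  classical
  have := Fintype.ofFinite F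
  have h3 : (3 : F) = 0 := by exact_mod_cast CharP.cast_eq_zero F 3
  -- the cardinality of `S` is a power of `3`
  have : Fintype S := Fintype.ofFinite S
  have hS3 : CharP S 3 := by
    refine ⟨fun n => ?_⟩
    rw [← CharP.cast_eq_zero_iff F 3 n, ← S.subtype.injective.eq_iff]
    simp
  obtain ⟨k, -, hk⟩ := FiniteField.card S 3
  have hDk : Nat.card S = 3 ^ (k : ℕ) := by rw [Nat.card_eq_fintype_card]; exact hk
  set D := Nat.card S with hD
  have hDpos : 0 < D := Nat.card_pos
  have hD3 : 3 ≤ D := by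
    rw [hDk]
    calc 3 = 3 ^ 1 := by norm_num
      _ ≤ 3 ^ (k : ℕ) := Nat.pow_le_pow_right (by norm_num) k.pos
  obtain ⟨l', rfl⟩ : ∃ l', l = l' + 4 := ⟨l - 4, by omega⟩
  have hcA' : Nat.card A = D ^ (l' + 3) := by
    have : Nat.card A * D = D ^ (l' + 3) * D := by rw [hcA, hq]; ring
    exact Nat.eq_of_mul_eq_mul_right hDpos this
  have hcC' : Nat.card C = D ^ (l' + 3) := by
    have : Nat.card C * D = D ^ (l' + 3) * D := by rw [hcC, hq]; ring
    exact Nat.eq_of_mul_eq_mul_right hDpos this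
  have hDA : D < D ^ (l' + 3) := by
    calc D = D ^ 1 := (pow_one D).symm
      _ < D ^ (l' + 3) := Nat.pow_lt_pow_right (by omega) (by omega)
  -- a nonzero element of `A`
  obtain ⟨a, haA, ha0⟩ : ∃ a ∈ A, a ≠ 0 := by
    by_contra hcon
    push Not at hcon
    have : A = ⊥ := by
      rw [AddSubgroup.eq_bot_iff_forall]
      exact hcon
    rw [this, AddSubgroup.card_bot] at hcA'
    omega
  -- an element of `A` outside `S a`
  obtain ⟨a', haA', ha'S⟩ : ∃ a' ∈ A, ∀ s ∈ S, a' ≠ s * a := by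
    by_contra hcon
    push Not at hcon
    have hsub : (A : Set F) ⊆ (fun s => s * a) '' (S : Set F) := by
      intro x hx
      obtain ⟨s, hs, h⟩ := hcon x hx
      exact ⟨s, hs, h.symm⟩
    have h1 : (A : Set F).ncard ≤ (S : Set F).ncard :=
      (Set.ncard_le_ncard hsub (Set.toFinite _)).trans (Set.ncard_image_le (Set.toFinite _))
    have h2 : (A : Set F).ncard = Nat.card A := rfl
    have h4 : (S : Set F).ncard = Nat.card S := rfl
    rw [h2, h4, hcA'] at h1
    omega
  have ha'0 : a' ≠ 0 := by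
    intro h
    exact ha'S 0 S.zero_mem (by rw [h, zero_mul])
  -- the two translates of `C`
  set P : AddSubgroup F := C.map (AddMonoidHom.mulLeft a) with hP
  set P' : AddSubgroup F := C.map (AddMonoidHom.mulLeft a') with hP'
  have hmemP : ∀ x : F, x ∈ P ↔ ∃ c ∈ C, a * c = x := by
    intro x
    rw [hP, AddSubgroup.mem_map]
    rfl
  have hmemP' : ∀ x : F, x ∈ P' ↔ ∃ c ∈ C, a' * c = x := by
    intro x
    rw [hP', AddSubgroup.mem_map]
    rfl
  have hcardmap : ∀ b : F, b ≠ 0 → Nat.card (C.map (AddMonoidHom.mulLeft b)) = Nat.card C := by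
    intro b hb
    refine (Nat.card_congr (C.equivMapOfInjective (AddMonoidHom.mulLeft b) ?_).toEquiv).symm
    intro x y hxy
    exact mul_left_cancel₀ hb hxy
  have hcP : Nat.card P = D ^ (l' + 3) := by rw [hP, hcardmap a ha0, hcC']
  have hcP' : Nat.card P' = D ^ (l' + 3) := by rw [hP', hcardmap a' ha'0, hcC']
  have hidx : ∀ Q : AddSubgroup F, Nat.card Q = D ^ (l' + 3) → Q.index = D := by
    intro Q hQ
    have h1 := Q.card_mul_index
    rw [hQ, hq, pow_succ D (l' + 3)] at h1
    exact Nat.eq_of_mul_eq_mul_left (by positivity) h1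
  -- a point of `P'` outside `P`
  obtain ⟨p', hp', hp'P⟩ : ∃ p' ∈ P', p' ∉ P := by
    by_contra hcon
    push Not at hcon
    have hin : a' / a ∈ S := by
      rw [← hC]
      intro c hc
      obtain ⟨c'', hc'', h⟩ := (hmemP _).1 (hcon (a' * c) ((hmemP' _).2 ⟨c, hc, rfl⟩))
      have : a' / a * c = c'' := by
        field_simp
        rw [← h]
      rw [this]
      exact hc''
    exact ha'S _ hin (by field_simp)
  have hSP : ∀ s ∈ S, ∀ x ∈ P, s * x ∈ P := by
    intro s hs x hx
    obtain ⟨c, hc, rfl⟩ := (hmemP _).1 hx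
    exact (hmemP _).2 ⟨s * c, (hC s).2 hs c hc, by ring⟩
  have hSP' : ∀ s ∈ S, ∀ x ∈ P', s * x ∈ P' := by
    intro s hs x hx
    obtain ⟨c, hc, rfl⟩ := (hmemP' _).1 hx
    exact (hmemP' _).2 ⟨s * c, (hC s).2 hs c hc, by ring⟩
  -- `P + S p' = F`
  have hbij : Function.Bijective (fun z : P × S => (z.1 : F) + (z.2 : F) * p') := by
    apply Function.Injective.bijective_of_nat_card_le
    · rintro ⟨⟨x, hx⟩, ⟨s, hs⟩⟩ ⟨⟨y, hy⟩, ⟨t, ht⟩⟩ hxy
      have hxy' : x + s * p' = y + t * p' := hxy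
      have hst : s = t := by
        by_contra hne
        apply hp'P
        have h1 : (s - t) * p' ∈ P := by
          have : (s - t) * p' = y - x := by linear_combination hxy'
          rw [this]
          exact P.sub_mem hy hx
        have h2 := hSP (s - t)⁻¹ (S.inv_mem (S.sub_mem hs ht)) _ h1
        rwa [← mul_assoc, inv_mul_cancel₀ (sub_ne_zero.2 hne), one_mul] at h2
      subst hst
      have hxy2 : x = y := by linear_combination hxy'
      subst hxy2
      rfl
    · rw [Nat.card_prod, hcP, hq, ← hD, ← pow_succ]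
  obtain ⟨⟨⟨p, hp⟩, ⟨s, hs⟩⟩, hps⟩ := hbij.2 1
  have hps' : p + s * p' = 1 := hps
  -- many candidates
  have hcap : D ^ 2 ≤ Nat.card (P ⊓ P' : AddSubgroup F) := by
    have h1 := (P ⊓ P').card_mul_index
    have h2 : (P ⊓ P').index ≤ D * D := by
      refine (AddSubgroup.index_inf_le).trans ?_
      rw [hidx P hcP, hidx P' hcP']
    rw [hq] at h1
    have h3 : D ^ (l' + 2) * (D * D) ≤ Nat.card (P ⊓ P' : AddSubgroup F) * (D * D) := by
      calc D ^ (l' + 2) * (D * D) = D ^ (l' + 4) := by ring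
        _ = Nat.card (P ⊓ P' : AddSubgroup F) * (P ⊓ P').index := h1.symm
        _ ≤ _ := Nat.mul_le_mul_left _ h2
    have h4 := Nat.le_of_mul_le_mul_right h3 (by positivity)
    exact (Nat.pow_le_pow_right hDpos (by omega)).trans h4
  set X : Set F := (fun v => -p + v) '' ((P ⊓ P' : AddSubgroup F) : Set F) with hX
  have hXc : X.ncard = Nat.card (P ⊓ P' : AddSubgroup F) := by
    rw [hX, Set.ncard_image_of_injective _ (add_right_injective (-p))]
    rfl
  set m := 2 * (D - 1) with hm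
  set B : Set F := f4E F m ∪ ((fun x => -x) '' f4E F m ∪ (fun x => x - 1) '' f4E F m) with hB
  have hBc : B.ncard < D ^ 2 := by
    by_cases hD3' : D = 3
    · have hm4 : m = 4 := by rw [hm, hD3']
      have hsub : B ⊆ ({0, 1, -1} : Set F) := by
        rw [hB, hm4]
        refine Set.union_subset f4_E4 (Set.union_subset ?_ ?_)
        · rintro _ ⟨x, hx, rfl⟩
          show -x ∈ ({0, 1, -1} : Set F)
          rcases f4_E4 hx with h | h | h
          · left; rw [h, neg_zero]
          · right; right; rw [h]; rfl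
          · right; left
            have h' : x = -1 := h
            rw [h', neg_neg]
        · rintro _ ⟨x, hx, rfl⟩
          show x - 1 ∈ ({0, 1, -1} : Set F)
          rcases f4_E4 hx with h | h | h
          · right; right
            rw [h]
            show (0 : F) - 1 = -1
            ring
          · left
            rw [h, sub_self]
          · right; left
            have h' : x = -1 := h
            rw [h']
            linear_combination -h3
      have h1 : B.ncard ≤ ({0, 1, -1} : Set F).ncard := Set.ncard_le_ncard hsub (Set.toFinite _)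
      have h2 : ({0, 1, -1} : Set F).ncard ≤ 3 := by
        refine (Set.ncard_insert_le _ _).trans ?_
        have := Set.ncard_insert_le (1 : F) {-1}
        rw [Set.ncard_singleton] at this
        omega
      rw [hD3']
      omega
    · have hk2 : 2 ≤ (k : ℕ) := by
        by_contra hcon
        have : (k : ℕ) = 1 := by have := k.pos; omega
        rw [this] at hDk
        exact hD3' hDk
      have hD9 : 9 ≤ D := by
        rw [hDk]
        calc 9 = 3 ^ 2 := by norm_num
          _ ≤ 3 ^ (k : ℕ) := Nat.pow_le_pow_right (by norm_num) hk2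
      have hE := f4_card (F := F) m (by omega)
      have h1 : B.ncard ≤ m + (m + m) := by
        rw [hB]
        refine (Set.ncard_union_le _ _).trans (Nat.add_le_add hE ?_)
        refine (Set.ncard_union_le _ _).trans (Nat.add_le_add ?_ ?_)
        · exact (Set.ncard_image_le (Set.toFinite _)).trans hE
        · exact (Set.ncard_image_le (Set.toFinite _)).trans hE
      have h2 : m + (m + m) < D ^ 2 := by
        rw [hm]
        obtain ⟨d, hd⟩ : ∃ d, D = d + 1 := ⟨D - 1, by omega⟩
        rw [hd, Nat.add_sub_cancel]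
        nlinarith
      omega
  obtain ⟨x, hxX, hxB⟩ := Set.exists_mem_notMem_of_ncard_lt_ncard
    (hBc.trans_le (hcap.trans hXc.ge)) (Set.toFinite _)
  obtain ⟨v, hv, hvx⟩ := hxX
  have hvx' : -p + v = x := hvx
  have hv' : v ∈ P ∧ v ∈ P' := hv
  have hxP : x ∈ P := by
    rw [← hvx']
    exact P.add_mem (P.neg_mem hp) hv'.1
  have hxP' : x + 1 ∈ P' := by
    have : x + 1 = s * p' + v := by rw [← hvx', ← hps']; ring
    rw [this]
    exact P'.add_mem (hSP' s hs p' hp') hv'.2
  obtain ⟨c, hc, hcx⟩ := (hmemP x).1 hxP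
  obtain ⟨c', hc', hcx'⟩ := (hmemP' _).1 hxP'
  refine f4_good m A C hK a a' c c' haA haA' hc hc' (by rw [hcx, hcx']) ?_ ?_ ?_
  · rw [hcx]
    exact fun h => hxB (Or.inl h)
  · rw [hcx]
    exact fun h => hxB (Or.inr (Or.inl ⟨-x, h, neg_neg x⟩))
  · rw [hcx]
    exact fun h => hxB (Or.inr (Or.inr ⟨x + 1, h, add_sub_cancel_right x 1⟩))

end Pool.Agent.AIC
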