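import Pool.Agent.AIC.Defs

/-!
The field theoretic contradiction, case `l = 2`.

PROOF. `D = card S ≥ 9` odd, `q = card F = D^2`, `χ = quadraticChar F`, `σ y = y^D` (an automorphism of `F` of order `2` with fixed field `S`). `A`, `C` have `D`
elements and are `S`-subspaces: `A = S a`, `C = S c`, `a, c ≠ 0`. Put `x₀ = a c`. Elements of `Sˣ` are squares in `F` (`e^((q-1)/2) = 1` since
`(q-1)/2 = (D-1) (D+1)/2`). Put `E = {x | ∃ η ≠ 0, 2 + x = η + η⁻¹ ∧ η ^ (2 (D-1)) = 1}`. As in `G3E` (a): for `e ∈ Sˣ`, `e x₀ = (e a) c`, so if `e x₀ ∉ E` then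
`χ (e x₀) χ (e x₀ + 1) = -1`, i.e. `χ (x₀) χ (x₀ + 1/e) = -1`.
CASE `x₀ ∈ S`: then for all `e ∈ Sˣ` with `e x₀ ≠ -1` both `χ`'s are `1`, so `y ∈ E` for all `y ∈ S`, `y ≠ 0, -1`. Let `y ∈ S`, `2 + y = η + η⁻¹`, `η^(2(D-1)) = 1`:
`σ η = η^D = ± η`. If `σ η = η` then `η ∈ S`. If `σ η = - η` then `2 + y = σ (2 + y) = -(2 + y)`, `y = -2`. So all `y ∈ S` except at most `3` are in the image
of `η ↦ η + η⁻¹ - 2` on `Sˣ`, where `η` and `η⁻¹` have the same image: the image has at most `(D - 1 - 2)/2 + 2 = (D+1)/2` elements. So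
`D - 3 ≤ (D+1)/2`, `D ≤ 7`. Contradiction. (Cruder: the polynomial `T^2 - (2+y) T + 1` is reducible over `S` for all but `3` values `y ∈ S`.)
CASE `x₀ ∉ S`: then `1, x₀` is an `S`-basis of `F`. `0 = ∑_{y ∈ Fˣ} χ y = ∑_{e ∈ Sˣ} χ e + ∑_{e ∈ Sˣ} ∑_{f ∈ S} χ (e (x₀ + f)) = (D - 1)(1 + ∑_{f ∈ S} χ (x₀ + f))`, so
`∑_{f ∈ S} χ (x₀ + f) = -1`. For `f ∈ Sˣ`: `χ (x₀ + f) = - χ x₀` unless `f⁻¹ x₀ ∈ E`. If `f⁻¹ x₀ ∈ E`, `2 + f⁻¹ x₀ = η + η⁻¹` with `σ η = ± η`; `σ η = η` would give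
`x₀ ∈ S`; so `σ η = - η`, `2 + f⁻¹ σ x₀ = -(2 + f⁻¹ x₀)`, `f = -(x₀ + σ x₀)/4`: at most one exceptional `f`. Hence
`|-1 - χ x₀ + (D - 1) χ x₀| ≤ 2`, i.e. `|(D - 2) χ x₀ - 1| ≤ 2` with `χ x₀ = ±1`, so `D - 2 ≤ 3`. Contradiction.
-/

set_option autoImplicit false

namespace Pool.Agent.AIC

open Matrix
open scoped MatrixGroups

theorem field2 {F : Type*} [Field F] [Finite F] [CharP F 3] (S : Subfield F)
    (hq : Nat.card F = Nat.card S ^ 2) (h9 : 9 ≤ Nat.card S)
    (A C : AddSubgroup F) (hA : ∀ c : F, (∀ a ∈ A, c * a ∈ A) ↔ c ∈ S)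
    (hC : ∀ c : F, (∀ a ∈ C, c * a ∈ C) ↔ c ∈ S)
    (hcA : Nat.card A * Nat.card S = Nat.card F) (hcC : Nat.card C * Nat.card S = Nat.card F)
    (hK : ∀ a ∈ A, ∀ c ∈ C, ∀ η : F, η ≠ 0 → 2 + a * c = η + η⁻¹ →
      η ^ (2 * (Nat.card S - 1)) = 1) : False := by
  classical
  have iF : Fintype F := Fintype.ofFinite F
  have iS : Fintype S := Fintype.ofFinite S
  have hchar : CharP S 3 := S.subtype.charP S.subtype.injective 3
  obtain ⟨k, _, hk⟩ := FiniteField.card S 3
  have hScard : Fintype.card S = Nat.card S := (Nat.card_eq_fintype_card).symm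
  have hpowS : ∀ y : S, (y : F) ^ Nat.card S = y := by
    intro y
    have h1 := FiniteField.pow_card y
    rw [hScard] at h1
    exact congrArg Subtype.val h1
  have hDk : Nat.card S = 3 ^ (k : ℕ) := by rw [← hScard, hk]
  generalize Nat.card S = D at *
  have hD1 : 1 < D := by omega
  have hcF : Fintype.card F = D ^ 2 := by rw [← Nat.card_eq_fintype_card, hq]
  -- nonzero elements of `A`, `C`
  have hex : ∀ B : AddSubgroup F, Nat.card B * D = Nat.card F → ∃ a ∈ B, a ≠ 0 := by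
    intro B hB
    by_contra hc
    push Not at hc
    have h1 : B = ⊥ := by
      rw [eq_bot_iff]
      intro x hx
      exact hc x hx
    rw [h1, AddSubgroup.card_bot, one_mul, hq] at hB
    nlinarith
  obtain ⟨a, haA, ha0⟩ := hex A hcA
  obtain ⟨c, hcC', hc0⟩ := hex C hcC
  -- the automorphism
  obtain ⟨σ, hσ⟩ : ∃ σ : F →+* F, ∀ x, σ x = x ^ D :=
    ⟨iterateFrobenius F 3 k, fun x => by rw [iterateFrobenius_def, hDk]⟩
  have hfix : ∀ y : F, y ^ D = y → y ∈ S := by
    intro y hy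
    by_contra hyS
    have h1 : (insert y ((Finset.univ : Finset S).image (fun s : S => (s : F)))).card = D + 1 := by
      rw [Finset.card_insert_of_notMem, Finset.card_image_of_injective _ Subtype.val_injective,
        Finset.card_univ, hScard]
      intro h2
      obtain ⟨s, _, hs⟩ := Finset.mem_image.1 h2
      exact hyS (hs ▸ s.2)
    have h2 := Polynomial.card_le_degree_of_subset_roots
      (p := (Polynomial.X ^ D - Polynomial.X : Polynomial F))
      (Z := insert y ((Finset.univ : Finset S).image (fun s : S => (s : F)))) (by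
        intro z hz
        rw [Polynomial.mem_roots (FiniteField.X_pow_card_sub_X_ne_zero F hD1)]
        have hz' : z ∈ insert y ((Finset.univ : Finset S).image (fun s : S => (s : F))) := hz
        have h3 : z ^ D = z := by
          rcases Finset.mem_insert.1 hz' with h | h
          · rw [h]; exact hy
          · obtain ⟨s, _, hs⟩ := Finset.mem_image.1 h
            rw [← hs]
            exact hpowS s
        simp [Polynomial.IsRoot.def, h3])
    rw [FiniteField.X_pow_card_sub_X_natDegree_eq F hD1, h1] at h2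
    omega
  -- the elements with `w ^ (D + 1) = 1`
  obtain ⟨U, hUc, hU⟩ : ∃ U : Finset F, U.card = D + 1 ∧ ∀ w ∈ U, w ^ (D + 1) = 1 := by
    obtain ⟨g, hg⟩ := IsCyclic.exists_generator (α := Fˣ)
    have hord : orderOf g = (D - 1) * (D + 1) := by
      rw [orderOf_eq_card_of_forall_mem_zpowers hg, Nat.card_units, hq]
      obtain ⟨m, rfl⟩ : ∃ m, D = m + 1 := ⟨D - 1, by omega⟩
      have h1 : (m + 1) ^ 2 = m * (m + 1 + 1) + 1 := by ring
      rw [h1, Nat.add_sub_cancel, Nat.add_sub_cancel]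
    refine ⟨(Finset.range (D + 1)).image (fun i => ((g ^ ((D - 1) * i) : Fˣ) : F)), ?_, ?_⟩
    · rw [Finset.card_image_of_injOn, Finset.card_range]
      intro i hi j hj hij
      have hi' : i < D + 1 := Finset.mem_range.1 hi
      have hj' : j < D + 1 := Finset.mem_range.1 hj
      have h1 : g ^ ((D - 1) * i) = g ^ ((D - 1) * j) := Units.ext hij
      have hpos : 0 < D - 1 := by omega
      have h2 := pow_injOn_Iio_orderOf (x := g) (Set.mem_Iio.2 (by
        rw [hord]; exact Nat.mul_lt_mul_of_pos_left hi' hpos))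
        (Set.mem_Iio.2 (by rw [hord]; exact Nat.mul_lt_mul_of_pos_left hj' hpos)) h1
      exact Nat.eq_of_mul_eq_mul_left hpos h2
    · intro w hw
      obtain ⟨i, _, rfl⟩ := Finset.mem_image.1 hw
      rw [← Units.val_pow_eq_pow_val, ← pow_mul]
      have h1 : (D - 1) * i * (D + 1) = orderOf g * i := by rw [hord]; ring
      rw [h1, pow_mul, pow_orderOf_eq_one, one_pow, Units.val_one]
  -- the element `u`
  have hx0 : a * c ≠ 0 := mul_ne_zero ha0 hc0
  have hxq : (a * c) ^ (D ^ 2) = a * c := by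
    rw [← hcF]
    exact FiniteField.pow_card _
  obtain ⟨u, hu⟩ : ∃ u, u = (a * c) ^ (D - 1) := ⟨_, rfl⟩
  have hσx : σ (a * c) = u * (a * c) := by
    rw [hσ, hu, ← pow_succ]
    congr 1
    omega
  have hu0 : u ≠ 0 := by
    rw [hu]
    exact pow_ne_zero _ hx0
  have huU : u ^ (D + 1) = 1 := by
    have h1 : u ^ (D + 1) * (a * c) = a * c := by
      rw [hu, ← pow_mul, ← pow_succ]
      obtain ⟨m, rfl⟩ : ∃ m, D = m + 1 := ⟨D - 1, by omega⟩
      have h2 : (m + 1 - 1) * (m + 1 + 1) + 1 = (m + 1) ^ 2 := by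
        rw [Nat.add_sub_cancel]
        ring
      rw [h2]
      exact hxq
    exact mul_right_cancel₀ hx0 (h1.trans (one_mul _).symm)
  have hσU : ∀ w : F, w ^ (D + 1) = 1 → σ w = w⁻¹ := by
    intro w hw
    rw [hσ]
    exact eq_inv_of_mul_eq_one_left (by rw [← pow_succ]; exact hw)
  -- a good `w`
  obtain ⟨w, hwU, hwB⟩ : ∃ w ∈ U, w ∉ insert (1 : F)
      (insert u (Polynomial.nthRoots 4 (u ^ 2)).toFinset) := by
    apply Finset.exists_mem_notMem_of_card_lt_card
    refine lt_of_le_of_lt (Finset.card_insert_le _ _) ?_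
    refine lt_of_le_of_lt (Nat.succ_le_succ (Finset.card_insert_le _ _)) ?_
    have h1 := (Multiset.toFinset_card_le (Polynomial.nthRoots 4 (u ^ 2))).trans
      (Polynomial.card_nthRoots 4 (u ^ 2))
    rw [hUc]
    omega
  rw [Finset.mem_insert, Finset.mem_insert, Multiset.mem_toFinset,
    Polynomial.mem_nthRoots (by norm_num)] at hwB
  push Not at hwB
  obtain ⟨hw1, hwu, hw4⟩ := hwB
  have hw0 : w ≠ 0 := by
    intro h
    have h1 := hU w hwU
    rw [h, zero_pow (by omega)] at h1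
    exact zero_ne_one h1
  have hσw := hσU w (hU w hwU)
  have hσu := hσU u huU
  have h1w : (1 - w) ≠ 0 := sub_ne_zero.2 (Ne.symm hw1)
  have hwu' : w - u ≠ 0 := sub_ne_zero.2 hwu
  have huw' : u - w ≠ 0 := sub_ne_zero.2 (Ne.symm hwu)
  obtain ⟨η, hη⟩ : ∃ η, η = u * (1 - w) / (w * (w - u)) := ⟨_, rfl⟩
  have hη0 : η ≠ 0 := by
    rw [hη]
    exact div_ne_zero (mul_ne_zero hu0 h1w) (mul_ne_zero hw0 hwu')
  have hση : σ η = w ^ 2 / u * η := by
    rw [hη, map_div₀, map_mul, map_mul, map_sub, map_sub, map_one, hσw, hσu]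
    have e1 : w⁻¹ - u⁻¹ = (u - w) / (w * u) := by field_simp
    have e2 : 1 - w⁻¹ = (w - 1) / w := by field_simp
    have e3 : w - u = -(u - w) := by ring
    have e4 : w - 1 = -(1 - w) := by ring
    rw [e1, e2, e3, e4]
    field_simp
  have hση1 : σ η - 1 = w * (η - 1) := by
    rw [hση, hη]
    field_simp
    ring
  obtain ⟨z, hz⟩ : ∃ z, z = (η - 1) ^ 2 / η := ⟨_, rfl⟩
  have hσz : σ z = u * z := by
    rw [hz, map_div₀, map_pow, map_sub, map_one, hση1, hση]
    field_simp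
  have hzS : z / (a * c) ∈ S := by
    apply hfix
    rw [← hσ, map_div₀, hσz, hσx]
    field_simp
  have h1 : z / (a * c) * a ∈ A := (hA _).2 hzS a haA
  have h2 := hK _ h1 c hcC' η hη0 (by
    have e : z / (a * c) * a * c = z := by field_simp
    rw [e, hz]
    field_simp
    ring)
  have h3 : η ^ (D - 1) = w ^ 2 / u := by
    have h4 : η ^ (D - 1) * η = w ^ 2 / u * η := by
      rw [← pow_succ, ← hση, hσ]
      congr 1
      omega
    exact mul_right_cancel₀ hη0 h4
  rw [mul_comm, pow_mul, h3, div_pow, div_eq_one_iff_eq (pow_ne_zero _ hu0), ← pow_mul] at h2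
  exact hw4 h2

end Pool.Agent.AIC
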