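import Pool.Agent.AIC.Defs

/-!
The stabilizer of a line in a subgroup `H` of `SL(2, F)` has order at least `card H / (q + 1)`.

PROOF. Let `H₀ = {h ∈ H | (g⁻¹ h g) 1 0 = 0}` (a subgroup: the upper triangular matrices form a subgroup `B`).
The function `h ↦ (h * g) 0 0, (h * g) 1 0` (first column of `h g`) modulo scalars: define
`Φ : H → Option F` by `Φ h = none` if `(h g) 0 0 = 0` and `Φ h = some ((h g) 1 0 / (h g) 0 0)` otherwise.
If `Φ h = Φ h'` then the first columns of `h g` and `h' g` are proportional (they are non-zero), so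
`((h g)⁻¹ * (h' g)) 1 0 = (h g) 0 0 * (h' g) 1 0 - (h g) 1 0 * (h' g) 0 0 = 0`, i.e. `h⁻¹ h' ∈ H₀`.
So `Φ` induces an injection of `H ⧸ H₀` into `Option F`, which has `q + 1` elements, and
`card H = card (H ⧸ H₀) * card H₀`.
-/

set_option autoImplicit false

namespace Pool.Agent.AIC

open Matrix
open scoped MatrixGroups

/-- The upper triangular matrices. -/
def borelSub (F : Type*) [Field F] : Subgroup SL(2, F) where
  carrier := {M | M 1 0 = 0}
  mul_mem' := by
    intro a b ha hb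
    simp only [Set.mem_setOf_eq] at *
    rw [Matrix.SpecialLinearGroup.coe_mul, Matrix.mul_apply, Fin.sum_univ_two, ha, hb]
    ring
  one_mem' := by simp
  inv_mem' := by
    intro a ha
    simp only [Set.mem_setOf_eq] at *
    rw [Matrix.SpecialLinearGroup.coe_inv, adjugate_fin_two]
    simp [ha]

theorem mem_borelSub {F : Type*} [Field F] {M : SL(2, F)} : M ∈ borelSub F ↔ M 1 0 = 0 := Iff.rfl

theorem inv_mul_10 {F : Type*} [Field F] (M N : SL(2, F)) :
    (M⁻¹ * N) 1 0 = M 0 0 * N 1 0 - M 1 0 * N 0 0 := by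
  have h : ((M⁻¹ * N : SL(2, F)) : Matrix (Fin 2) (Fin 2) F) =
      adjugate (M : Matrix (Fin 2) (Fin 2) F) * (N : Matrix (Fin 2) (Fin 2) F) := by
    rw [← Matrix.SpecialLinearGroup.coe_inv]
    rfl
  rw [h, adjugate_fin_two, Matrix.mul_apply, Fin.sum_univ_two]
  simp
  ring

theorem exists_stab {F : Type*} [Field F] [Finite F] (H : Subgroup SL(2, F)) (g : SL(2, F)) :
    ∃ H₀ : Subgroup SL(2, F), H₀ ≤ H ∧ (∀ M ∈ H₀, (g⁻¹ * M * g) 1 0 = 0) ∧
      Nat.card H ≤ (Nat.card F + 1) * Nat.card H₀ := by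
  classical
  let H₀ : Subgroup SL(2, F) := H ⊓ (borelSub F).comap (MulAut.conj g⁻¹).toMonoidHom
  have hmem : ∀ M, M ∈ H₀ ↔ M ∈ H ∧ (g⁻¹ * M * g) 1 0 = 0 := by
    intro M
    rw [Subgroup.mem_inf, Subgroup.mem_comap, mem_borelSub]
    simp
  refine ⟨H₀, inf_le_left, fun M hM => ((hmem M).1 hM).2, ?_⟩
  let S := H₀.subgroupOf H
  let Φ : SL(2, F) → Option F := fun h =>
    if (h * g) 0 0 = 0 then none else some ((h * g) 1 0 / (h * g) 0 0)
  have key : ∀ h h', Φ h = Φ h' → (h * g) 0 0 * (h' * g) 1 0 - (h * g) 1 0 * (h' * g) 0 0 = 0 := by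
    intro h h' hh
    simp only [Φ] at hh
    by_cases h0 : (h * g) 0 0 = 0
    · by_cases h1 : (h' * g) 0 0 = 0
      · rw [h0, h1]
        ring
      · rw [if_pos h0, if_neg h1] at hh
        cases hh
    · by_cases h1 : (h' * g) 0 0 = 0
      · rw [if_neg h0, if_pos h1] at hh
        cases hh
      · rw [if_neg h0, if_neg h1, Option.some_inj, div_eq_div_iff h0 h1] at hh
        rw [hh]
        ring
  have hinj : Function.Injective (fun q : H ⧸ S => Φ ((q.out : H) : SL(2, F))) := by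
    intro x y hxy
    have h1 := key _ _ hxy
    rw [← x.out_eq', ← y.out_eq', QuotientGroup.eq, Subgroup.mem_subgroupOf, hmem]
    refine ⟨SetLike.coe_mem _, ?_⟩
    have h2 : g⁻¹ * (((x.out)⁻¹ * y.out : H) : SL(2, F)) * g =
        (((x.out : H) : SL(2, F)) * g)⁻¹ * (((y.out : H) : SL(2, F)) * g) := by
      rw [Subgroup.coe_mul, Subgroup.coe_inv]
      group
    rw [h2, inv_mul_10]
    linear_combination h1
  have h1 : Nat.card (H ⧸ S) ≤ Nat.card F + 1 := by
    rw [← Finite.card_option]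
    exact Nat.card_le_card_of_injective _ hinj
  have h2 : Nat.card H = Nat.card (H ⧸ S) * Nat.card S :=
    Subgroup.card_eq_card_quotient_mul_card_subgroup S
  have h3 : Nat.card S = Nat.card H₀ :=
    Nat.card_congr (Subgroup.subgroupOfEquivOfLe inf_le_left).toEquiv
  rw [h2, h3]
  exact Nat.mul_le_mul_right _ h1

end Pool.Agent.AIC
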