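import Pool.Agent.AIC.G3A
import Pool.Agent.AIC.G3B
import Pool.Agent.AIC.G3C
import Pool.Agent.AIC.G3D
import Pool.Agent.AIC.G3E
import Pool.Agent.AIC.G3F
import Pool.Agent.AIC.GIndex

/-!
In characteristic `3`, `q ≠ 9`: a subgroup of `SL(2, F)` of order at least `(q+1)(q+3)` is everything.

PROOF. Suppose `H ≠ ⊤`. For `g ∈ SL(2, F)` write `H^g = g⁻¹ H g` (`H.map (MulAut.conj g⁻¹).toMonoidHom`), `A_g = {a | g * up a * g⁻¹ ∈ H} = {a | up a ∈ H^g}`.
(1) By `GIndex.exists_stab H g` there is `H₀ ≤ H` with `(g⁻¹ M g) 1 0 = 0` on `H₀` and `q + 3 ≤ card H₀`; let `B_g` be the subgroup of all `M ∈ H^g` with `M 1 0 = 0`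
(it contains `g⁻¹ H₀ g`), so `q + 3 ≤ card B_g`. `up a ∈ B_g` iff `a ∈ A_g`.
(2) `A_g` contains some `a ≠ 0`: otherwise `M ↦ M 0 0` is injective on `B_g` (kernel: `M 0 0 = M 1 1 = 1`), so `card B_g ≤ q - 1`.
(3) There is `a ∉ A_g`: otherwise `H^g` contains all `up a`; take `g' = g * w`, `w = (0 -1; 1 0)`: by (2) there is `a ≠ 0` with `g w up a w⁻¹ g⁻¹ ∈ H`, i.e.
`w * up a * w⁻¹ ∈ H^g`, so `H^g = ⊤` by `G3B.top_of_full_line`, so `H = ⊤`.
(4) `G3A.borel3` for `B_g` gives `S_g`, `l_g`. By `G3C.card_line_const` all `A_g` have the same cardinality, so all `S_g` have the same cardinality `D`, and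
`S_g = S` is independent of `g` (a subfield with `D` elements is `{x | x^D = x}`), `l_g = l` (`q = D^l`, `D ≥ 2`). `l` is even, `l > 0`.
(5) For all `g` and `M ∈ H` with `(g⁻¹ M g) 1 0 = 0`: `((g⁻¹ M g) 0 0)^(2 (D-1)) = 1` (`borel3` for `B_g`). So `G3D.eig_pow` applies with `N = 2 (D - 1)`.
(6) Let `A = A_1` and `C = {c | low c ∈ H}`, `low c = (1 0; c 1) = w * up (-c) * w⁻¹`, so `C = - A_w` (`= A_w` as a set since it is a group). Both satisfy `hA`, `hC`, `hcA`,
`hcC` of `G3E`. For `a ∈ A`, `c ∈ C` the matrix `up a * low c = (1 + a c, a; c, 1)` is in `H` and has trace `2 + a c`: this is `hK`.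
(7) If `l ≥ 4` use `G3E.field4`. If `l = 2` then `q = D^2`, `D` is a power of `3` (`S` has characteristic `3`), `D ≠ 3` because `q ≠ 9`, so `D ≥ 9` and `G3F.field2`
applies.
-/

set_option autoImplicit false

namespace Pool.Agent.AIC

open Matrix
open scoped MatrixGroups

namespace G3G

variable {F : Type*} [Field F]

/-- The matrix `(0 -1; 1 0)`. -/
def wm (F : Type*) [Field F] : SL(2, F) :=
  ⟨!![0, -1; 1, 0], by simp [det_fin_two]⟩

/-- The matrix `(1 0; c 1)`. -/
def lm (c : F) : SL(2, F) :=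
  ⟨!![1, 0; c, 1], by simp [det_fin_two]⟩

theorem lm_val (c : F) : (lm c : Matrix (Fin 2) (Fin 2) F) = !![1, 0; c, 1] := rfl

theorem wm_val : ((wm F : SL(2, F)) : Matrix (Fin 2) (Fin 2) F) = !![0, -1; 1, 0] := rfl

theorem lm_eq (c : F) : lm c = wm F * up (-c) * (wm F)⁻¹ := by
  rw [eq_mul_inv_iff_mul_eq]
  ext i j
  rw [Matrix.SpecialLinearGroup.coe_mul, Matrix.SpecialLinearGroup.coe_mul, lm_val, wm_val, up_val]
  fin_cases i <;> fin_cases j <;> simp [Matrix.mul_apply, Fin.sum_univ_two]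

/-- The stabilizer of a line in the conjugate of `H`. -/
def BB (H : Subgroup SL(2, F)) (g : SL(2, F)) : Subgroup SL(2, F) :=
  H.comap (MulAut.conj g).toMonoidHom ⊓ borelSub F

theorem mem_BB {H : Subgroup SL(2, F)} {g M : SL(2, F)} :
    M ∈ BB H g ↔ g * M * g⁻¹ ∈ H ∧ M 1 0 = 0 := by
  rw [BB, Subgroup.mem_inf, Subgroup.mem_comap, mem_borelSub]
  simp

theorem up_mem_BB {H : Subgroup SL(2, F)} {g : SL(2, F)} {a : F} :
    up a ∈ BB H g ↔ g * up a * g⁻¹ ∈ H := by
  rw [mem_BB]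
  refine and_iff_left ?_
  rw [up_val]
  simp

theorem card_BB [Finite F] (H : Subgroup SL(2, F))
    (h : (Nat.card F + 1) * (Nat.card F + 3) ≤ Nat.card H) (g : SL(2, F)) :
    Nat.card F + 3 ≤ Nat.card (BB H g) := by
  obtain ⟨H₀, h1, h2, h3⟩ := exists_stab H g
  have h4 : Nat.card F + 3 ≤ Nat.card H₀ :=
    Nat.le_of_mul_le_mul_left (h.trans h3) (Nat.succ_pos _)
  refine h4.trans ?_
  have hm : ∀ M : H₀, g⁻¹ * (M : SL(2, F)) * g ∈ BB H g := by
    intro M
    refine mem_BB.2 ⟨?_, h2 M M.2⟩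
    have : g * (g⁻¹ * (M : SL(2, F)) * g) * g⁻¹ = M := by group
    rw [this]
    exact h1 M.2
  refine Nat.card_le_card_of_injective (fun M : H₀ => (⟨g⁻¹ * (M : SL(2, F)) * g, hm M⟩ : BB H g)) ?_
  intro M N hMN
  have := congrArg Subtype.val hMN
  simp only at this
  exact Subtype.ext (mul_left_cancel (mul_right_cancel this))

theorem exists_ne [Finite F] {H : Subgroup SL(2, F)} {g : SL(2, F)}
    (hc : Nat.card F + 3 ≤ Nat.card (BB H g)) : ∃ a : F, a ≠ 0 ∧ g * up a * g⁻¹ ∈ H := by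
  by_contra hcon
  push Not at hcon
  have hinj : Function.Injective (fun M : BB H g => (M : SL(2, F)) 0 0) := by
    rintro ⟨M, hM⟩ ⟨N, hN⟩ hMN
    simp only at hMN
    have hM0 := (mem_BB.1 hM).2
    have hN0 := (mem_BB.1 hN).2
    have hdM := M.det_coe
    have hdN := N.det_coe
    rw [det_fin_two, hM0, mul_zero, sub_zero] at hdM
    rw [det_fin_two, hN0, mul_zero, sub_zero, ← hMN] at hdN
    have hM00 : M 0 0 ≠ 0 := by
      intro h0
      rw [h0, zero_mul] at hdM
      exact zero_ne_one hdM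
    have h11 : N 1 1 = M 1 1 := mul_left_cancel₀ hM00 (hdN.trans hdM.symm)
    have hN : N = M * up (M 1 1 * (N 0 1 - M 0 1)) := by
      ext i j
      rw [Matrix.SpecialLinearGroup.coe_mul, up_val]
      fin_cases i <;> fin_cases j <;> simp [Matrix.mul_apply, Fin.sum_univ_two, hM0, hN0, h11, hMN]
      rw [← hMN]
      linear_combination (-(N 0 1 - M 0 1)) * hdM
    have hup : up (M 1 1 * (N 0 1 - M 0 1)) ∈ BB H g := by
      have : up (M 1 1 * (N 0 1 - M 0 1)) = M⁻¹ * N := by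
        rw [eq_inv_mul_iff_mul_eq]
        exact hN.symm
      rw [this]
      exact (BB H g).mul_mem ((BB H g).inv_mem hM) ‹_›
    have hb : M 1 1 * (N 0 1 - M 0 1) = 0 := by
      by_contra hb
      exact hcon _ hb (up_mem_BB.1 hup)
    rw [hb, up_zero, mul_one] at hN
    exact Subtype.ext hN.symm
  have := Nat.card_le_card_of_injective _ hinj
  omega

theorem exists_notMem [Finite F] {H : Subgroup SL(2, F)} (hH : H ≠ ⊤)
    (h2 : ∀ g : SL(2, F), ∃ a : F, a ≠ 0 ∧ g * up a * g⁻¹ ∈ H) (g : SL(2, F)) :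
    ∃ a : F, up a ∉ BB H g := by
  by_contra hcon
  push Not at hcon
  apply hH
  obtain ⟨a, ha, hga⟩ := h2 (g * wm F)
  have htop := top_of_full_line (H.comap (MulAut.conj g).toMonoidHom)
    (fun a => by
      rw [Subgroup.mem_comap]
      exact (up_mem_BB.1 (hcon a))) (wm F) (by rw [wm_val]; simp) a ha
    (by
      rw [Subgroup.mem_comap]
      have : (MulAut.conj g).toMonoidHom (wm F * up a * (wm F)⁻¹) =
          g * wm F * up a * (g * wm F)⁻¹ := by
        simp [mul_assoc]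
      rw [this]
      exact hga)
  rw [eq_top_iff]
  intro M _
  have hM : g⁻¹ * M * g ∈ H.comap (MulAut.conj g).toMonoidHom := by
    rw [htop]
    exact Subgroup.mem_top _
  rw [Subgroup.mem_comap] at hM
  have : (MulAut.conj g).toMonoidHom (g⁻¹ * M * g) = M := by
    simp [mul_assoc]
  rwa [this] at hM

/-- The additive group of the `a` with `up a ∈ H^g`. -/
def AA (H : Subgroup SL(2, F)) (g : SL(2, F)) : AddSubgroup F where
  carrier := {a | up a ∈ BB H g}
  add_mem' := by
    intro a b ha hb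
    simp only [Set.mem_setOf_eq] at *
    rw [← up_mul]
    exact (BB H g).mul_mem ha hb
  zero_mem' := by
    simp only [Set.mem_setOf_eq]
    rw [up_zero]
    exact (BB H g).one_mem
  neg_mem' := by
    intro a ha
    simp only [Set.mem_setOf_eq] at *
    have : up (-a) = (up a)⁻¹ := by
      rw [eq_inv_iff_mul_eq_one, up_mul, neg_add_cancel, up_zero]
    rw [this]
    exact (BB H g).inv_mem ha

theorem mem_AA {H : Subgroup SL(2, F)} {g : SL(2, F)} {a : F} : a ∈ AA H g ↔ up a ∈ BB H g :=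
  Iff.rfl

theorem subfield_eq [Finite F] (S T : Subfield F) (h : Nat.card S = Nat.card T) : S = T := by
  classical
  have := Fintype.ofFinite F
  have key : ∀ U : Subfield F, Nat.card U = Nat.card S →
      (Finset.univ.filter (fun x : F => x ∈ U)) =
        (Polynomial.X ^ (Nat.card S) - Polynomial.X : Polynomial F).roots.toFinset := by
    intro U hU
    have h1 : 1 < Nat.card S := Finite.one_lt_card
    refine Finset.eq_of_subset_of_card_le ?_ ?_
    · intro x hx
      rw [Finset.mem_filter] at hx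
      rw [Multiset.mem_toFinset, Polynomial.mem_roots (FiniteField.X_pow_card_sub_X_ne_zero F h1)]
      have := Fintype.ofFinite U
      have h3 : (⟨x, hx.2⟩ : U) ^ (Fintype.card U) = ⟨x, hx.2⟩ := FiniteField.pow_card _
      rw [← Nat.card_eq_fintype_card, hU] at h3
      have h4 := congrArg Subtype.val h3
      simp only [SubmonoidClass.mk_pow] at h4
      rw [Polynomial.IsRoot.def, Polynomial.eval_sub, Polynomial.eval_pow, Polynomial.eval_X, h4,
        sub_self]
    · refine (Multiset.toFinset_card_le _).trans ((Polynomial.card_roots' _).trans ?_)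
      rw [FiniteField.X_pow_card_sub_X_natDegree_eq F h1, ← hU, Nat.card_eq_fintype_card,
        Fintype.card_subtype]
  have h1 := (key S rfl).trans (key T h.symm).symm
  ext x
  have := Finset.ext_iff.1 h1 x
  simpa using this

end G3G

open G3G in
theorem eq_top_three {F : Type*} [Field F] [Finite F] [CharP F 3] (h9 : Nat.card F ≠ 9)
    (H : Subgroup SL(2, F)) (h : (Nat.card F + 1) * (Nat.card F + 3) ≤ Nat.card H) : H = ⊤ := by
  by_contra hH
  haveI : Fact (Nat.Prime 3) := ⟨Nat.prime_three⟩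
  have h1 := card_BB H h
  have h2 : ∀ g : SL(2, F), ∃ a : F, a ≠ 0 ∧ g * up a * g⁻¹ ∈ H := fun g => exists_ne (h1 g)
  have h3 := exists_notMem hH h2
  choose S l hev hpos hq hS hcA hpow using fun g =>
    borel3 (BB H g) (fun M hM => (mem_BB.1 hM).2) (h1 g) (h3 g)
  have hcc : ∀ g, Nat.card {a : F // up a ∈ BB H g} = Nat.card {a : F // up a ∈ BB H 1} := by
    intro g
    have e1 : ∀ g', Nat.card {a : F // up a ∈ BB H g'} = Nat.card {a : F // g' * up a * g'⁻¹ ∈ H} :=
      fun g' => Nat.card_congr (Equiv.subtypeEquivRight fun a => up_mem_BB)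
    rw [e1, e1]
    exact card_line_const 3 H g 1 (h2 g) (h2 1)
  have hD : ∀ g, Nat.card (S g) = Nat.card (S 1) := by
    intro g
    have e := (hcA g).trans (hcA 1).symm
    rw [hcc g] at e
    haveI : Nonempty {a : F // up a ∈ BB H 1} := ⟨⟨0, by rw [up_zero]; exact one_mem _⟩⟩
    exact Nat.eq_of_mul_eq_mul_left Nat.card_pos e
  have hSg : ∀ g, S g = S 1 := fun g => subfield_eq _ _ (hD g)
  have h5 : ∀ g : SL(2, F), ∀ M ∈ H, (g⁻¹ * M * g) 1 0 = 0 →
      ((g⁻¹ * M * g) 0 0) ^ (2 * (Nat.card (S 1) - 1)) = 1 := by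
    intro g M hM h0
    rw [← hD g]
    refine hpow g _ (mem_BB.2 ⟨?_, h0⟩)
    have : g * (g⁻¹ * M * g) * g⁻¹ = M := by group
    rwa [this]
  have hA : ∀ c : F, (∀ a ∈ AA H 1, c * a ∈ AA H 1) ↔ c ∈ S 1 := hS 1
  have hC : ∀ c : F, (∀ a ∈ AA H (wm F), c * a ∈ AA H (wm F)) ↔ c ∈ S 1 := by
    rw [← hSg (wm F)]
    exact hS (wm F)
  have hcA' : Nat.card (AA H 1) * Nat.card (S 1) = Nat.card F := hcA 1
  have hcC' : Nat.card (AA H (wm F)) * Nat.card (S 1) = Nat.card F := by
    rw [← hSg (wm F)]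
    exact hcA (wm F)
  have hK : ∀ a ∈ AA H 1, ∀ c ∈ AA H (wm F), ∀ η : F, η ≠ 0 → 2 + a * c = η + η⁻¹ →
      η ^ (2 * (Nat.card (S 1) - 1)) = 1 := by
    intro a ha c hc η hη he
    have ha' : up a ∈ H := by
      have := up_mem_BB.1 (mem_AA.1 ha)
      simpa using this
    have hc' : lm c ∈ H := by
      rw [lm_eq]
      exact up_mem_BB.1 (mem_AA.1 ((AA H (wm F)).neg_mem hc))
    refine eig_pow H _ h5 (up a * lm c) (H.mul_mem ha' hc') η hη ?_
    rw [← he, Matrix.SpecialLinearGroup.coe_mul, lm_val, up_val]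
    simp [Matrix.mul_apply, Fin.sum_univ_two]
    ring
  by_cases hl : 4 ≤ l 1
  · exact field4 (S 1) (l 1) hl (hq 1) _ _ hA hC hcA' hcC' hK
  · have hl2 : l 1 = 2 := by
      obtain ⟨m, hm⟩ := hev 1
      have := hpos 1
      omega
    have hq2 : Nat.card F = Nat.card (S 1) ^ 2 := by
      have := hq 1
      rwa [hl2] at this
    have h9' : 9 ≤ Nat.card (S 1) := by
      have := Fintype.ofFinite F
      obtain ⟨n, -, hn⟩ := FiniteField.card F 3
      rw [← Nat.card_eq_fintype_card] at hn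
      have hdvd : Nat.card (S 1) ∣ 3 ^ (n : ℕ) := by
        rw [← hn, hq2]
        exact dvd_pow_self _ two_ne_zero
      obtain ⟨k, -, hk⟩ := (Nat.dvd_prime_pow Nat.prime_three).1 hdvd
      have h1' : 1 < Nat.card (S 1) := Finite.one_lt_card
      rcases Nat.lt_or_ge k 2 with hk2 | hk2
      · exfalso
        interval_cases k
        · rw [hk] at h1'
          simp at h1'
        · rw [hk] at hq2
          apply h9
          rw [hq2]
          norm_num
      · rw [hk]
        calc 9 = 3 ^ 2 := by norm_num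
          _ ≤ 3 ^ k := Nat.pow_le_pow_right (by norm_num) hk2
    exact field2 (S 1) hq2 h9' _ _ hA hC hcA' hcC' hK

end Pool.Agent.AIC
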