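import Pool.Agent.AIC.Defs

/-!
`SL(2, F)` is generated by the conjugates of the upper unipotent matrices.

PROOF. `H` contains all `up a` (`g = 1`) and, with `w = (0 -1; 1 0)`, all `w * up (-c) * w⁻¹ = (1 0; c 1) =: low c`.
Let `M = (a b; c d)`, `a d - b c = 1`. If `c ≠ 0` then `M = up ((a - 1) / c) * low c * up ((d - 1) / c)`. If `c = 0`
then `a ≠ 0`, and `M * low 1` has lower left entry `d ≠ 0`, so `M * low 1 ∈ H` by the first case and
`M = (M * low 1) * (low 1)⁻¹ ∈ H`.
-/

set_option autoImplicit false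

namespace Pool.Agent.AIC

open Matrix
open scoped MatrixGroups

private def lw {F : Type*} [Field F] (c : F) : SL(2, F) :=
  ⟨!![1, 0; c, 1], by simp [det_fin_two]⟩

private def ww {F : Type*} [Field F] : SL(2, F) :=
  ⟨!![0, -1; 1, 0], by simp [det_fin_two]⟩

private theorem lw_val {F : Type*} [Field F] (c : F) :
    (lw c : Matrix (Fin 2) (Fin 2) F) = !![1, 0; c, 1] := rfl

private theorem ww_val {F : Type*} [Field F] :
    ((ww : SL(2, F)) : Matrix (Fin 2) (Fin 2) F) = !![0, -1; 1, 0] := rfl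

private theorem lw_eq {F : Type*} [Field F] (c : F) : lw c = ww * up (-c) * ww⁻¹ := by
  rw [eq_mul_inv_iff_mul_eq]
  ext i j
  rw [Matrix.SpecialLinearGroup.coe_mul, Matrix.SpecialLinearGroup.coe_mul, lw_val, ww_val, up_val]
  fin_cases i <;> fin_cases j <;> simp [Matrix.mul_apply, Fin.sum_univ_two]

private theorem fact {F : Type*} [Field F] (M : SL(2, F)) (hc : M 1 0 ≠ 0) :
    M = up ((M 0 0 - 1) / M 1 0) * lw (M 1 0) * up ((M 1 1 - 1) / M 1 0) := by
  have hdet := M.det_coe
  rw [Matrix.det_fin_two] at hdet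
  ext i j
  rw [Matrix.SpecialLinearGroup.coe_mul, Matrix.SpecialLinearGroup.coe_mul, lw_val, up_val, up_val]
  fin_cases i <;> fin_cases j <;> simp [Matrix.mul_apply, Fin.sum_univ_two]
  · field_simp
    ring
  · field_simp
    linear_combination -hdet
  · field_simp
    ring

theorem eq_top_of_conj {F : Type*} [Field F] (H : Subgroup SL(2, F))
    (h : ∀ (g : SL(2, F)) (a : F), g * up a * g⁻¹ ∈ H) : H = ⊤ := by
  have hup : ∀ a : F, up a ∈ H := by
    intro a
    have := h 1 a
    rwa [one_mul, inv_one, mul_one] at this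
  have hlw : ∀ c : F, lw c ∈ H := by
    intro c
    rw [lw_eq]
    exact h ww (-c)
  have key : ∀ M : SL(2, F), M 1 0 ≠ 0 → M ∈ H := by
    intro M hM
    rw [fact M hM]
    exact H.mul_mem (H.mul_mem (hup _) (hlw _)) (hup _)
  rw [eq_top_iff]
  intro M _
  by_cases hM : M 1 0 = 0
  · have hdet := M.det_coe
    rw [Matrix.det_fin_two, hM, mul_zero, sub_zero] at hdet
    have hd : M 1 1 ≠ 0 := by
      intro h0
      rw [h0, mul_zero] at hdet
      exact zero_ne_one hdet
    have h1 : (M * lw 1 : SL(2, F)) 1 0 ≠ 0 := by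
      have : (M * lw 1 : SL(2, F)) 1 0 = M 1 1 := by
        rw [Matrix.SpecialLinearGroup.coe_mul, lw_val]
        simp [Matrix.mul_apply, Fin.sum_univ_two, hM]
      rw [this]
      exact hd
    have h2 := H.mul_mem (key _ h1) (H.inv_mem (hlw 1))
    rwa [mul_inv_cancel_right] at h2
  · exact key M hM

end Pool.Agent.AIC
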