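import Pool.Agent.AIC.GLine
import Pool.Agent.AIC.GIndex
import Pool.Agent.AIC.GTop

/-!
A subgroup of `SL(2, F)` of order at least `2 q (q + 1)` is everything.

PROOF. By `GTop.eq_top_of_conj` it is enough that `g * up a * g⁻¹ ∈ H` for all `g`, `a`. Take `H₀` from
`GIndex.exists_stab H g`; then `2 q ≤ card H₀`. The conjugate `g⁻¹ H₀ g` (`H₀.map (MulAut.conj g⁻¹)`, same cardinality)
satisfies the hypotheses of `GLine.up_mem_of_card`, so `up a ∈ g⁻¹ H₀ g`, `g * up a * g⁻¹ ∈ H₀ ≤ H`.
-/

set_option autoImplicit false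

namespace Pool.Agent.AIC

open Matrix
open scoped MatrixGroups

theorem eq_top_of_card {F : Type*} [Field F] [Finite F] (H : Subgroup SL(2, F))
    (h : 2 * Nat.card F * (Nat.card F + 1) ≤ Nat.card H) : H = ⊤ := by
  refine eq_top_of_conj H fun g a => ?_
  obtain ⟨H₀, hle, hst, hcard⟩ := exists_stab H g
  have h1 : 2 * Nat.card F ≤ Nat.card H₀ := by
    have h2 : (Nat.card F + 1) * (2 * Nat.card F) ≤ (Nat.card F + 1) * Nat.card H₀ := by
      refine le_trans ?_ hcard
      rw [mul_comm]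
      exact h
    exact Nat.le_of_mul_le_mul_left h2 (Nat.succ_pos _)
  have h3 : up a ∈ H₀.map (MulAut.conj g⁻¹).toMonoidHom := by
    apply up_mem_of_card
    · rintro _ ⟨M, hM, rfl⟩
      have := hst M hM
      simpa using this
    · refine h1.trans (le_of_eq ?_)
      exact (Nat.card_congr (H₀.equivMapOfInjective _ (MulAut.conj g⁻¹).injective).toEquiv)
  obtain ⟨M, hM, hMa⟩ := h3
  have h4 : g * up a * g⁻¹ = M := by
    rw [← hMa]
    simp [mul_assoc]
  rw [h4]
  exact hle hM

end Pool.Agent.AIC
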