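import Pool.Agent.AIC.GFix

/-!
A subgroup of the Borel group which is large enough is conjugate to a standard one.

PROOF. Let `m = orderOf t`. For `M ∈ I` we have `M 1 0 = 0`, so `M 0 0 * M 1 1 = 1` and `M ↦ M 0 0` is a group
homomorphism `φ : I → Fˣ`. Its range lies in `{ζ | ζ ^ m = 1}`, which has at most `m` elements and contains
`zpowers t` (with exactly `m` elements), so it is `zpowers t`. Its kernel consists of matrices `up b` with
`b = M 0 1 ∈ A`, so it has at most `card A` elements. As `card I = card ker * card range ≥ m * card A` we get: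
the kernel is all of `UA A` (so `UA A ≤ I`) and the range is all of `zpowers t`. Choose `M ∈ I` with
`M 0 0 = t`, `M = (t, b; 0, t⁻¹)`.
* If `t ^ 2 ≠ 1`: `M = up c * dg t * up (-c)` with `c = b / (t⁻¹ - t)`. Take `g = up c`; it commutes with `UA A`.
* If `t ^ 2 = 1`: if `t = 1` take `M = 1` instead, `g = 1`. If `t = -1 ≠ 1` (so `p ≠ 2`) then
  `M ^ 2 = up (2 t b)` is in the kernel, so `2 t b ∈ A`; as `A` is an additive group of odd
  order prime to `2` (`F` has odd characteristic, `2` is invertible modulo the characteristic), `t b ∈ A` and so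
  `b ∈ A` (`t = -1`); hence `dg t = M * up (- t b)` or `up (..) * M` is in `I`. Take `g = 1`.
In all cases `I` is generated by `UA A` and `M' = g * dg t * g⁻¹`: for `M'' ∈ I` there is `i` with
`M'' 0 0 = t ^ i`, and `M'' * M' ^ (-i)` is in the kernel `UA A`. Also `(UA A).map (conj g) = UA A`.
-/

set_option autoImplicit false

namespace Pool.Agent.AIC

open Matrix
open scoped MatrixGroups

theorem mem_zpowers_of_pow_eq_one {F : Type*} [Field F] [Finite F] (t z : Fˣ)
    (hz : z ^ orderOf t = 1) : z ∈ Subgroup.zpowers t := by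
  classical
  have hft : Fintype F := Fintype.ofFinite F
  have hm : 0 < orderOf t := orderOf_pos t
  let T : Finset Fˣ := Finset.univ.filter (fun a : Fˣ => a ^ orderOf t = 1)
  let Z : Finset Fˣ := Finset.univ.filter (fun a : Fˣ => a ∈ Subgroup.zpowers t)
  have h1 : Z ⊆ T := by
    intro a ha
    rw [Finset.mem_filter] at ha ⊢
    obtain ⟨i, hi⟩ := ha.2
    refine ⟨Finset.mem_univ _, ?_⟩
    rw [← hi]
    show (t ^ i) ^ orderOf t = 1
    rw [← zpow_natCast, ← _root_.zpow_mul, mul_comm, _root_.zpow_mul, zpow_natCast,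
      pow_orderOf_eq_one, _root_.one_zpow]
  have h2 : T.card ≤ orderOf t := IsCyclic.card_pow_eq_one_le hm
  have h3 : Z.card = orderOf t := by
    rw [← Nat.card_zpowers, Nat.card_eq_fintype_card, Fintype.card_subtype]
  have h4 : Z = T := Finset.eq_of_subset_of_card_le h1 (by rw [h3]; exact h2)
  have h5 : z ∈ T := Finset.mem_filter.2 ⟨Finset.mem_univ _, hz⟩
  rw [← h4] at h5
  exact (Finset.mem_filter.1 h5).2

theorem std_of {F : Type*} [Field F] [Finite F] (I : Subgroup SL(2, F)) (A : AddSubgroup F) (t : Fˣ)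
    (h10 : ∀ M ∈ I, M 1 0 = 0) (h00 : ∀ M ∈ I, (M 0 0) ^ (orderOf t) = 1)
    (h01 : ∀ M ∈ I, M 0 0 = 1 → M 0 1 ∈ A) (hcard : orderOf t * Nat.card A ≤ Nat.card I) :
    ∃ g : SL(2, F), I = (Std A t).map (MulAut.conj g).toMonoidHom := by
  classical
  let ψ : I →* Fˣ := (diagHom I h10).toHomUnits
  have hψ : ∀ M : I, ((ψ M : Fˣ) : F) = (M : SL(2, F)) 0 0 := fun M => rfl
  have hrange : ψ.range ≤ Subgroup.zpowers t := by
    rintro _ ⟨M, rfl⟩
    apply mem_zpowers_of_pow_eq_one
    ext
    rw [Units.val_pow_eq_pow_val, hψ, Units.val_one]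
    exact h00 M M.2
  have hrc : Nat.card ψ.range ≤ orderOf t := by
    rw [← Nat.card_zpowers]
    exact Subgroup.card_le_of_le hrange
  have hk1 : ∀ M : ψ.ker, ((M : I) : SL(2, F)) 0 0 = 1 := by
    intro M
    have := M.2
    rw [MonoidHom.mem_ker] at this
    rw [← hψ, this, Units.val_one]
  let f : ψ.ker → A := fun M => ⟨((M : I) : SL(2, F)) 0 1, h01 _ (M : I).2 (hk1 M)⟩
  have hf : Function.Injective f := by
    intro M N hMN
    have h2 : ((M : I) : SL(2, F)) 0 1 = ((N : I) : SL(2, F)) 0 1 := congrArg Subtype.val hMN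
    apply Subtype.ext
    apply Subtype.ext
    rw [eq_up _ (h10 _ (M : I).2) (hk1 M), eq_up _ (h10 _ (N : I).2) (hk1 N), h2]
  have hkc : Nat.card ψ.ker ≤ Nat.card A := Nat.card_le_card_of_injective f hf
  have hIcard : Nat.card I = Nat.card ψ.range * Nat.card ψ.ker := by
    rw [Subgroup.card_eq_card_quotient_mul_card_subgroup ψ.ker,
      Nat.card_congr (QuotientGroup.quotientKerEquivRange ψ).toEquiv]
  have hApos : 0 < Nat.card A := Nat.card_pos
  have hmpos : 0 < orderOf t := orderOf_pos t
  have hrc' : orderOf t ≤ Nat.card ψ.range := by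
    by_contra h
    push Not at h
    rw [hIcard] at hcard
    nlinarith
  have hkc' : Nat.card A ≤ Nat.card ψ.ker := by
    by_contra h
    push Not at h
    rw [hIcard] at hcard
    nlinarith
  have hsurj : Function.Surjective f := (hf.bijective_of_nat_card_le hkc').2
  have hUA : ∀ a ∈ A, up a ∈ I := by
    intro a ha
    obtain ⟨M, hM⟩ := hsurj ⟨a, ha⟩
    have h1 : ((M : I) : SL(2, F)) 0 1 = a := congrArg Subtype.val hM
    rw [← h1, ← eq_up _ (h10 _ (M : I).2) (hk1 M)]
    exact (M : I).2
  have hreq : ψ.range = Subgroup.zpowers t :=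
    Subgroup.eq_of_le_of_card_ge hrange (by rw [Nat.card_zpowers]; exact hrc')
  obtain ⟨M, hM⟩ : ∃ M : I, ψ M = t := by
    have : t ∈ ψ.range := by
      rw [hreq]
      exact Subgroup.mem_zpowers t
    exact this
  have hM00 : (M : SL(2, F)) 0 0 = (t : F) := by rw [← hψ, hM]
  -- generation
  have hgen : ∀ M' : I, ψ M' = t → I = UA A ⊔ Subgroup.zpowers (M' : SL(2, F)) := by
    intro M' hM'
    apply le_antisymm
    · intro N hN
      have h1 : ψ ⟨N, hN⟩ ∈ Subgroup.zpowers t := hrange ⟨_, rfl⟩
      obtain ⟨i, hi⟩ := h1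
      have hi' : t ^ i = ψ ⟨N, hN⟩ := hi
      have h2 : ψ (⟨N, hN⟩ * (M' ^ i)⁻¹) = 1 := by
        rw [map_mul, map_inv, map_zpow, hM', hi', mul_inv_cancel]
      set K : I := ⟨N, hN⟩ * (M' ^ i)⁻¹ with hK
      have h3 : (K : SL(2, F)) 0 0 = 1 := by rw [← hψ, h2, Units.val_one]
      have h4 : (K : SL(2, F)) ∈ UA A :=
        ⟨(K : SL(2, F)) 0 1, h01 _ K.2 h3, eq_up _ (h10 _ K.2) h3⟩
      have h5 : N = (K : SL(2, F)) * (M' : SL(2, F)) ^ i := by
        have h6 : (⟨N, hN⟩ : I) = K * M' ^ i := by
          rw [hK]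
          group
        have h7 := congrArg (Subtype.val : I → SL(2, F)) h6
        rw [Subgroup.coe_mul, Subgroup.coe_zpow] at h7
        exact h7
      rw [h5]
      exact Subgroup.mul_mem_sup h4 (Subgroup.zpow_mem _ (Subgroup.mem_zpowers _) _)
    · refine sup_le ?_ ?_
      · rintro _ ⟨a, ha, rfl⟩
        exact hUA a ha
      · rw [Subgroup.zpowers_le]
        exact M'.2
  have hone : (UA A).map (MulAut.conj (1 : SL(2, F))).toMonoidHom = UA A := by
    have h1 : (MulAut.conj (1 : SL(2, F))).toMonoidHom = MonoidHom.id _ := by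
      ext x
      simp
    rw [h1, Subgroup.map_id]
  by_cases ht2 : (t : F) ^ 2 = 1
  · -- scalar case: `dg t ∈ I`
    have htt : t * t = 1 := by
      ext
      rw [Units.val_mul, Units.val_one, ← pow_two]
      exact ht2
    have hti : t⁻¹ = t := inv_eq_of_mul_eq_one_left htt
    have hdg : dg t ∈ I := by
      by_cases ht1 : t = 1
      · rw [ht1, dg_one]
        exact I.one_mem
      · have hM' := eq_dg_mul_up (M : SL(2, F)) t (h10 _ M.2) hM00
        set b : F := ((t⁻¹ : Fˣ) : F) * (M : SL(2, F)) 0 1 with hb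
        have htm : (t : F) = -1 := by
          have h1 : ((t : F) - 1) * ((t : F) + 1) = 0 := by linear_combination ht2
          rcases mul_eq_zero.1 h1 with h | h
          · exact absurd (Units.ext (by rw [Units.val_one]; linear_combination h)) ht1
          · linear_combination h
        have hcomm : Commute (dg t) (up b) := by
          have h1 : dg t * up b * (dg t)⁻¹ = up b := by
            rw [conj_up (dg t) (by simp [dg_val])]
            congr 1
            have : (dg t) 0 0 = (t : F) := by simp [dg_val]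
            rw [this, ht2, one_mul]
          show dg t * up b = up b * dg t
          rw [mul_inv_eq_iff_eq_mul] at h1
          exact h1
        have h2 : up (((2 : ℕ) : F) * b) ∈ I := by
          have h3 : (M : SL(2, F)) ^ 2 = up (((2 : ℕ) : F) * b) := by
            rw [hM', hcomm.mul_pow, dg_pow, pow_two t, htt, dg_one, one_mul, up_pow]
          rw [← h3]
          exact I.pow_mem M.2 2
        have h3 : ((2 : ℕ) : F) * b ∈ A := by
          have h4 := h01 _ h2 (by simp [up_val])
          simpa [up_val] using h4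
        have hb' : b ∈ A := by
          obtain ⟨p, hp⟩ := CharP.exists F
          have hpp : p.Prime := by
            rcases CharP.char_is_prime_or_zero F p with h | h
            · exact h
            · exfalso
              rw [h] at hp
              have h5 : CharZero F := CharP.charP_to_charZero F
              exact not_finite F
          have hp2 : p ≠ 2 := by
            rintro rfl
            apply ht1
            ext
            rw [htm, Units.val_one]
            exact CharTwo.neg_eq 1
          obtain ⟨j, hj⟩ := hpp.odd_of_ne_two hp2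
          have h5 : b = ((j + 1 : ℕ) : F) * (((2 : ℕ) : F) * b) := by
            have h6 : ((p : ℕ) : F) = 0 := CharP.cast_eq_zero F p
            rw [hj] at h6
            push_cast at h6 ⊢
            linear_combination (-b) * h6
          rw [h5, ← nsmul_eq_mul]
          exact A.nsmul_mem h3 _
        have h6 : dg t = (M : SL(2, F)) * (up b)⁻¹ := by
          rw [eq_mul_inv_iff_mul_eq]
          exact hM'.symm
        rw [h6]
        exact I.mul_mem M.2 (I.inv_mem (hUA b hb'))
    have hψd : ψ ⟨dg t, hdg⟩ = t := by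
      ext
      rw [hψ]
      simp [dg_val]
    refine ⟨1, ?_⟩
    rw [← std_map (G₁ := UA A) (β := dg t) hone.symm (by rw [one_mul, inv_one, mul_one])]
    exact hgen ⟨dg t, hdg⟩ hψd
  · obtain ⟨c, hc⟩ := eq_conj_dg (M : SL(2, F)) t (h10 _ M.2) hM00 ht2
    refine ⟨up c, ?_⟩
    rw [← std_map (G₁ := UA A) (β := (M : SL(2, F))) ?_ hc]
    · exact hgen M hM
    · have h1 := map_UA_up A (1 : SL(2, F)) c
      rw [one_mul, hone] at h1
      exact h1.symm

end Pool.Agent.AIC
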