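import Pool.Agent.AIC.Defs

/-!
The orthogonal complement for the trace form of a finite field `F` over a subfield `S`.

PROOF. `algebraMap S F (Algebra.trace S F y) = tr (card S) [F : S] y` (`FiniteField.algebraMap_trace_eq_sum_pow` in
`Mathlib/FieldTheory/Finite/Trace.lean`). The trace form `Algebra.traceForm S F` is symmetric and non-degenerate
(`traceForm_nondegenerate`, `F` is separable over the finite field `S`). Take `B` to be the orthogonal complement of `A`;
`LinearMap.BilinForm.finrank_orthogonal` and `LinearMap.BilinForm.orthogonal_orthogonal` give the claims.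
-/

set_option autoImplicit false

namespace Pool.Agent.AIC

open Module

private theorem tr_eq_zero_iff {F : Type*} [Field F] [Finite F] (S : Subfield F) (y : F) :
    tr (Nat.card S) (finrank S F) y = 0 ↔ Algebra.trace S F y = 0 := by
  have h := FiniteField.algebraMap_trace_eq_sum_pow S F y
  unfold tr
  rw [← h]
  exact map_eq_zero_iff _ (FaithfulSMul.algebraMap_injective S F)

theorem perp {F : Type*} [Field F] [Finite F] (S : Subfield F) (A : Submodule S F) :
    ∃ B : Submodule S F, finrank S B + finrank S A = finrank S F ∧
      (∀ c, c ∈ B ↔ ∀ a ∈ A, tr (Nat.card S) (finrank S F) (c * a) = 0) ∧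
      (∀ b, b ∈ A ↔ ∀ c ∈ B, tr (Nat.card S) (finrank S F) (c * b) = 0) := by
  have hnd : (Algebra.traceForm S F).Nondegenerate := traceForm_nondegenerate S F
  have hsymm : (Algebra.traceForm S F).IsSymm := Algebra.traceForm_isSymm S
  refine ⟨LinearMap.BilinForm.orthogonal (Algebra.traceForm S F) A, ?_, ?_, ?_⟩
  · rw [LinearMap.BilinForm.finrank_orthogonal hnd]
    have := Submodule.finrank_le A
    omega
  · intro c
    rw [LinearMap.BilinForm.mem_orthogonal_iff]
    refine forall₂_congr fun a _ => ?_
    rw [tr_eq_zero_iff, mul_comm c a]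
    exact Iff.rfl
  · intro b
    have h := LinearMap.BilinForm.orthogonal_orthogonal hnd hsymm.isRefl A
    rw [← h, LinearMap.BilinForm.mem_orthogonal_iff, h]
    refine forall₂_congr fun c _ => ?_
    rw [tr_eq_zero_iff]
    exact Iff.rfl

end Pool.Agent.AIC
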