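import Pool.Agent.AIC.Root

/-!
The representation of the Galois group in `SL(2, F)`.

PROOF. For `g : L ≃ₐ[K] L` the elements `g v`, `g w` are again roots (`f`, being in `K`, is fixed by `g`), so by `Root.rt_span`
`g v = α v + γ w`, `g w = β v + δ w` with `α, β, γ, δ ∈ F`, unique because `v, w` are linearly independent over `F` (if
`a v + b w = 0` then `moore v (a v + b w) = b = 0` and then `a v = 0`, `v ≠ 0`). `moore` is alternating and `F`-bilinear, so
`moore (g v) (g w) = (α δ - β γ) * moore v w = α δ - β γ`; on the other hand `moore (g v) (g w) = g (moore v w) = 1`. So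
`ρ g = (α β; γ δ) ∈ SL(2, F)`. `g` fixes `algebraMap F L c` (it factors through `K`), so `ρ (g h) = ρ g * ρ h`:
`g (h v) = g (h₀₀ v + h₁₀ w) = h₀₀ (g v) + h₁₀ (g w)` etc. (`MonoidHom.mk'`). If `ρ g = 1` then `g v = v`, `g w = w`, so `g = 1`.
-/

set_option autoImplicit false

namespace Pool.Agent.AIC

open Matrix
open scoped MatrixGroups

theorem exists_rho {F K L : Type*} [Field F] [Finite F] [Field K] [Field L] [Algebra K L]
    [Algebra F K] [Algebra F L] [IsScalarTower F K L] {p n : ℕ} [Fact p.Prime] [CharP L p]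
    (hp : Nat.card F = p ^ n) (f : K) (v w : L)
    (hv : Rt (Nat.card F) (algebraMap K L f) v) (hw : Rt (Nat.card F) (algebraMap K L f) w)
    (h : moore (Nat.card F) v w = 1)
    (hgen : ∀ g : L ≃ₐ[K] L, g v = v → g w = w → g = 1) :
    ∃ ρ : (L ≃ₐ[K] L) →* SL(2, F), Function.Injective ρ ∧
      ∀ g : L ≃ₐ[K] L,
        g v = algebraMap F L (ρ g 0 0) * v + algebraMap F L (ρ g 1 0) * w ∧
        g w = algebraMap F L (ρ g 0 1) * v + algebraMap F L (ρ g 1 1) * w := by
  have hq : 0 < Nat.card F := Nat.card_pos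
  have hadd : ∀ x y : L, (x + y) ^ Nat.card F = x ^ Nat.card F + y ^ Nat.card F := by
    intro x y
    rw [hp]
    exact add_pow_char_pow x y p n
  have hc : ∀ c : F, (algebraMap F L c) ^ Nat.card F = algebraMap F L c := by
    intro c
    rw [← map_pow, pow_natCard]
  have hmo : ∀ a b c d : F, moore (Nat.card F) (algebraMap F L a * v + algebraMap F L b * w)
      (algebraMap F L c * v + algebraMap F L d * w) = algebraMap F L (a * d - b * c) := by
    intro a b c d
    have e : moore (Nat.card F) (algebraMap F L a * v + algebraMap F L b * w)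
      (algebraMap F L c * v + algebraMap F L d * w) =
        algebraMap F L (a * d - b * c) * moore (Nat.card F) v w := by
      unfold moore
      rw [hadd, hadd, mul_pow, mul_pow, mul_pow, mul_pow, hc, hc, hc, hc, map_sub, map_mul,
        map_mul]
      ring
    rw [e, h, mul_one]
  have hinj : Function.Injective (algebraMap F L) := (algebraMap F L).injective
  have huniq : ∀ a b c d : F, algebraMap F L a * v + algebraMap F L b * w =
      algebraMap F L c * v + algebraMap F L d * w → a = c ∧ b = d := by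
    intro a b c d he
    have h1 := hmo 1 0 a b
    have h2 := hmo 0 1 a b
    rw [he, hmo] at h1 h2
    have h3 := hinj h1
    have h4 := hinj h2
    constructor
    · linear_combination h4
    · linear_combination -h3
  have hg : ∀ (g : L ≃ₐ[K] L) (r : L), Rt (Nat.card F) (algebraMap K L f) r →
      Rt (Nat.card F) (algebraMap K L f) (g r) := by
    intro g r hr
    unfold Rt at hr ⊢
    have h1 := congrArg g hr
    rw [map_add, map_add, map_mul, map_pow, map_pow, AlgEquiv.commutes, map_zero] at h1
    exact h1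
  have hgF : ∀ (g : L ≃ₐ[K] L) (c : F), g (algebraMap F L c) = algebraMap F L c := by
    intro g c
    rw [IsScalarTower.algebraMap_apply F K L, AlgEquiv.commutes]
  have hgm : ∀ g : L ≃ₐ[K] L, moore (Nat.card F) (g v) (g w) = 1 := by
    intro g
    have h1 := congrArg g h
    unfold moore at h1 ⊢
    rw [map_sub, map_mul, map_mul, map_pow, map_pow, map_one] at h1
    exact h1
  choose α γ hαγ using fun g : L ≃ₐ[K] L => rt_span hp hv hw (hg g v hv) h
  choose β δ hβδ using fun g : L ≃ₐ[K] L => rt_span hp hv hw (hg g w hw) h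
  have hdet : ∀ g, α g * δ g - γ g * β g = 1 := by
    intro g
    have h1 := hgm g
    rw [hαγ, hβδ, hmo] at h1
    apply hinj
    rw [h1, map_one]
  have hmul : ∀ g g' : L ≃ₐ[K] L, α (g * g') = α g * α g' + β g * γ g' ∧
      γ (g * g') = γ g * α g' + δ g * γ g' ∧ β (g * g') = α g * β g' + β g * δ g' ∧
      δ (g * g') = γ g * β g' + δ g * δ g' := by
    intro g g'
    have h1 : (g * g') v = algebraMap F L (α g * α g' + β g * γ g') * v +
        algebraMap F L (γ g * α g' + δ g * γ g') * w := by
      rw [AlgEquiv.mul_apply, hαγ g', map_add, map_mul, map_mul, hgF, hgF, hαγ g, hβδ g]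
      simp only [map_add, map_mul]
      ring
    have h2 : (g * g') w = algebraMap F L (α g * β g' + β g * δ g') * v +
        algebraMap F L (γ g * β g' + δ g * δ g') * w := by
      rw [AlgEquiv.mul_apply, hβδ g', map_add, map_mul, map_mul, hgF, hgF, hαγ g, hβδ g]
      simp only [map_add, map_mul]
      ring
    rw [hαγ (g * g')] at h1
    rw [hβδ (g * g')] at h2
    obtain ⟨h3, h4⟩ := huniq _ _ _ _ h1
    obtain ⟨h5, h6⟩ := huniq _ _ _ _ h2
    exact ⟨h3, h4, h5, h6⟩
  let ρ₀ : (L ≃ₐ[K] L) → SL(2, F) := fun g =>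
    ⟨!![α g, β g; γ g, δ g], by
      rw [det_fin_two_of]
      linear_combination hdet g⟩
  have hρ₀ : ∀ g g', ρ₀ (g * g') = ρ₀ g * ρ₀ g' := by
    intro g g'
    obtain ⟨h1, h2, h3, h4⟩ := hmul g g'
    apply Subtype.ext
    rw [Matrix.SpecialLinearGroup.coe_mul]
    show !![α (g * g'), β (g * g'); γ (g * g'), δ (g * g')] =
      !![α g, β g; γ g, δ g] * !![α g', β g'; γ g', δ g']
    rw [Matrix.mul_fin_two, h1, h2, h3, h4]
  refine ⟨MonoidHom.mk' ρ₀ hρ₀, ?_, ?_⟩
  · rw [injective_iff_map_eq_one]
    intro g hg1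
    have h1 : ρ₀ g = 1 := hg1
    have h2 : !![α g, β g; γ g, δ g] = (1 : Matrix (Fin 2) (Fin 2) F) :=
      congrArg Subtype.val h1
    have e1 : α g = 1 := by simpa using congrFun (congrFun h2 0) 0
    have e2 : β g = 0 := by simpa using congrFun (congrFun h2 0) 1
    have e3 : γ g = 0 := by simpa using congrFun (congrFun h2 1) 0
    have e4 : δ g = 1 := by simpa using congrFun (congrFun h2 1) 1
    apply hgen
    · rw [hαγ g, e1, e3]
      simp
    · rw [hβδ g, e2, e4]
      simp
  · intro g
    exact ⟨hαγ g, hβδ g⟩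

end Pool.Agent.AIC
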