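import Pool.Agent.AIC.Full
import Pool.Agent.AIC.Rho
import Pool.Agent.AIC.Sep
import Pool.Agent.AIC.EtEP
import Pool.Agent.AIC.GBig
import Pool.Agent.AIC.G3G
import Pool.Agent.AIC.GStd
import Pool.Agent.AIC.Perp
import Pool.Agent.AIC.Coef
import Pool.Agent.AIC.Arith

/-!
The standard groups occur as inertia groups.
-/

set_option autoImplicit false

namespace Pool.Agent.AIC

open Matrix Module Polynomial
open scoped MatrixGroups WithZero

theorem core_aux (p : ℕ) [Fact p.Prime] (k : Type) [Field k] [IsAlgClosed k] [CharP k p]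
    (F : Type) [Field F] [Finite F] [Algebra F k]
    (L : Type) [Field L] [Algebra k L] [Algebra (RatFunc k) L] [IsScalarTower k (RatFunc k) L]
    [Algebra F L] [IsScalarTower F k L]
    (S : Subfield F) (A B : Submodule S F) (t : Fˣ) (β : ℕ → F)
    (ε : ℕ → ℕ) (a n N d : ℕ) (hd0 : 0 < d) (hqp : Nat.card F = p ^ d)
    (hs3 : 3 ≤ Nat.card S) (hA3 : 3 ≤ Nat.card A) (hA9 : Nat.card A = 3 → Nat.card F ≠ 9)
    (hn : finrank S F = n) (hB : finrank S B = a) (hab : a + finrank S A = n)
    (hA : ∀ b, b ∈ A ↔ ∀ c ∈ B, tr (Nat.card S) n (c * b) = 0)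
    (hβa : β a = 1) (hβ0 : β 0 ≠ 0) (hβ : ∀ c, theta (Nat.card S) n a β c = 0 ↔ c ∈ B)
    (hmq : orderOf t ∣ Nat.card F - 1)
    (hN : orderOf t * N = Nat.card S ^ a * (Nat.card F - 1))
    (hε : ∀ j, j ≤ a → orderOf t * ε j + 2 * Nat.card S ^ a = Nat.card S ^ j * (Nat.card F + 1))
    [hsp : (EP (p ^ d) (algebraMap k[X] (RatFunc k)
      (-TP N a ε (fun j => algebraMap F k (β j))))).IsSplittingField (RatFunc k) L] :
    Occ k SL(2, F) (Std A.toAddSubgroup t) := by
  set βk : ℕ → k := fun j => algebraMap F k (β j) with hβk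
  set fK := algebraMap k[X] (RatFunc k) (-TP N a ε βk) with hfK
  have hcK : CharP (RatFunc k) p :=
    (algebraMap k (RatFunc k)).charP_iff (algebraMap k (RatFunc k)).injective p |>.1 ‹_›
  have hcL : CharP L p := (algebraMap k L).charP_iff (algebraMap k L).injective p |>.1 ‹_›
  have hFK : IsScalarTower F (RatFunc k) L := by
    refine IsScalarTower.of_algebraMap_eq fun c => ?_
    rw [IsScalarTower.algebraMap_apply F k L, IsScalarTower.algebraMap_apply k (RatFunc k) L,
      ← IsScalarTower.algebraMap_apply F k (RatFunc k)]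
  have hfd : FiniteDimensional (RatFunc k) L :=
    IsSplittingField.finiteDimensional L (EP (p ^ d) fK)
  have hgal : IsGalois (RatFunc k) L :=
    IsGalois.of_separable_splitting_field (p := EP (p ^ d) fK) (EP_separable hd0 fK)
  have hfL : algebraMap (RatFunc k) L fK =
      fx N a ε (fun j => algebraMap F L (β j)) (xx k L) := by
    have h1 : fK = aeval (RatFunc.X : RatFunc k) (-TP N a ε βk) := by
      rw [hfK, RatFunc.X, aeval_algebraMap_apply, aeval_X_left_apply]
    rw [h1, ← aeval_algebraMap_apply, map_neg, aeval_TP, neg_neg]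
    congr 1
    funext j
    rw [hβk, IsScalarTower.algebraMap_apply F k L]
  obtain ⟨s, hs, hsr⟩ := exists_roots hd0 (L := L) fK
  rw [hfL, ← hqp] at hsr
  rw [← hqp] at hs
  have hroots : ∃ s : Finset L, s.card = Nat.card F ^ 2 ∧ ∀ r ∈ s,
      Rt (Nat.card F) (fx N a ε (fun j => algebraMap F L (β j)) (xx k L)) r :=
    ⟨s, hs, fun r hr => (hsr r).1 hr⟩
  obtain ⟨P, w, I, v, y, hP, hPx, hI, hk, hv0, hv, hy, hvy, hv1, hcard, hgI⟩ :=
    local_main p k F L S A B t β ε a n N hs3 hn hB hab hA hβa hβ hmq hN hε hroots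
  have hfull := full_card p k F L S A t β ε a n N hs3 hn hab hA3 hβ0 hN hε w hk v y hv0 hv1 hv
    hy hvy
  obtain ⟨ρ, hρinj, hρ⟩ := exists_rho (K := RatFunc k) (L := L) hqp fK v y
    (by rw [hfL]; exact hv) (by rw [hfL]; exact hy) hvy (by
      intro g hgv hgy
      have h1 : ∀ r ∈ (EP (p ^ d) fK).rootSet L, g r = r := by
        intro r hr
        have hr' : Rt (Nat.card F) (fx N a ε (fun j => algebraMap F L (β j)) (xx k L)) r := by
          rw [mem_rootSet] at hr
          have h2 := hr.2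
          rw [← hfL, hqp]
          unfold EP at h2
          simpa [Rt] using h2
        obtain ⟨α, γ, h3⟩ := rt_span hqp hv hy hr' hvy
        have hFg : ∀ c : F, g (algebraMap F L c) = algebraMap F L c := by
          intro c
          rw [IsScalarTower.algebraMap_apply F (RatFunc k) L]
          exact g.commutes _
        rw [h3, map_add, map_mul, map_mul, hgv, hgy, hFg, hFg]
      have h2 := IsSplittingField.adjoin_rootSet L (EP (p ^ d) fK)
      ext z
      have hz : z ∈ Algebra.adjoin (RatFunc k) ((EP (p ^ d) fK).rootSet L) := by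
        rw [h2]; exact Algebra.mem_top
      change g z = z
      induction hz using Algebra.adjoin_induction with
      | mem r hr => exact h1 r hr
      | algebraMap r => exact g.commutes r
      | add u u' _ _ h3 h4 => rw [map_add, h3, h4]
      | mul u u' _ _ h3 h4 => rw [map_mul, h3, h4])
  have hρtop : ρ.range = ⊤ := by
    have hcr : Nat.card ρ.range = Nat.card (L ≃ₐ[RatFunc k] L) :=
      Nat.card_congr (MonoidHom.ofInjective hρinj).toEquiv.symm
    rw [← hcr] at hfull
    rcases Nat.lt_or_ge 3 (Nat.card A) with h3 | h3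
    · apply eq_top_of_card
      have h4 : (Nat.card F + 1) * (4 * (Nat.card F + 1)) ≤
          (Nat.card F + 1) * (Nat.card A * (Nat.card F + 1)) :=
        Nat.mul_le_mul_left _ (Nat.mul_le_mul_right _ h3)
      nlinarith [h4, hfull]
    · have h3' : Nat.card A = 3 := le_antisymm h3 hA3
      have hp3 : p = 3 := by
        have hcF : CharP F p :=
          (algebraMap F k).charP_iff (algebraMap F k).injective p |>.2 ‹_›
        obtain ⟨d', hd'⟩ := card_S_pow p S
        have h4 := Module.natCard_eq_pow_finrank (K := S) (V := A)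
        rw [h3', hd', ← pow_mul] at h4
        have h5 : p ∣ 3 := by
          rw [h4]
          apply dvd_pow_self
          intro h0
          rw [h0, pow_zero] at h4
          omega
        exact (Nat.prime_dvd_prime_iff_eq (Fact.out : p.Prime) (by norm_num)).1 h5
      subst hp3
      have hcF : CharP F 3 := (algebraMap F k).charP_iff (algebraMap F k).injective 3 |>.2 ‹_›
      apply eq_top_three (hA9 h3')
      rw [h3'] at hfull
      nlinarith [hfull]
  have hρbij : Function.Bijective ρ := ⟨hρinj, MonoidHom.range_eq_top.1 hρtop⟩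
  -- the image of the inertia group
  have hmem : ∀ M ∈ I.map ρ, ∃ g ∈ I, ρ g = M := fun M hM => hM
  have hM0 : ∀ M ∈ I.map ρ, M 1 0 = 0 ∧ (M 0 0) ^ (orderOf t) = 1 ∧
      (M 0 0 = 1 → M 1 1 = 1 → M 0 1 ∈ A) := by
    intro M hM
    obtain ⟨g, hg, rfl⟩ := hmem M hM
    exact hgI g hg _ _ _ _ (hρ g).1 (hρ g).2
  have hcard' : orderOf t * Nat.card A.toAddSubgroup ≤ Nat.card (I.map ρ) := by
    rw [Nat.card_congr (I.equivMapOfInjective ρ hρinj).toEquiv.symm]
    exact hcard
  obtain ⟨g₀, hg₀⟩ := std_of (I.map ρ) A.toAddSubgroup t (fun M hM => (hM0 M hM).1)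
    (fun M hM => (hM0 M hM).2.1) (fun M hM h => by
      refine (hM0 M hM).2.2 h ?_
      have hdet := M.det_coe
      rw [det_fin_two, (hM0 M hM).1, mul_zero, sub_zero, h, one_mul] at hdet
      exact hdet) hcard'
  let ρe : (L ≃ₐ[RatFunc k] L) ≃* SL(2, F) := MulEquiv.ofBijective ρ hρbij
  refine ⟨L, inferInstance, inferInstance, inferInstance, inferInstance, hfd, hgal,
    (MulAut.conj g₀).trans ρe.symm, ?_, P, hP, hPx, ?_⟩
  · exact etale_EP p d hd0 k (-TP N a ε βk) L
  · intro h
    rw [← hI]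
    have h1 : h ∈ Std A.toAddSubgroup t ↔ MulAut.conj g₀ h ∈ I.map ρ := by
      rw [hg₀]
      constructor
      · intro hh
        exact ⟨h, hh, rfl⟩
      · rintro ⟨h', hh', heq⟩
        have : h' = h := (MulAut.conj g₀).injective heq
        rwa [← this]
    rw [h1]
    constructor
    · rintro ⟨g, hg, hgeq⟩
      have : ρe.symm (MulAut.conj g₀ h) = g := by
        rw [← hgeq]
        exact ρe.symm_apply_apply g
      change ρe.symm (MulAut.conj g₀ h) ∈ I
      rw [this]
      exact hg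
    · intro hg
      exact ⟨_, hg, ρe.apply_symm_apply _⟩

theorem core_aux2 (p : ℕ) [Fact p.Prime] (k : Type) [Field k] [IsAlgClosed k] [CharP k p]
    (F : Type) [Field F] [Finite F] [Algebra F k]
    (L : Type) [Field L] [Algebra k L] [Algebra (RatFunc k) L] [IsScalarTower k (RatFunc k) L]
    (S : Subfield F) (A B : Submodule S F) (t : Fˣ) (β : ℕ → F)
    (ε : ℕ → ℕ) (a n N d : ℕ) (hd0 : 0 < d) (hqp : Nat.card F = p ^ d)
    (hs3 : 3 ≤ Nat.card S) (hA3 : 3 ≤ Nat.card A) (hA9 : Nat.card A = 3 → Nat.card F ≠ 9)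
    (hn : finrank S F = n) (hB : finrank S B = a) (hab : a + finrank S A = n)
    (hA : ∀ b, b ∈ A ↔ ∀ c ∈ B, tr (Nat.card S) n (c * b) = 0)
    (hβa : β a = 1) (hβ0 : β 0 ≠ 0) (hβ : ∀ c, theta (Nat.card S) n a β c = 0 ↔ c ∈ B)
    (hmq : orderOf t ∣ Nat.card F - 1)
    (hN : orderOf t * N = Nat.card S ^ a * (Nat.card F - 1))
    (hε : ∀ j, j ≤ a → orderOf t * ε j + 2 * Nat.card S ^ a = Nat.card S ^ j * (Nat.card F + 1))
    (hsp : (EP (p ^ d) (algebraMap k[X] (RatFunc k)
      (-TP N a ε (fun j => algebraMap F k (β j))))).IsSplittingField (RatFunc k) L) :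
    Occ k SL(2, F) (Std A.toAddSubgroup t) := by
  letI : Algebra F L := ((algebraMap k L).comp (algebraMap F k)).toAlgebra
  haveI : IsScalarTower F k L := IsScalarTower.of_algebraMap_eq' rfl
  exact core_aux p k F L S A B t β ε a n N d hd0 hqp hs3 hA3 hA9 hn hB hab hA hβa hβ0 hβ hmq hN hε

theorem core (p : ℕ) [Fact p.Prime] (k : Type) [Field k] [IsAlgClosed k] [CharP k p]
    (F : Type) [Field F] [Finite F] [CharP F p] (S : Subfield F) (A : Submodule S F) (t : Fˣ)
    (ht : (t : F) ^ 2 ∈ S) (hs3 : 3 ≤ Nat.card S) (hA3 : 3 ≤ Nat.card A) (hA9 : Nat.card A = 3 → Nat.card F ≠ 9) :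
    Occ k SL(2, F) (Std A.toAddSubgroup t) := by
  obtain ⟨d, hd0, hqp⟩ : ∃ d, 0 < d ∧ Nat.card F = p ^ d := by
    have := Fintype.ofFinite F
    obtain ⟨n, hn, h⟩ := FiniteField.card F p
    exact ⟨n, n.pos, by rw [Nat.card_eq_fintype_card, h]⟩
  letI : Algebra (ZMod p) F := ZMod.algebra F p
  letI : Algebra (ZMod p) k := ZMod.algebra k p
  let ι : F →ₐ[ZMod p] k := IsAlgClosed.lift
  letI : Algebra F k := ι.toRingHom.toAlgebra
  obtain ⟨B, hfin, hB1, hA1⟩ := perp S A
  obtain ⟨β, hβa, hβ0, hβ⟩ := coef S B (finrank S B) (finrank S F) rfl rfl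
  have hcA : Nat.card S ^ finrank S B * Nat.card A = Nat.card F := by
    rw [Module.natCard_eq_pow_finrank (K := S) (V := A),
      Module.natCard_eq_pow_finrank (K := S) (V := F), ← pow_add, hfin]
  obtain ⟨N, ε, hmq, hN, hε⟩ := arith S t ht (finrank S B) (by
    have h1 : Nat.card S ^ finrank S B * 3 ≤ Nat.card S ^ finrank S B * Nat.card A :=
      Nat.mul_le_mul_left _ hA3
    rw [hcA] at h1
    omega)
  let E := EP (p ^ d) (algebraMap k[X] (RatFunc k)
    (-TP N (finrank S B) ε (fun j => algebraMap F k (β j))))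
  exact core_aux2 p k F E.SplittingField S A B t β ε (finrank S B) (finrank S F) N d hd0 hqp hs3
    hA3 hA9 rfl rfl hfin hA1 hβa hβ0 hβ hmq hN hε inferInstance

end Pool.Agent.AIC
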