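import Pool.Agent.AIC.Defs

/-!
The integral closure of `k[z]` in `L`.
-/

set_option autoImplicit false

namespace Pool.Agent.AIC

open IntermediateField Polynomial
open scoped IntermediateField.algebraAdjoinAdjoin

theorem isPrincipalIdealRing_adj {k L : Type*} [Field k] [Field L] [Algebra k L] (z : L) :
    IsPrincipalIdealRing (Algebra.adjoin k {z}) := by
  let φ : k[X] →+* Algebra.adjoin k {z} :=
    ((aeval z).codRestrict (Algebra.adjoin k {z})
      (fun p => aeval_mem_adjoin_singleton k z)).toRingHom
  have h : Function.Surjective φ := by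
    rintro ⟨a, ha⟩
    rw [Algebra.adjoin_singleton_eq_range_aeval] at ha
    obtain ⟨p, hp⟩ := ha
    exact ⟨p, Subtype.ext hp⟩
  exact IsPrincipalIdealRing.of_surjective φ h

section

variable {k L : Type*} [Field k] [Field L] [Algebra k L] (z : L) [FiniteDimensional k⟮z⟯ L]
  [Algebra.IsSeparable k⟮z⟯ L]

theorem finite_ic :
    Module.Finite (Algebra.adjoin k {z}) (integralClosure (Algebra.adjoin k {z}) L) := by
  have := isPrincipalIdealRing_adj (k := k) z
  exact IsIntegralClosure.finite (Algebra.adjoin k {z}) k⟮z⟯ L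
    (integralClosure (Algebra.adjoin k {z}) L)

theorem isDedekindDomain_ic : IsDedekindDomain (integralClosure (Algebra.adjoin k {z}) L) := by
  have := isPrincipalIdealRing_adj (k := k) z
  exact integralClosure.isDedekindDomain (Algebra.adjoin k {z}) k⟮z⟯ L

theorem isFractionRing_ic : IsFractionRing (integralClosure (Algebra.adjoin k {z}) L) L :=
  integralClosure.isFractionRing_of_finite_extension k⟮z⟯ L

theorem exists_const [IsAlgClosed k] (hz : Transcendental k z)
    (P : Ideal (integralClosure (Algebra.adjoin k {z}) L)) (hP : P.IsMaximal) :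
    P ≠ ⊥ ∧ (∃ a : k, ∀ y : Algebra.adjoin k {z},
        algebraMap (Algebra.adjoin k {z}) (integralClosure (Algebra.adjoin k {z}) L) y ∈ P ↔
          (⟨z, Algebra.self_mem_adjoin_singleton k z⟩ -
            algebraMap k (Algebra.adjoin k {z}) a : Algebra.adjoin k {z}) ∣ y) ∧
      ∀ b : integralClosure (Algebra.adjoin k {z}) L, ∃ c : k,
        b - algebraMap k (integralClosure (Algebra.adjoin k {z}) L) c ∈ P := by
  have hfin := finite_ic (k := k) z
  have hft : Algebra.FiniteType k (Algebra.adjoin k {z}) := by
    rw [← Subalgebra.fg_iff_finiteType]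
    exact ⟨{z}, by simp⟩
  have hft2 : Algebra.FiniteType k (integralClosure (Algebra.adjoin k {z}) L) :=
    Algebra.FiniteType.trans hft inferInstance
  let _ : Field (integralClosure (Algebra.adjoin k {z}) L ⧸ P) := Ideal.Quotient.field P
  have hft3 : Algebra.FiniteType k (integralClosure (Algebra.adjoin k {z}) L ⧸ P) :=
    hft2.of_surjective (Ideal.Quotient.mkₐ k P) (Ideal.Quotient.mkₐ_surjective k P)
  have hfin3 : Module.Finite k (integralClosure (Algebra.adjoin k {z}) L ⧸ P) :=
    finite_of_finite_type_of_isJacobsonRing _ _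
  have hbij := IsAlgClosed.algebraMap_bijective_of_isIntegral
    (k := k) (K := integralClosure (Algebra.adjoin k {z}) L ⧸ P)
  have h3 : ∀ b : integralClosure (Algebra.adjoin k {z}) L, ∃ c : k,
        b - algebraMap k (integralClosure (Algebra.adjoin k {z}) L) c ∈ P := by
    intro b
    obtain ⟨c, hc⟩ := hbij.surjective (Ideal.Quotient.mk P b)
    refine ⟨c, ?_⟩
    rw [← Ideal.Quotient.eq, ← hc]
    rfl
  set gz : Algebra.adjoin k {z} := ⟨z, Algebra.self_mem_adjoin_singleton k z⟩ with hgz
  obtain ⟨a, ha⟩ := h3 (algebraMap _ _ gz)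
  have ha' : algebraMap (Algebra.adjoin k {z}) (integralClosure (Algebra.adjoin k {z}) L)
      (gz - algebraMap k (Algebra.adjoin k {z}) a) ∈ P := by
    rw [map_sub]
    exact ha
  refine ⟨?_, ⟨a, ?_⟩, h3⟩
  · rintro rfl
    rw [Ideal.mem_bot] at ha'
    have h1 : z - algebraMap k L a = 0 := congrArg Subtype.val ha'
    apply hz
    refine ⟨X - C a, X_sub_C_ne_zero a, ?_⟩
    rw [map_sub, aeval_X, aeval_C, h1]
  · intro y
    constructor
    · intro hy
      obtain ⟨y, hyA⟩ := y
      have hyA' := hyA
      rw [Algebra.adjoin_singleton_eq_range_aeval] at hyA'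
      obtain ⟨p, rfl⟩ := hyA'
      obtain ⟨q, hq⟩ : (X - C a) ∣ p - C (p.eval a) := by
        rw [dvd_iff_isRoot]
        simp
      have hdec : (⟨aeval z p, hyA⟩ : Algebra.adjoin k {z}) =
          (gz - algebraMap k (Algebra.adjoin k {z}) a) *
            ⟨aeval z q, aeval_mem_adjoin_singleton k z⟩ +
          algebraMap k (Algebra.adjoin k {z}) (p.eval a) := by
        apply Subtype.ext
        change aeval z p = (z - algebraMap k L a) * aeval z q + algebraMap k L (p.eval a)
        have h1 : p = (X - C a) * q + C (p.eval a) := by rw [← hq]; ring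
        conv_lhs => rw [h1]
        simp
      have h2 : algebraMap k (integralClosure (Algebra.adjoin k {z}) L) (p.eval a) ∈ P := by
        have h4 : algebraMap (Algebra.adjoin k {z}) (integralClosure (Algebra.adjoin k {z}) L)
            (algebraMap k (Algebra.adjoin k {z}) (p.eval a)) ∈ P := by
          have h5 : algebraMap k (Algebra.adjoin k {z}) (p.eval a) =
              (⟨aeval z p, hyA⟩ : Algebra.adjoin k {z}) -
              (gz - algebraMap k (Algebra.adjoin k {z}) a) *
                ⟨aeval z q, aeval_mem_adjoin_singleton k z⟩ := by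
            rw [hdec]; ring
          rw [h5, map_sub, map_mul]
          exact P.sub_mem hy (P.mul_mem_right _ ha')
        exact h4
      have h6 : p.eval a = 0 := by
        by_contra hne
        apply hP.ne_top
        exact P.eq_top_of_isUnit_mem h2 ((IsUnit.mk0 _ hne).map _)
      rw [h6, map_zero, add_zero] at hdec
      exact ⟨_, hdec⟩
    · rintro ⟨w, rfl⟩
      rw [map_mul]
      exact P.mul_mem_right _ ha'

end

end Pool.Agent.AIC
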