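import Mathlib

/-!
Definitions for the tame part of Abhyankar's inertia conjecture for `SL_2(F)`.
-/

set_option autoImplicit false

namespace Pool.Agent.AIC

open Matrix Polynomial
open scoped WithZero

/-- `Occ k G I`: the subgroup `I` of `G` is an inertia group above infinity of a `G`-Galois cover
of the line over `k` which is etale over the affine line (verbatim the conclusion of the frozen
statement `S00075`). -/
def Occ (k : Type) [Field k] (G : Type) [Group G] (I : Subgroup G) : Prop :=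
  ∃ (L : Type) (_ : Field L) (_ : Algebra k L) (_ : Algebra (RatFunc k) L)
      (_ : IsScalarTower k (RatFunc k) L) (_ : FiniteDimensional (RatFunc k) L)
      (_ : IsGalois (RatFunc k) L) (e : G ≃* (L ≃ₐ[RatFunc k] L)),
    Algebra.Etale ↥(Algebra.adjoin k {algebraMap (RatFunc k) L RatFunc.X})
      ↥(integralClosure ↥(Algebra.adjoin k {algebraMap (RatFunc k) L RatFunc.X}) L) ∧
    ∃ P : Ideal ↥(integralClosure
        ↥(Algebra.adjoin k {(algebraMap (RatFunc k) L RatFunc.X)⁻¹}) L),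
      P.IsMaximal ∧
      (∀ b : ↥(integralClosure
          ↥(Algebra.adjoin k {(algebraMap (RatFunc k) L RatFunc.X)⁻¹}) L),
        (b : L) = (algebraMap (RatFunc k) L RatFunc.X)⁻¹ → b ∈ P) ∧
      ∀ g : G, g ∈ I ↔
        ∀ b : ↥(integralClosure
            ↥(Algebra.adjoin k {(algebraMap (RatFunc k) L RatFunc.X)⁻¹}) L),
          ∃ c ∈ P, (c : L) = e g (b : L) - (b : L)

/-- The function `x` in the field `L`. -/
noncomputable abbrev xx (k : Type) [Field k] (L : Type) [Field L] [Algebra (RatFunc k) L] : L :=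
  algebraMap (RatFunc k) L RatFunc.X

/-- The integral closure of `k[1/x]` in `L`. -/
noncomputable abbrev Bi (k : Type) [Field k] (L : Type) [Field L] [Algebra k L]
    [Algebra (RatFunc k) L] : Type :=
  ↥(integralClosure ↥(Algebra.adjoin k {(algebraMap (RatFunc k) L RatFunc.X)⁻¹}) L)

section matrices

variable {F : Type*} [Field F]

/-- The matrix `(1 a; 0 1)`. -/
def up (a : F) : Matrix.SpecialLinearGroup (Fin 2) F :=
  ⟨!![1, a; 0, 1], by simp [det_fin_two]⟩

/-- The matrix `(t 0; 0 t⁻¹)`. -/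
def dg (t : Fˣ) : Matrix.SpecialLinearGroup (Fin 2) F :=
  ⟨!![(t : F), 0; 0, ((t⁻¹ : Fˣ) : F)], by simp [det_fin_two]⟩

theorem up_val (a : F) : (up a : Matrix (Fin 2) (Fin 2) F) = !![1, a; 0, 1] := rfl

theorem dg_val (t : Fˣ) :
    (dg t : Matrix (Fin 2) (Fin 2) F) = !![(t : F), 0; 0, ((t⁻¹ : Fˣ) : F)] := rfl

theorem up_mul (a b : F) : up a * up b = up (a + b) := by
  ext i j
  rw [Matrix.SpecialLinearGroup.coe_mul, up_val, up_val, up_val]
  fin_cases i <;> fin_cases j <;> simp [Matrix.mul_apply, add_comm]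

theorem up_zero : up (0 : F) = 1 := by
  ext i j
  rw [Matrix.SpecialLinearGroup.coe_one, up_val]
  fin_cases i <;> fin_cases j <;> simp

/-- The subgroup of the matrices `up a`, `a ∈ A`. -/
def UA (A : AddSubgroup F) : Subgroup (Matrix.SpecialLinearGroup (Fin 2) F) where
  carrier := {M | ∃ a ∈ A, M = up a}
  mul_mem' := by
    rintro _ _ ⟨a, ha, rfl⟩ ⟨b, hb, rfl⟩
    exact ⟨a + b, A.add_mem ha hb, up_mul a b⟩
  one_mem' := ⟨0, A.zero_mem, up_zero.symm⟩
  inv_mem' := by
    rintro _ ⟨a, ha, rfl⟩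
    refine ⟨-a, A.neg_mem ha, ?_⟩
    rw [inv_eq_iff_mul_eq_one, up_mul, add_neg_cancel, up_zero]

theorem mem_UA {A : AddSubgroup F} {M : Matrix.SpecialLinearGroup (Fin 2) F} :
    M ∈ UA A ↔ ∃ a ∈ A, M = up a := Iff.rfl

/-- The standard group `UA A ⋊ ⟨dg t⟩`. -/
def Std (A : AddSubgroup F) (t : Fˣ) : Subgroup (Matrix.SpecialLinearGroup (Fin 2) F) :=
  UA A ⊔ Subgroup.zpowers (dg t)

end matrices

/-- The truncated trace `y + y^s + ... + y^(s^(n-1))`. -/
def tr (s n : ℕ) {R : Type*} [CommRing R] (y : R) : R := ∑ j ∈ Finset.range n, y ^ (s ^ j)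

/-- `r` is a root of `Y^(q^2) + f Y^q + Y`. -/
def Rt (q : ℕ) {L : Type*} [Field L] (f r : L) : Prop := r ^ (q ^ 2) + f * r ^ q + r = 0

/-- The Moore determinant. -/
def moore (q : ℕ) {L : Type*} [Field L] (v w : L) : L := v * w ^ q - w * v ^ q

/-- The polynomial `Y^(q^2) + f Y^q + Y`. -/
noncomputable def EP (q : ℕ) {K : Type*} [Field K] (f : K) : K[X] :=
  X ^ (q ^ 2) + C f * X ^ q + X

/-- The coefficient of `Ξ` in the Artin-Schreier class of `c W`. -/
def theta (s n a : ℕ) {F : Type*} [Field F] (β : ℕ → F) (c : F) : F :=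
  ∑ j ∈ Finset.range (a + 1), (β j * c) ^ (s ^ (n - j))

/-- The correction term in the Artin-Schreier theory. -/
def corr (s n a : ℕ) {L : Type*} [Field L] (β : ℕ → L) (c Ξ : L) : L :=
  ∑ j ∈ Finset.range (a + 1), ∑ l ∈ Finset.range j, ((β j * c) ^ (s ^ (n - j)) * Ξ) ^ (s ^ l)

end Pool.Agent.AIC
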