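import Pool.Agent.AIC.Defs

/-!
Degrees in the tower `k(f(x)) ⊆ k(x) ⊆ L`.

PROOF. `x` is the image of the variable of `RatFunc k`. `x` is a root of the polynomial `f(Y) - f(x)` of degree
`natDegree f` over `k⟮f(x)⟯`, which gives the first inequality (`k⟮f(x)⟯ ≤ k⟮x⟯`,
`IntermediateField.relfinrank_eq_finrank_of_le`, or the formula of
`Mathlib/FieldTheory/RatFunc/IntermediateField.lean`). `k⟮x⟯` is the range of the `k`-embedding `RatFunc k → L`
(`RatFunc k` is generated by `X` as a field over `k`), so `finrank k⟮x⟯ L = finrank (RatFunc k) L`. `x` is transcendental over `k` since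
`RatFunc.X` is.
-/

set_option autoImplicit false

namespace Pool.Agent.AIC

open IntermediateField Polynomial

private theorem df_deg {k : Type*} [Field k] (f : RatFunc k) (P Q : Polynomial k)
    (hQ : Q ≠ 0) (hc : IsCoprime P Q)
    (hf : f * algebraMap (Polynomial k) (RatFunc k) Q = algebraMap (Polynomial k) (RatFunc k) P) :
    max f.num.natDegree f.denom.natDegree = max P.natDegree Q.natDegree := by
  have hd0 := f.denom_ne_zero
  have hd0' : algebraMap (Polynomial k) (RatFunc k) f.denom ≠ 0 :=
    RatFunc.algebraMap_ne_zero hd0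
  have h1 : f.num * Q = P * f.denom := by
    apply RatFunc.algebraMap_injective k
    rw [map_mul, map_mul, ← hf]
    have h2 := RatFunc.num_div_denom f
    rw [div_eq_iff hd0'] at h2
    rw [h2]
    ring
  have hc' := f.isCoprime_num_denom
  have d1 : f.denom ∣ Q := by
    have : f.denom ∣ f.num * Q := ⟨P, by rw [h1]; ring⟩
    exact hc'.symm.dvd_of_dvd_mul_left this
  have d2 : Q ∣ f.denom := by
    have : Q ∣ P * f.denom := ⟨f.num, by rw [← h1]; ring⟩
    exact hc.symm.dvd_of_dvd_mul_left this
  have e1 : f.denom.natDegree = Q.natDegree :=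
    le_antisymm (Polynomial.natDegree_le_of_dvd d1 hQ) (Polynomial.natDegree_le_of_dvd d2 hd0)
  have e2 : f.num.natDegree = P.natDegree := by
    by_cases hP : P = 0
    · rw [hP, zero_mul] at h1
      rcases mul_eq_zero.1 h1 with h | h
      · rw [h, hP]
      · exact absurd h hQ
    · have hn : f.num ≠ 0 := by
        intro h
        rw [h, zero_mul] at h1
        rcases mul_eq_zero.1 h1.symm with h | h
        · exact hP h
        · exact hd0 h
      have h3 := congrArg Polynomial.natDegree h1
      rw [Polynomial.natDegree_mul hn hQ, Polynomial.natDegree_mul hP hd0] at h3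
      omega
  rw [e1, e2]

theorem degF (k : Type) [Field k] (L : Type) [Field L] [Algebra k L] [Algebra (RatFunc k) L]
    [IsScalarTower k (RatFunc k) L] [FiniteDimensional (RatFunc k) L] (f : k[X])
    (hf : 0 < f.natDegree) :
    k⟮aeval (xx k L) f⟯ ≤ k⟮xx k L⟯ ∧
    IntermediateField.relfinrank k⟮aeval (xx k L) f⟯ k⟮xx k L⟯ ≤ f.natDegree ∧
    Module.finrank k⟮xx k L⟯ L = Module.finrank (RatFunc k) L ∧
    FiniteDimensional k⟮aeval (xx k L) f⟯ L ∧ Transcendental k (xx k L) := by
  classical
  let φ : RatFunc k →ₐ[k] L := IsScalarTower.toAlgHom k (RatFunc k) L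
  have hφX : φ RatFunc.X = xx k L := rfl
  have hmap : k⟮xx k L⟯ = (⊤ : IntermediateField k (RatFunc k)).map φ := by
    rw [← RatFunc.adjoin_X, IntermediateField.adjoin_map, Set.image_singleton, hφX]
  set F : RatFunc k := algebraMap k[X] (RatFunc k) f with hF
  have hφF : φ F = aeval (xx k L) f := by
    have h1 : F = aeval (RatFunc.X : RatFunc k) f := by
      rw [hF, RatFunc.aeval_X_left_eq_algebraMap]
    rw [h1, ← hφX, ← Polynomial.aeval_algHom_apply]
  have hmapT : k⟮aeval (xx k L) f⟯ = (k⟮F⟯).map φ := by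
    rw [IntermediateField.adjoin_map, Set.image_singleton, hφF]
  have hle : k⟮aeval (xx k L) f⟯ ≤ k⟮xx k L⟯ := by
    rw [hmap, hmapT]
    exact IntermediateField.map_mono φ le_top
  have hrel : IntermediateField.relfinrank k⟮aeval (xx k L) f⟯ k⟮xx k L⟯ = f.natDegree := by
    rw [hmap, hmapT, IntermediateField.relfinrank_map_map,
      IntermediateField.relfinrank_top_right, RatFunc.finrank_eq_max_natDegree,
      df_deg F f 1 one_ne_zero isCoprime_one_right (by rw [map_one, mul_one])]
    rw [natDegree_one]
    exact max_eq_left (Nat.zero_le _)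
  have hfin : Module.finrank k⟮xx k L⟯ L = Module.finrank (RatFunc k) L := by
    have hr : φ.fieldRange = k⟮xx k L⟯ := by
      rw [hmap, AlgHom.fieldRange_eq_map]
    let i : RatFunc k ≃ₐ[k] k⟮xx k L⟯ :=
      (AlgEquiv.ofInjectiveField φ).trans (IntermediateField.equivOfEq hr)
    refine (Algebra.finrank_eq_of_equiv_equiv i.toRingEquiv (RingEquiv.refl L) ?_).symm
    ext x
    rfl
  refine ⟨hle, hrel.le, hfin, ?_, ?_⟩
  · apply Module.finite_of_finrank_pos
    rw [← IntermediateField.relfinrank_mul_finrank_top hle, hrel, hfin]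
    exact Nat.mul_pos hf Module.finrank_pos
  · have h1 : Transcendental k (RatFunc.X : RatFunc k) := RatFunc.transcendental_X
    exact (transcendental_algebraMap_iff (FaithfulSMul.algebraMap_injective (RatFunc k) L)).2 h1

end Pool.Agent.AIC
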