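import Pool.Agent.AIC.Defs

/-!
`[k(v) : k(T)] = q^2 - 1` for `T = (v^(q^2-1) + 1) / v^(q-1)`.

PROOF. `v` is transcendental, so `k⟮v⟯` is isomorphic to `RatFunc k` with `v ↦ X`
(`IntermediateField.adjoinSimple...`/`algEquivOfTranscendental`), and `T` corresponds to
`f = (X^(q^2-1) + 1) / X^(q-1)`, numerator and denominator coprime, so `max (natDegree num) (natDegree denom) = q^2 - 1`.
Use the degree formula for `k(f) ⊆ k(X)` in `Mathlib/FieldTheory/RatFunc/IntermediateField.lean` (search for
`finrank_eq_max_natDegree`) and transport. Note `T ∈ k⟮v⟯`, so `k⟮T⟯ ≤ k⟮v⟯` and `relfinrank k⟮T⟯ k⟮v⟯` is the degree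
of `k⟮v⟯` over `k⟮T⟯` (`IntermediateField.relfinrank_eq_finrank_of_le`).
Alternatively: `v` is a root of `Y^(q^2-1) - T Y^(q-1) + 1` over `k⟮T⟯`, irreducible by Gauss (linear in `T`).
-/

set_option autoImplicit false

namespace Pool.Agent.AIC

open IntermediateField

private theorem dv_deg {k : Type*} [Field k] (f : RatFunc k) (P Q : Polynomial k)
    (hQ : Q ≠ 0) (hc : IsCoprime P Q)
    (hf : f * algebraMap (Polynomial k) (RatFunc k) Q = algebraMap (Polynomial k) (RatFunc k) P) :
    max f.num.natDegree f.denom.natDegree = max P.natDegree Q.natDegree := by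
  have hd0 := f.denom_ne_zero
  have hd0' : algebraMap (Polynomial k) (RatFunc k) f.denom ≠ 0 :=
    RatFunc.algebraMap_ne_zero hd0
  have h1 : f.num * Q = P * f.denom := by
    apply RatFunc.algebraMap_injective k
    rw [map_mul, map_mul, ← hf]
    have h2 := RatFunc.num_div_denom f
    rw [div_eq_iff hd0'] at h2
    rw [h2]
    ring
  have hc' := f.isCoprime_num_denom
  have d1 : f.denom ∣ Q := by
    have : f.denom ∣ f.num * Q := ⟨P, by rw [h1]; ring⟩
    exact hc'.symm.dvd_of_dvd_mul_left this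
  have d2 : Q ∣ f.denom := by
    have : Q ∣ P * f.denom := ⟨f.num, by rw [← h1]; ring⟩
    exact hc.symm.dvd_of_dvd_mul_left this
  have e1 : f.denom.natDegree = Q.natDegree :=
    le_antisymm (Polynomial.natDegree_le_of_dvd d1 hQ) (Polynomial.natDegree_le_of_dvd d2 hd0)
  have e2 : f.num.natDegree = P.natDegree := by
    by_cases hP : P = 0
    · rw [hP, zero_mul] at h1
      rcases mul_eq_zero.1 h1 with h | h
      · rw [h, hP]
      · exact absurd h hQ
    · have hn : f.num ≠ 0 := by
        intro h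
        rw [h, zero_mul] at h1
        rcases mul_eq_zero.1 h1.symm with h | h
        · exact hP h
        · exact hd0 h
      have h3 := congrArg Polynomial.natDegree h1
      rw [Polynomial.natDegree_mul hn hQ, Polynomial.natDegree_mul hP hd0] at h3
      omega
  rw [e1, e2]

theorem degV {k L : Type*} [Field k] [Field L] [Algebra k L] (v T : L)
    (hv : Transcendental k v) (q : ℕ) (hq : 2 ≤ q)
    (hT : T * v ^ (q - 1) = v ^ (q ^ 2 - 1) + 1) :
    k⟮T⟯ ≤ k⟮v⟯ ∧ IntermediateField.relfinrank k⟮T⟯ k⟮v⟯ = q ^ 2 - 1 := by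
  classical
  have hv0 : v ≠ 0 := by
    rintro rfl
    exact hv isAlgebraic_zero
  let e := RatFunc.algEquivOfTranscendental v hv
  let φ : RatFunc k →ₐ[k] L := (k⟮v⟯.val).comp e.toAlgHom
  have hφX : φ RatFunc.X = v := RatFunc.algEquivOfTranscendental_X v hv
  have hmap : k⟮v⟯ = (⊤ : IntermediateField k (RatFunc k)).map φ := by
    rw [← RatFunc.adjoin_X, IntermediateField.adjoin_map, Set.image_singleton, hφX]
  set f : RatFunc k := (RatFunc.X ^ (q ^ 2 - 1) + 1) / RatFunc.X ^ (q - 1) with hf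
  have hX0 : (RatFunc.X : RatFunc k) ^ (q - 1) ≠ 0 := pow_ne_zero _ RatFunc.X_ne_zero
  have hφf : φ f = T := by
    rw [hf, map_div₀, map_add, map_pow, map_pow, map_one, hφX, div_eq_iff (pow_ne_zero _ hv0)]
    exact hT.symm
  have hmapT : k⟮T⟯ = (k⟮f⟯).map φ := by
    rw [IntermediateField.adjoin_map, Set.image_singleton, hφf]
  have hq1 : 1 ≤ q ^ 2 := Nat.one_le_pow _ _ (by omega)
  have hq3 : q - 1 ≤ q ^ 2 - 1 := by
    have : q ≤ q ^ 2 := by nlinarith
    omega
  constructor
  · rw [hmap, hmapT]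
    exact IntermediateField.map_mono φ le_top
  · rw [hmap, hmapT, IntermediateField.relfinrank_map_map,
      IntermediateField.relfinrank_top_right, RatFunc.finrank_eq_max_natDegree,
      dv_deg f (Polynomial.X ^ (q ^ 2 - 1) + 1) (Polynomial.X ^ (q - 1))
        (pow_ne_zero _ Polynomial.X_ne_zero)]
    · rw [show (Polynomial.X ^ (q ^ 2 - 1) + 1 : Polynomial k) =
        Polynomial.X ^ (q ^ 2 - 1) + Polynomial.C 1 by rw [map_one],
        Polynomial.natDegree_X_pow_add_C, Polynomial.natDegree_X_pow]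
      exact max_eq_left hq3
    · refine ⟨1, -Polynomial.X ^ (q ^ 2 - 1 - (q - 1)), ?_⟩
      rw [neg_mul, ← pow_add, Nat.sub_add_cancel hq3]
      ring
    · rw [hf, map_add, map_pow, map_pow, map_one, RatFunc.algebraMap_X]
      exact div_mul_cancel₀ _ hX0

end Pool.Agent.AIC
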