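import Pool.Agent.AIC.LinVal

/-!
`1, W, .., W^(q-1)` are linearly independent over `k(v)`.

PROOF. The value of a non-zero element of `k⟮v⟯` is an integral power of `w v`: such an element is a quotient of two elements
`P(v)`, `P ∈ k[X]` non-zero (`IntermediateField.mem_adjoin_simple_iff`), and `w (P(v)) = (w v)^i` with `i` the
lowest exponent of `P`, because `w v < 1` and the constants have value `1`. Apply `LinVal.linearIndependent_of_val`: suppose
`w (c W^i) = w (W^j)`, `i ≠ j < q`, `w c = (w v)^l`, `l ∈ ℤ`. So `(w W)^(j-i) = (w v)^l` (`zpow`); raise to the power `q`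
and use `(w W)^q = (w v)^(-(q+1))`: `(w v)^(-(q+1)(j-i)) = (w v)^(q l)`, so `-(q+1)(j-i) = q l` (`0 < w v < 1`), hence
`q ∣ j - i`, contradiction.
-/

set_option autoImplicit false

namespace Pool.Agent.AIC

open IntermediateField
open scoped WithZero

private theorem dw_le {k L : Type*} [Field k] [Field L] [Algebra k L] (w : Valuation L ℤᵐ⁰)
    (hk : ∀ c : k, c ≠ 0 → w (algebraMap k L c) = 1) {v : L} (hv1 : w v ≤ 1)
    (P : Polynomial k) : w (Polynomial.aeval v P) ≤ 1 := by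
  rw [Polynomial.aeval_eq_sum_range]
  refine Valuation.map_sum_le w fun i _ => ?_
  rw [Algebra.smul_def, map_mul, map_pow]
  by_cases h : P.coeff i = 0
  · rw [h, map_zero, map_zero, zero_mul]
    exact zero_le_one
  · rw [hk _ h, one_mul]
    exact pow_le_one' hv1 i

private theorem dw_val {k L : Type*} [Field k] [Field L] [Algebra k L] (w : Valuation L ℤᵐ⁰)
    (hk : ∀ c : k, c ≠ 0 → w (algebraMap k L c) = 1) {v : L} (hv0 : v ≠ 0) (hv1 : w v < 1) :
    ∀ (n : ℕ) (P : Polynomial k), P ≠ 0 → P.natDegree ≤ n →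
      ∃ i : ℕ, w (Polynomial.aeval v P) = (w v) ^ i := by
  intro n
  induction n with
  | zero =>
    intro P hP hn
    have h0 : P = Polynomial.C (P.coeff 0) :=
      Polynomial.eq_C_of_natDegree_le_zero hn
    have hc : P.coeff 0 ≠ 0 := by
      intro h
      rw [h, map_zero] at h0
      exact hP h0
    refine ⟨0, ?_⟩
    rw [h0, Polynomial.aeval_C, hk _ hc, pow_zero]
  | succ n ih =>
    intro P hP hn
    have hdec := Polynomial.divX_mul_X_add P
    by_cases hc : P.coeff 0 = 0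
    · rw [hc, map_zero, add_zero] at hdec
      have hd : P.divX ≠ 0 := by
        intro h
        rw [h, zero_mul] at hdec
        exact hP hdec.symm
      obtain ⟨i, hi⟩ := ih P.divX hd (by
        rw [Polynomial.natDegree_divX_eq_natDegree_tsub_one]
        omega)
      refine ⟨i + 1, ?_⟩
      rw [← hdec, map_mul, Polynomial.aeval_X, map_mul, hi, pow_succ]
    · refine ⟨0, ?_⟩
      rw [pow_zero, ← hdec, map_add, map_mul, Polynomial.aeval_X, Polynomial.aeval_C, add_comm]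
      have h1 : w (Polynomial.aeval v P.divX * v) < w (algebraMap k L (P.coeff 0)) := by
        rw [hk _ hc, map_mul]
        exact lt_of_le_of_lt (mul_le_of_le_one_left' (dw_le w hk hv1.le _)) hv1
      rw [Valuation.map_add_eq_of_lt_left w h1, hk _ hc]

theorem degW {k L : Type*} [Field k] [Field L] [Algebra k L] (w : Valuation L ℤᵐ⁰)
    (hk : ∀ c : k, c ≠ 0 → w (algebraMap k L c) = 1) (v W : L) (hv0 : v ≠ 0) (hv1 : w v < 1)
    (q : ℕ) (hq : 1 ≤ q) (hW : (w W) ^ q * (w v) ^ (q + 1) = 1) :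
    LinearIndependent k⟮v⟯ (fun i : Fin q => W ^ (i : ℕ)) := by
  have hwv0 : 0 < w v := zero_lt_iff.2 ((Valuation.ne_zero_iff w).2 hv0)
  have hwv : w v ≠ 1 := hv1.ne
  have hwW : w W ≠ 0 := by
    intro h
    rw [h, zero_pow (by omega), zero_mul] at hW
    exact zero_ne_one hW
  have hW0 : W ≠ 0 := (Valuation.ne_zero_iff w).1 hwW
  have hval : ∀ c ∈ k⟮v⟯, c ≠ 0 → ∃ l : ℤ, w c = (w v) ^ l := by
    intro c hc hc0
    obtain ⟨r, s, rfl⟩ := (IntermediateField.mem_adjoin_simple_iff k c).1 hc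
    have hr : r ≠ 0 := by
      rintro rfl
      simp at hc0
    have hs : s ≠ 0 := by
      rintro rfl
      simp at hc0
    obtain ⟨i, hi⟩ := dw_val w hk hv0 hv1 _ r hr le_rfl
    obtain ⟨j, hj⟩ := dw_val w hk hv0 hv1 _ s hs le_rfl
    refine ⟨(i : ℤ) - j, ?_⟩
    rw [map_div₀, hi, hj, zpow_sub₀ hwv0.ne', zpow_natCast, zpow_natCast]
  refine linearIndependent_of_val w _ _ (fun i => pow_ne_zero _ hW0) fun i j hij c hc hc0 h => ?_
  obtain ⟨l, hl⟩ := hval c hc hc0
  rw [map_mul, map_pow, map_pow, hl] at h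
  have hq' : (w W) ^ (q : ℤ) = (w v) ^ (-((q : ℤ) + 1)) := by
    have h0 : (w v) ^ (q + 1) ≠ 0 := pow_ne_zero _ hwv0.ne'
    rw [zpow_neg, zpow_natCast]
    have : (w v) ^ ((q : ℤ) + 1) = (w v) ^ (q + 1) := by
      rw [← zpow_natCast]
      push_cast
      rfl
    rw [this]
    exact eq_inv_of_mul_eq_one_left hW
  have h1 : ((w v) ^ l * (w W) ^ (i : ℕ)) ^ (q : ℤ) = ((w W) ^ (j : ℕ)) ^ (q : ℤ) := by rw [h]
  rw [mul_zpow, ← zpow_natCast (w W), ← zpow_natCast (w W), ← zpow_mul, ← zpow_mul, ← zpow_mul,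
    mul_comm ((i : ℕ) : ℤ), mul_comm ((j : ℕ) : ℤ), zpow_mul (w W), zpow_mul (w W), hq',
    ← zpow_mul, ← zpow_mul, ← zpow_add₀ hwv0.ne'] at h1
  have h2 := zpow_right_injective₀ hwv0 hwv h1
  have h3 : ((i : ℕ) : ℤ) < q := by exact_mod_cast i.2
  have h4 : ((j : ℕ) : ℤ) < q := by exact_mod_cast j.2
  have he : (0 : ℤ) ≤ (i : ℕ) := Int.natCast_nonneg _
  have he' : (0 : ℤ) ≤ (j : ℕ) := Int.natCast_nonneg _
  have h5 : ((i : ℕ) : ℤ) - (j : ℕ) = (q : ℤ) * (l - ((i : ℕ) : ℤ) + (j : ℕ)) := by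
    linarith
  have h6 : l - ((i : ℕ) : ℤ) + (j : ℕ) = 0 := by
    by_contra hne
    rcases lt_or_gt_of_ne hne with h7 | h7
    · have : (q : ℤ) * (l - ((i : ℕ) : ℤ) + (j : ℕ)) ≤ -q := by nlinarith
      linarith
    · have : (q : ℤ) ≤ q * (l - ((i : ℕ) : ℤ) + (j : ℕ)) := by nlinarith
      linarith
  rw [h6, mul_zero, sub_eq_zero] at h5
  exact hij (Fin.ext (by exact_mod_cast h5))

end Pool.Agent.AIC
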