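import Pool.Agent.AIC.LinVal

/-!
`1, x, .., x^(e-1)` are linearly independent over a subfield whose values are powers of `w T = (w x)^e`.

PROOF. `LinVal.linearIndependent_of_val`: if `w (c x^i) = w (x^j)`, `i ≠ j < e`, `w c = (w T)^l = (w x)^(e l)`, then
`e l + i = j` (`0 < w x < 1`), so `e ∣ j - i`: contradiction.
-/

set_option autoImplicit false

namespace Pool.Agent.AIC

open IntermediateField
open scoped WithZero

theorem degX {k L : Type*} [Field k] [Field L] [Algebra k L] (w : Valuation L ℤᵐ⁰)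
    (K : IntermediateField k L) (x T : L) (e : ℕ) (hx0 : x ≠ 0) (hx1 : w x < 1)
    (hT : w T = (w x) ^ e) (hK : ∀ y ∈ K, y ≠ 0 → ∃ i : ℤ, w y = (w T) ^ i) :
    LinearIndependent K (fun i : Fin e => x ^ (i : ℕ)) := by
  have hwx0 : 0 < w x := zero_lt_iff.2 ((Valuation.ne_zero_iff w).2 hx0)
  have hwx : w x ≠ 1 := hx1.ne
  refine linearIndependent_of_val w K _ (fun i => pow_ne_zero _ hx0) fun i j hij c hc hc0 h => ?_
  obtain ⟨l, hl⟩ := hK c hc hc0
  rw [map_mul, map_pow, map_pow, hl, hT] at h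
  have h1 : (w x) ^ ((e : ℤ) * l + (i : ℕ)) = (w x) ^ (((j : ℕ) : ℤ)) := by
    rw [zpow_add₀ hwx0.ne', zpow_mul, zpow_natCast, zpow_natCast, zpow_natCast]
    exact h
  have h2 := zpow_right_injective₀ hwx0 hwx h1
  have h3 : ((i : ℕ) : ℤ) < e := by exact_mod_cast i.2
  have h4 : ((j : ℕ) : ℤ) < e := by exact_mod_cast j.2
  have h5 : l = 0 := by
    by_contra hl0
    have he : (0 : ℤ) ≤ (i : ℕ) := Int.natCast_nonneg _
    have he' : (0 : ℤ) ≤ (j : ℕ) := Int.natCast_nonneg _
    rcases lt_or_gt_of_ne hl0 with h6 | h6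
    · have : (e : ℤ) * l ≤ -e := by nlinarith
      linarith
    · have : (e : ℤ) ≤ e * l := by nlinarith
      linarith
  rw [h5, mul_zero, zero_add] at h2
  exact hij (Fin.ext (by exact_mod_cast h2))

end Pool.Agent.AIC
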