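import Pool.Agent.AIC.Inert1

/-!
Etaleness over the affine line means that all inertia groups are trivial.
-/

set_option autoImplicit false

namespace Pool.Agent.AIC

open IntermediateField IsDedekindDomain
open scoped WithZero

/-- If `K = k(z₀)` then `L` is finite and separable over `k(z)`, `z` the image of `z₀`. -/
theorem etIff_fs {k K L : Type*} [Field k] [Field K] [Field L] [Algebra k K]
    [Algebra K L] [Algebra k L] [IsScalarTower k K L] [FiniteDimensional K L]
    [Algebra.IsSeparable K L] (z₀ : K) (htop : k⟮z₀⟯ = ⊤) (z : L) (hz : algebraMap K L z₀ = z) :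
    FiniteDimensional k⟮z⟯ L ∧ Algebra.IsSeparable k⟮z⟯ L := by
  have hmem : ∀ x : K, algebraMap K L x ∈ k⟮z⟯ := by
    intro x
    have hx : x ∈ k⟮z₀⟯ := by rw [htop]; trivial
    have h1 : (IsScalarTower.toAlgHom k K L) x ∈
        (k⟮z₀⟯).map (IsScalarTower.toAlgHom k K L) := ⟨x, hx, rfl⟩
    rw [IntermediateField.adjoin_map] at h1
    simpa [hz] using h1
  letI : Algebra K k⟮z⟯ := (RingHom.codRestrict (algebraMap K L) k⟮z⟯ hmem).toAlgebra
  haveI : IsScalarTower K k⟮z⟯ L := IsScalarTower.of_algebraMap_eq (fun x => rfl)
  exact ⟨Module.Finite.of_restrictScalars_finite K _ L,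
    Algebra.isSeparable_tower_top_of_isSeparable K _ L⟩

theorem et_iff {k K L : Type} [Field k] [IsAlgClosed k] [Field K] [Field L] [Algebra k K]
    [Algebra K L] [Algebra k L] [IsScalarTower k K L] [FiniteDimensional K L] [IsGalois K L]
    (z₀ : K) (hz₀ : Transcendental k z₀) (htop : k⟮z₀⟯ = ⊤) (z : L) (hz : algebraMap K L z₀ = z) :
    Algebra.Etale (Algebra.adjoin k {z}) (integralClosure (Algebra.adjoin k {z}) L) ↔
      ∀ P : Ideal (integralClosure (Algebra.adjoin k {z}) L), P.IsMaximal →
        ∀ g : L ≃ₐ[K] L, (∀ b : integralClosure (Algebra.adjoin k {z}) L,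
          ∃ c ∈ P, (c : L) = g (b : L) - (b : L)) → g = 1 := by
  obtain ⟨hfin, hsep⟩ := etIff_fs (k := k) z₀ htop z hz
  have hz' : Transcendental k z := by
    subst hz
    exact (transcendental_algebraMap_iff (algebraMap K L).injective).mpr hz₀
  have h1 : Module.Finite (Algebra.adjoin k {z}) (integralClosure (Algebra.adjoin k {z}) L) :=
    finite_ic (k := k) z
  have h2 := isPrincipalIdealRing_adj (k := k) z
  have h3 : IsDedekindDomain (integralClosure (Algebra.adjoin k {z}) L) :=
    isDedekindDomain_ic (k := k) z
  have h4 : Algebra.FinitePresentation (Algebra.adjoin k {z})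
      (integralClosure (Algebra.adjoin k {z}) L) :=
    Algebra.FinitePresentation.of_finiteType.mp inferInstance
  have h5 : Module.Flat (Algebra.adjoin k {z})
      (integralClosure (Algebra.adjoin k {z}) L) := by
    rw [Module.Flat.flat_iff_torsion_eq_bot_of_isBezout,
      ← Submodule.isTorsionFree_iff_torsion_eq_bot]
    infer_instance
  constructor
  · intro het P hP g hg
    have h6 : Algebra.FormallyUnramified (Algebra.adjoin k {z})
      (integralClosure (Algebra.adjoin k {z}) L) := inferInstance
    have h7 : Algebra.IsUnramifiedAt (Algebra.adjoin k {z}) P := inferInstance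
    have h8 : P.ramificationIdx (Algebra.adjoin k {z}) = 1 := Ideal.ramificationIdx_eq_one P _
    obtain ⟨I, hI, hcard⟩ := inert_ram z₀ hz₀ htop z hz P hP
    rw [h8] at hcard
    have h9 : I = ⊥ := Subgroup.eq_bot_of_card_eq I hcard
    have hgI : g ∈ I := (hI g).2 hg
    rw [h9] at hgI
    exact Subgroup.mem_bot.mp hgI
  · intro h
    have hmax : ∀ P : Ideal (integralClosure (Algebra.adjoin k {z}) L), ∀ hP : P.IsMaximal,
        Algebra.IsUnramifiedAt (Algebra.adjoin k {z}) P := by
      intro P hP
      obtain ⟨I, hI, hcard⟩ := inert_ram z₀ hz₀ htop z hz P hP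
      have h9 : I = ⊥ := by
        rw [eq_bot_iff]
        intro g hg
        exact Subgroup.mem_bot.mpr (h P hP g ((hI g).1 hg))
      have h8 : P.ramificationIdx (Algebra.adjoin k {z}) = 1 := by
        rw [← hcard, h9]
        simp
      have hpm : (P.under (Algebra.adjoin k {z})).IsMaximal := inferInstance
      have hac : IsAlgClosed (P.under (Algebra.adjoin k {z})).ResidueField := by
        have hb : Function.Bijective
            (algebraMap (Algebra.adjoin k {z} ⧸ P.under (Algebra.adjoin k {z}))
              (P.under (Algebra.adjoin k {z})).ResidueField) :=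
          Ideal.bijective_algebraMap_quotient_residueField _
        have hs : Function.Bijective
            (algebraMap k (Algebra.adjoin k {z} ⧸ P.under (Algebra.adjoin k {z}))) := by
          refine ⟨(algebraMap k _).injective, ?_⟩
          intro y
          obtain ⟨a, rfl⟩ := Ideal.Quotient.mk_surjective y
          obtain ⟨-, -, hc⟩ := exists_const (k := k) z hz' P hP
          obtain ⟨c, hc⟩ := hc (algebraMap _ _ a)
          refine ⟨c, ?_⟩
          have hc2 : a - algebraMap k (Algebra.adjoin k {z}) c ∈
              P.under (Algebra.adjoin k {z}) := by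
            rw [Ideal.mem_comap, map_sub, ← IsScalarTower.algebraMap_apply]
            exact hc
          exact ((Ideal.Quotient.eq).mpr hc2).symm
        exact IsAlgClosed.of_ringEquiv k _
          ((RingEquiv.ofBijective _ hs).trans (RingEquiv.ofBijective _ hb))
      exact Ideal.ramificationIdx_eq_one_iff.mp h8
    have h6 : Algebra.FormallyUnramified (Algebra.adjoin k {z})
        (integralClosure (Algebra.adjoin k {z}) L) := by
      rw [← Algebra.unramifiedLocus_eq_univ_iff, Set.eq_univ_iff_forall]
      intro q
      obtain ⟨m, hm, hqm⟩ := Ideal.exists_le_maximal q.asIdeal q.isPrime.ne_top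
      have h7 := hmax m hm
      by_contra hq
      rw [Algebra.unramifiedLocus_eq_compl_support] at hq
      have hq' : q ∈ Module.support (integralClosure (Algebra.adjoin k {z}) L)
        (Ω[(integralClosure (Algebra.adjoin k {z}) L)⁄(Algebra.adjoin k {z})]) := by
        simpa using hq
      have hm' : (⟨m, hm.isPrime⟩ : PrimeSpectrum _) ∈
        Module.support (integralClosure (Algebra.adjoin k {z}) L)
        (Ω[(integralClosure (Algebra.adjoin k {z}) L)⁄(Algebra.adjoin k {z})]) :=
        Module.mem_support_mono (by exact hqm) hq'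
      have hm'' : (⟨m, hm.isPrime⟩ : PrimeSpectrum _) ∈
          Algebra.unramifiedLocus (Algebra.adjoin k {z})
            (integralClosure (Algebra.adjoin k {z}) L) := h7
      rw [Algebra.unramifiedLocus_eq_compl_support] at hm''
      exact hm'' hm'
    exact Algebra.Etale.of_formallyUnramified_of_flat

end Pool.Agent.AIC
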