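import Pool.Agent.AIC.Defs

/-!
First order expansion of `u ^ M` where `u ^ M' = 1 / (1 - z)`.

PROOF. Put `y = u - 1`, `w y < 1`. For every `M`: `u ^ M = 1 + M y + y^2 * (polynomial in y with integer coefficients)`, so
`w (u ^ M - 1 - M y) ≤ (w y)^2` (induction on `M`: `u^(M+1) = u^M (1 + y)`) and `w (u^M - 1) ≤ w y` (integers have value `≤ 1`).
From `u ^ M' * (1 - z) = 1`: `u ^ M' - 1 = z * u ^ M'`, where `w (u^M') = 1`, so `w (u^M' - 1) = w z`. As `m M' = q - 1` and `q = 0` in `L`,
`(m : L) * (M' : L) = -1`, so `w (M' : L) = 1` (both factors have value `≤ 1`), and `w (u^M' - 1) = w (M' y + O(y^2)) = w y` (if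
`y ≠ 0`; `w (y^2) < w y`). Hence `w y = w z` (also when `y = 0`: then `z = 0`). Next, `z = (u^M' - 1) / u^M'`, so
`z - M' y = (u^M' - 1 - M' y) - z (u^M' - 1)` has value `≤ (w z)^2`. Multiply by `m`: `m z + y` has value `≤ (w z)^2`. Finally
`u ^ M - 1 + m M z = (u^M - 1 - M y) + M (y + m z)` has value `≤ (w z)^2`.
-/

set_option autoImplicit false

namespace Pool.Agent.AIC

open scoped WithZero

private theorem nat_le {L : Type*} [Field L] (w : Valuation L ℤᵐ⁰) (n : ℕ) : w (n : L) ≤ 1 := by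
  induction n with
  | zero => simp
  | succ n ih =>
    rw [Nat.cast_succ]
    refine (w.map_add _ _).trans ?_
    rw [w.map_one]
    exact max_le ih le_rfl

private theorem expand {L : Type*} [Field L] (w : Valuation L ℤᵐ⁰) {y : L} (hy : w y < 1)
    (M : ℕ) : w ((1 + y) ^ M - 1 - (M : L) * y) ≤ (w y) ^ 2 := by
  have h1 : w (1 + y) ≤ 1 := by
    refine (w.map_add _ _).trans ?_
    rw [w.map_one]
    exact max_le le_rfl hy.le
  induction M with
  | zero => simp
  | succ M ih =>
    have e : (1 + y) ^ (M + 1) - 1 - ((M + 1 : ℕ) : L) * y =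
        ((1 + y) ^ M - 1 - (M : L) * y) * (1 + y) + (M : L) * y ^ 2 := by
      push_cast
      ring
    rw [e]
    refine (w.map_add _ _).trans (max_le ?_ ?_)
    · rw [w.map_mul]
      exact (mul_le_mul' ih h1).trans (by rw [mul_one])
    · rw [w.map_mul, w.map_pow]
      exact (mul_le_mul' (nat_le w M) le_rfl).trans (by rw [one_mul])

theorem first_order {L : Type*} [Field L] (w : Valuation L ℤᵐ⁰) (q m M' M : ℕ) (hq : (q : L) = 0)
    (hq1 : 1 ≤ q) (hm : m * M' = q - 1) (u z : L) (hu : w (u - 1) < 1) (hz : u ^ M' * (1 - z) = 1) :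
    w (u ^ M - 1 + (m : L) * (M : L) * z) ≤ (w z) ^ 2 ∧ w (u ^ M - 1) ≤ w z ∧ w z < 1 := by
  obtain ⟨y, hy⟩ : ∃ y, y = u - 1 := ⟨_, rfl⟩
  have huy : u = 1 + y := by rw [hy]; ring
  rw [← hy] at hu
  have hsq : (w y) ^ 2 ≤ w y := by
    rw [pow_two]
    exact (mul_le_mul' hu.le le_rfl).trans (by rw [one_mul])
  have hB : ∀ M : ℕ, w (u ^ M - 1) ≤ w y := by
    intro M
    have e : u ^ M - 1 = (u ^ M - 1 - (M : L) * y) + (M : L) * y := by ring
    rw [e]
    refine (w.map_add _ _).trans (max_le ?_ ?_)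
    · rw [huy]
      exact (expand w hu M).trans hsq
    · rw [w.map_mul]
      exact (mul_le_mul' (nat_le w M) le_rfl).trans (by rw [one_mul])
  have hwu : w u = 1 := by
    rw [huy]
    exact w.map_one_add_of_lt hu
  have hz' : z * u ^ M' = u ^ M' - 1 := by linear_combination (-1 : L) * hz
  have hwz : w z = w (u ^ M' - 1) := by
    rw [← hz', w.map_mul, w.map_pow, hwu, one_pow, mul_one]
  have hmM : (m : L) * (M' : L) = -1 := by
    have h1 : ((m * M' : ℕ) : L) = ((q - 1 : ℕ) : L) := by rw [hm]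
    rw [Nat.cast_mul, Nat.cast_sub hq1, hq, Nat.cast_one, zero_sub] at h1
    exact h1
  have hwM' : w (M' : L) = 1 := by
    have h1 : w (m : L) * w (M' : L) = 1 := by
      rw [← w.map_mul, hmM, w.map_neg, w.map_one]
    refine le_antisymm (nat_le w M') ?_
    calc (1 : ℤᵐ⁰) = w (m : L) * w (M' : L) := h1.symm
      _ ≤ 1 * w (M' : L) := mul_le_mul' (nat_le w m) le_rfl
      _ = w (M' : L) := one_mul _
  have hE := expand w hu M'
  rw [← huy] at hE
  have hwy : w (u ^ M' - 1) = w y := by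
    by_cases hy0 : y = 0
    · rw [huy, hy0]
      simp
    · have hwy0 : w y ≠ 0 := (w.ne_zero_iff).2 hy0
      have hlt : (w y) ^ 2 < w y := by
        rw [pow_two]
        calc w y * w y < w y * 1 := by
              exact mul_lt_mul_of_pos_left hu (zero_lt_iff.2 hwy0)
          _ = w y := mul_one _
      have e : u ^ M' - 1 = (M' : L) * y + (u ^ M' - 1 - (M' : L) * y) := by ring
      rw [e, w.map_add_eq_of_lt_left, w.map_mul, hwM', one_mul]
      rw [w.map_mul, hwM', one_mul]
      exact hE.trans_lt hlt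
  have hzy : w z = w y := hwz.trans hwy
  have h1 : w (z - (M' : L) * y) ≤ (w z) ^ 2 := by
    have e : z - (M' : L) * y = (u ^ M' - 1 - (M' : L) * y) - z * (u ^ M' - 1) := by
      linear_combination hz'
    rw [e]
    refine (w.map_sub _ _).trans (max_le ?_ ?_)
    · rw [hzy]
      exact hE
    · rw [w.map_mul, ← hwz, pow_two]
  have h2 : w ((m : L) * z + y) ≤ (w z) ^ 2 := by
    have e : (m : L) * z + y = (m : L) * (z - (M' : L) * y) := by
      linear_combination y * hmM
    rw [e, w.map_mul]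
    exact (mul_le_mul' (nat_le w m) h1).trans (by rw [one_mul])
  refine ⟨?_, ?_, ?_⟩
  · have e : u ^ M - 1 + (m : L) * (M : L) * z =
        (u ^ M - 1 - (M : L) * y) + (M : L) * ((m : L) * z + y) := by ring
    rw [e]
    refine (w.map_add _ _).trans (max_le ?_ ?_)
    · rw [hzy, huy]
      exact expand w hu M
    · rw [w.map_mul]
      exact (mul_le_mul' (nat_le w M) h2).trans (by rw [one_mul])
  · rw [hzy]
    exact hB M
  · rw [hzy]
    exact hu

end Pool.Agent.AIC
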