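import Pool.Agent.AIC.Defs

/-!
Elements of a field `L ⊇ F` fixed by the `q`-power map are in `F`.

PROOF. `X ^ q - X` has at most `q` roots in `L` and all `q` elements of (the image of) `F` are roots.
For `small_sub`: `W ^ q - W = ∏ c : F, (W - c)` (`FiniteField.X_pow_card_sub_X_eq_prod...` or compare monic polynomials
with the same `q` roots), so some factor has valuation `< 1` (if all factors had valuation at least `1` the
product would have valuation at least `1`).
-/

set_option autoImplicit false

namespace Pool.Agent.AIC

open Module

theorem pow_natCard {F : Type*} [Field F] [Finite F] (c : F) : c ^ (Nat.card F) = c := by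
  have := Fintype.ofFinite F
  rw [Nat.card_eq_fintype_card]
  exact FiniteField.pow_card c

theorem prod_sub {F L : Type*} [Field F] [Fintype F] [Field L] [Algebra F L] (y : L) :
    ∏ c : F, (y - algebraMap F L c) = y ^ (Nat.card F) - y := by
  classical
  have hc : 1 < Fintype.card F := Fintype.one_lt_card
  have hm : (Polynomial.X ^ Fintype.card F - Polynomial.X : Polynomial F).Monic := by
    apply Polynomial.monic_X_pow_sub
    rw [Polynomial.degree_X]
    exact_mod_cast hc
  have h := Polynomial.prod_multiset_X_sub_C_of_monic_of_roots_card_eq hm (by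
    rw [FiniteField.roots_X_pow_card_sub_X F, FiniteField.X_pow_card_sub_X_natDegree_eq F hc]
    rfl)
  rw [FiniteField.roots_X_pow_card_sub_X F] at h
  have h1 : ∏ c : F, (Polynomial.X - Polynomial.C c)
      = (Polynomial.X ^ Fintype.card F - Polynomial.X : Polynomial F) := h
  have h2 := congrArg (fun p : Polynomial F => Polynomial.aeval y p) h1
  simpa [Nat.card_eq_fintype_card, map_prod] using h2

theorem mem_range_of_pow_eq {F L : Type*} [Field F] [Finite F] [Field L] [Algebra F L] (y : L)
    (h : y ^ (Nat.card F) = y) : ∃ c : F, algebraMap F L c = y := by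
  have := Fintype.ofFinite F
  have h1 := prod_sub (F := F) y
  rw [h, sub_self, Finset.prod_eq_zero_iff] at h1
  obtain ⟨c, -, hc⟩ := h1
  exact ⟨c, (sub_eq_zero.1 hc).symm⟩

open scoped WithZero in
theorem small_sub {F L : Type*} [Field F] [Finite F] [Field L] [Algebra F L]
    (w : Valuation L ℤᵐ⁰) (y : L) (h : w (y ^ (Nat.card F) - y) < 1) :
    ∃ c : F, w (y - algebraMap F L c) < 1 := by
  have := Fintype.ofFinite F
  by_contra hc
  push Not at hc
  rw [← prod_sub (F := F) y, map_prod] at h
  exact absurd h (not_lt.2 (Finset.one_le_prod' fun c _ => hc c))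

end Pool.Agent.AIC
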