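import Pool.Agent.AIC.Ded

/-!
A valuation above `x = 0`.

PROOF. `A = Algebra.adjoin k {x}`, `B = integralClosure A L`, a Dedekind domain with fraction field `L` (`Ded`; `k⟮x⟯` is the
image of `RatFunc k`). `x` is not a unit in `B` (`x⁻¹` is not integral over `k[x]`), so there is a maximal ideal `P ∋ x`;
take `w = HeightOneSpectrum.valuation L`. Constants are units of `B`.
-/

set_option autoImplicit false

namespace Pool.Agent.AIC

open IntermediateField IsDedekindDomain
open scoped WithZero

theorem place_zero (k : Type) [Field k] (L : Type) [Field L] [Algebra k L]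
    [Algebra (RatFunc k) L] [IsScalarTower k (RatFunc k) L] [FiniteDimensional (RatFunc k) L]
    [Algebra.IsSeparable (RatFunc k) L] :
    ∃ w : Valuation L ℤᵐ⁰, (∀ c : k, c ≠ 0 → w (algebraMap k L c) = 1) ∧ w (xx k L) < 1 := by
  classical
  have hp : ∀ p : Polynomial k, algebraMap (RatFunc k) L (algebraMap (Polynomial k) (RatFunc k) p)
      = Polynomial.aeval (xx k L) p := by
    intro p
    have h1 : (IsScalarTower.toAlgHom k (RatFunc k) L).comp
        (IsScalarTower.toAlgHom k (Polynomial k) (RatFunc k)) = Polynomial.aeval (xx k L) := by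
      apply Polynomial.algHom_ext
      simp [xx, RatFunc.algebraMap_X]
    have h2 := congrArg (fun f => f p) h1
    simpa using h2
  have hmem : ∀ f : RatFunc k, algebraMap (RatFunc k) L f ∈ k⟮xx k L⟯ := by
    intro f
    have h : ∀ p : Polynomial k, Polynomial.aeval (xx k L) p ∈ k⟮xx k L⟯ := fun p =>
      IntermediateField.algebra_adjoin_le_adjoin k {xx k L}
        (Polynomial.aeval_mem_adjoin_singleton k (xx k L))
    rw [← RatFunc.num_div_denom f, map_div₀, hp, hp]
    exact div_mem (h _) (h _)
  letI : Algebra (RatFunc k) k⟮xx k L⟯ :=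
    ((algebraMap (RatFunc k) L).codRestrict k⟮xx k L⟯ hmem).toAlgebra
  haveI : IsScalarTower (RatFunc k) k⟮xx k L⟯ L :=
    IsScalarTower.of_algebraMap_eq (fun f => rfl)
  haveI hfd : FiniteDimensional k⟮xx k L⟯ L :=
    Module.Finite.of_restrictScalars_finite (RatFunc k) _ _
  haveI hsep : Algebra.IsSeparable k⟮xx k L⟯ L :=
    Algebra.isSeparable_tower_top_of_isSeparable (RatFunc k) _ _
  have htr : Transcendental k (xx k L) := by
    rw [transcendental_algebraMap_iff (algebraMap (RatFunc k) L).injective]
    apply RatFunc.transcendental_of_ne_C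
    rintro ⟨c, hc⟩
    have h1 : algebraMap (Polynomial k) (RatFunc k) Polynomial.X
        = algebraMap (Polynomial k) (RatFunc k) (Polynomial.C c) := by
      rw [RatFunc.algebraMap_X, RatFunc.algebraMap_C]
      exact hc
    have h2 := RatFunc.algebraMap_injective k h1
    exact Polynomial.X_ne_C c h2
  set A := Algebra.adjoin k {xx k L} with hA
  haveI hded : IsDedekindDomain (integralClosure A L) := isDedekindDomain_ic (xx k L)
  haveI hfr : IsFractionRing (integralClosure A L) L := isFractionRing_ic (xx k L)
  let xA : A := ⟨xx k L, Algebra.self_mem_adjoin_singleton k (xx k L)⟩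
  have hx0 : xx k L ≠ 0 := by
    intro h0
    rw [h0] at htr
    exact htr isAlgebraic_zero
  have hnu : ¬ IsUnit xA := by
    intro hu
    obtain ⟨y, hy⟩ := hu.exists_right_inv
    have hy2 : (xx k L) * (y : L) = 1 := congrArg Subtype.val hy
    have hy3 : (y : L) ∈ Algebra.adjoin k {xx k L} := y.2
    rw [Algebra.adjoin_singleton_eq_range_aeval] at hy3
    obtain ⟨p, hpy⟩ := hy3
    have h4 : Polynomial.aeval (xx k L) (Polynomial.X * p - 1) = 0 := by
      rw [map_sub, map_mul, Polynomial.aeval_X, map_one]
      rw [show Polynomial.aeval (xx k L) p = (y : L) from hpy, hy2, sub_self]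
    have h5 : Polynomial.X * p - 1 = 0 := by
      by_contra hne
      exact htr ⟨_, hne, h4⟩
    have h6 := congrArg (Polynomial.eval 0) h5
    simp at h6
  obtain ⟨P, hPmax, hPle⟩ := Ideal.exists_le_maximal (Ideal.span {xA})
    (fun h => hnu (Ideal.span_singleton_eq_top.1 h))
  haveI := hPmax
  have hinj : Function.Injective (algebraMap A (integralClosure A L)) := by
    intro a b hab
    have h1 : algebraMap (integralClosure A L) L (algebraMap A (integralClosure A L) a)
        = algebraMap (integralClosure A L) L (algebraMap A (integralClosure A L) b) :=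
      congrArg (algebraMap (integralClosure A L) L) hab
    have h2 : (a : L) = (b : L) := h1
    exact Subtype.ext h2
  obtain ⟨Q, hQmax, hQ⟩ := Ideal.exists_ideal_over_maximal_of_isIntegral
    (S := integralClosure A L) P
    (by rw [(RingHom.injective_iff_ker_eq_bot _).1 hinj]; exact bot_le)
  have hxQ : algebraMap A (integralClosure A L) xA ∈ Q := by
    rw [← Ideal.mem_comap, hQ]
    exact hPle (Ideal.mem_span_singleton_self xA)
  have hQne : Q ≠ ⊥ := by
    intro h0
    rw [h0, Ideal.mem_bot] at hxQ
    have h1 : xA = 0 := hinj (by rw [hxQ, map_zero])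
    exact hx0 (congrArg Subtype.val h1)
  let v : HeightOneSpectrum (integralClosure A L) := ⟨Q, hQmax.isPrime, hQne⟩
  refine ⟨v.valuation L, ?_, ?_⟩
  · have hle : ∀ c : k, v.valuation L (algebraMap k L c) ≤ 1 := by
      intro c
      have h1 : algebraMap k L c = algebraMap (integralClosure A L) L
          (algebraMap A (integralClosure A L) (algebraMap k A c)) := rfl
      rw [h1]
      exact v.valuation_le_one _
    intro c hc
    apply le_antisymm (hle c)
    have h2 : v.valuation L (algebraMap k L c) * v.valuation L (algebraMap k L c⁻¹) = 1 := by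
      rw [← map_mul, ← map_mul, mul_inv_cancel₀ hc, map_one, map_one]
    calc (1 : ℤᵐ⁰) = v.valuation L (algebraMap k L c) * v.valuation L (algebraMap k L c⁻¹) := h2.symm
      _ ≤ v.valuation L (algebraMap k L c) * 1 := by gcongr; exact hle _
      _ = _ := mul_one _
  · exact (v.valuation_lt_one_iff_mem (K := L) (algebraMap A (integralClosure A L) xA)).2 hxQ

end Pool.Agent.AIC
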