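import Pool.Agent.AIC.Defs

/-!
The field generated by `T` and the roots of `Y^(q^2) - T Y^q + Y` is unramified at `T = 0`.

PROOF. Let `O' = {y : L | ∀ N, ∃ P ∈ k[X], w (y - P(T)) ≤ (w T)^N}`; it is a subalgebra of `L` over `k` (sums and products:
all elements of `O'` have value `≤ 1`) containing `T`. CLAIM: every root `r` is in `O'`. First `w r ≤ 1` (if `w r > 1` then
`w (r^(q^2)) > w (T r^q), w r`). The polynomial `X^(q^2) + X` splits over the algebraically closed field `k` and is separable
(derivative `1`), `∏_c (r - c) = r^(q^2) + r = T r^q` has value `≤ w T < 1`, so there is `c ∈ k` with `c^(q^2) + c = 0` and `w (r - c) < 1`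
(otherwise all factors have value `≥ 1`). Let `y = r - c`; `y^(q^2) + y = T r^q`, so `w y ≤ w T` (`w (y^(q^2)) < w y` if `y ≠ 0`). This is the case `N ≤ 1`
(`P = c`). Step: if `δ = r - P(T)` has value `≤ (w T)^N`, `N ≥ 1`, then
`r = c + T r^q - (r - c)^(q^2) = c + T P(T)^q - (P(T) - c)^(q^2) + (T δ^q - δ^(q^2))`, and the last bracket has value `≤ (w T)^(N+1)`.
VALUES. Let `0 ≠ y ∈ O'`, `w y = exp (-a)`, choose `N` with `(w T)^N < w y` (`w T ≤ exp (-1)`). With `P` as above `w (y - P(T)) < w y`, so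
`w y = w (P(T))`, `P ≠ 0`, and `w (P(T)) = (w T)^i` with `i` the lowest exponent of `P`.
The elements of `IntermediateField.adjoin k s` are quotients of elements of `Algebra.adjoin k s`
(`IntermediateField.mem_adjoin_iff_div`), so their values are integral powers of `w T`.
-/

set_option autoImplicit false

namespace Pool.Agent.AIC

open IntermediateField
open scoped WithZero

section

variable {k L : Type*} [Field k] [Field L] [Algebra k L] (w : Valuation L ℤᵐ⁰)
    (hk : ∀ c : k, c ≠ 0 → w (algebraMap k L c) = 1) (T : L)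

include hk

private theorem unr_const (c : k) : w (algebraMap k L c) ≤ 1 := by
  by_cases hc : c = 0
  · rw [hc, map_zero, map_zero]
    exact zero_le
  · exact (hk c hc).le

private theorem unr_poly (hT1 : w T < 1) (P : Polynomial k) : w (Polynomial.aeval T P) ≤ 1 := by
  induction P using Polynomial.induction_on' with
  | add P Q hP hQ =>
    rw [map_add]
    exact (w.map_add _ _).trans (max_le hP hQ)
  | monomial n c =>
    rw [Polynomial.aeval_monomial, map_mul, map_pow]
    exact mul_le_one' (unr_const w hk c) (pow_le_one' hT1.le n)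

private theorem unr_val (hT1 : w T < 1) (P : Polynomial k) (hP : P ≠ 0) :
    ∃ i : ℕ, w (Polynomial.aeval T P) = (w T) ^ i := by
  obtain ⟨Q, hQ, hQ0⟩ := Polynomial.exists_eq_pow_rootMultiplicity_mul_and_not_dvd P hP 0
  rw [map_zero, sub_zero] at hQ hQ0
  refine ⟨Polynomial.rootMultiplicity 0 P, ?_⟩
  have h0 : Q.coeff 0 ≠ 0 := fun h => hQ0 (Polynomial.X_dvd_iff.2 h)
  have h1 : w (Polynomial.aeval T Q) = 1 := by
    have h2 : Polynomial.aeval T Q =
        algebraMap k L (Q.coeff 0) + T * Polynomial.aeval T Q.divX := by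
      conv_lhs => rw [← Polynomial.divX_mul_X_add Q]
      rw [map_add, map_mul, Polynomial.aeval_X, Polynomial.aeval_C]
      ring
    rw [h2, Valuation.map_add_eq_of_lt_left, hk _ h0]
    rw [hk _ h0, map_mul]
    exact mul_lt_one_of_lt_of_le hT1 (unr_poly w hk T hT1 _)
  conv_lhs => rw [hQ]
  rw [map_mul, map_pow, Polynomial.aeval_X, map_mul, map_pow, h1, mul_one]

/-- The approximable elements. -/
private def unrO (hT1 : w T < 1) : Subalgebra k L where
  carrier := {y | ∀ N : ℕ, ∃ P : Polynomial k, w (y - Polynomial.aeval T P) ≤ (w T) ^ N}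
  mul_mem' := by
    intro a b ha hb N
    obtain ⟨P, hP⟩ := ha N
    obtain ⟨Q, hQ⟩ := hb N
    refine ⟨P * Q, ?_⟩
    have hb1 : w b ≤ 1 := by
      have h1 : b = (b - Polynomial.aeval T Q) + Polynomial.aeval T Q := by ring
      rw [h1]
      exact (w.map_add _ _).trans (max_le (hQ.trans (pow_le_one' hT1.le N))
        (unr_poly w hk T hT1 Q))
    have h2 : a * b - Polynomial.aeval T (P * Q) = (a - Polynomial.aeval T P) * b +
        Polynomial.aeval T P * (b - Polynomial.aeval T Q) := by
      rw [map_mul]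
      ring
    rw [h2]
    refine (w.map_add _ _).trans (max_le ?_ ?_)
    · rw [map_mul]
      calc _ ≤ (w T) ^ N * 1 := mul_le_mul' hP hb1
        _ = _ := mul_one _
    · rw [map_mul]
      calc _ ≤ 1 * (w T) ^ N := mul_le_mul' (unr_poly w hk T hT1 P) hQ
        _ = _ := one_mul _
  add_mem' := by
    intro a b ha hb N
    obtain ⟨P, hP⟩ := ha N
    obtain ⟨Q, hQ⟩ := hb N
    refine ⟨P + Q, ?_⟩
    have h2 : a + b - Polynomial.aeval T (P + Q) = (a - Polynomial.aeval T P) +
        (b - Polynomial.aeval T Q) := by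
      rw [map_add]
      ring
    rw [h2]
    exact (w.map_add _ _).trans (max_le hP hQ)
  algebraMap_mem' := by
    intro c N
    refine ⟨Polynomial.C c, ?_⟩
    rw [Polynomial.aeval_C, sub_self, map_zero]
    exact zero_le

private theorem mem_unrO (hT1 : w T < 1) (y : L) : y ∈ unrO w hk T hT1 ↔
    ∀ N : ℕ, ∃ P : Polynomial k, w (y - Polynomial.aeval T P) ≤ (w T) ^ N := Iff.rfl

private theorem unr_valO (hT0 : T ≠ 0) (hT1 : w T < 1) {y : L} (hy : y ∈ unrO w hk T hT1)
    (hy0 : y ≠ 0) : ∃ i : ℕ, w y = (w T) ^ i := by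
  have hwT : w T ≠ 0 := (Valuation.ne_zero_iff _).2 hT0
  have hwy : w y ≠ 0 := (Valuation.ne_zero_iff _).2 hy0
  obtain ⟨N, hN⟩ : ∃ N : ℕ, (w T) ^ N < w y := by
    refine ⟨(WithZero.log (w y)).natAbs + 1, ?_⟩
    rw [← WithZero.exp_log hwT, ← WithZero.exp_log hwy, ← WithZero.exp_nsmul,
      WithZero.exp_lt_exp]
    rw [WithZero.log_exp]
    have h1 : WithZero.log (w T) < 0 := by
      rw [WithZero.log_lt_iff_lt_exp hwT, WithZero.exp_zero]
      exact hT1
    have h2 : WithZero.log (w T) ≤ -1 := by omega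
    have h3 : -((WithZero.log (w y)).natAbs : ℤ) ≤ WithZero.log (w y) := by omega
    have h4 : (0 : ℤ) ≤ ((WithZero.log (w y)).natAbs : ℤ) := Int.natCast_nonneg _
    rw [nsmul_eq_mul, Nat.cast_add, Nat.cast_one]
    generalize ((WithZero.log (w y)).natAbs : ℤ) = e at h3 h4 ⊢
    nlinarith
  obtain ⟨P, hP⟩ := hy N
  have h1 : w (y - Polynomial.aeval T P) < w y := hP.trans_lt hN
  have h2 : w (Polynomial.aeval T P) = w y := by
    have h3 : Polynomial.aeval T P = y - (y - Polynomial.aeval T P) := by ring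
    rw [h3]
    exact Valuation.map_sub_eq_of_lt_left _ h1
  have hP0 : P ≠ 0 := by
    rintro rfl
    rw [map_zero, map_zero] at h2
    exact hwy h2.symm
  obtain ⟨i, hi⟩ := unr_val w hk T hT1 P hP0
  exact ⟨i, h2 ▸ hi⟩

private theorem unr_root [IsAlgClosed k] (p n q : ℕ) [Fact p.Prime] [CharP k p] (hn : 0 < n)
    (hq : q = p ^ n) (hT1 : w T < 1) {r : L} (hr : Rt q (-T) r) : r ∈ unrO w hk T hT1 := by
  have hcL : CharP L p := charP_of_injective_algebraMap (algebraMap k L).injective p
  have hq2 : 2 ≤ q := by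
    rw [hq]
    exact Nat.one_lt_pow (by omega) (Fact.out : p.Prime).one_lt
  have hfr : ∀ a b : L, (a - b) ^ q = a ^ q - b ^ q := by
    intro a b
    rw [hq]
    exact sub_pow_char_pow a b n
  have hfr' : ∀ a b : L, (a + b) ^ q = a ^ q + b ^ q := by
    intro a b
    rw [hq]
    exact add_pow_char_pow a b p n
  have hfr2 : ∀ a b : L, (a - b) ^ (q ^ 2) = a ^ (q ^ 2) - b ^ (q ^ 2) := by
    intro a b
    rw [pow_two, pow_mul, pow_mul, pow_mul, hfr, hfr]
  have hfr2' : ∀ a b : L, (a + b) ^ (q ^ 2) = a ^ (q ^ 2) + b ^ (q ^ 2) := by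
    intro a b
    rw [pow_two, pow_mul, pow_mul, pow_mul, hfr', hfr']
  have hr1 : r ^ (q ^ 2) + r = T * r ^ q := by
    unfold Rt at hr
    linear_combination hr
  have hwr : w r ≤ 1 := by
    by_contra h
    rw [not_le] at h
    have h1 : r ^ (q ^ 2) = T * r ^ q - r := by linear_combination hr1
    have h2 : w (r ^ (q ^ 2)) ≤ (w r) ^ q := by
      rw [h1]
      refine (Valuation.map_sub _ _ _).trans (max_le ?_ ?_)
      · rw [map_mul, map_pow]
        calc _ ≤ 1 * (w r) ^ q := mul_le_mul' hT1.le le_rfl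
          _ = _ := one_mul _
      · exact le_self_pow₀ h.le (by omega)
    rw [map_pow] at h2
    have h3 : (w r) ^ q < (w r) ^ (q ^ 2) := pow_lt_pow_right₀ h (by nlinarith)
    exact absurd h2 (not_le.2 h3)
  obtain ⟨c, hc, hrc⟩ : ∃ c : k, c ^ (q ^ 2) + c = 0 ∧ w (r - algebraMap k L c) < 1 := by
    by_contra hcon
    push Not at hcon
    have hmon : (Polynomial.X ^ (q ^ 2) + Polynomial.X : Polynomial k).Monic := by
      refine Polynomial.monic_X_pow_add ?_
      rw [Polynomial.degree_X]
      exact_mod_cast (by nlinarith : 1 < q ^ 2)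
    have hsp : (Polynomial.X ^ (q ^ 2) + Polynomial.X : Polynomial k).Splits :=
      IsAlgClosed.splits _
    have h1 := congrArg (Polynomial.aeval r) (hsp.eq_prod_roots_of_monic hmon)
    rw [map_add, map_pow, Polynomial.aeval_X, hr1, map_multiset_prod, Multiset.map_map] at h1
    have h2 : ∀ m : Multiset k, (∀ c ∈ m, 1 ≤ w (r - algebraMap k L c)) →
        1 ≤ w ((m.map ((Polynomial.aeval r) ∘ fun c => Polynomial.X - Polynomial.C c)).prod) := by
      intro m
      induction m using Multiset.induction with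
      | empty => intro _; simp
      | cons a m ih =>
        intro h
        rw [Multiset.map_cons, Multiset.prod_cons, map_mul]
        refine one_le_mul ?_ (ih fun c hc => h c (Multiset.mem_cons_of_mem hc))
        have := h a (Multiset.mem_cons_self a m)
        simpa using this
    have h3 := h2 (Polynomial.X ^ (q ^ 2) + Polynomial.X : Polynomial k).roots (by
      intro c hc
      apply hcon
      have := (Polynomial.mem_roots hmon.ne_zero).1 hc
      simpa using this)
    rw [← h1, map_mul, map_pow] at h3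
    exact absurd h3 (not_le.2 (mul_lt_one_of_lt_of_le hT1 (pow_le_one' hwr q)))
  set c' := algebraMap k L c with hc'
  have hcL' : c' ^ (q ^ 2) + c' = 0 := by
    rw [hc', ← map_pow, ← map_add, hc, map_zero]
  have hs : (r - c') ^ (q ^ 2) + (r - c') = T * r ^ q := by
    rw [hfr2]
    linear_combination hr1 - hcL'
  have hs1 : w (r - c') ≤ w T := by
    by_cases h0 : r - c' = 0
    · rw [h0, map_zero]
      exact zero_le
    · have h1 : w ((r - c') ^ (q ^ 2)) < w (r - c') := by
        rw [map_pow]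
        exact pow_lt_self_of_lt_one₀ ((Valuation.pos_iff _).2 h0) hrc (by nlinarith)
      have h2 : w (T * r ^ q) = w (r - c') := by
        rw [← hs]
        exact Valuation.map_add_eq_of_lt_right _ h1
      rw [← h2, map_mul, map_pow]
      calc _ ≤ w T * 1 := mul_le_mul' le_rfl (pow_le_one' hwr q)
        _ = _ := mul_one _
  have hstep : ∀ N : ℕ, 1 ≤ N → ∃ P : Polynomial k, w (r - Polynomial.aeval T P) ≤ (w T) ^ N := by
    intro N hN
    induction N, hN using Nat.le_induction with
    | base =>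
      refine ⟨Polynomial.C c, ?_⟩
      rw [Polynomial.aeval_C, pow_one]
      exact hs1
    | succ N hN ih =>
      obtain ⟨P, hP⟩ := ih
      refine ⟨Polynomial.C c + Polynomial.X * P ^ q - (P - Polynomial.C c) ^ (q ^ 2), ?_⟩
      have h0 : Polynomial.aeval T (Polynomial.C c + Polynomial.X * P ^ q -
          (P - Polynomial.C c) ^ (q ^ 2)) = c' + T * (Polynomial.aeval T P) ^ q -
          (Polynomial.aeval T P - c') ^ (q ^ 2) := by
        simp only [map_sub, map_add, map_mul, map_pow, Polynomial.aeval_X, Polynomial.aeval_C, hc']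
      rw [h0]
      set R := Polynomial.aeval T P with hR
      have h1 : r - (c' + T * R ^ q - (R - c') ^ (q ^ 2)) =
          T * (r - R) ^ q - (r - R) ^ (q ^ 2) := by
        rw [hfr, hfr2, hfr2]
        rw [hfr2] at hs
        linear_combination hs
      rw [h1]
      refine (Valuation.map_sub _ _ _).trans (max_le ?_ ?_)
      · rw [map_mul, map_pow]
        calc _ ≤ w T * ((w T) ^ N) ^ q := mul_le_mul' le_rfl (pow_le_pow_left₀ zero_le hP q)
          _ = (w T) ^ (1 + N * q) := by rw [← pow_mul, pow_add, pow_one]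
          _ ≤ (w T) ^ (N + 1) := pow_le_pow_right_of_le_one' hT1.le (by nlinarith)
      · rw [map_pow]
        calc _ ≤ ((w T) ^ N) ^ (q ^ 2) := pow_le_pow_left₀ zero_le hP _
          _ = (w T) ^ (N * q ^ 2) := by rw [← pow_mul]
          _ ≤ (w T) ^ (N + 1) := by
            refine pow_le_pow_right_of_le_one' hT1.le ?_
            have h5 : 4 ≤ q ^ 2 := by nlinarith
            have h6 : N * 4 ≤ N * q ^ 2 := Nat.mul_le_mul_left N h5
            omega
  intro N
  obtain ⟨P, hP⟩ := hstep (N + 1) (by omega)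
  exact ⟨P, hP.trans (pow_le_pow_right_of_le_one' hT1.le (by omega))⟩

end

theorem unr {k L : Type*} [Field k] [IsAlgClosed k] [Field L] [Algebra k L] (p n q : ℕ)
    [Fact p.Prime] [CharP k p] (hn : 0 < n) (hq : q = p ^ n) (w : Valuation L ℤᵐ⁰)
    (hk : ∀ c : k, c ≠ 0 → w (algebraMap k L c) = 1) (T : L) (hT0 : T ≠ 0) (hT1 : w T < 1)
    (y : L) (hy : y ∈ IntermediateField.adjoin k ({T} ∪ {r : L | Rt q (-T) r})) (hy0 : y ≠ 0) :
    ∃ i : ℤ, w y = (w T) ^ i := by
  rw [IntermediateField.mem_adjoin_iff_div] at hy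
  obtain ⟨r, hr, s, hs, rfl⟩ := hy
  have hle : Algebra.adjoin k ({T} ∪ {r : L | Rt q (-T) r}) ≤ unrO w hk T hT1 := by
    rw [Algebra.adjoin_le_iff]
    rintro x (rfl | hx)
    · intro N
      refine ⟨Polynomial.X, ?_⟩
      rw [Polynomial.aeval_X, sub_self, map_zero]
      exact zero_le
    · exact unr_root w hk T p n q hn hq hT1 hx
  have hr0 : r ≠ 0 := by
    rintro rfl
    exact hy0 (zero_div _)
  have hs0 : s ≠ 0 := by
    rintro rfl
    exact hy0 (div_zero _)
  obtain ⟨i, hi⟩ := unr_valO w hk T hT0 hT1 (hle hr) hr0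
  obtain ⟨j, hj⟩ := unr_valO w hk T hT0 hT1 (hle hs) hs0
  have hwT : w T ≠ 0 := (Valuation.ne_zero_iff _).2 hT0
  refine ⟨(i : ℤ) - j, ?_⟩
  rw [map_div₀, hi, hj, zpow_sub₀ hwT, zpow_natCast, zpow_natCast]

end Pool.Agent.AIC
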