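import Pool.Agent.AIC.Local2
import Pool.Agent.AIC.DegV
import Pool.Agent.AIC.DegW
import Pool.Agent.AIC.DegX
import Pool.Agent.AIC.DegF
import Pool.Agent.AIC.Unr
import Pool.Agent.AIC.PZero

/-!
The Galois group is large.
-/

set_option autoImplicit false

namespace Pool.Agent.AIC

open IntermediateField Polynomial
open scoped WithZero

/-- The polynomial `-f = X ^ N - ∑ β j X ^ (ε j)`. -/
noncomputable def TP {k : Type*} [Field k] (N a : ℕ) (ε : ℕ → ℕ) (β : ℕ → k) : k[X] :=
  X ^ N - ∑ j ∈ Finset.range a, C (β j) * X ^ (ε j)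

theorem natDegree_TP {k : Type*} [Field k] (N a : ℕ) (ε : ℕ → ℕ) (β : ℕ → k)
    (hε : ∀ j, j < a → ε j < N) : (TP N a ε β).natDegree = N := by
  unfold TP
  rcases Nat.eq_zero_or_pos a with h | h
  · rw [h, Finset.range_zero, Finset.sum_empty, sub_zero, natDegree_X_pow]
  have hN : 0 < N := (Nat.zero_le _).trans_lt (hε 0 h)
  rw [natDegree_sub_eq_left_of_natDegree_lt, natDegree_X_pow]
  rw [natDegree_X_pow]
  have : (∑ j ∈ Finset.range a, C (β j) * X ^ (ε j)).natDegree ≤ N - 1 := by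
    apply natDegree_sum_le_of_forall_le
    intro j hj
    rw [Finset.mem_range] at hj
    exact (natDegree_C_mul_X_pow_le _ _).trans (by have := hε j hj; omega)
  omega

theorem aeval_TP {k L : Type*} [Field k] [Field L] [Algebra k L] (N a : ℕ) (ε : ℕ → ℕ)
    (β : ℕ → k) (x : L) :
    aeval x (TP N a ε β) = -fx N a ε (fun j => algebraMap k L (β j)) x := by
  unfold TP fx
  simp
  ring

theorem val_TP {k L : Type*} [Field k] [Field L] [Algebra k L] (N a : ℕ) (ε : ℕ → ℕ)
    (β : ℕ → k) (w : Valuation L ℤᵐ⁰) (hk : ∀ c : k, c ≠ 0 → w (algebraMap k L c) = 1) (x : L)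
    (hx0 : x ≠ 0) (hx : w x < 1) (hβ0 : β 0 ≠ 0) (hN : a = 0 → ε 0 = N)
    (hε : ∀ j, j < a → ε j < N) (hε' : ∀ j, 0 < j → j < a → ε 0 < ε j) :
    w (aeval x (TP N a ε β)) = w x ^ (ε 0) := by
  rw [aeval_TP, Valuation.map_neg]
  unfold fx
  rcases Nat.eq_zero_or_pos a with h | h
  · rw [hN h, h, Finset.range_zero, Finset.sum_empty, add_zero, Valuation.map_neg, map_pow]
  · have hwx : 0 < w x := by rw [Valuation.pos_iff]; exact hx0
    obtain ⟨a', rfl⟩ : ∃ a', a = a' + 1 := ⟨a - 1, by omega⟩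
    rw [Finset.sum_range_succ', add_comm (∑ j ∈ Finset.range a', _), ← add_assoc, add_comm (-_),
      add_assoc, Valuation.map_add_eq_of_lt_left, map_mul, hk _ hβ0, one_mul, map_pow]
    rw [map_mul, hk _ hβ0, one_mul, map_pow]
    apply Valuation.map_add_lt
    · rw [Valuation.map_neg, map_pow]
      exact pow_lt_pow_right_of_lt_one₀ hwx hx (hε 0 h)
    · apply Valuation.map_sum_lt
      · exact (pow_pos hwx _).ne'
      · intro j hj
        rw [Finset.mem_range] at hj
        rw [map_mul, map_pow]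
        have h1 : w (algebraMap k L (β (j + 1))) ≤ 1 := by
          by_cases h0 : β (j + 1) = 0
          · rw [h0, map_zero, map_zero]; exact zero_le
          · rw [hk _ h0]
        calc w (algebraMap k L (β (j + 1))) * w x ^ ε (j + 1) ≤ 1 * w x ^ ε (j + 1) :=
              mul_le_mul_left h1 _
          _ = w x ^ ε (j + 1) := one_mul _
          _ < w x ^ ε 0 := pow_lt_pow_right_of_lt_one₀ hwx hx (hε' (j + 1) (by omega) (by omega))

theorem transcendental_of_val {k L : Type*} [Field k] [IsAlgClosed k] [Field L] [Algebra k L]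
    (w : Valuation L ℤᵐ⁰) (hk : ∀ c : k, c ≠ 0 → w (algebraMap k L c) = 1) (v : L) (hv0 : v ≠ 0)
    (hv : w v < 1) : Transcendental k v := by
  intro h
  have h1 : IsIntegral k v := h.isIntegral
  have h2 := IsAlgClosed.degree_eq_one_of_irreducible k (minpoly.irreducible h1)
  rw [minpoly.degree_eq_one_iff] at h2
  obtain ⟨c, rfl⟩ := h2
  rw [hk c (by rintro rfl; simp at hv0)] at hv
  exact lt_irrefl _ hv

theorem le_relfinrank {k L : Type*} [Field k] [Field L] [Algebra k L]
    (K₁ K₂ : IntermediateField k L) (h : K₁ ≤ K₂) (W : L) (hW : W ∈ K₂) (q : ℕ)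
    [FiniteDimensional K₁ L] (hli : LinearIndependent K₁ (fun i : Fin q => W ^ (i : ℕ))) :
    q ≤ relfinrank K₁ K₂ := by
  rw [relfinrank_eq_finrank_of_le h]
  have h1 : LinearIndependent K₁ (fun i : Fin q => (⟨W ^ (i : ℕ), pow_mem hW _⟩ :
      extendScalars h)) := by
    apply LinearIndependent.of_comp (extendScalars h).val.toLinearMap
    exact hli
  have h2 := h1.fintype_card_le_finrank
  rwa [Fintype.card_fin] at h2

theorem finite_of_le {k L : Type*} [Field k] [Field L] [Algebra k L]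
    {K₁ K₂ : IntermediateField k L} (h : K₁ ≤ K₂) (hf : FiniteDimensional K₁ L) :
    FiniteDimensional K₂ L := by
  have h1 := relfinrank_mul_finrank_top h
  have h2 : 0 < Module.finrank K₁ L := Module.finrank_pos
  apply Module.finite_of_finrank_pos
  rw [← h1] at h2
  exact Nat.pos_of_mul_pos_left h2

theorem count_arith {m N e0 q sa cA G : ℕ} (hq : 3 ≤ q)
    (hN : m * N = sa * (q - 1)) (he : m * e0 + 2 * sa = q + 1) (hcA : sa * cA = q)
    (h : e0 * (q * (q ^ 2 - 1)) ≤ N * G) :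
    (q + 1) * (cA * (q + 1)) ≤ G + 2 * q * (q + 1) := by
  obtain ⟨r, rfl⟩ : ∃ r, q = r + 1 := ⟨q - 1, by omega⟩
  have hr : 0 < r := by omega
  have hsa : 0 < sa := by
    rcases Nat.eq_zero_or_pos sa with h0 | h0
    · rw [h0, zero_mul] at hcA; omega
    · exact h0
  have h1 : (r + 1) ^ 2 - 1 = r * (r + 2) := by
    have : (r + 1) ^ 2 = r * (r + 2) + 1 := by ring
    omega
  rw [h1] at h
  rw [Nat.add_sub_cancel] at hN
  have h2 : m * (e0 * ((r + 1) * (r * (r + 2)))) ≤ m * (N * G) := Nat.mul_le_mul_left m h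
  have h3 : r * (m * e0 * (r + 1) * (r + 2)) ≤ r * (sa * G) := by
    calc r * (m * e0 * (r + 1) * (r + 2)) = m * (e0 * ((r + 1) * (r * (r + 2)))) := by ring
      _ ≤ m * (N * G) := h2
      _ = m * N * G := by ring
      _ = r * (sa * G) := by rw [hN]; ring
  have h4 := Nat.le_of_mul_le_mul_left h3 hr
  have h5 : sa * (m * e0 * cA * (r + 2)) ≤ sa * G := by
    calc sa * (m * e0 * cA * (r + 2)) = m * e0 * (sa * cA) * (r + 2) := by ring
      _ = m * e0 * (r + 1) * (r + 2) := by rw [hcA]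
      _ ≤ sa * G := h4
  have h6 := Nat.le_of_mul_le_mul_left h5 hsa
  have h7 : m * e0 * cA + 2 * (r + 1) = (r + 2) * cA := by
    calc m * e0 * cA + 2 * (r + 1) = m * e0 * cA + 2 * (sa * cA) := by rw [hcA]
      _ = (m * e0 + 2 * sa) * cA := by ring
      _ = (r + 2) * cA := by rw [he]
  calc (r + 1 + 1) * (cA * (r + 1 + 1)) = (r + 2) * ((r + 2) * cA) := by ring
    _ = (r + 2) * (m * e0 * cA + 2 * (r + 1)) := by rw [h7]
    _ = m * e0 * cA * (r + 2) + 2 * (r + 1) * (r + 1 + 1) := by ring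
    _ ≤ G + 2 * (r + 1) * (r + 1 + 1) := Nat.add_le_add_right h6 _

theorem full_card (p : ℕ) [Fact p.Prime] (k : Type) [Field k] [IsAlgClosed k] [CharP k p]
    (F : Type) [Field F] [Finite F] [Algebra F k]
    (L : Type) [Field L] [Algebra k L] [Algebra (RatFunc k) L] [IsScalarTower k (RatFunc k) L]
    [FiniteDimensional (RatFunc k) L] [IsGalois (RatFunc k) L] [Algebra F L]
    [IsScalarTower F k L] (S : Subfield F) (A : Submodule S F) (t : Fˣ) (β : ℕ → F)
    (ε : ℕ → ℕ) (a n N : ℕ) (hs3 : 3 ≤ Nat.card S) (hn : Module.finrank S F = n)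
    (hab : a + Module.finrank S A = n) (hA3 : 3 ≤ Nat.card A) (hβ0 : β 0 ≠ 0)
    (hN : orderOf t * N = Nat.card S ^ a * (Nat.card F - 1))
    (hε : ∀ j, j ≤ a → orderOf t * ε j + 2 * Nat.card S ^ a = Nat.card S ^ j * (Nat.card F + 1))
    (w : Valuation L ℤᵐ⁰) (hk : ∀ c : k, c ≠ 0 → w (algebraMap k L c) = 1) (v y : L)
    (hv0 : v ≠ 0) (hv1 : w v < 1)
    (hv : Rt (Nat.card F) (fx N a ε (fun j => algebraMap F L (β j)) (xx k L)) v)
    (hy : Rt (Nat.card F) (fx N a ε (fun j => algebraMap F L (β j)) (xx k L)) y)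
    (hvy : moore (Nat.card F) v y = 1) :
    (Nat.card F + 1) * (Nat.card A * (Nat.card F + 1)) ≤
      Nat.card (L ≃ₐ[RatFunc k] L) + 2 * Nat.card F * (Nat.card F + 1) := by
  have hcF : CharP F p := (algebraMap F k).charP_iff (algebraMap F k).injective p |>.2 ‹_›
  obtain ⟨d, hd⟩ := card_S_pow p S
  have hqs : Nat.card F = Nat.card S ^ n := card_eq_pow S n hn
  have hqp : Nat.card F = p ^ (d * n) := by rw [hqs, hd, pow_mul]
  have hn0 : 0 < n := by
    rw [← hn]
    exact Module.finrank_pos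
  have hq3 : 3 ≤ Nat.card F := by
    rw [hqs]
    calc 3 ≤ Nat.card S := hs3
      _ = Nat.card S ^ 1 := (pow_one _).symm
      _ ≤ Nat.card S ^ n := Nat.pow_le_pow_right (by omega) hn0
  have hdn : 0 < d * n := by
    rcases Nat.eq_zero_or_pos (d * n) with h | h
    · rw [h, pow_zero] at hqp; omega
    · exact h
  set q := Nat.card F with hq
  set s := Nat.card S with hs
  set m := orderOf t with hm
  have hm0 : 0 < m := orderOf_pos t
  set x := xx k L with hx
  let βk : ℕ → k := fun j => algebraMap F k (β j)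
  have hβk : (fun j => algebraMap F L (β j)) = fun j => algebraMap k L (βk j) := by
    funext j
    exact IsScalarTower.algebraMap_apply F k L (β j)
  have hεN : ∀ j, j < a → ε j < N := eps_lt (by omega) (by omega) hN hε
  have hN0 : 0 < N := by
    rcases Nat.eq_zero_or_pos N with h0 | h0
    · rw [h0, mul_zero] at hN
      have h1 : 0 < s ^ a := Nat.pow_pos (by omega)
      have h2 : 0 < q - 1 := by omega
      have := Nat.mul_pos h1 h2
      omega
    · exact h0
  set f := fx N a ε (fun j => algebraMap F L (β j)) x with hf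
  set T : L := aeval x (TP N a ε βk) with hT
  have hTf : T = -f := by
    rw [hT, aeval_TP, hf, hβk]
  obtain ⟨hle0, hdeg, hfin, hfd, htr⟩ := degF k L (TP N a ε βk)
    (by rw [natDegree_TP N a ε βk hεN]; exact hN0)
  rw [natDegree_TP N a ε βk hεN, ← hT] at hdeg
  -- the subfield `k(v)`
  have hvtr : Transcendental k v := transcendental_of_val w hk v hv0 hv1
  have hTv : T * v ^ (q - 1) = v ^ (q ^ 2 - 1) + 1 := by
    have h1 := (rt_iff (by omega) hv0).1 hv
    rw [hTf]
    linear_combination (-1) * h1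
  obtain ⟨hle1, hdeg1⟩ := degV v T hvtr q (by omega) hTv
  set W := y / v with hW
  have hWq : W ^ q - W = (v ^ (q + 1))⁻¹ := W_eq hv0 hvy
  have hwW : (w W) ^ q * (w v) ^ (q + 1) = 1 := by
    have h1 : w (W ^ q - W) = (w v ^ (q + 1))⁻¹ := by rw [hWq, map_inv₀, map_pow]
    have hwv : 0 < w v := by rw [Valuation.pos_iff]; exact hv0
    have h2 : 1 < w (W ^ q - W) := by
      rw [h1]
      exact (one_lt_inv₀ (pow_pos hwv _)).2 (pow_lt_one₀ zero_le hv1 (by omega))
    have h3 : 1 < w W := by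
      by_contra h3
      rw [not_lt] at h3
      have h4 : w (W ^ q) ≤ 1 := by rw [map_pow]; exact pow_le_one₀ zero_le h3
      exact absurd h2 (not_lt.2 ((Valuation.map_sub _ _ _).trans (max_le h4 h3)))
    have h4 : w (W ^ q - W) = w W ^ q := by
      rw [Valuation.map_sub_eq_of_lt_left, map_pow]
      rw [map_pow]
      calc w W = w W ^ 1 := (pow_one _).symm
        _ < w W ^ q := pow_lt_pow_right₀ h3 (by omega)
    rw [← h4, h1]
    exact inv_mul_cancel₀ (pow_pos hwv _).ne'
  have hfd1 : FiniteDimensional k⟮v⟯ L := finite_of_le hle1 hfd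
  have hle2 : k⟮v⟯ ≤ k⟮v, W⟯ := IntermediateField.adjoin.mono k {v} {v, W} (by simp)
  have hfd2 : FiniteDimensional k⟮v, W⟯ L := finite_of_le hle2 hfd1
  have hq2 : q ≤ relfinrank k⟮v⟯ k⟮v, W⟯ :=
    le_relfinrank _ _ hle2 W (IntermediateField.subset_adjoin k {v, W} (by simp)) q (degW w hk v W hv0 hv1 q (by omega) hwW)
  -- the place at zero
  obtain ⟨w₀, hk₀, hx₀⟩ := place_zero k L
  have hx0 : x ≠ 0 := by
    intro h
    have h' : xx k L = 0 := h
    rw [h'] at htr
    exact htr isAlgebraic_zero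
  have hε00 : m * ε 0 + 2 * s ^ a = q + 1 := by
    have h1 := hε 0 (Nat.zero_le a)
    rwa [pow_zero, one_mul] at h1
  have hcA : s ^ a * Nat.card A = q := by
    rw [Module.natCard_eq_pow_finrank (K := S) (V := A), hqs, ← hab, pow_add]
  have hβk0 : βk 0 ≠ 0 := by simpa [βk] using hβ0
  have hwT : w₀ T = w₀ x ^ (ε 0) := by
    refine val_TP N a ε βk w₀ hk₀ x hx0 hx₀ hβk0 ?_ hεN ?_
    · intro ha0
      have h1 := hε00
      rw [ha0, pow_zero] at h1 hN
      have h2 : m * ε 0 = m * N := by rw [hN, one_mul]; omega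
      exact Nat.eq_of_mul_eq_mul_left hm0 h2
    · intro j hj hja
      have h1 := hε j hja.le
      have h2 : 1 < s ^ j := Nat.one_lt_pow hj.ne' (by omega)
      have h3 : 1 * (q + 1) < s ^ j * (q + 1) := Nat.mul_lt_mul_of_pos_right h2 (by omega)
      have h4 : m * ε 0 < m * ε j := by omega
      exact lt_of_mul_lt_mul_left h4 (Nat.zero_le m)
  have hε0 : 0 < ε 0 := by
    rcases Nat.eq_zero_or_pos (ε 0) with h | h
    · rw [h, mul_zero, zero_add] at hε00
      have h1 : s ^ a * 3 ≤ s ^ a * Nat.card A := Nat.mul_le_mul_left _ hA3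
      rw [hcA] at h1
      omega
    · exact h
  have hT0 : T ≠ 0 := by
    intro h
    rw [h, map_zero] at hwT
    exact pow_ne_zero _ ((Valuation.ne_zero_iff w₀).2 hx0) hwT.symm
  have hT1 : w₀ T < 1 := by
    rw [hwT]
    exact pow_lt_one₀ zero_le hx₀ hε0.ne'
  have he : ε 0 ≤ Module.finrank k⟮v, W⟯ L := by
    have h1 := degX w₀ k⟮v, W⟯ x T (ε 0) hx0 hx₀ hwT ?_
    · have h2 := h1.fintype_card_le_finrank
      rwa [Fintype.card_fin] at h2
    · intro z hz hz0
      refine unr p (d * n) q hdn hqp w₀ hk₀ T hT0 hT1 z ?_ hz0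
      have hnT : -T = f := by rw [hTf, neg_neg]
      have hv' : v ∈ IntermediateField.adjoin k ({T} ∪ {r : L | Rt q (-T) r}) :=
        IntermediateField.subset_adjoin k _ (Or.inr (by
          change Rt q (-T) v
          rw [hnT]; exact hv))
      have hy' : y ∈ IntermediateField.adjoin k ({T} ∪ {r : L | Rt q (-T) r}) :=
        IntermediateField.subset_adjoin k _ (Or.inr (by
          change Rt q (-T) y
          rw [hnT]; exact hy))
      refine (IntermediateField.adjoin_le_iff.2 ?_) hz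
      rintro u hu
      rcases hu with rfl | hu
      · exact hv'
      · rw [Set.mem_singleton_iff] at hu
        rw [hu]
        exact div_mem hy' hv'
  -- the count
  have hcount : ε 0 * (q * (q ^ 2 - 1)) ≤ N * Nat.card (L ≃ₐ[RatFunc k] L) := by
    have h1 := relfinrank_mul_finrank_top hle1
    have h2 := relfinrank_mul_finrank_top hle2
    have h3 := relfinrank_mul_finrank_top hle0
    rw [hfin, ← IsGalois.card_aut_eq_finrank] at h3
    rw [← hT] at h3
    rw [hdeg1] at h1
    calc ε 0 * (q * (q ^ 2 - 1)) ≤ Module.finrank k⟮v, W⟯ L *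
          (relfinrank k⟮v⟯ k⟮v, W⟯ * (q ^ 2 - 1)) :=
          Nat.mul_le_mul he (Nat.mul_le_mul_right _ hq2)
      _ = (q ^ 2 - 1) * (relfinrank k⟮v⟯ k⟮v, W⟯ * Module.finrank k⟮v, W⟯ L) := by ring
      _ = relfinrank k⟮T⟯ k⟮xx k L⟯ * Nat.card (L ≃ₐ[RatFunc k] L) := by rw [h2, h1, h3]
      _ ≤ N * Nat.card (L ≃ₐ[RatFunc k] L) := Nat.mul_le_mul_right _ hdeg
  exact count_arith (by omega) hN hε00 hcA hcount

end Pool.Agent.AIC
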