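import Pool.Agent.AIC.Defs

/-!
A large subgroup of the Borel group in characteristic `3` which does not contain all unipotent matrices.

PROOF. Put `q = card F`, `A = {a | up a ∈ H}` (an additive subgroup), `S = {c | c A ⊆ A}` (a subring of the finite field `F`, so a
subfield), `D = card S`, `Z ⊆ Fˣ` the image of the homomorphism `H → Fˣ`, `M ↦ M 0 0` (`M 1 0 = 0`, so `M 0 0 * M 1 1 = 1`), a cyclic group,
generated by `t`, `m = orderOf t`; the kernel is `{up a | a ∈ A}`, so `card H = m * card A`. For `M ∈ H`, `z = M 0 0`: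
`M * up a * M⁻¹ = up (z ^ 2 * a)`; so `t ^ 2 ∈ S`, `(t^2)^(D-1) = 1`, `m ∣ 2 (D - 1)`. `A` is an `S`-subspace of `F`, `A ≠ F` by `hne`; `card F = D ^ l`,
`card A = D ^ i`, `i < l`. `D ≥ 3` (a power of `3`). If `i ≤ l - 2`: `card H ≤ 2 (D-1) D^(l-2) < D^l = q` (`D ≥ 3`), contradiction. So `i = l - 1`. If
`m ≠ 2 (D-1)` then `m ≤ D - 1` and `card H ≤ (D-1) D^(l-1) < q`, contradiction. So `m = 2 (D - 1)` and `z ^ m = 1` for all `z ∈ Z`.
Finally `m ∣ q - 1` (order of `Fˣ`): `2 (D - 1) ∣ D^l - 1 = (D - 1)(1 + D + .. + D^(l-1))`, so `1 + D + .. + D^(l-1)` is even; `D` is odd, so `l` is even.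
-/

set_option autoImplicit false

namespace Pool.Agent.AIC

open Matrix
open scoped MatrixGroups

/-- The group of the `a` with `up a ∈ H`. -/
def upA {F : Type*} [Field F] (H : Subgroup SL(2, F)) : AddSubgroup F where
  carrier := {a | up a ∈ H}
  zero_mem' := by
    show up 0 ∈ H
    rw [up_zero]
    exact H.one_mem
  add_mem' := by
    intro a b ha hb
    show up (a + b) ∈ H
    rw [← up_mul]
    exact H.mul_mem ha hb
  neg_mem' := by
    intro a ha
    show up (-a) ∈ H
    have h1 : up (-a) = (up a)⁻¹ := by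
      rw [eq_inv_iff_mul_eq_one, up_mul, neg_add_cancel, up_zero]
    rw [h1]
    exact H.inv_mem ha

theorem mem_upA {F : Type*} [Field F] {H : Subgroup SL(2, F)} {a : F} :
    a ∈ upA H ↔ up a ∈ H := Iff.rfl

/-- The stabiliser of a group as a subfield. -/
def stabF {F : Type*} [Field F] [Finite F] (A : AddSubgroup F) : Subfield F where
  carrier := {c | ∀ a ∈ A, c * a ∈ A}
  mul_mem' := by
    intro c d hc hd a ha
    rw [mul_assoc]
    exact hc _ (hd a ha)
  one_mem' := by
    intro a ha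
    rwa [one_mul]
  add_mem' := by
    intro c d hc hd a ha
    rw [add_mul]
    exact A.add_mem (hc a ha) (hd a ha)
  zero_mem' := by
    intro a _
    rw [zero_mul]
    exact A.zero_mem
  neg_mem' := by
    intro c hc a ha
    rw [neg_mul]
    exact A.neg_mem (hc a ha)
  inv_mem' := by
    intro c hc a ha
    by_cases h0 : c = 0
    · rw [h0, _root_.inv_zero, zero_mul]
      exact A.zero_mem
    · have hf : Function.Surjective (fun x : A => (⟨c * x, hc _ x.2⟩ : A)) := by
        apply Finite.surjective_of_injective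
        intro x y hxy
        have h1 := congrArg Subtype.val hxy
        exact Subtype.ext (mul_left_cancel₀ h0 h1)
      obtain ⟨x, hx⟩ := hf ⟨a, ha⟩
      have h1 : c * (x : F) = a := congrArg Subtype.val hx
      rw [← h1, inv_mul_cancel_left₀ h0]
      exact x.2

theorem mem_stabF {F : Type*} [Field F] [Finite F] {A : AddSubgroup F} {c : F} :
    c ∈ stabF A ↔ ∀ a ∈ A, c * a ∈ A := Iff.rfl

/-- `A` as a subspace. -/
def modA {F : Type*} [Field F] [Finite F] (A : AddSubgroup F) : Submodule (stabF A) F where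
  carrier := A
  add_mem' := A.add_mem
  zero_mem' := A.zero_mem
  smul_mem' := by
    intro c a ha
    exact c.2 a ha

theorem diag_mul {F : Type*} [Field F] {M : SL(2, F)} (h : M 1 0 = 0) :
    M 0 0 * M 1 1 = 1 := by
  have h1 := M.det_coe
  rw [det_fin_two, h, mul_zero, sub_zero] at h1
  exact h1

/-- The homomorphism `M ↦ M 0 0`. -/
def psi {F : Type*} [Field F] (H : Subgroup SL(2, F)) (hb : ∀ M ∈ H, M 1 0 = 0) : H →* Fˣ where
  toFun M := ⟨(M : SL(2, F)) 0 0, (M : SL(2, F)) 1 1, diag_mul (hb _ M.2), by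
    rw [mul_comm]; exact diag_mul (hb _ M.2)⟩
  map_one' := by
    ext
    simp
  map_mul' := by
    intro M N
    ext
    simp [Matrix.mul_apply, Fin.sum_univ_two, hb _ N.2]

theorem psi_val {F : Type*} [Field F] (H : Subgroup SL(2, F)) (hb : ∀ M ∈ H, M 1 0 = 0)
    (M : H) : ((psi H hb M : Fˣ) : F) = (M : SL(2, F)) 0 0 := rfl

theorem g3_conj_up {F : Type*} [Field F] {M : SL(2, F)} (h : M 1 0 = 0) (a : F) :
    up (M 0 0 ^ 2 * a) = M * up a * M⁻¹ := by
  rw [eq_mul_inv_iff_mul_eq]
  have h1 := diag_mul h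
  ext i j
  rw [Matrix.SpecialLinearGroup.coe_mul, Matrix.SpecialLinearGroup.coe_mul, up_val, up_val]
  fin_cases i <;> fin_cases j
  · simp [Matrix.mul_apply, Fin.sum_univ_two, h]
  · simp only [Matrix.mul_apply, Fin.sum_univ_two]
    simp
    linear_combination (M 0 0 * a) * h1
  · simp [Matrix.mul_apply, Fin.sum_univ_two, h]
  · simp [Matrix.mul_apply, Fin.sum_univ_two, h]

theorem card_H_le {F : Type*} [Field F] [Finite F] (H : Subgroup SL(2, F))
    (hb : ∀ M ∈ H, M 1 0 = 0) :
    Nat.card H ≤ Nat.card (psi H hb).range * Nat.card (upA H) := by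
  rw [← (psi H hb).ker.card_mul_index, Subgroup.index_ker, mul_comm]
  refine Nat.mul_le_mul_left _ ?_
  have key : ∀ M : (psi H hb).ker, ((M : H) : SL(2, F)) = up (((M : H) : SL(2, F)) 0 1) := by
    intro M
    have h1 : psi H hb (M : H) = 1 := M.2
    have h2 : ((M : H) : SL(2, F)) 0 0 = 1 := by
      rw [← psi_val H hb, h1]
      rfl
    have h3 := diag_mul (hb _ (M : H).2)
    rw [h2, one_mul] at h3
    ext i j
    rw [up_val]
    fin_cases i <;> fin_cases j
    · simpa using h2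
    · simp
    · simpa using hb _ (M : H).2
    · simpa using h3
  refine Nat.card_le_card_of_injective
    (fun M : (psi H hb).ker => (⟨((M : H) : SL(2, F)) 0 1, by
      rw [mem_upA, ← key]
      exact (M : H).2⟩ : upA H)) ?_
  intro M N hMN
  have h1 : ((M : H) : SL(2, F)) 0 1 = ((N : H) : SL(2, F)) 0 1 := congrArg Subtype.val hMN
  apply Subtype.ext
  apply Subtype.ext
  rw [key M, key N, h1]

theorem arith3 {D l i m q : ℕ} (hD : Odd D) (hD1 : 2 ≤ D) (hq : q = D ^ l) (hi : i < l)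
    (hm : m ∣ 2 * (D - 1)) (hm2 : m ∣ q - 1) (hc : q < m * D ^ i) :
    Even l ∧ D ^ i * D = q := by
  obtain ⟨d, hd⟩ : ∃ d, D = d + 1 := ⟨D - 1, by omega⟩
  have hd1 : D - 1 = d := by omega
  have hdp : 1 ≤ d := by omega
  rw [hd1] at hm
  have hmle : m ≤ 2 * d := Nat.le_of_dvd (by omega) hm
  have hDp : 0 < D := by omega
  -- `i = l - 1`
  have h1 : i + 1 = l := by
    by_contra hne
    have h2 : i + 2 ≤ l := by omega
    have h3 : D ^ (i + 2) ≤ D ^ l := Nat.pow_le_pow_right hDp h2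
    have h4 : m * D ^ i ≤ 2 * d * D ^ i := Nat.mul_le_mul_right _ hmle
    have h5 : 2 * d * D ^ i ≤ D ^ (i + 2) := by
      rw [pow_add, mul_comm]
      refine Nat.mul_le_mul_left _ ?_
      rw [hd]
      nlinarith
    omega
  subst h1
  have h6 : m = 2 * d := by
    obtain ⟨c, hc'⟩ := hm
    have hc0 : c ≠ 0 := by
      rintro rfl
      omega
    by_contra hne
    have hc2 : 2 ≤ c := by
      by_contra hlt
      have : c = 1 := by omega
      subst this
      omega
    have h7 : m ≤ d := by nlinarith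
    have h8 : m * D ^ i ≤ D ^ (i + 1) := by
      rw [pow_succ, mul_comm]
      exact Nat.mul_le_mul_left _ (by omega)
    omega
  refine ⟨?_, by rw [hq, pow_succ]⟩
  by_contra hodd
  obtain ⟨k, hk⟩ := Nat.not_even_iff_odd.1 hodd
  rw [h6] at hm2
  -- in the integers
  have e1 : ((2 * d : ℕ) : ℤ) ∣ (D : ℤ) ^ (i + 1) - 1 := by
    have h9 : (1 : ℕ) ≤ D ^ (i + 1) := Nat.one_le_pow _ _ hDp
    have h10 : ((D ^ (i + 1) - 1 : ℕ) : ℤ) = (D : ℤ) ^ (i + 1) - 1 := by
      rw [Nat.cast_sub h9]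
      push_cast
      ring
    rw [← h10]
    rw [hq] at hm2
    exact_mod_cast hm2
  have e2 : ((2 * d : ℕ) : ℤ) ∣ ((D : ℤ) ^ 2) ^ k - 1 ^ k := by
    refine dvd_trans ?_ (sub_dvd_pow_sub_pow ((D : ℤ) ^ 2) 1 k)
    obtain ⟨r, hr⟩ := hD
    have h11 : (D : ℤ) = 2 * r + 1 := by exact_mod_cast hr
    have h12 : (d : ℤ) = 2 * r := by
      have : d = 2 * r := by omega
      exact_mod_cast this
    refine ⟨r + 1, ?_⟩
    push_cast
    rw [h12, h11]
    ring
  have e3 : ((2 * d : ℕ) : ℤ) ∣ (d : ℤ) := by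
    have h13 : (d : ℤ) = ((D : ℤ) ^ (i + 1) - 1) - D * (((D : ℤ) ^ 2) ^ k - 1 ^ k) := by
      rw [hk, one_pow, ← pow_mul, pow_succ]
      have : (D : ℤ) = d + 1 := by exact_mod_cast hd
      linear_combination -this
    rw [h13]
    exact dvd_sub e1 (Dvd.dvd.mul_left e2 _)
  have e4 : 2 * d ∣ d := by exact_mod_cast e3
  have := Nat.le_of_dvd (by omega) e4
  omega

theorem borel3 {F : Type*} [Field F] [Finite F] [CharP F 3] (H : Subgroup SL(2, F))
    (hb : ∀ M ∈ H, M 1 0 = 0) (hcard : Nat.card F + 3 ≤ Nat.card H) (hne : ∃ a : F, up a ∉ H) :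
    ∃ (S : Subfield F) (l : ℕ), Even l ∧ 0 < l ∧ Nat.card F = Nat.card S ^ l ∧
      (∀ c : F, (∀ a, up a ∈ H → up (c * a) ∈ H) ↔ c ∈ S) ∧
      Nat.card {a : F // up a ∈ H} * Nat.card S = Nat.card F ∧
      ∀ M ∈ H, (M 0 0) ^ (2 * (Nat.card S - 1)) = 1 := by
  classical
  obtain ⟨A, hA⟩ : ∃ A, A = upA H := ⟨_, rfl⟩
  obtain ⟨D, hD⟩ : ∃ D, D = Nat.card (stabF A) := ⟨_, rfl⟩
  have hD2 : 2 ≤ D := by
    rw [hD]
    exact Finite.one_lt_card
  -- the squares of the diagonal entries
  have hsq : ∀ M ∈ H, M 0 0 ^ 2 ∈ stabF A := by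
    intro M hM a ha
    rw [hA, mem_upA] at ha ⊢
    rw [g3_conj_up (hb M hM)]
    exact H.mul_mem (H.mul_mem hM ha) (H.inv_mem hM)
  have hpow : ∀ M ∈ H, (M 0 0) ^ (2 * (D - 1)) = 1 := by
    intro M hM
    have h0 : M 0 0 ≠ 0 := by
      intro h0
      have h1 := diag_mul (hb M hM)
      rw [h0, zero_mul] at h1
      exact zero_ne_one h1
    haveI : Fintype (stabF A) := Fintype.ofFinite _
    have h2 : (⟨M 0 0 ^ 2, hsq M hM⟩ : stabF A) ≠ 0 := by
      intro h
      have := congrArg Subtype.val h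
      exact (pow_ne_zero 2 h0) this
    have h3 := FiniteField.pow_card_sub_one_eq_one _ h2
    have h4 := congrArg Subtype.val h3
    rw [← Nat.card_eq_fintype_card, ← hD] at h4
    rw [pow_mul]
    simpa using h4
  -- the dimensions
  have hq : Nat.card F = D ^ Module.finrank (stabF A) F := by
    rw [hD]
    exact Module.natCard_eq_pow_finrank
  have hAc : Nat.card A = D ^ Module.finrank (stabF A) (modA A) := by
    rw [hD]
    have h1 : Nat.card (modA A) = Nat.card (stabF A) ^ Module.finrank (stabF A) (modA A) :=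
      Module.natCard_eq_pow_finrank
    rw [← h1]
    rfl
  have hlt : Module.finrank (stabF A) (modA A) < Module.finrank (stabF A) F := by
    apply Submodule.finrank_lt
    intro htop
    obtain ⟨a, ha⟩ := hne
    apply ha
    have h1 : a ∈ modA A := by rw [htop]; exact Submodule.mem_top
    have h2 : a ∈ A := h1
    rwa [hA, mem_upA] at h2
  -- the group of the diagonal entries
  have hm1 : Nat.card (psi H hb).range ∣ 2 * (D - 1) := by
    rw [← IsCyclic.exponent_eq_card]
    apply Monoid.exponent_dvd_of_forall_pow_eq_one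
    rintro ⟨z, M, rfl⟩
    apply Subtype.ext
    apply Units.ext
    have h1 := hpow M M.2
    simpa [psi_val] using h1
  have hm2 : Nat.card (psi H hb).range ∣ Nat.card F - 1 := by
    rw [← Nat.card_units]
    exact Subgroup.card_subgroup_dvd_card _
  have hcH := card_H_le H hb
  rw [← hA, hAc] at hcH
  have hodd : Odd D := by
    haveI : Fintype F := Fintype.ofFinite F
    obtain ⟨n, -, hn⟩ := FiniteField.card F 3
    rw [← Nat.card_eq_fintype_card] at hn
    have h1 : Odd (D ^ Module.finrank (stabF A) F) := by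
      rw [← hq, hn]
      exact Odd.pow (by decide)
    exact (Nat.odd_pow_iff (by omega)).1 h1
  obtain ⟨r1, r2⟩ := arith3 hodd hD2 hq hlt hm1 hm2 (by omega)
  refine ⟨stabF A, Module.finrank (stabF A) F, r1, by omega, by rw [← hD]; exact hq, ?_, ?_, ?_⟩
  · intro c
    rw [mem_stabF, hA]
    rfl
  · rw [← hD, ← r2, ← hAc, hA]
    rfl
  · rw [← hD]
    exact hpow

end Pool.Agent.AIC
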