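import Pool.Agent.AIC.GFix

/-!
Classification of the groups `G₁ ⋊ ⟨β⟩` in `SL(2, F)` up to conjugation.

PROOF. Take `g` from `GFix.exists_conj_up` and put `A = {a | g * up a * g⁻¹ ∈ G₁}` (an additive
subgroup because `up a * up b = up (a + b)`); `a ↦ g * up a * g⁻¹` is a bijection from `A` to `G₁`, so
`A ≠ ⊥` and the cardinalities agree. Let `β' = g⁻¹ β g = (x y; z u)`. For `0 ≠ a ∈ A` the element
`β' * up a * β'⁻¹` is again some `up a'` with `a' ∈ A` (because `β` normalizes `G₁` and by the choice of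
`g`). Comparing the entries of `β' * up a = up a' * β'`, i.e. of `(x, x a + y; z, z a + u)` and
`(x + a' z, y + a' u; z, u)`, gives `z a = 0`, so `z = 0`; then `x u = 1` and `a' = x a u⁻¹ = x ^ 2 a`. Put
`t = x` (a unit). So `t ^ 2 A ⊆ A`.
* If `t ^ 2 ≠ 1`: with `c = y / (t⁻¹ - t)`: `up c * dg t * up (-c) = (t, c t⁻¹ - t c; 0, t⁻¹) = β'`.
  Replace `g` by `g * up c` (`up c` commutes with all `up a`).
* If `t ^ 2 = 1` then `β' = (t, y; 0, t)` and `β' ^ n = (t ^ n, n t ^ (n-1) y; 0, t ^ n)`; with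
  `n = orderOf β` (prime to `p`, `n > 0` because the group is finite) we get `n t ^ (n-1) y = 0`, so `y = 0` and
  `β' = dg t`.
Now `G₁ = (UA A).map (conj g)`, `β = g * dg t * g⁻¹`, so `G₁ ⊔ zpowers β` is the image of
`Std A t = UA A ⊔ zpowers (dg t)` (`Subgroup.map_sup`, `MonoidHom.map_zpowers`).
If `t = 1` then `dg t = 1` and `β = 1`.
-/

set_option autoImplicit false

namespace Pool.Agent.AIC

open Matrix
open scoped MatrixGroups

theorem exists_conj (p : ℕ) [Fact p.Prime] {F : Type*} [Field F] [Finite F] [CharP F p]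
    (G₁ : Subgroup SL(2, F)) (hG₁ : IsPGroup p G₁) (hne : G₁ ≠ ⊥) (β : SL(2, F))
    (hβ : (orderOf β).Coprime p) (hnorm : ∀ h, h ∈ G₁ ↔ β * h * β⁻¹ ∈ G₁) :
    ∃ (g : SL(2, F)) (A : AddSubgroup F) (t : Fˣ), A ≠ ⊥ ∧ Nat.card A = Nat.card G₁ ∧
      (∀ a ∈ A, (t : F) ^ 2 * a ∈ A) ∧ (t = 1 → β = 1) ∧
      G₁ ⊔ Subgroup.zpowers β = (Std A t).map (MulAut.conj g).toMonoidHom := by
  obtain ⟨g, hg⟩ := exists_conj_up p G₁ hG₁
  set A : AddSubgroup F := unipA (G₁.comap (MulAut.conj g).toMonoidHom) with hA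
  have hmemA : ∀ a, a ∈ A ↔ g * up a * g⁻¹ ∈ G₁ := by
    intro a
    rw [hA, mem_unipA]
    rfl
  have hmap : G₁ = (UA A).map (MulAut.conj g).toMonoidHom := by
    ext h
    rw [Subgroup.mem_map]
    constructor
    · intro hh
      obtain ⟨a, ha⟩ := hg h hh
      have h1 : g * up a * g⁻¹ = h := by
        rw [← ha]
        group
      refine ⟨up a, ⟨a, ?_, rfl⟩, h1⟩
      rw [hmemA, h1]
      exact hh
    · rintro ⟨x, ⟨a, ha, rfl⟩, rfl⟩
      exact (hmemA a).1 ha
  -- cardinalities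
  have hcard : Nat.card A = Nat.card G₁ := by
    refine Nat.card_congr (Equiv.ofBijective (fun a : A => (⟨g * up a.1 * g⁻¹, (hmemA _).1 a.2⟩ :
      G₁)) ⟨?_, ?_⟩)
    · intro a b hab
      have h1 : g * up a.1 * g⁻¹ = g * up b.1 * g⁻¹ := congrArg Subtype.val hab
      have h2 : up a.1 = up b.1 := mul_left_cancel (mul_right_cancel h1)
      exact Subtype.ext (up_injective h2)
    · rintro ⟨h, hh⟩
      have h1 := hh
      rw [hmap, Subgroup.mem_map] at h1
      obtain ⟨x, ⟨a, ha, rfl⟩, h2⟩ := h1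
      exact ⟨⟨a, ha⟩, Subtype.ext h2⟩
  have hAne : A ≠ ⊥ := by
    intro h0
    apply hne
    rw [Subgroup.eq_bot_iff_forall]
    intro h hh
    rw [hmap, Subgroup.mem_map] at hh
    obtain ⟨x, ⟨a, ha, rfl⟩, rfl⟩ := hh
    rw [h0, AddSubgroup.mem_bot] at ha
    rw [ha, up_zero, map_one]
  obtain ⟨b', hb'⟩ : ∃ b' : SL(2, F), b' = g⁻¹ * β * g := ⟨_, rfl⟩
  have hββ : β = g * b' * g⁻¹ := by
    rw [hb']
    group
  -- conjugation by `β'`
  have hconj : ∀ a ∈ A, ∃ a' ∈ A, b' * up a = up a' * b' := by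
    intro a ha
    have h1 := (hnorm _).1 ((hmemA a).1 ha)
    obtain ⟨a', ha'⟩ := hg _ h1
    have h2 : g * up a' * g⁻¹ = β * (g * up a * g⁻¹) * β⁻¹ := by
      rw [← ha']
      group
    refine ⟨a', ?_, ?_⟩
    · rw [hmemA, h2]
      exact h1
    · rw [← ha', hb']
      group
  obtain ⟨a, haA, ha0⟩ : ∃ a ∈ A, a ≠ 0 := by
    by_contra h
    push Not at h
    exact hAne ((AddSubgroup.eq_bot_iff_forall A).2 h)
  have h10 : b' 1 0 = 0 := by
    obtain ⟨a', -, h1⟩ := hconj a haA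
    have h2 : (b' * up a) 1 1 = (up a' * b') 1 1 := by rw [h1]
    rw [mul_entry, mul_entry, up_val, up_val] at h2
    simp at h2
    exact h2.resolve_right ha0
  have hd := det_eq b'
  rw [h10, mul_zero, sub_zero] at hd
  have hx0 : b' 0 0 ≠ 0 := left_ne_zero_of_mul_eq_one hd
  set t : Fˣ := Units.mk0 (b' 0 0) hx0 with ht
  have h00 : b' 0 0 = (t : F) := rfl
  have htA : ∀ a ∈ A, (t : F) ^ 2 * a ∈ A := by
    intro a ha
    obtain ⟨a', ha', h1⟩ := hconj a ha
    have h2 : b' * up a * b'⁻¹ = up a' := by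
      rw [h1]
      group
    rw [conj_up b' h10, h00] at h2
    rw [up_injective h2]
    exact ha'
  by_cases ht2 : (t : F) ^ 2 = 1
  · -- the scalar case
    have htt : t * t = 1 := by
      ext
      rw [Units.val_mul, Units.val_one, ← pow_two]
      exact ht2
    have hti : t⁻¹ = t := inv_eq_of_mul_eq_one_left htt
    have hM := eq_dg_mul_up b' t h10 h00
    set b : F := ((t⁻¹ : Fˣ) : F) * b' 0 1 with hb
    have hcomm : Commute (dg t) (up b) := by
      have h1 : dg t * up b * (dg t)⁻¹ = up b := by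
        rw [conj_up (dg t) (by simp [dg_val])]
        congr 1
        have : (dg t) 0 0 = (t : F) := by simp [dg_val]
        rw [this, ht2, one_mul]
      show dg t * up b = up b * dg t
      rw [mul_inv_eq_iff_eq_mul] at h1
      exact h1
    have hpow : b' ^ orderOf β = 1 := by
      have h1 : b' = g⁻¹ * β * (g⁻¹)⁻¹ := by
        rw [hb', inv_inv]
      rw [h1, conj_pow, pow_orderOf_eq_one]
      group
    rw [hM, hcomm.mul_pow, dg_pow, up_pow] at hpow
    have h01 : (dg (t ^ orderOf β) * up ((orderOf β : F) * b)) 0 1 = (1 : SL(2, F)) 0 1 := by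
      rw [hpow]
    rw [mul_entry, dg_val, up_val] at h01
    simp at h01
    have hn : (orderOf β : F) ≠ 0 := by
      intro h
      rw [CharP.cast_eq_zero_iff F p] at h
      have h2 := Nat.Coprime.eq_one_of_dvd hβ.symm h
      exact (Fact.out (p := p.Prime)).one_lt.ne' h2
    have hb0 : b = 0 := by
      rcases h01 with h | h
      · exact absurd h hn
      · exact h
    have hbd : b' = dg t := by
      rw [hM, hb0, up_zero, mul_one]
    refine ⟨g, A, t, hAne, hcard, htA, ?_, ?_⟩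
    · intro h1
      rw [hββ, hbd, h1, dg_one]
      group
    · refine std_map hmap ?_
      rw [hββ, hbd]
  · obtain ⟨c, hc⟩ := eq_conj_dg b' t h10 h00 ht2
    refine ⟨g * up c, A, t, hAne, hcard, htA, ?_, ?_⟩
    · intro h1
      exact absurd (by rw [h1]; simp) ht2
    · refine std_map ?_ ?_
      · rw [map_UA_up]
        exact hmap
      · rw [hββ, hc]
        group

end Pool.Agent.AIC
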