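import Pool.Agent.AIC.GLine
import Pool.Agent.AIC.GIndex

/-!
A `p`-subgroup of `SL(2, F)`, `F` a finite field of characteristic `p`, is conjugate to a group of
upper unipotent matrices.

PROOF. `G₁` acts (matrix times vector) on the finite set `Fin 2 → F`, whose cardinality `q ^ 2` is
divisible by `p`; the vector `0` is a fixed point, so there is a fixed vector `v ≠ 0`
(`IsPGroup.exists_fixed_point_of_prime_dvd_card_of_fixed_point`). Choose `g ∈ SL(2, F)` with first
column `v = (x, y)` : if `x ≠ 0` take `g = (x 0; y x⁻¹)`, if `x = 0` take `g = (0 -y⁻¹; y 0)`.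
For `h ∈ G₁` the matrix `m = g⁻¹ h g` has first column `(1, 0)`, and `det m = 1` gives `m 1 1 = 1`,
so `m = up (m 0 1)`.
-/

set_option autoImplicit false

namespace Pool.Agent.AIC

open Matrix
open scoped MatrixGroups

section

variable {F : Type*} [Field F]

theorem mul_entry (M N : SL(2, F)) (i j : Fin 2) : (M * N) i j = M i 0 * N 0 j + M i 1 * N 1 j := by
  rw [Matrix.SpecialLinearGroup.coe_mul, Matrix.mul_apply, Fin.sum_univ_two]

theorem inv_mul_00 (M N : SL(2, F)) :
    (M⁻¹ * N) 0 0 = M 1 1 * N 0 0 - M 0 1 * N 1 0 := by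
  have h : ((M⁻¹ * N : SL(2, F)) : Matrix (Fin 2) (Fin 2) F) =
      adjugate (M : Matrix (Fin 2) (Fin 2) F) * (N : Matrix (Fin 2) (Fin 2) F) := by
    rw [← Matrix.SpecialLinearGroup.coe_inv]
    rfl
  rw [h, adjugate_fin_two, Matrix.mul_apply, Fin.sum_univ_two]
  simp
  ring

theorem up_injective : Function.Injective (up : F → SL(2, F)) := by
  intro a b h
  have h1 : (up a) 0 1 = (up b) 0 1 := by rw [h]
  simpa [up_val] using h1

theorem up_inv (a : F) : (up a)⁻¹ = up (-a) := by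
  rw [inv_eq_iff_mul_eq_one, up_mul, add_neg_cancel, up_zero]

theorem up_pow (a : F) (n : ℕ) : up a ^ n = up (n * a) := by
  induction n with
  | zero => rw [pow_zero, Nat.cast_zero, zero_mul, up_zero]
  | succ n ih =>
    rw [pow_succ, ih, up_mul]
    congr 1
    push_cast
    ring

theorem dg_one : dg (1 : Fˣ) = 1 := by
  ext i j
  rw [Matrix.SpecialLinearGroup.coe_one, dg_val]
  fin_cases i <;> fin_cases j <;> simp

theorem dg_mul (s t : Fˣ) : dg s * dg t = dg (s * t) := by
  ext i j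
  rw [Matrix.SpecialLinearGroup.coe_mul, dg_val, dg_val, dg_val]
  fin_cases i <;> fin_cases j <;> simp [Matrix.mul_apply, mul_comm]

theorem dg_pow (t : Fˣ) (n : ℕ) : dg t ^ n = dg (t ^ n) := by
  induction n with
  | zero => rw [pow_zero, pow_zero, dg_one]
  | succ n ih => rw [pow_succ, ih, dg_mul, pow_succ]

/-- Upper triangular matrices. -/
theorem eq_dg_mul_up (M : SL(2, F)) (t : Fˣ) (h10 : M 1 0 = 0) (h00 : M 0 0 = t) :
    M = dg t * up ((t⁻¹ : Fˣ) * M 0 1) := by
  have hd := det_eq M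
  rw [h10, h00] at hd
  have h11 : M 1 1 = ((t⁻¹ : Fˣ) : F) := by
    have h1 : (t : F) * M 1 1 = 1 := by linear_combination hd
    rw [Units.val_inv_eq_inv_val]
    exact eq_inv_of_mul_eq_one_right h1
  have ht : (t : F) ≠ 0 := t.ne_zero
  ext i j
  rw [Matrix.SpecialLinearGroup.coe_mul, dg_val, up_val]
  fin_cases i <;> fin_cases j
  · simpa [Matrix.mul_apply] using h00
  · simp [Matrix.mul_apply]
  · simpa [Matrix.mul_apply] using h10
  · simpa [Matrix.mul_apply] using h11

/-- Upper triangular matrices with different diagonal entries are diagonalizable. -/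
theorem eq_conj_dg (M : SL(2, F)) (t : Fˣ) (h10 : M 1 0 = 0) (h00 : M 0 0 = t)
    (ht : (t : F) ^ 2 ≠ 1) : ∃ c : F, M = up c * dg t * (up c)⁻¹ := by
  have ht0 : (t : F) ≠ 0 := t.ne_zero
  have h1 : (t : F)⁻¹ - t ≠ 0 := by
    intro h
    apply ht
    field_simp at h
    linear_combination -h
  refine ⟨M 0 1 / ((t : F)⁻¹ - t), ?_⟩
  set c := M 0 1 / ((t : F)⁻¹ - t) with hc
  have hc' : c * ((t : F)⁻¹ - t) = M 0 1 := by
    rw [hc]
    field_simp
  rw [eq_mul_inv_iff_mul_eq]
  have hd := det_eq M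
  rw [h10, h00] at hd
  have h11 : M 1 1 = (t : F)⁻¹ := by
    have h1 : (t : F) * M 1 1 = 1 := by linear_combination hd
    exact eq_inv_of_mul_eq_one_right h1
  have key : (M * up c : SL(2, F)) = up c * dg t := by
    ext i j
    rw [Matrix.SpecialLinearGroup.coe_mul, Matrix.SpecialLinearGroup.coe_mul, dg_val, up_val]
    fin_cases i <;> fin_cases j
    · simpa [Matrix.mul_apply] using h00
    · simp only [Matrix.mul_apply, Fin.sum_univ_two]
      simp
      rw [h00]
      linear_combination -hc'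
    · simpa [Matrix.mul_apply] using h10
    · simpa [Matrix.mul_apply, h10] using h11
  exact key

/-- Conjugation of the standard group. -/
theorem std_map {g : SL(2, F)} {A : AddSubgroup F} {t : Fˣ} {G₁ : Subgroup SL(2, F)}
    {β : SL(2, F)} (h1 : G₁ = (UA A).map (MulAut.conj g).toMonoidHom) (h2 : β = g * dg t * g⁻¹) :
    G₁ ⊔ Subgroup.zpowers β = (Std A t).map (MulAut.conj g).toMonoidHom := by
  unfold Std
  rw [Subgroup.map_sup, MonoidHom.map_zpowers, h1, h2]
  rfl

/-- `up c` commutes with `UA A`. -/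
theorem map_UA_up (A : AddSubgroup F) (g : SL(2, F)) (c : F) :
    (UA A).map (MulAut.conj (g * up c)).toMonoidHom = (UA A).map (MulAut.conj g).toMonoidHom := by
  have key : ∀ a : F, (MulAut.conj (g * up c)).toMonoidHom (up a) =
      (MulAut.conj g).toMonoidHom (up a) := by
    intro a
    show g * up c * up a * (g * up c)⁻¹ = g * up a * g⁻¹
    rw [_root_.mul_inv_rev, mul_assoc g, up_mul, add_comm c a, ← up_mul]
    group
  ext M
  simp only [Subgroup.mem_map]
  constructor
  · rintro ⟨x, ⟨a, ha, rfl⟩, rfl⟩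
    exact ⟨up a, ⟨a, ha, rfl⟩, (key a).symm⟩
  · rintro ⟨x, ⟨a, ha, rfl⟩, rfl⟩
    exact ⟨up a, ⟨a, ha, rfl⟩, key a⟩

end

theorem exists_conj_up (p : ℕ) [Fact p.Prime] {F : Type*} [Field F] [Finite F] [CharP F p]
    (G₁ : Subgroup SL(2, F)) (hG₁ : IsPGroup p G₁) :
    ∃ g : SL(2, F), ∀ h ∈ G₁, ∃ a : F, g⁻¹ * h * g = up a := by
  have hdvd : p ∣ Nat.card (Fin 2 → F) := by
    rw [Nat.card_fun]
    refine dvd_pow ?_ (by simp)
    have hf := Fintype.ofFinite F
    rw [Nat.card_eq_fintype_card]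
    exact (CharP.cast_eq_zero_iff F p _).1 (Nat.cast_card_eq_zero F)
  have h0 : (0 : Fin 2 → F) ∈ MulAction.fixedPoints G₁ (Fin 2 → F) := by
    intro m
    exact smul_zero (m : SL(2, F))
  obtain ⟨v, hv, hv0⟩ := hG₁.exists_fixed_point_of_prime_dvd_card_of_fixed_point
    (Fin 2 → F) hdvd h0
  have hcop : IsCoprime (v 0) (v 1) := by
    by_cases h : v 0 = 0
    · have h1 : v 1 ≠ 0 := by
        intro h1
        apply hv0
        ext i
        fin_cases i
        · simpa using h.symm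
        · simpa using h1.symm
      exact ⟨0, (v 1)⁻¹, by rw [inv_mul_cancel₀ h1]; ring⟩
    · exact ⟨(v 0)⁻¹, 0, by rw [inv_mul_cancel₀ h]; ring⟩
  obtain ⟨g, hg0, hg1⟩ := hcop.exists_SL2_col 0
  refine ⟨g, fun h hh => ?_⟩
  have hfix : ∀ i, h i 0 * v 0 + h i 1 * v 1 = v i := by
    intro i
    have h1 : (⟨h, hh⟩ : G₁) • v = v := hv ⟨h, hh⟩
    have h2 : (h : Matrix (Fin 2) (Fin 2) F) *ᵥ v = v := h1
    have h3 := congrFun h2 i
    rw [Matrix.mulVec, dotProduct, Fin.sum_univ_two] at h3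
    exact h3
  have e0 : (h * g) 0 0 = g 0 0 := by
    rw [mul_entry, hg0, hg1]
    exact hfix 0
  have e1 : (h * g) 1 0 = g 1 0 := by
    rw [mul_entry, hg0, hg1]
    exact hfix 1
  refine ⟨(g⁻¹ * (h * g)) 0 1, ?_⟩
  rw [mul_assoc]
  refine eq_up _ ?_ ?_
  · rw [inv_mul_10, e0, e1]
    ring
  · rw [inv_mul_00, e0, e1]
    linear_combination det_eq g

end Pool.Agent.AIC
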