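import Pool.Agent.AIC.Defs

/-!
Lifting `G₁ ⋊ ⟨β⟩` through a central quotient of order prime to `p`.

PROOF. Let `M = G₁'.comap (mk' Z)` (finite, `card M = card Z * card G₁'`, `Z ≤ M`), and let `P` be a Sylow `p`-subgroup of
`M`. As `card Z` is prime to `p` and `card G₁'` is a power of `p`, `card P = card G₁'`, `P ⊓ Z = ⊥` and `P Z = M`; since `Z`
is central, `P` is normal in `M`, so it is the unique Sylow `p`-subgroup of `M` (equivalently: `P` is the set of all
elements of `M` whose order is a power of `p`). Put `G₁ = P` (mapped to `G`); it is mapped isomorphically onto `G₁'`. Let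
`β` be a lift of `β'`: conjugation by `β` maps `M` to itself, hence also `G₁ = {g ∈ M | g has p-power order}`. The order of
`β`: `β ^ (orderOf β') ∈ Z`, so `orderOf β ∣ orderOf β' * card Z` is prime to `p`.
-/

set_option autoImplicit false

namespace Pool.Agent.AIC

open Module

theorem exists_lift (p : ℕ) [Fact p.Prime] {G : Type*} [Group G] [Finite G] (Z : Subgroup G)
    [Z.Normal] (hZ : Z ≤ Subgroup.center G) (hcop : (Nat.card Z).Coprime p)
    (G₁' : Subgroup (G ⧸ Z)) (hG₁ : IsPGroup p G₁') (β' : G ⧸ Z) (hβ : (orderOf β').Coprime p)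
    (hnorm : ∀ h, h ∈ G₁' ↔ β' * h * β'⁻¹ ∈ G₁') :
    ∃ (G₁ : Subgroup G) (β : G), IsPGroup p G₁ ∧ (orderOf β).Coprime p ∧
      (∀ h, h ∈ G₁ ↔ β * h * β⁻¹ ∈ G₁) ∧ G₁.map (QuotientGroup.mk' Z) = G₁' ∧
      Nat.card G₁ = Nat.card G₁' ∧ (QuotientGroup.mk' Z) β = β' := by
  classical
  set π := QuotientGroup.mk' Z with hπ
  have hπZ : ∀ g : G, π g = 1 ↔ g ∈ Z := fun g => QuotientGroup.eq_one_iff g
  set M : Subgroup G := G₁'.comap π with hM
  have hZM : Z ≤ M := by
    intro z hz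
    show π z ∈ G₁'
    rw [(hπZ z).2 hz]
    exact G₁'.one_mem
  have hp := (Fact.out : p.Prime)
  -- the order of `Z`
  have hm : ∀ z ∈ Z, z ^ Nat.card Z = 1 := by
    intro z hz
    have h1 : (⟨z, hz⟩ : Z) ^ Nat.card Z = 1 := pow_card_eq_one'
    have h2 := congrArg (fun z : Z => (z : G)) h1
    exact h2
  -- `M` is nilpotent
  have hnil : Group.IsNilpotent M := by
    have h1 : Group.IsNilpotent G₁' := hG₁.isNilpotent
    refine Subgroup.isNilpotent_of_ker_le_center (π.subgroupComap G₁') ?_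
    intro x hx
    have h2 : (x : G) ∈ Z := by
      rw [← hπZ]
      exact congrArg Subtype.val (MonoidHom.mem_ker.1 hx)
    rw [Subgroup.mem_center_iff]
    intro y
    apply Subtype.ext
    have := Subgroup.mem_center_iff.1 (hZ h2) (y : G)
    exact this
  obtain ⟨P⟩ : Nonempty (Sylow p M) := inferInstance
  have hPn : (P : Subgroup M).Normal :=
    (Group.isNilpotent_of_finite_tfae.out 0 3 rfl rfl |>.mp hnil) p inferInstance P
  have hmemP : ∀ x : M, (∃ k : ℕ, x ^ p ^ k = 1) → x ∈ P := by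
    rintro x ⟨k, hk⟩
    have h1 : IsPGroup p (Subgroup.zpowers x) := by
      rintro ⟨_, ⟨n, rfl⟩⟩
      refine ⟨k, ?_⟩
      apply Subtype.ext
      show (x ^ n) ^ p ^ k = 1
      rw [← zpow_natCast, ← zpow_mul, mul_comm, zpow_mul, zpow_natCast, hk, one_zpow]
    obtain ⟨Q, hQ⟩ := h1.exists_le_sylow
    have := P.unique_of_normal hPn
    have h2 : Q = P := Subsingleton.elim _ _
    rw [← h2]
    exact hQ (Subgroup.mem_zpowers x)
  set G₁ : Subgroup G := (P : Subgroup M).map M.subtype with hG₁def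
  have hmem : ∀ g : G, g ∈ G₁ ↔ π g ∈ G₁' ∧ ∃ k : ℕ, g ^ p ^ k = 1 := by
    intro g
    constructor
    · rintro ⟨x, hx, rfl⟩
      refine ⟨x.2, ?_⟩
      obtain ⟨k, hk⟩ := P.2 ⟨x, hx⟩
      refine ⟨k, ?_⟩
      have := congrArg (fun z : P => ((z : M) : G)) hk
      simpa using this
    · rintro ⟨h1, k, hk⟩
      refine ⟨⟨g, h1⟩, hmemP _ ⟨k, ?_⟩, rfl⟩
      apply Subtype.ext
      show g ^ p ^ k = 1
      exact hk
  -- a lift of `β'`
  obtain ⟨β, hβπ⟩ := QuotientGroup.mk'_surjective Z β'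
  have hβπ' : π β = β' := hβπ
  have hmap : G₁.map π = G₁' := by
    apply le_antisymm
    · rintro _ ⟨g, hg, rfl⟩
      exact ((hmem g).1 hg).1
    · intro y hy
      obtain ⟨g, hg⟩ := QuotientGroup.mk'_surjective Z y
      have hg' : π g = y := hg
      obtain ⟨k, hk⟩ := hG₁ ⟨y, hy⟩
      have hk' : y ^ p ^ k = 1 := by
        have := congrArg Subtype.val hk
        simpa using this
      have h1 : g ^ p ^ k ∈ Z := by
        rw [← hπZ, map_pow, hg', hk']
      have h2 : (g ^ Nat.card Z) ^ p ^ k = 1 := by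
        rw [← pow_mul, mul_comm, pow_mul]
        exact hm _ h1
      obtain ⟨u, hu⟩ : ∃ u : ℕ, Nat.card Z * u ≡ 1 [MOD p ^ k] := by
        have hc : (Nat.card Z).Coprime (p ^ k) := hcop.pow_right k
        by_cases hk1 : p ^ k = 1
        · exact ⟨0, by rw [hk1]; exact Nat.modEq_one⟩
        · obtain ⟨u, hu⟩ := Nat.exists_mul_mod_eq_one_of_coprime hc
            (lt_of_le_of_ne (Nat.one_le_pow _ _ hp.pos) (Ne.symm hk1))
          refine ⟨u, ?_⟩
          rw [Nat.ModEq, hu.2, Nat.mod_eq_of_lt]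
          exact lt_of_le_of_ne (Nat.one_le_pow _ _ hp.pos) (Ne.symm hk1)
      refine ⟨(g ^ Nat.card Z) ^ u, ?_, ?_⟩
      · rw [SetLike.mem_coe, hmem]
        constructor
        · rw [map_pow, map_pow, hg']
          exact G₁'.pow_mem (G₁'.pow_mem hy _) _
        · exact ⟨k, by rw [← pow_mul, mul_comm, pow_mul, h2, one_pow]⟩
      · rw [map_pow, map_pow, hg', ← pow_mul]
        have h3 : y ^ (Nat.card Z * u) = y ^ 1 := by
          rw [pow_eq_pow_iff_modEq]
          exact hu.of_dvd (orderOf_dvd_of_pow_eq_one hk')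
        rw [h3, pow_one]
  refine ⟨G₁, β, ?_, ?_, ?_, hmap, ?_, hβπ'⟩
  · exact P.2.map _
  · have h1 : β ^ orderOf β' ∈ Z := by
      rw [← hπZ, map_pow, hβπ', pow_orderOf_eq_one]
    have h2 : orderOf β ∣ orderOf β' * Nat.card Z := by
      apply orderOf_dvd_of_pow_eq_one
      rw [pow_mul]
      exact hm _ h1
    exact Nat.Coprime.of_dvd_left h2 (hβ.mul_left hcop)
  · intro h
    rw [hmem, hmem]
    have e1 : π (β * h * β⁻¹) = β' * π h * β'⁻¹ := by
      rw [map_mul, map_mul, map_inv, hβπ']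
    rw [e1, ← hnorm]
    have e2 : ∀ k : ℕ, (β * h * β⁻¹) ^ p ^ k = 1 ↔ h ^ p ^ k = 1 := by
      intro k
      rw [conj_pow]
      constructor
      · intro h2
        have h3 : β * h ^ p ^ k = β := by
          rw [mul_inv_eq_one] at h2
          exact h2
        exact mul_eq_left.1 h3
      · intro h2
        rw [h2, mul_one, mul_inv_cancel]
    simp only [e2]
  · rw [← hmap]
    have hinj : Function.Injective (fun x : G₁ => (⟨π x, ⟨x, x.2, rfl⟩⟩ : G₁.map π)) := by
      intro x y hxy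
      have h1 : π x = π y := congrArg Subtype.val hxy
      have h2 : (x : G) * (y : G)⁻¹ ∈ Z := by
        rw [← hπZ, map_mul, map_inv, h1, mul_inv_cancel]
      have h3 : (x : G) * (y : G)⁻¹ ∈ G₁ := G₁.mul_mem x.2 (G₁.inv_mem y.2)
      obtain ⟨-, k, hk⟩ := (hmem _).1 h3
      have h4 := hm _ h2
      have h5 : (x : G) * (y : G)⁻¹ = 1 := by
        rw [← orderOf_eq_one_iff, ← Nat.dvd_one]
        have hc : Nat.gcd (Nat.card Z) (p ^ k) = 1 := hcop.pow_right k
        rw [← hc]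
        exact Nat.dvd_gcd (orderOf_dvd_of_pow_eq_one h4) (orderOf_dvd_of_pow_eq_one hk)
      exact Subtype.ext (mul_inv_eq_one.1 h5)
    have hsurj : Function.Surjective (fun x : G₁ => (⟨π x, ⟨x, x.2, rfl⟩⟩ : G₁.map π)) := by
      rintro ⟨_, ⟨g, hg, rfl⟩⟩
      exact ⟨⟨g, hg⟩, rfl⟩
    exact Nat.card_eq_of_bijective _ ⟨hinj, hsurj⟩

end Pool.Agent.AIC
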