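import Pool.Agent.AIC.Defs

/-!
A subgroup of the Borel group of order at least `2 q` contains all upper unipotent matrices.

PROOF. Let `φ : H → Fˣ`, `M ↦ M 0 0` (a homomorphism because `M 1 0 = 0` on `H`), let `Z` be its range, a finite
cyclic group with generator `ζ` of order `m`, and let `A = {a | up a ∈ H}`, an additive subgroup; the kernel of `φ`
is `{up a | a ∈ A}`. So `card H = m * card A`. For `M ∈ H` with `M 0 0 = z` we have
`M * up a * M⁻¹ = up (z ^ 2 * a)`, so `ζ ^ 2 A ⊆ A`. Let `F' = {c ∈ F | c A ⊆ A}`: a subring of the finite field `F`,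
hence a subfield, containing `ζ ^ 2`; let `r = card F'`. Then `(ζ ^ 2) ^ (r - 1) = 1`, so `m ∣ 2 (r - 1)` and
`m ≤ 2 (r - 1)`. `A` is an `F'`-subspace of `F`. If `A ≠ ⊤` then `card A * r ≤ card F = q` (`A` is a proper subspace;
its cardinality is `r ^ i`, `q = r ^ j`, `i < j`), so `card H * r = m * card A * r ≤ 2 (r - 1) q < 2 q r`,
contradicting `2 q ≤ card H`. Hence `A = ⊤`.
-/

set_option autoImplicit false

namespace Pool.Agent.AIC

open Matrix
open scoped MatrixGroups

section

variable {F : Type*} [Field F]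

/-- The parameters of the upper unipotent matrices in `H`. -/
def unipA (H : Subgroup SL(2, F)) : AddSubgroup F where
  carrier := {a | up a ∈ H}
  add_mem' := by
    intro a b ha hb
    simp only [Set.mem_setOf_eq] at *
    rw [← up_mul]
    exact H.mul_mem ha hb
  zero_mem' := by
    simp only [Set.mem_setOf_eq]
    rw [up_zero]
    exact H.one_mem
  neg_mem' := by
    intro a ha
    simp only [Set.mem_setOf_eq] at *
    have : up (-a) = (up a)⁻¹ := by
      rw [eq_inv_iff_mul_eq_one, up_mul, neg_add_cancel, up_zero]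
    rw [this]
    exact H.inv_mem ha

theorem mem_unipA {H : Subgroup SL(2, F)} {a : F} : a ∈ unipA H ↔ up a ∈ H := Iff.rfl

/-- The multipliers of an additive subgroup of a finite field. -/
def multF [Finite F] (A : AddSubgroup F) : Subfield F where
  carrier := {c | ∀ a ∈ A, c * a ∈ A}
  mul_mem' := by
    intro a b ha hb x hx
    rw [mul_assoc]
    exact ha _ (hb _ hx)
  one_mem' := by
    intro x hx
    rwa [one_mul]
  add_mem' := by
    intro a b ha hb x hx
    rw [add_mul]
    exact A.add_mem (ha _ hx) (hb _ hx)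
  zero_mem' := by
    intro x _
    rw [zero_mul]
    exact A.zero_mem
  neg_mem' := by
    intro a ha x hx
    rw [neg_mul]
    exact A.neg_mem (ha _ hx)
  inv_mem' := by
    intro c hc x hx
    rcases eq_or_ne c 0 with rfl | h0
    · rw [_root_.inv_zero, zero_mul]
      exact A.zero_mem
    · have hinj : Function.Injective (fun a : A => (⟨c * a.1, hc _ a.2⟩ : A)) := by
        intro a b hab
        have h1 : c * a.1 = c * b.1 := congrArg Subtype.val hab
        exact Subtype.ext (mul_left_cancel₀ h0 h1)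
      obtain ⟨y, hy⟩ := Finite.surjective_of_injective hinj ⟨x, hx⟩
      have h2 : c * y.1 = x := congrArg Subtype.val hy
      rw [← h2, ← mul_assoc, inv_mul_cancel₀ h0, one_mul]
      exact y.2

theorem mem_multF [Finite F] {A : AddSubgroup F} {c : F} : c ∈ multF A ↔ ∀ a ∈ A, c * a ∈ A :=
  Iff.rfl

theorem card_mul_multF [Finite F] (A : AddSubgroup F) (hA : A ≠ ⊤) :
    Nat.card A * Nat.card (multF A) ≤ Nat.card F := by
  obtain ⟨x, hx⟩ : ∃ x, x ∉ A := by
    by_contra h
    push Not at h
    exact hA ((AddSubgroup.eq_top_iff' A).2 h)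
  rw [← Nat.card_prod]
  refine Nat.card_le_card_of_injective (fun z : A × multF A => (z.1 : F) + (z.2 : F) * x) ?_
  rintro ⟨a, c⟩ ⟨b, d⟩ h
  simp only at h
  have h1 : ((c : F) - d) * x ∈ A := by
    have : ((c : F) - d) * x = (b : F) - a := by linear_combination h
    rw [this]
    exact A.sub_mem b.2 a.2
  have h2 : (c : F) = d := by
    by_contra hcd
    have h3 : (c : F) - d ≠ 0 := sub_ne_zero.2 hcd
    have h4 : ((c : F) - d)⁻¹ ∈ multF A := (multF A).inv_mem ((multF A).sub_mem c.2 d.2)
    have h5 := mem_multF.1 h4 _ h1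
    rw [← mul_assoc, inv_mul_cancel₀ h3, one_mul] at h5
    exact hx h5
  have h3 : (a : F) = b := by
    rw [h2] at h
    exact add_right_cancel h
  rw [Subtype.ext h2, Subtype.ext h3]

theorem det_eq (M : SL(2, F)) : M 0 0 * M 1 1 - M 0 1 * M 1 0 = 1 := by
  have := M.det_coe
  rwa [det_fin_two] at this

/-- The first diagonal entry, on groups of upper triangular matrices. -/
def diagHom (H : Subgroup SL(2, F)) (hb : ∀ M ∈ H, M 1 0 = 0) : H →* F where
  toFun M := (M : SL(2, F)) 0 0
  map_one' := by simp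
  map_mul' := by
    intro M N
    have h : (((M : SL(2, F)) * (N : SL(2, F)) : SL(2, F)) : Matrix (Fin 2) (Fin 2) F) 0 0 =
        (M : SL(2, F)) 0 0 * (N : SL(2, F)) 0 0 := by
      rw [Matrix.SpecialLinearGroup.coe_mul, Matrix.mul_apply, Fin.sum_univ_two, hb N N.2, mul_zero,
        add_zero]
    exact h

theorem diagHom_apply (H : Subgroup SL(2, F)) (hb : ∀ M ∈ H, M 1 0 = 0) (M : H) :
    diagHom H hb M = (M : SL(2, F)) 0 0 := rfl

theorem eq_up (M : SL(2, F)) (h10 : M 1 0 = 0) (h00 : M 0 0 = 1) : M = up (M 0 1) := by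
  have hd := det_eq M
  rw [h10, h00] at hd
  have h11 : M 1 1 = 1 := by linear_combination hd
  ext i j
  rw [up_val]
  fin_cases i <;> fin_cases j
  · simpa using h00
  · simp
  · simpa using h10
  · simpa using h11

theorem conj_up (M : SL(2, F)) (h10 : M 1 0 = 0) (a : F) :
    M * up a * M⁻¹ = up ((M 0 0) ^ 2 * a) := by
  rw [mul_inv_eq_iff_eq_mul]
  have hd := det_eq M
  rw [h10] at hd
  have key : (M * up a : SL(2, F)) = up ((M 0 0) ^ 2 * a) * M := by
    ext i j
    rw [Matrix.SpecialLinearGroup.coe_mul, Matrix.SpecialLinearGroup.coe_mul, up_val, up_val]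
    fin_cases i <;> fin_cases j
    · simp [Matrix.mul_apply, Fin.sum_univ_two, h10]
    · simp only [Matrix.mul_apply, Fin.sum_univ_two]
      simp
      linear_combination (-(M 0 0) * a) * hd
    · simp [Matrix.mul_apply, Fin.sum_univ_two, h10]
    · simp [Matrix.mul_apply, Fin.sum_univ_two, h10]
  exact key

end

theorem up_mem_of_card {F : Type*} [Field F] [Finite F] (H : Subgroup SL(2, F))
    (hb : ∀ M ∈ H, M 1 0 = 0) (hcard : 2 * Nat.card F ≤ Nat.card H) (a : F) : up a ∈ H := by
  classical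
  set A := unipA H with hA
  by_cases hA' : A = ⊤
  · rw [← mem_unipA, ← hA, hA']
    exact AddSubgroup.mem_top a
  exfalso
  let ψ : H →* Fˣ := (diagHom H hb).toHomUnits
  have hψ : ∀ M : H, ((ψ M : Fˣ) : F) = (M : SL(2, F)) 0 0 := fun M => rfl
  -- the kernel
  have hker : Nat.card ψ.ker ≤ Nat.card A := by
    refine Nat.card_le_card_of_injective (fun M : ψ.ker =>
      (⟨((M : H) : SL(2, F)) 0 1, ?_⟩ : A)) ?_
    · have h1 : ((M : H) : SL(2, F)) 0 0 = 1 := by
        have := M.2
        rw [MonoidHom.mem_ker] at this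
        rw [← hψ, this, Units.val_one]
      rw [hA, mem_unipA, ← eq_up _ (hb _ (M : H).2) h1]
      exact (M : H).2
    · intro M N hMN
      have h1 : ∀ M : ψ.ker, ((M : H) : SL(2, F)) 0 0 = 1 := by
        intro M
        have := M.2
        rw [MonoidHom.mem_ker] at this
        rw [← hψ, this, Units.val_one]
      have h2 : ((M : H) : SL(2, F)) 0 1 = ((N : H) : SL(2, F)) 0 1 := congrArg Subtype.val hMN
      apply Subtype.ext
      apply Subtype.ext
      rw [eq_up _ (hb _ (M : H).2) (h1 M), eq_up _ (hb _ (N : H).2) (h1 N), h2]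
  have hHcard : Nat.card H = Nat.card ψ.range * Nat.card ψ.ker := by
    rw [Subgroup.card_eq_card_quotient_mul_card_subgroup ψ.ker,
      Nat.card_congr (QuotientGroup.quotientKerEquivRange ψ).toEquiv]
  -- the range
  have hcyc : IsCyclic ψ.range := inferInstance
  obtain ⟨ζ, hζ⟩ := hcyc.exists_generator
  have hord : orderOf ζ = Nat.card ψ.range := orderOf_eq_card_of_forall_mem_zpowers hζ
  have hζ2 : (((ζ : Fˣ) : F)) ^ 2 ∈ multF A := by
    intro x hx
    obtain ⟨M, hM⟩ := ζ.2
    have h1 : (((ζ : Fˣ) : F)) = (M : SL(2, F)) 0 0 := by rw [← hM, hψ]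
    rw [h1, hA, mem_unipA, ← conj_up _ (hb _ M.2)]
    exact H.mul_mem (H.mul_mem M.2 (mem_unipA.1 hx)) (H.inv_mem M.2)
  have hζ0 : (((ζ : Fˣ) : F)) ^ 2 ≠ 0 := pow_ne_zero _ (Units.ne_zero _)
  have hr : 2 ≤ Nat.card (multF A) := Finite.one_lt_card
  have hpow : ((((ζ : Fˣ) : F)) ^ 2) ^ (Nat.card (multF A) - 1) = 1 := by
    let u : (multF A)ˣ := Units.mk0 ⟨_, hζ2⟩ (by
      intro h
      exact hζ0 (congrArg Subtype.val h))
    have h1 : u ^ Nat.card (multF A)ˣ = 1 := pow_card_eq_one'
    rw [Nat.card_units] at h1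
    have h2 := congrArg (fun v : (multF A)ˣ => ((v : multF A) : F)) h1
    simpa [u] using h2
  have hdvd : orderOf ζ ∣ 2 * (Nat.card (multF A) - 1) := by
    apply orderOf_dvd_of_pow_eq_one
    apply Subtype.ext
    apply Units.ext
    push_cast
    rw [pow_mul]
    exact hpow
  have hle : Nat.card ψ.range ≤ 2 * (Nat.card (multF A) - 1) := by
    rw [← hord]
    exact Nat.le_of_dvd (by omega) hdvd
  have h1 := card_mul_multF A hA'
  have h2 : Nat.card H ≤ 2 * (Nat.card (multF A) - 1) * Nat.card A := by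
    rw [hHcard]
    exact Nat.mul_le_mul hle hker
  obtain ⟨r, hr'⟩ : ∃ r, Nat.card (multF A) = r + 1 := ⟨Nat.card (multF A) - 1, by omega⟩
  rw [hr'] at h1 h2 hr
  rw [Nat.add_sub_cancel] at h2
  have hApos : 0 < Nat.card A := Nat.card_pos
  nlinarith

end Pool.Agent.AIC
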