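import Pool.Agent.AIC.Defs

/-!
An automorphism which is inertial at a prime of a Dedekind domain preserves the valuation and acts trivially on the
residue field.

PROOF. Write `w = P.valuation L`. For `b ∈ B` let `g b = b + c` with `c ∈ P` : so `g b ∈ B`, and `g b ∈ P ↔ b ∈ P`.
(1) Let `w y ≤ 1`. By `HeightOneSpectrum.exists_primeCompl_mul_eq_of_integer` (used in `H4FF/Place.lean`) `y * d = n` with
`n, d ∈ B`, `d ∉ P`. Then `g y - y = ((g n - n) d - n (g d - d)) / (d * g d)` has value `< 1`, because `w d = w (g d) = 1`. This is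
the second claim.
(2) Hence `w y = 1 → w (g y) = 1`, `w y < 1 → w (g y) < 1`. Let `π` be an element with `w π = exp (-1)` and
`w (g π) = exp (-j)`, `j ≥ 1`. Every `y ≠ 0` is `π ^ i * u` with `w u = 1`, `i ∈ ℤ`, so `w (g y) = exp (-(j i))`. As `g` is
surjective, some `y` has `w (g y) = exp (-1)`, so `j ∣ 1`, `j = 1` and `w (g y) = w y`.
-/

set_option autoImplicit false

namespace Pool.Agent.AIC

open IntermediateField IsDedekindDomain
open scoped WithZero

theorem place_val {L B : Type*} [Field L] [CommRing B] [IsDedekindDomain B] [Algebra B L]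
    [IsFractionRing B L] (P : HeightOneSpectrum B) (g : L ≃+* L)
    (hg : ∀ b : B, ∃ c ∈ P.asIdeal, algebraMap B L c = g (algebraMap B L b) - algebraMap B L b) :
    (∀ y, P.valuation L (g y) = P.valuation L y) ∧
      ∀ y, P.valuation L y ≤ 1 → P.valuation L (g y - y) < 1 := by
  set w := P.valuation L with hw
  have h1 : ∀ b : B, w (g (algebraMap B L b) - algebraMap B L b) < 1 := by
    intro b
    obtain ⟨c, hc, hcb⟩ := hg b
    rw [← hcb, hw, HeightOneSpectrum.valuation_lt_one_iff_mem]
    exact hc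
  have h2 : ∀ y, w y ≤ 1 → w (g y - y) < 1 := by
    intro y hy
    obtain ⟨n, ⟨d, hd⟩, hnd⟩ := P.exists_primeCompl_mul_eq_of_integer y hy
    replace hnd : y * algebraMap B L d = algebraMap B L n := hnd
    have hwd : w (algebraMap B L d) = 1 :=
      (HeightOneSpectrum.valuation_eq_one_iff_notMem P).2 hd
    have hwgd : w (g (algebraMap B L d)) = 1 := by
      have h3 : g (algebraMap B L d) =
          algebraMap B L d + (g (algebraMap B L d) - algebraMap B L d) := by ring
      rw [h3, Valuation.map_add_eq_of_lt_left, hwd]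
      rw [hwd]
      exact h1 d
    have h4 : (g y - y) * g (algebraMap B L d) =
        (g (algebraMap B L n) - algebraMap B L n) +
          y * (algebraMap B L d - g (algebraMap B L d)) := by
      rw [← hnd, map_mul]
      ring
    have h5 : w (g y - y) = w ((g y - y) * g (algebraMap B L d)) := by
      rw [map_mul, hwgd, mul_one]
    rw [h5, h4]
    refine (w.map_add _ _).trans_lt (max_lt (h1 n) ?_)
    rw [map_mul, Valuation.map_sub_swap]
    exact mul_lt_one_of_nonneg_of_lt_one_right hy zero_le (h1 d)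
  refine ⟨?_, h2⟩
  have h3 : ∀ y, w y = 1 → w (g y) = 1 := by
    intro y hy
    have h4 : g y = y + (g y - y) := by ring
    rw [h4, Valuation.map_add_eq_of_lt_left, hy]
    rw [hy]
    exact h2 y hy.le
  obtain ⟨π, hπ⟩ := P.valuation_exists_uniformizer L
  rw [← hw] at hπ
  have hπ0 : π ≠ 0 := by
    rintro rfl
    rw [map_zero] at hπ
    exact WithZero.exp_ne_zero hπ.symm
  have hgπ0 : w (g π) ≠ 0 := by
    rw [Valuation.ne_zero_iff]
    exact (map_ne_zero_iff g g.injective).2 hπ0
  have hgπ : w (g π) < 1 := by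
    have h4 : g π = π + (g π - π) := by ring
    have h5 : w π < 1 := by
      rw [hπ, ← WithZero.exp_zero, WithZero.exp_lt_exp]
      norm_num
    rw [h4]
    exact (w.map_add _ _).trans_lt (max_lt h5 (h2 π h5.le))
  obtain ⟨j, hj⟩ : ∃ j : ℤ, w (g π) = WithZero.exp (-j) :=
    ⟨-WithZero.log (w (g π)), by rw [neg_neg, WithZero.exp_log hgπ0]⟩
  have hj0 : 0 < j := by
    rw [hj, ← WithZero.exp_zero, WithZero.exp_lt_exp] at hgπ
    linarith
  have hval : ∀ y (n : ℤ), w y = WithZero.exp n → w (g y) = WithZero.exp (j * n) := by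
    intro y n hy
    have h4 : w (y * π ^ n) = 1 := by
      rw [map_mul, map_zpow₀, hy, hπ, ← WithZero.exp_zsmul, ← WithZero.exp_add]
      simp
    have h5 := h3 _ h4
    rw [map_mul, map_zpow₀, map_mul, map_zpow₀, hj, ← WithZero.exp_zsmul] at h5
    have h6 : w (g y) = (WithZero.exp (n • -j))⁻¹ := eq_inv_of_mul_eq_one_left h5
    rw [h6, ← WithZero.exp_neg]
    congr 1
    rw [smul_eq_mul]
    ring
  have hj1 : j = 1 := by
    obtain ⟨y, hy⟩ := g.surjective π
    have hy0 : w y ≠ 0 := by
      rw [Valuation.ne_zero_iff]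
      rintro rfl
      rw [map_zero] at hy
      exact hπ0 hy.symm
    have h4 := hval y (WithZero.log (w y)) (WithZero.exp_log hy0).symm
    rw [hy, hπ, WithZero.exp_inj] at h4
    have h5 : j ∣ 1 := ⟨-WithZero.log (w y), by linarith⟩
    exact Int.eq_one_of_dvd_one hj0.le h5
  intro y
  by_cases hy : y = 0
  · rw [hy, map_zero]
  · have hy0 : w y ≠ 0 := (Valuation.ne_zero_iff _).2 hy
    have h4 := hval y (WithZero.log (w y)) (WithZero.exp_log hy0).symm
    rw [h4, hj1, one_mul, WithZero.exp_log hy0]

end Pool.Agent.AIC
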