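import Pool.Agent.AIC.Inert1
import Pool.Agent.AIC.PVal

/-!
A place above infinity, its valuation and its inertia group.
-/

set_option autoImplicit false

namespace Pool.Agent.AIC

open IntermediateField IsDedekindDomain
open scoped WithZero IntermediateField.algebraAdjoinAdjoin

theorem inert (k : Type) [Field k] [IsAlgClosed k] (L : Type) [Field L] [Algebra k L]
    [Algebra (RatFunc k) L] [IsScalarTower k (RatFunc k) L] [FiniteDimensional (RatFunc k) L]
    [IsGalois (RatFunc k) L] :
    ∃ (P : Ideal (Bi k L)) (w : Valuation L ℤᵐ⁰) (I : Subgroup (L ≃ₐ[RatFunc k] L)),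
      P.IsMaximal ∧ (∀ b : Bi k L, (b : L) = (xx k L)⁻¹ → b ∈ P) ∧
      (∀ g, g ∈ I ↔ ∀ b : Bi k L, ∃ c ∈ P, (c : L) = g (b : L) - (b : L)) ∧
      (∀ c : k, c ≠ 0 → w (algebraMap k L c) = 1) ∧
      w (xx k L) = WithZero.exp ((Nat.card I : ℕ) : ℤ) ∧
      (∀ g ∈ I, ∀ y, w (g y) = w y) ∧ ∀ g ∈ I, ∀ y, w y ≤ 1 → w (g y - y) < 1 := by
  classical
  set z : L := (xx k L)⁻¹ with hzdef
  have hz : algebraMap (RatFunc k) L (RatFunc.X⁻¹ : RatFunc k) = z := by
    rw [map_inv₀]
  have hz₀ : Transcendental k (RatFunc.X⁻¹ : RatFunc k) := by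
    intro h
    have h1 := h.inv
    rw [inv_inv] at h1
    exact RatFunc.transcendental_X h1
  have htop : k⟮(RatFunc.X⁻¹ : RatFunc k)⟯ = ⊤ := by
    have h0 : k⟮(RatFunc.X : RatFunc k)⟯ = ⊤ := RatFunc.adjoin_X
    rw [eq_top_iff, ← h0, adjoin_simple_le_iff]
    have h1 := inv_mem (mem_adjoin_simple_self k (RatFunc.X⁻¹ : RatFunc k))
    rwa [inv_inv] at h1
  have hzt : Transcendental k z := by
    rw [← hz]
    exact (transcendental_algebraMap_iff (algebraMap (RatFunc k) L).injective).2 hz₀
  have hKz : ∀ a : RatFunc k, algebraMap (RatFunc k) L a ∈ k⟮z⟯ := by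
    intro a
    have h1 : a ∈ k⟮(RatFunc.X⁻¹ : RatFunc k)⟯ := by rw [htop]; trivial
    have h2 : (k⟮(RatFunc.X⁻¹ : RatFunc k)⟯).map (IsScalarTower.toAlgHom k (RatFunc k) L) =
        k⟮z⟯ := by
      rw [IntermediateField.adjoin_map, Set.image_singleton]
      congr 2
    rw [← h2]
    exact ⟨a, h1, rfl⟩
  let algK : Algebra (RatFunc k) k⟮z⟯ :=
    ((algebraMap (RatFunc k) L).codRestrict (k⟮z⟯) hKz).toAlgebra
  have towK : IsScalarTower (RatFunc k) k⟮z⟯ L := IsScalarTower.of_algebraMap_eq (fun _ => rfl)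
  have : FiniteDimensional k⟮z⟯ L := Module.Finite.of_restrictScalars_finite (RatFunc k) k⟮z⟯ L
  have : Algebra.IsSeparable k⟮z⟯ L :=
    Algebra.isSeparable_tower_top_of_isSeparable (RatFunc k) k⟮z⟯ L
  have := isPrincipalIdealRing_adj (k := k) z
  have := finite_ic (k := k) z
  have hDed := isDedekindDomain_ic (k := k) z
  have hFr := isFractionRing_ic (k := k) z
  set gz : Algebra.adjoin k {z} := ⟨z, Algebra.self_mem_adjoin_singleton k z⟩ with hgz
  -- `z` is not a unit of `k[z]`
  have hnu : ¬ IsUnit gz := by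
    rintro h
    obtain ⟨b, hb⟩ := h.exists_right_inv
    obtain ⟨b, hb2⟩ := b
    rw [Algebra.adjoin_singleton_eq_range_aeval] at hb2
    obtain ⟨p, rfl⟩ := hb2
    have h1 : z * Polynomial.aeval z p = 1 := congrArg Subtype.val hb
    have h2 : Polynomial.aeval z (Polynomial.X * p - 1) = 0 := by
      rw [map_sub, map_mul, Polynomial.aeval_X, map_one, h1, sub_self]
    have h3 := (transcendental_iff.1 hzt) _ h2
    have h4 := congrArg (Polynomial.eval 0) h3
    simp at h4
  obtain ⟨M, hM, hgM⟩ := exists_max_ideal_of_mem_nonunits (a := gz) hnu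
  obtain ⟨P, hP, hPM⟩ := Ideal.exists_ideal_over_maximal_of_isIntegral
    (S := integralClosure (Algebra.adjoin k {z}) L) M (by
      have h1 : Function.Injective (algebraMap (Algebra.adjoin k {z})
          (integralClosure (Algebra.adjoin k {z}) L)) := by
        intro a b hab
        have h2 : (a : L) = (b : L) :=
          congrArg (Subtype.val : integralClosure (Algebra.adjoin k {z}) L → L) hab
        exact Subtype.ext h2
      rw [(RingHom.injective_iff_ker_eq_bot _).1 h1]
      exact bot_le)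
  have hgP : algebraMap (Algebra.adjoin k {z}) (integralClosure (Algebra.adjoin k {z}) L) gz ∈ P := by
    have h1 : gz ∈ P.comap (algebraMap _ _) := by rw [hPM]; exact hgM
    exact h1
  obtain ⟨hPne, ⟨a, ha⟩, -⟩ := exists_const z hzt P hP
  obtain ⟨I, hI1, hI2⟩ := inert_ram (RatFunc.X⁻¹ : RatFunc k) hz₀ htop z hz P hP
  set v : HeightOneSpectrum (integralClosure (Algebra.adjoin k {z}) L) :=
    ⟨P, hP.isPrime, hPne⟩ with hv
  have hga : a = 0 := by
    by_contra hne
    have h1 := (ha gz).1 hgP
    have h2 : (gz - algebraMap k (Algebra.adjoin k {z}) a) ∣ algebraMap k (Algebra.adjoin k {z}) a := by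
      have h3 := dvd_sub h1 (dvd_refl (gz - algebraMap k (Algebra.adjoin k {z}) a))
      rwa [sub_sub_cancel] at h3
    have h3 := (ha (algebraMap k (Algebra.adjoin k {z}) a)).2 h2
    apply hP.ne_top
    exact P.eq_top_of_isUnit_mem h3 (((IsUnit.mk0 _ hne).map _).map _)
  have hunder : P.under (Algebra.adjoin k {z}) = Ideal.span {gz} := by
    ext y
    rw [Ideal.under_def, Ideal.mem_comap, ha y, hga, map_zero, sub_zero, Ideal.mem_span_singleton]
  have hmap : (P.under (Algebra.adjoin k {z})).map (algebraMap (Algebra.adjoin k {z})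
      (integralClosure (Algebra.adjoin k {z}) L)) =
      Ideal.span {algebraMap (Algebra.adjoin k {z}) (integralClosure (Algebra.adjoin k {z}) L) gz} := by
    rw [hunder, Ideal.map_span, Set.image_singleton]
  have hzne : z ≠ 0 := by
    rintro h0
    rw [h0] at hzt
    exact hzt isAlgebraic_zero
  have hgne : algebraMap (Algebra.adjoin k {z}) (integralClosure (Algebra.adjoin k {z}) L) gz ≠ 0 := by
    intro h0
    exact hzne (congrArg Subtype.val h0)
  have hram : P.ramificationIdx (Algebra.adjoin k {z}) = multiplicity P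
      (Ideal.span {algebraMap (Algebra.adjoin k {z}) (integralClosure (Algebra.adjoin k {z}) L) gz}) := by
    have : P.IsPrime := hP.isPrime
    have : P.LiesOver (P.under (Algebra.adjoin k {z})) := ⟨rfl⟩
    rw [Ideal.IsDedekindDomain.ramificationIdx_eq_multiplicity (P.under (Algebra.adjoin k {z})) P, hmap]
    rw [hmap, Ne, Ideal.span_singleton_eq_bot]
    exact hgne
  have hwz : v.valuation L z = WithZero.exp (-((Nat.card I : ℕ) : ℤ)) := by
    have h1 : v.valuation L z = v.valuation L
      (algebraMap (integralClosure (Algebra.adjoin k {z}) L) L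
      (algebraMap (Algebra.adjoin k {z}) (integralClosure (Algebra.adjoin k {z}) L) gz)) := rfl
    rw [hI2, hram, h1, HeightOneSpectrum.valuation_of_algebraMap,
      HeightOneSpectrum.intValuation_eq_exp_neg_multiplicity _ hgne]
  have hplace : ∀ g ∈ I, (∀ y, v.valuation L (g y) = v.valuation L y) ∧
      ∀ y, v.valuation L y ≤ 1 → v.valuation L (g y - y) < 1 := by
    intro g hg
    exact place_val v g.toRingEquiv ((hI1 g).1 hg)
  refine ⟨P, v.valuation L, I, hP, ?_, hI1, ?_, ?_, fun g hg => (hplace g hg).1,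
    fun g hg => (hplace g hg).2⟩
  · intro b hb
    have : b = algebraMap (Algebra.adjoin k {z}) (integralClosure (Algebra.adjoin k {z}) L) gz :=
      Subtype.ext hb
    rw [this]
    exact hgP
  · have hle : ∀ c : k, v.valuation L (algebraMap k L c) ≤ 1 := fun c =>
      v.valuation_le_one (algebraMap k (integralClosure (Algebra.adjoin k {z}) L) c)
    intro c hc
    apply le_antisymm (hle c)
    have h1 := hle c⁻¹
    rw [map_inv₀, map_inv₀] at h1
    have h2 : v.valuation L (algebraMap k L c) ≠ 0 := by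
      rw [Valuation.ne_zero_iff]
      intro h0
      exact hc ((algebraMap k L).injective (by rw [h0, map_zero]))
    exact (inv_le_one₀ (zero_lt_iff.2 h2)).1 h1
  · have h1 : xx k L = z⁻¹ := by rw [hzdef, inv_inv]
    rw [h1, map_inv₀, hwz, WithZero.exp_neg, inv_inv]

end Pool.Agent.AIC
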