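import Pool.Agent.AIC.Ded

/-!
The order of the inertia group is the ramification index.
-/

set_option autoImplicit false

namespace Pool.Agent.AIC

open IntermediateField IsDedekindDomain
open scoped WithZero IntermediateField.algebraAdjoinAdjoin

theorem inert_ram {k K L : Type*} [Field k] [IsAlgClosed k] [Field K] [Field L] [Algebra k K]
    [Algebra K L] [Algebra k L] [IsScalarTower k K L] [FiniteDimensional K L] [IsGalois K L]
    (z₀ : K) (hz₀ : Transcendental k z₀) (htop : k⟮z₀⟯ = ⊤) (z : L) (hz : algebraMap K L z₀ = z)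
    (P : Ideal (integralClosure (Algebra.adjoin k {z}) L)) (hP : P.IsMaximal) :
    ∃ I : Subgroup (L ≃ₐ[K] L),
      (∀ g, g ∈ I ↔ ∀ b : integralClosure (Algebra.adjoin k {z}) L,
        ∃ c ∈ P, (c : L) = g (b : L) - (b : L)) ∧
      Nat.card I = P.ramificationIdx (Algebra.adjoin k {z}) := by
  classical
  -- `z` is transcendental
  have hzt : Transcendental k z := by
    rw [← hz]
    exact (transcendental_algebraMap_iff (algebraMap K L).injective).2 hz₀
  -- the image of `K` is `k⟮z⟯`
  have hKz : ∀ a : K, algebraMap K L a ∈ k⟮z⟯ := by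
    intro a
    have h1 : a ∈ k⟮z₀⟯ := by rw [htop]; trivial
    have h2 : (k⟮z₀⟯).map (IsScalarTower.toAlgHom k K L) = k⟮z⟯ := by
      rw [IntermediateField.adjoin_map, Set.image_singleton]
      congr 2
    rw [← h2]
    exact ⟨a, h1, rfl⟩
  let algK : Algebra K k⟮z⟯ := ((algebraMap K L).codRestrict (k⟮z⟯) hKz).toAlgebra
  have towK : IsScalarTower K k⟮z⟯ L := IsScalarTower.of_algebraMap_eq (fun _ => rfl)
  have : FiniteDimensional k⟮z⟯ L := Module.Finite.of_restrictScalars_finite K k⟮z⟯ L
  have : Algebra.IsSeparable k⟮z⟯ L := Algebra.isSeparable_tower_top_of_isSeparable K k⟮z⟯ L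
  have := isPrincipalIdealRing_adj (k := k) z
  have := finite_ic (k := k) z
  have := isDedekindDomain_ic (k := k) z
  have := isFractionRing_ic (k := k) z
  -- elements of `A` come from `K`
  have hA : ∀ a : Algebra.adjoin k {z}, ∃ a₀ : K, algebraMap K L a₀ = (a : L) := by
    intro a
    have h1 : Algebra.adjoin k {z} ≤ (IsScalarTower.toAlgHom k K L).range := by
      apply Algebra.adjoin_le
      rintro _ rfl
      exact ⟨z₀, hz⟩
    obtain ⟨a₀, ha₀⟩ := h1 a.2
    exact ⟨a₀, ha₀⟩
  have hgA : ∀ (g : L ≃ₐ[K] L) (a : Algebra.adjoin k {z}), g (a : L) = a := by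
    intro g a
    obtain ⟨a₀, ha₀⟩ := hA a
    rw [← ha₀, g.commutes]
  let gA : (L ≃ₐ[K] L) → (L →ₐ[Algebra.adjoin k {z}] L) := fun g =>
    { (g : L →+* L) with commutes' := fun a => hgA g a }
  have hgB : ∀ (g : L ≃ₐ[K] L) (b : integralClosure (Algebra.adjoin k {z}) L),
      g (b : L) ∈ integralClosure (Algebra.adjoin k {z}) L := by
    intro g b
    exact (b.2 : IsIntegral (Algebra.adjoin k {z}) (b : L)).map (gA g)
  let act : MulSemiringAction (L ≃ₐ[K] L) (integralClosure (Algebra.adjoin k {z}) L) :=
    { smul := fun g b => ⟨g (b : L), hgB g b⟩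
      one_smul := fun b => Subtype.ext rfl
      mul_smul := fun g h b => Subtype.ext rfl
      smul_zero := fun g => Subtype.ext (map_zero g)
      smul_add := fun g a b => Subtype.ext (map_add g (a : L) (b : L))
      smul_one := fun g => Subtype.ext (map_one g)
      smul_mul := fun g a b => Subtype.ext (map_mul g (a : L) (b : L)) }
  have act_coe : ∀ (g : L ≃ₐ[K] L) (b : integralClosure (Algebra.adjoin k {z}) L),
      ((g • b : integralClosure (Algebra.adjoin k {z}) L) : L) = g (b : L) := fun _ _ => rfl
  have gal : IsGaloisGroup (L ≃ₐ[K] L) (Algebra.adjoin k {z})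
      (integralClosure (Algebra.adjoin k {z}) L) :=
    { faithful := by
        refine ⟨fun {g h} hgh => ?_⟩
        ext x
        obtain ⟨a, b, hb, rfl⟩ := IsFractionRing.div_surjective
          (A := integralClosure (Algebra.adjoin k {z}) L) x
        have ha' := congrArg (Subtype.val) (hgh a)
        have hb' := congrArg (Subtype.val) (hgh b)
        rw [map_div₀, map_div₀]
        change g (a : L) / g (b : L) = h (a : L) / h (b : L)
        rw [act_coe, act_coe] at ha' hb'
        rw [ha', hb']
      commutes := by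
        refine ⟨fun g a b => ?_⟩
        apply Subtype.ext
        rw [act_coe]
        change g ((a : L) * (b : L)) = (a : L) * g (b : L)
        rw [map_mul, hgA]
      isInvariant := by
        refine ⟨fun b hb => ?_⟩
        have h1 : (b : L) ∈ Set.range (algebraMap K L) := by
          rw [IsGalois.mem_range_algebraMap_iff_fixed]
          intro g
          have := congrArg Subtype.val (hb g)
          exact this
        obtain ⟨b₀, hb₀⟩ := h1
        have hbz : (b : L) ∈ k⟮z⟯ := by rw [← hb₀]; exact hKz b₀
        have h2 : IsIntegral (Algebra.adjoin k {z}) (⟨(b : L), hbz⟩ : k⟮z⟯) := by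
          rw [← isIntegral_algebraMap_iff (algebraMap k⟮z⟯ L).injective]
          exact b.2
        obtain ⟨a, ha⟩ := IsIntegrallyClosed.isIntegral_iff.1 h2
        have ha' : ((algebraMap (Algebra.adjoin k {z}) k⟮z⟯ a : k⟮z⟯) : L) = (b : L) :=
          congrArg (Subtype.val : k⟮z⟯ → L) ha
        refine ⟨a, Subtype.ext ?_⟩
        exact ha' }
  have : IsDomain (Algebra.adjoin k {z}) := inferInstance
  have hflat : Module.Flat (Algebra.adjoin k {z}) (integralClosure (Algebra.adjoin k {z}) L) := by
    have : IsDedekindDomain (Algebra.adjoin k {z}) := inferInstance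
    have : Module.IsTorsionFree (Algebra.adjoin k {z})
      (integralClosure (Algebra.adjoin k {z}) L) := inferInstance
    infer_instance
  obtain ⟨-, -, hcst⟩ := exists_const z hzt P hP
  set p := P.under (Algebra.adjoin k {z}) with hp
  have : P.LiesOver p := ⟨rfl⟩
  have : P.IsPrime := hP.isPrime
  have : p.IsMaximal := Ideal.IsMaximal.under (Algebra.adjoin k {z}) P
  have : p.IsPrime := Ideal.IsMaximal.isPrime inferInstance
  have : PerfectField p.ResidueField := by
    have hs : Function.Surjective (algebraMap k p.ResidueField) := by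
      intro x
      obtain ⟨y, rfl⟩ := (p.bijective_algebraMap_quotient_residueField).surjective x
      obtain ⟨a, rfl⟩ := Ideal.Quotient.mk_surjective y
      obtain ⟨c, hc⟩ := hcst (algebraMap _ _ a)
      refine ⟨c, ?_⟩
      have h1 : a - algebraMap k (Algebra.adjoin k {z}) c ∈ p := by
        rw [hp, Ideal.under_def, Ideal.mem_comap, map_sub]
        exact hc
      have h2 : (Ideal.Quotient.mk p a) = Ideal.Quotient.mk p (algebraMap k _ c) :=
        (Ideal.Quotient.eq).2 h1
      rw [h2]
      rfl
    have : Algebra.IsAlgebraic k p.ResidueField := by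
      refine ⟨fun x => ?_⟩
      obtain ⟨c, rfl⟩ := hs x
      exact isAlgebraic_algebraMap c
    exact Algebra.IsAlgebraic.perfectField (K := k)
  have h1 := Ideal.card_inertia_eq_ramificationIdxIn (G := L ≃ₐ[K] L) p P
  have h2 := Ideal.ramificationIdxIn_eq_ramificationIdx p P (L ≃ₐ[K] L)
  refine ⟨P.inertia (L ≃ₐ[K] L), ?_, h1.trans h2⟩
  intro g
  constructor
  · intro hg b
    exact ⟨g • b - b, hg b, rfl⟩
  · intro hg b
    obtain ⟨c, hc, hcb⟩ := hg b
    have : g • b - b = c := Subtype.ext hcb.symm
    change g • b - b ∈ P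
    rw [this]
    exact hc

end Pool.Agent.AIC
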