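import Pool.Agent.AIC.LCid
import Pool.Agent.AIC.FirstOrd

/-!
The local computation at infinity.

PROOF. `w (v^m x^Q) = 1` gives `(w v)^m = exp (-(Q m e))`, so `w v = exp (-(Q e))` (take logarithms, `m > 0`; note `x ≠ 0` as `w x = exp ..`).
`w Ξ = exp (m e ε₀ + 2 Q e) = exp ((q+1) e)` for `Ξ = x^(ε 0) / v^2` by `hε 0`. Put `u = v^m x^Q` and take `M', M₁, M₂` from `LCid.lc_id`
(`1 ≤ s`, `1 ≤ q` clear). Divide `hrt` by `v^(q+1)`... precisely: `v ≠ 0`, so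
`v^(q^2 - 1) + (-x^N + Σ) v^(q-1) + 1 = 0` with `Σ = ∑ j ∈ range a, β j x^(ε j)`. Define `z` by `1 - z = (v^(q-1) x^N)⁻¹`. Then
`1 - z = x^(-N) (x^N - Σ - v^(q^2-q))`, i.e. `z = ∑ j<a, β j x^(ε j) x^(-N) + v^(q^2-q) x^(-N)`.
SIZE OF z. For `j < a`: `w (x^(ε j) x^(-N)) = exp (m e (ε j - N)) = exp (-(q+1)(Q - s^j) e)` (because `m (N - ε j) = (q+1)(Q - s^j)`), and
`s^j ≤ Q / s`. And `w (v^(q^2-q) x^(-N)) = exp (-(Q e (q^2 - q) + e Q (q-1))) = exp (-(Q e (q^2 - 1)))`. So if `a ≥ 1` then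
`w z ≤ exp (-(q+1)(Q - Q/s) e)` (with `Q / s = s^(a-1)`), and in all cases `w z < 1`.
CASE a = 0. Then `Q = 1`, `β 0 = 1`, `m ε 0 + 2 = q + 1` so `ε 0 = N`, `Ξ = x^N / v^2`, and
`(v^(q+1))⁻¹ - Ξ = v^(-2) (v^(-(q-1)) - x^N) = - v^(-2) v^(q^2 - q)` has value `exp (-(e (q^2 - q - 2))) < 1` because `q ≥ 3`.
CASE a ≥ 1. `u ^ M' * (1 - z) = 1`, so `FirstOrd.first_order` applies (`(q : L) = 0`, `(Q : L) = 0`, `s` being a power of `p`):
`u^M₁ = 1 - m M₁ z + O(z^2) = 1 + 2 z + O(z^2)` as `m M₁ = 2 Q - 2 = -2` in `L`, and `w (u^(M₂ j) - 1) ≤ w z`. Then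
`(v^(q+1))⁻¹ = Ξ^Q u^M₁ (1 - z) = Ξ^Q (1 + z) + Ξ^Q O(z^2)`; `w (Ξ^Q z^2) ≤ exp (e (q+1) (Q - 2 (Q - Q/s))) < 1` because
`s ≥ 3` (`2 Q / s < Q`). And `Ξ^Q z = ∑ j<a β j Ξ^Q x^(ε j) x^(-N) + Ξ^Q v^(q^2-q) x^(-N)`. The last term has value
`exp (e Q ((q+1) - (q^2 - 1))) = exp (e Q (q + 1)(2 - q)) < 1`. And `Ξ^Q x^(ε j) x^(-N) u^(M₂ j) = Ξ^(s^j)`, so
`Ξ^Q x^(ε j) x^(-N) - Ξ^(s^j) = - Ξ^Q x^(ε j) x^(-N) (u^(M₂ j) - 1)` has value
`≤ exp (e (q+1) Q) * exp (-(q+1)(Q - Q/s) e) * w z < 1` as before. Since `Ξ^Q = β a Ξ^(s^a)`, the sum is as claimed.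
-/

set_option autoImplicit false

namespace Pool.Agent.AIC

open scoped WithZero

/-- The value of a monomial in `x` and `v`. -/
private theorem lc_val {L : Type*} [Field L] (w : Valuation L ℤᵐ⁰) (x v : L) (A B : ℤ)
    (hx : w x = WithZero.exp A) (hv : w v = WithZero.exp B) (i j : ℤ) :
    w (x ^ i * v ^ j) = WithZero.exp (A * i + B * j) := by
  rw [map_mul, map_zpow₀, map_zpow₀, hx, hv, ← WithZero.exp_zsmul, ← WithZero.exp_zsmul,
    ← WithZero.exp_add]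
  congr 1
  simp only [smul_eq_mul]
  ring

private theorem lc_v {L : Type*} [Field L] (Q m e : ℕ) (w : Valuation L ℤᵐ⁰) (hm : 0 < m)
    (x v : L) (hx : w x = WithZero.exp ((m : ℤ) * (e : ℤ))) (hv0 : v ≠ 0)
    (hu : w (v ^ m * x ^ Q - 1) < 1) : w v = WithZero.exp (-((Q : ℤ) * (e : ℤ))) := by
  have h1 : w (v ^ m * x ^ Q) = 1 := by
    have := w.map_one_add_of_lt hu
    rwa [add_sub_cancel] at this
  have hwv : w v ≠ 0 := by rwa [Ne, map_eq_zero]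
  set k := (w v).log with hk
  have hwk : w v = WithZero.exp k := (WithZero.exp_log hwv).symm
  have h2 := lc_val w x v _ _ hx hwk (Q : ℤ) (m : ℤ)
  rw [zpow_natCast, zpow_natCast, mul_comm (x ^ Q), h1, ← WithZero.exp_zero, WithZero.exp_inj] at h2
  rw [hwk, WithZero.exp_inj]
  have hm' : (m : ℤ) ≠ 0 := by exact_mod_cast hm.ne'
  apply mul_left_cancel₀ hm'
  linarith

/-- The case `a = 0`. -/
private theorem lc_zero {L : Type*} [Field L] (q m e N : ℕ) (w : Valuation L ℤᵐ⁰) (hq : 3 ≤ q)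
    (he : 0 < e) (x v : L)
    (hx : w x = WithZero.exp ((m : ℤ) * (e : ℤ))) (hv0 : v ≠ 0)
    (hv : w v = WithZero.exp (-(e : ℤ)))
    (hrt : Rt q (-x ^ N) v) :
    w ((v ^ (q + 1))⁻¹ - x ^ N / v ^ 2) < 1 := by
  have h1 : (v ^ (q + 1))⁻¹ - x ^ N / v ^ 2 = - (v ^ (q ^ 2) * (v ^ (q + 2))⁻¹) := by
    have h2 : v ^ (q ^ 2) = x ^ N * v ^ q - v := by
      have := hrt
      unfold Rt at this
      linear_combination this
    rw [h2]
    field_simp
    ring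
  rw [h1, Valuation.map_neg]
  have h3 : v ^ (q ^ 2) * (v ^ (q + 2))⁻¹ = x ^ (0 : ℤ) * v ^ ((q : ℤ) ^ 2 - ((q : ℤ) + 2)) := by
    rw [zpow_zero, one_mul, zpow_sub₀ hv0, div_eq_mul_inv]
    norm_cast
  rw [h3, lc_val w x v _ _ hx hv, ← WithZero.exp_zero, WithZero.exp_lt_exp]
  have h4 : (3 : ℤ) ≤ q := by exact_mod_cast hq
  have h5 : (0 : ℤ) < e := by exact_mod_cast he
  have h6 : (0 : ℤ) < (q : ℤ) ^ 2 - ((q : ℤ) + 2) := by nlinarith
  nlinarith


private theorem lc_pos {L : Type*} [Field L] (a s q Q R m e N : ℕ) (ε : ℕ → ℕ)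
    (β : ℕ → L) (w : Valuation L ℤᵐ⁰) (hs3 : 3 ≤ s) (hq3 : 3 ≤ q) (hR : R = s ^ a)
    (hQ : Q = s * R) (hm : 0 < m) (he : 0 < e) (hN : m * N = Q * (q - 1))
    (hε : ∀ j, j ≤ a + 1 → m * ε j + 2 * Q = s ^ j * (q + 1))
    (hqL : (q : L) = 0) (hQL : (Q : L) = 0)
    (hβ : ∀ j, w (β j) ≤ 1) (hβa : β (a + 1) = 1) (x v : L)
    (hx : w x = WithZero.exp ((m : ℤ) * (e : ℤ))) (hv0 : v ≠ 0) (hx0 : x ≠ 0)
    (hv : w v = WithZero.exp (-((Q : ℤ) * (e : ℤ))))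
    (hrt : Rt q (-x ^ N + ∑ j ∈ Finset.range (a + 1), β j * x ^ (ε j)) v)
    (hu : w (v ^ m * x ^ Q - 1) < 1) (hmq : m ∣ q - 1) :
    w ((v ^ (q + 1))⁻¹ - ∑ j ∈ Finset.range (a + 1 + 1),
      β j * (x ^ (ε 0) / v ^ 2) ^ (s ^ j)) < 1 := by
  have hQ' : Q = s ^ (a + 1) := by rw [hQ, hR, pow_succ, mul_comm]
  obtain ⟨M', M₁, M₂, hM', hM₁, hM₂, hid⟩ :=
    lc_id (L := L) s (a + 1) q Q m N ε hQ' (by omega) (by omega) hm hmq hN hε
  obtain ⟨hid1, hid2, hid3⟩ := hid x v hx0 hv0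
  have hR1 : 1 ≤ R := by rw [hR]; exact Nat.one_le_pow _ _ (by omega)
  -- integer facts
  have hsZ : (3 : ℤ) ≤ s := by exact_mod_cast hs3
  have hqZ : (3 : ℤ) ≤ q := by exact_mod_cast hq3
  have heZ : (0 : ℤ) < e := by exact_mod_cast he
  have hRZ : (1 : ℤ) ≤ R := by exact_mod_cast hR1
  have hQZ : (Q : ℤ) = s * R := by exact_mod_cast hQ
  have hNZ : (m : ℤ) * N = Q * (q - 1) := by
    have := congrArg (Nat.cast : ℕ → ℤ) hN
    rw [Nat.cast_mul, Nat.cast_mul, Nat.cast_sub (by omega)] at this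
    exact_mod_cast this
  have hεZ : ∀ j, j ≤ a + 1 → (m : ℤ) * ε j + 2 * Q = (s : ℤ) ^ j * (q + 1) := by
    intro j hj
    exact_mod_cast hε j hj
  have hsj : ∀ j, j ≤ a → (s : ℤ) ^ j ≤ R := by
    intro j hj
    have : s ^ j ≤ R := by rw [hR]; exact Nat.pow_le_pow_right (by omega) hj
    exact_mod_cast this
  set Ξ := x ^ (ε 0) / v ^ 2 with hΞ
  set u := v ^ m * x ^ Q with hudef
  set T := v ^ (q - 1) * x ^ N with hT
  have hT0 : T ≠ 0 := mul_ne_zero (pow_ne_zero _ hv0) (pow_ne_zero _ hx0)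
  have hxN0 : x ^ N ≠ 0 := pow_ne_zero _ hx0
  have hwΞ : w Ξ = WithZero.exp (((q : ℤ) + 1) * e) := by
    have h1 : Ξ = x ^ ((ε 0 : ℕ) : ℤ) * v ^ (-2 : ℤ) := by
      rw [hΞ, zpow_neg, div_eq_mul_inv]
      norm_cast
    rw [h1, lc_val w x v _ _ hx hv, WithZero.exp_inj]
    have := hεZ 0 (by omega)
    rw [pow_zero, one_mul] at this
    linear_combination (e : ℤ) * this
  have hΞ0 : Ξ ≠ 0 := div_ne_zero (pow_ne_zero _ hx0) (pow_ne_zero _ hv0)
  have hwΞQ : w (Ξ ^ Q) = WithZero.exp ((Q : ℤ) * (((q : ℤ) + 1) * e)) := by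
    rw [map_pow, hwΞ, ← WithZero.exp_nsmul, nsmul_eq_mul]
  -- the elements
  set z := 1 - T⁻¹ with hz
  set V := v ^ (q ^ 2 - q) / x ^ N with hV
  have hqq : q ≤ q ^ 2 := by nlinarith
  have hzeq : z = ∑ j ∈ Finset.range (a + 1), β j * (x ^ (ε j) / x ^ N) + V := by
    have e1 : v ^ (q ^ 2) = v ^ (q ^ 2 - q) * v ^ q := by
      rw [← pow_add]
      congr 1
      omega
    have e2 : v ^ q = v ^ (q - 1) * v := by
      rw [← pow_succ]
      congr 1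
      omega
    have h2 := hrt
    unfold Rt at h2
    have e3 : ∑ j ∈ Finset.range (a + 1), β j * (x ^ (ε j) / x ^ N) =
        (∑ j ∈ Finset.range (a + 1), β j * x ^ (ε j)) / x ^ N := by
      rw [Finset.sum_div]
      exact Finset.sum_congr rfl fun j _ => by ring
    rw [e3, hz, hT, hV]
    generalize (∑ j ∈ Finset.range (a + 1), β j * x ^ (ε j)) = S at h2 ⊢
    rw [e1, e2] at h2
    have hvq : v ^ (q - 1) ≠ 0 := pow_ne_zero _ hv0
    generalize v ^ (q - 1) = y at *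
    generalize x ^ N = X at *
    generalize v ^ (q ^ 2 - q) = V' at *
    field_simp
    have h3 : v * (y * X - 1 - (y * (S + V'))) = 0 := by linear_combination -h2
    have h4 := (mul_eq_zero.mp h3).resolve_left hv0
    linear_combination h4
  have huz : u ^ M' * (1 - z) = 1 := by
    rw [hid1, hz, sub_sub_cancel]
    exact mul_inv_cancel₀ hT0
  have hwV : w V ≤ WithZero.exp (-(((q : ℤ) + 1) * (Q - R) * e)) := by
    have h1 : V = x ^ (-(N : ℤ)) * v ^ ((q : ℤ) ^ 2 - q) := by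
      rw [hV, zpow_neg, zpow_natCast, div_eq_mul_inv, mul_comm]
      congr 1
      rw [← zpow_natCast, Nat.cast_sub hqq]
      norm_cast
    rw [h1, lc_val w x v _ _ hx hv, WithZero.exp_le_exp]
    have h2 : (m : ℤ) * e * -(N : ℤ) + -((Q : ℤ) * e) * ((q : ℤ) ^ 2 - q) =
        -(((q : ℤ) + 1) * (Q * (q - 1)) * e) := by
      linear_combination -(e : ℤ) * hNZ
    rw [h2]
    have h3 : (Q : ℤ) - R ≤ Q * (q - 1) := by nlinarith
    have h4 : ((q : ℤ) + 1) * (Q - R) * e ≤ ((q : ℤ) + 1) * (Q * (q - 1)) * e := by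
      apply mul_le_mul_of_nonneg_right _ heZ.le
      apply mul_le_mul_of_nonneg_left h3
      omega
    omega
  have hwxj : ∀ j, j ≤ a → w (x ^ (ε j) / x ^ N) =
      WithZero.exp (-(((q : ℤ) + 1) * (Q - (s : ℤ) ^ j) * e)) := by
    intro j hj
    have h1 : x ^ (ε j) / x ^ N = x ^ ((ε j : ℤ) - N) * v ^ (0 : ℤ) := by
      rw [zpow_zero, mul_one, zpow_sub₀ hx0, zpow_natCast, zpow_natCast]
    rw [h1, lc_val w x v _ _ hx hv, WithZero.exp_inj]
    linear_combination (e : ℤ) * hεZ j (by omega) - (e : ℤ) * hNZ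
  have hwz : w z ≤ WithZero.exp (-(((q : ℤ) + 1) * (Q - R) * e)) := by
    rw [hzeq]
    apply Valuation.map_add_le _ _ hwV
    apply Valuation.map_sum_le
    intro j hj
    have hj' : j ≤ a := by
      have := Finset.mem_range.mp hj
      omega
    rw [map_mul, hwxj j hj']
    calc w (β j) * WithZero.exp (-(((q : ℤ) + 1) * (Q - (s : ℤ) ^ j) * e))
        ≤ 1 * WithZero.exp (-(((q : ℤ) + 1) * (Q - (s : ℤ) ^ j) * e)) := by
          gcongr
          exact hβ j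
      _ ≤ WithZero.exp (-(((q : ℤ) + 1) * (Q - R) * e)) := by
          rw [one_mul, WithZero.exp_le_exp]
          have h5 := hsj j hj'
          have h4 : ((q : ℤ) + 1) * (Q - R) * e ≤ ((q : ℤ) + 1) * (Q - (s : ℤ) ^ j) * e := by
            apply mul_le_mul_of_nonneg_right _ heZ.le
            apply mul_le_mul_of_nonneg_left _ (by omega)
            omega
          omega
  have hbig : (1 : ℤ) ≤ ((q : ℤ) + 1) * (Q - 2 * R) * e := by
    have h5 : (1 : ℤ) ≤ Q - 2 * R := by nlinarith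
    have h6 : (1 : ℤ) ≤ ((q : ℤ) + 1) * (Q - 2 * R) := by nlinarith
    nlinarith
  have hfo1 := first_order w q m M' M₁ hqL (by omega) hM' u z hu huz
  set δ := u ^ M₁ - 1 + (m : L) * (M₁ : L) * z with hδ
  have hmM₁ : (m : L) * (M₁ : L) = -2 := by
    have h1 := congrArg (Nat.cast : ℕ → L) hM₁
    have h2 : 2 ≤ 2 * Q := by nlinarith
    rw [Nat.cast_mul, Nat.cast_sub h2, Nat.cast_mul, hQL, mul_zero, zero_sub] at h1
    exact_mod_cast h1
  have hwz1 : w z < 1 := hfo1.2.2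
  -- the pieces
  have hE : ∀ j, j ≤ a → w (Ξ ^ Q * (x ^ (ε j) / x ^ N) - Ξ ^ (s ^ j)) < 1 := by
    intro j hj
    have hfo := (first_order w q m M' (M₂ j) hqL (by omega) hM' u z hu huz).2.1
    have h1 := hid3 j (by omega)
    have h2 : Ξ ^ Q * (x ^ (ε j) / x ^ N) - Ξ ^ (s ^ j) =
        -(Ξ ^ Q * (x ^ (ε j) / x ^ N) * (u ^ (M₂ j) - 1)) := by
      have h3 : Ξ ^ (s ^ j) = Ξ ^ Q * (x ^ (ε j) / x ^ N) * u ^ (M₂ j) := by
        field_simp
        linear_combination -h1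
      rw [h3]
      ring
    rw [h2, Valuation.map_neg, map_mul, map_mul, hwΞQ, hwxj j hj, ← WithZero.exp_add]
    calc WithZero.exp ((Q : ℤ) * (((q : ℤ) + 1) * e) + -(((q : ℤ) + 1) * (Q - (s : ℤ) ^ j) * e)) *
          w (u ^ (M₂ j) - 1)
        ≤ WithZero.exp ((Q : ℤ) * (((q : ℤ) + 1) * e) + -(((q : ℤ) + 1) * (Q - (s : ℤ) ^ j) * e)) *
          WithZero.exp (-(((q : ℤ) + 1) * (Q - R) * e)) := by
          gcongr
          exact hfo.trans hwz
      _ < 1 := by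
          rw [← WithZero.exp_add, ← WithZero.exp_zero, WithZero.exp_lt_exp]
          have h5 := hsj j hj
          have h6 : ((q : ℤ) + 1) * (s : ℤ) ^ j * e ≤ ((q : ℤ) + 1) * R * e := by
            apply mul_le_mul_of_nonneg_right _ heZ.le
            apply mul_le_mul_of_nonneg_left h5 (by omega)
          linarith
  have hVs : w (Ξ ^ Q * V) < 1 := by
    have h1 : V = x ^ (-(N : ℤ)) * v ^ ((q : ℤ) ^ 2 - q) := by
      rw [hV, zpow_neg, zpow_natCast, div_eq_mul_inv, mul_comm]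
      congr 1
      rw [← zpow_natCast, Nat.cast_sub hqq]
      norm_cast
    rw [map_mul, hwΞQ, h1, lc_val w x v _ _ hx hv, ← WithZero.exp_add, ← WithZero.exp_zero,
      WithZero.exp_lt_exp]
    have h2 : (m : ℤ) * e * -(N : ℤ) + -((Q : ℤ) * e) * ((q : ℤ) ^ 2 - q) =
        -(((q : ℤ) + 1) * (Q * (q - 1)) * e) := by
      linear_combination -(e : ℤ) * hNZ
    rw [h2]
    have h3 : (1 : ℤ) ≤ Q * (q - 2) := by nlinarith
    have h4 : (1 : ℤ) ≤ ((q : ℤ) + 1) * (Q * (q - 2)) := by nlinarith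
    have h5 : (1 : ℤ) ≤ ((q : ℤ) + 1) * (Q * (q - 2)) * e := by nlinarith
    linarith
  have hds : w (Ξ ^ Q * (-2 * z ^ 2 + δ * (1 - z))) < 1 := by
    have h2 : w (-2 * z ^ 2 + δ * (1 - z)) ≤ (w z) ^ 2 := by
      apply Valuation.map_add_le
      · rw [map_mul, map_pow]
        have h3 : w (-2 : L) ≤ 1 := by
          rw [show (-2 : L) = -(1 + 1) by norm_num, Valuation.map_neg]
          exact Valuation.map_add_le _ (map_one w).le (map_one w).le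
        calc w (-2 : L) * w z ^ 2 ≤ 1 * w z ^ 2 := by gcongr
          _ = _ := one_mul _
      · rw [map_mul]
        have h3 : w (1 - z) ≤ 1 := by
          apply Valuation.map_sub_le
          · rw [map_one]
          · exact hwz1.le
        calc w δ * w (1 - z) ≤ w z ^ 2 * 1 := by
              gcongr
              exact hfo1.1
          _ = _ := mul_one _
    rw [map_mul, hwΞQ]
    calc WithZero.exp ((Q : ℤ) * (((q : ℤ) + 1) * e)) * w (-2 * z ^ 2 + δ * (1 - z))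
        ≤ WithZero.exp ((Q : ℤ) * (((q : ℤ) + 1) * e)) *
          (WithZero.exp (-(((q : ℤ) + 1) * (Q - R) * e))) ^ 2 := by
          gcongr
          exact h2.trans (by gcongr)
      _ < 1 := by
          rw [← WithZero.exp_nsmul, ← WithZero.exp_add, ← WithZero.exp_zero, WithZero.exp_lt_exp,
            nsmul_eq_mul]
          push_cast
          linarith
  have hfinal : (v ^ (q + 1))⁻¹ - ∑ j ∈ Finset.range (a + 1 + 1), β j * Ξ ^ (s ^ j) =
      ∑ j ∈ Finset.range (a + 1), β j * (Ξ ^ Q * (x ^ (ε j) / x ^ N) - Ξ ^ (s ^ j)) +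
      (Ξ ^ Q * V + Ξ ^ Q * (-2 * z ^ 2 + δ * (1 - z))) := by
    have h1 : (v ^ (q + 1))⁻¹ = Ξ ^ Q * u ^ M₁ * (1 - z) := by
      rw [hid2, hz, sub_sub_cancel, mul_assoc, mul_inv_cancel₀ hT0, mul_one]
    have h2 : u ^ M₁ = 1 + 2 * z + δ := by
      rw [hδ, hmM₁]
      ring
    rw [h1, h2, Finset.sum_range_succ _ (a + 1), hβa, ← hQ', one_mul]
    have h3 : ∑ j ∈ Finset.range (a + 1), β j * (Ξ ^ Q * (x ^ (ε j) / x ^ N) - Ξ ^ (s ^ j)) =
        Ξ ^ Q * ∑ j ∈ Finset.range (a + 1), β j * (x ^ (ε j) / x ^ N) -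
        ∑ j ∈ Finset.range (a + 1), β j * Ξ ^ (s ^ j) := by
      rw [Finset.mul_sum, ← Finset.sum_sub_distrib]
      exact Finset.sum_congr rfl fun j _ => by ring
    have h4 : ∑ j ∈ Finset.range (a + 1), β j * (x ^ (ε j) / x ^ N) = z - V := by
      rw [hzeq]
      ring
    rw [h3, h4]
    ring
  rw [hfinal]
  apply Valuation.map_add_lt
  · apply Valuation.map_sum_lt _ one_ne_zero
    intro j hj
    have hj' : j ≤ a := by
      have := Finset.mem_range.mp hj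
      omega
    rw [map_mul]
    calc w (β j) * w (Ξ ^ Q * (x ^ (ε j) / x ^ N) - Ξ ^ (s ^ j))
        ≤ 1 * w (Ξ ^ Q * (x ^ (ε j) / x ^ N) - Ξ ^ (s ^ j)) := by
          gcongr
          exact hβ j
      _ < 1 := by
          rw [one_mul]
          exact hE j hj'
  · exact Valuation.map_add_lt _ hVs hds

theorem lc {L : Type*} [Field L] (p d n a s q Q m e N : ℕ) [Fact p.Prime] [CharP L p] (ε : ℕ → ℕ)
    (β : ℕ → L) (w : Valuation L ℤᵐ⁰) (hsp : s = p ^ d) (hs3 : 3 ≤ s) (hn : 0 < n) (hq : q = s ^ n)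
    (hQ : Q = s ^ a) (hm : 0 < m) (he : 0 < e) (hmq : m ∣ q - 1) (hN : m * N = Q * (q - 1))
    (hε : ∀ j, j ≤ a → m * ε j + 2 * Q = s ^ j * (q + 1))
    (hβ : ∀ j, w (β j) ≤ 1) (hβa : β a = 1) (x v : L)
    (hx : w x = WithZero.exp ((m : ℤ) * (e : ℤ))) (hv0 : v ≠ 0)
    (hrt : Rt q (-x ^ N + ∑ j ∈ Finset.range a, β j * x ^ (ε j)) v)
    (hu : w (v ^ m * x ^ Q - 1) < 1) :
    w v = WithZero.exp (-((Q : ℤ) * (e : ℤ))) ∧
    w (x ^ (ε 0) / v ^ 2) = WithZero.exp (((q : ℤ) + 1) * (e : ℤ)) ∧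
    w ((v ^ (q + 1))⁻¹ - ∑ j ∈ Finset.range (a + 1), β j * (x ^ (ε 0) / v ^ 2) ^ (s ^ j)) < 1 := by
  have hv := lc_v Q m e w hm x v hx hv0 hu
  have hx0 : x ≠ 0 := by
    intro h
    rw [h, map_zero] at hx
    exact WithZero.exp_ne_zero hx.symm
  have hq3 : 3 ≤ q := by
    rw [hq]
    calc 3 ≤ s := hs3
      _ = s ^ 1 := (pow_one s).symm
      _ ≤ s ^ n := Nat.pow_le_pow_right (by omega) hn
  have hsL : (s : L) = 0 := by
    have hd : d ≠ 0 := by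
      rintro rfl
      rw [pow_zero] at hsp
      omega
    rw [hsp, Nat.cast_pow, CharP.cast_eq_zero, zero_pow hd]
  refine ⟨hv, ?_, ?_⟩
  · have h1 : x ^ (ε 0) / v ^ 2 = x ^ ((ε 0 : ℕ) : ℤ) * v ^ (-2 : ℤ) := by
      rw [zpow_neg, div_eq_mul_inv]
      norm_cast
    rw [h1, lc_val w x v _ _ hx hv, WithZero.exp_inj]
    have h2 : (m : ℤ) * ε 0 + 2 * Q = (s : ℤ) ^ 0 * (q + 1) := by exact_mod_cast hε 0 (Nat.zero_le _)
    rw [pow_zero, one_mul] at h2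
    linear_combination (e : ℤ) * h2
  · rcases a with _ | a
    · rw [pow_zero] at hQ
      subst hQ
      have h2 := hε 0 le_rfl
      rw [pow_zero, one_mul] at h2
      have h3 : ε 0 = N := by
        apply Nat.eq_of_mul_eq_mul_left hm
        rw [hN]
        omega
      rw [zero_add, Finset.sum_range_one, hβa, one_mul, pow_zero, pow_one, h3]
      rw [Finset.range_zero, Finset.sum_empty, add_zero] at hrt
      have hv' : w v = WithZero.exp (-(e : ℤ)) := by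
        rw [hv]
        simp
      exact lc_zero q m e N w hq3 he x v hx hv0 hv' hrt
    · exact lc_pos a s q Q (s ^ a) m e N ε β w hs3 hq3 rfl (by rw [hQ, pow_succ, mul_comm]) hm he hN
        hε (by rw [hq, Nat.cast_pow, hsL, zero_pow hn.ne'])
        (by rw [hQ, Nat.cast_pow, hsL, zero_pow (Nat.succ_ne_zero a)]) hβ hβa x v hx hv0 hx0 hv hrt
        hu hmq

end Pool.Agent.AIC
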