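import Pool.Agent.AIC.Defs

/-!
The algebraic identities behind the local computation. Everything is an identity of monomials in `v` and `x`.

PROOF. Write `u = v^m x^Q`, `Ξ = x^(ε 0) / v^2`, `M' = (q-1)/m`, `M₁ = (2Q-2)/m`, `M₂ j = 2(Q - s^j)/m`. From `hε 0`: `m (ε 0) + 2 Q = q + 1`,
so `m ∣ q + 1 - 2 Q` and with `m ∣ q - 1`: `m ∣ 2 Q - 2`; from `hε j`: `m (ε j) + 2 Q = s^j (q+1)`, hence
`m ∣ 2 Q - 2 s^j` (`s^j ≤ Q`). Exponents: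
* `u ^ M' = v^(q-1) x^(Q (q-1)/m) = v^(q-1) x^N`.
* `Ξ ^ Q * u ^ M₁ = v^(q+1)⁻¹ * (v^(q-1) * x^N)`: exponent of `v`: `-2Q + (2Q - 2) = -2 = -(q+1) + (q-1)`; exponent of `x`:
  `m * (Q ε 0 + Q M₁) = Q (q + 1 - 2 Q) + Q (2 Q - 2) = Q (q - 1) = m N`.
* `Ξ ^ Q * x^(ε j) * u ^ (M₂ j) = Ξ ^ (s^j) * x ^ N`: exponent of `v`: `-2Q + 2 (Q - s^j) = -2 s^j`; exponent of `x`:
  `m (Q ε 0 + ε j + Q M₂ j) = Q (q+1-2Q) + (s^j (q+1) - 2Q) + 2 Q (Q - s^j)` and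
  `m (s^j ε 0 + N) = s^j (q + 1 - 2 Q) + Q (q - 1)`; both are equal to `(Q + s^j)(q+1) - 2Q - 2 Q s^j`.
Work with `zpow` or clear denominators.
-/

set_option autoImplicit false

namespace Pool.Agent.AIC


theorem lc_id {L : Type*} [Field L] (s a q Q m N : ℕ) (ε : ℕ → ℕ) (hQ : Q = s ^ a) (hs : 1 ≤ s)
    (hq : 1 ≤ q) (hm : 0 < m) (hmq : m ∣ q - 1) (hN : m * N = Q * (q - 1))
    (hε : ∀ j, j ≤ a → m * ε j + 2 * Q = s ^ j * (q + 1)) :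
    ∃ (M' M₁ : ℕ) (M₂ : ℕ → ℕ), m * M' = q - 1 ∧ m * M₁ = 2 * Q - 2 ∧
      (∀ j, j ≤ a → m * M₂ j = 2 * (Q - s ^ j)) ∧
      ∀ x v : L, x ≠ 0 → v ≠ 0 →
        (v ^ m * x ^ Q) ^ M' = v ^ (q - 1) * x ^ N ∧
        (x ^ (ε 0) / v ^ 2) ^ Q * (v ^ m * x ^ Q) ^ M₁ = (v ^ (q + 1))⁻¹ * (v ^ (q - 1) * x ^ N) ∧
        ∀ j, j ≤ a → (x ^ (ε 0) / v ^ 2) ^ Q * x ^ (ε j) * (v ^ m * x ^ Q) ^ (M₂ j) =
          (x ^ (ε 0) / v ^ 2) ^ (s ^ j) * x ^ N := by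
  have hQ1 : 1 ≤ Q := by
    rw [hQ]
    exact Nat.one_le_pow _ _ hs
  have hsj : ∀ j, j ≤ a → s ^ j ≤ Q := by
    intro j hj
    rw [hQ]
    exact Nat.pow_le_pow_right hs hj
  have hmz : (m : ℤ) ≠ 0 := by exact_mod_cast hm.ne'
  obtain ⟨M', hM'⟩ := hmq
  obtain ⟨t, ht⟩ : ∃ t, q = t + 1 := ⟨q - 1, by omega⟩
  have htq : q - 1 = t := by omega
  rw [htq] at hM' hN
  have hM'z : (t : ℤ) = m * M' := by exact_mod_cast hM'
  have hNz : (m : ℤ) * N = Q * t := by exact_mod_cast hN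
  have hεz : ∀ j, j ≤ a → (m : ℤ) * ε j + 2 * Q = s ^ j * (t + 2) := by
    intro j hj
    have h := hε j hj
    rw [ht] at h
    have h2 : (m : ℤ) * ε j + 2 * Q = s ^ j * ((t + 1) + 1) := by exact_mod_cast h
    rw [h2]
    ring
  have hdiv : ∀ j, j ≤ a → m ∣ 2 * (Q - s ^ j) := by
    intro j hj
    have h1 := hεz j hj
    have h2 : (m : ℤ) ∣ ((2 * (Q - s ^ j) : ℕ) : ℤ) := by
      refine ⟨s ^ j * M' - ε j, ?_⟩
      push_cast [Nat.cast_sub (hsj j hj)]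
      linear_combination h1 + (s : ℤ) ^ j * hM'z
    exact_mod_cast h2
  have hM₂ : ∀ j, ∃ M : ℕ, j ≤ a → m * M = 2 * (Q - s ^ j) := by
    intro j
    by_cases hj : j ≤ a
    · obtain ⟨M, hM⟩ := hdiv j hj
      exact ⟨M, fun _ => hM.symm⟩
    · exact ⟨0, fun h => absurd h hj⟩
  choose M₂ hM₂ using hM₂
  have hM₁ : m * M₂ 0 = 2 * Q - 2 := by
    have := hM₂ 0 (Nat.zero_le _)
    rw [pow_zero] at this
    omega
  have hM₂z : ∀ j, j ≤ a → (m : ℤ) * M₂ j = 2 * (Q - s ^ j) := by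
    intro j hj
    have h := hM₂ j hj
    have h2 : ((m * M₂ j : ℕ) : ℤ) = ((2 * (Q - s ^ j) : ℕ) : ℤ) := by rw [h]
    push_cast [Nat.cast_sub (hsj j hj)] at h2
    exact h2
  refine ⟨M', M₂ 0, M₂, ?_, hM₁, hM₂, ?_⟩
  · rw [htq, hM']
  intro x v hx hv
  have hQM : Q * M' = N := by
    have : (m : ℤ) * ((Q * M' : ℕ) : ℤ) = m * N := by
      push_cast
      rw [hNz, hM'z]
      ring
    exact_mod_cast mul_left_cancel₀ hmz this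
  have e1 : Q * ε 0 + Q * M₂ 0 = N := by
    have h0 := hεz 0 (Nat.zero_le _)
    have h1 := hM₂z 0 (Nat.zero_le _)
    have : (m : ℤ) * ((Q * ε 0 + Q * M₂ 0 : ℕ) : ℤ) = m * N := by
      push_cast
      rw [hNz]
      linear_combination (Q : ℤ) * h0 + (Q : ℤ) * h1
    exact_mod_cast mul_left_cancel₀ hmz this
  have e2 : ∀ j, j ≤ a → Q * ε 0 + ε j + Q * M₂ j = s ^ j * ε 0 + N := by
    intro j hj
    have h0 := hεz 0 (Nat.zero_le _)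
    have h1 := hεz j hj
    have h2 := hM₂z j hj
    have : (m : ℤ) * ((Q * ε 0 + ε j + Q * M₂ j : ℕ) : ℤ) = m * ((s ^ j * ε 0 + N : ℕ) : ℤ) := by
      push_cast
      linear_combination (Q - s ^ j : ℤ) * h0 + h1 + (Q : ℤ) * h2 - hNz
    exact_mod_cast mul_left_cancel₀ hmz this
  have e3 : m * M₂ 0 + 2 = 2 * Q := by omega
  have e4 : ∀ j, j ≤ a → m * M₂ j + 2 * s ^ j = 2 * Q := by
    intro j hj
    have h := hM₂ j hj
    have h2 := hsj j hj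
    omega
  refine ⟨?_, ?_, ?_⟩
  · rw [mul_pow, ← pow_mul, ← pow_mul, ← hM', hQM, htq]
  · rw [mul_pow, div_pow, ← pow_mul, ← pow_mul, ← pow_mul, ← pow_mul, htq, ht]
    have h1 : v ^ (m * M₂ 0) * v ^ 2 = v ^ (2 * Q) := by rw [← pow_add, e3]
    have h2 : x ^ (ε 0 * Q) * x ^ (Q * M₂ 0) = x ^ N := by
      rw [← pow_add, ← e1, mul_comm (ε 0)]
    have h3 : v ^ (t + 1 + 1) = v ^ t * v ^ 2 := by rw [← pow_add]
    rw [h3, ← h1, ← h2]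
    field_simp
  · intro j hj
    rw [mul_pow, div_pow, div_pow, ← pow_mul, ← pow_mul, ← pow_mul, ← pow_mul, ← pow_mul,
      ← pow_mul]
    have h1 : v ^ (m * M₂ j) * v ^ (2 * s ^ j) = v ^ (2 * Q) := by rw [← pow_add, e4 j hj]
    have h2 : x ^ (ε 0 * Q) * x ^ (ε j) * x ^ (Q * M₂ j) = x ^ (ε 0 * s ^ j) * x ^ N := by
      rw [← pow_add, ← pow_add, ← pow_add, mul_comm (ε 0), e2 j hj, mul_comm (ε 0)]
    rw [← h1]
    have h3 : x ^ (ε 0 * Q) / (v ^ (m * M₂ j) * v ^ (2 * s ^ j)) * x ^ ε j *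
        (v ^ (m * M₂ j) * x ^ (Q * M₂ j)) =
        (x ^ (ε 0 * Q) * x ^ (ε j) * x ^ (Q * M₂ j)) / v ^ (2 * s ^ j) := by
      field_simp
    rw [h3, h2]
    field_simp

end Pool.Agent.AIC
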