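import Pool.Agent.AIC.Defs

/-!
Elements whose values are in different classes modulo the values of a subfield are linearly independent over it.

PROOF. Let `∑ i ∈ T, c i * y i = 0` with `c i ∈ K` not all zero; drop the zero coefficients: all `c i ≠ 0`, `T ≠ ∅`. The values
`w (c i * y i)`, `i ∈ T`, are pairwise distinct: if `w (c i y i) = w (c j y j)` with `i ≠ j` then
`w ((c i / c j) y i) = w (y j)`, contradicting `h`. So the sum has the value of its largest term, which is not `0`.
(`linearIndependent_iff'`, `Valuation.map_sum_eq_of_lt` or induction.)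
-/

set_option autoImplicit false

namespace Pool.Agent.AIC


theorem linearIndependent_of_val {k L Γ : Type*} [Field k] [Field L] [Algebra k L]
    [LinearOrderedCommGroupWithZero Γ] (w : Valuation L Γ) (K : IntermediateField k L)
    {ι : Type*} (y : ι → L) (hy : ∀ i, y i ≠ 0)
    (h : ∀ i j, i ≠ j → ∀ c ∈ K, c ≠ 0 → w (c * y i) ≠ w (y j)) : LinearIndependent K y := by
  classical
  rw [linearIndependent_iff']
  intro T c hsum i hi
  by_contra hne
  set T' := T.filter (fun j => c j ≠ 0) with hT'
  have hi' : i ∈ T' := Finset.mem_filter.mpr ⟨hi, hne⟩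
  have hsum' : ∑ j ∈ T', (c j : L) * y j = 0 := by
    rw [hT', Finset.sum_filter_of_ne]
    · rw [← hsum]
      apply Finset.sum_congr rfl
      intro j _
      rfl
    · intro j _ hj hc
      apply hj
      rw [hc]
      simp
  obtain ⟨j0, hj0, hmax⟩ := T'.exists_max_image (fun j => w ((c j : L) * y j)) ⟨i, hi'⟩
  have hlt : ∀ j ∈ T' \ {j0}, w ((c j : L) * y j) < w ((c j0 : L) * y j0) := by
    intro j hj
    rw [Finset.mem_sdiff, Finset.mem_singleton] at hj
    refine lt_of_le_of_ne (hmax j hj.1) ?_
    intro heq
    have hcj : (c j : L) ≠ 0 := by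
      have := (Finset.mem_filter.mp hj.1).2
      exact fun h0 => this (by exact_mod_cast h0)
    have hcj0 : (c j0 : L) ≠ 0 := by
      have := (Finset.mem_filter.mp hj0).2
      exact fun h0 => this (by exact_mod_cast h0)
    apply h j j0 hj.2 ((c j : L) / (c j0 : L)) (K.div_mem (c j).2 (c j0).2)
      (div_ne_zero hcj hcj0)
    have e : (c j : L) / (c j0 : L) * y j = (c j : L) * y j / (c j0 : L) := by ring
    rw [e, map_div₀, heq, ← map_div₀, mul_div_cancel_left₀ _ hcj0]
  have h1 := Valuation.map_sum_eq_of_lt w hj0 hlt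
  rw [hsum', map_zero] at h1
  have hcj0 : (c j0 : L) ≠ 0 := by
    have := (Finset.mem_filter.mp hj0).2
    exact fun h0 => this (by exact_mod_cast h0)
  exact (w.ne_zero_iff.mpr (mul_ne_zero hcj0 (hy j0))) h1.symm

end Pool.Agent.AIC
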