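import Pool.Agent.AIC.Root

/-!
The small roots at a place where `f` has a pole.

PROOF. Every root `r ≠ 0` satisfies `r^(q^2-1) + f r^(q-1) + 1 = 0`; if `w r = 1` then `w (f r^(q-1)) = w f > 1` is the strictly
largest term: contradiction. If `w r > 1` then `r^(q^2-1)` and `f r^(q-1)` must have the same value (`w 1 < w (f r^(q-1))`), so
`w r ^ (q^2 - q) = w f`. In particular all roots with `w r > 1` have the same value.
`exists_small`: there is a root `v ≠ 0`, and by `Root.exists_compl` a root `y` with `moore v y = 1`. If `w v < 1` or `w y < 1`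
we are done (`y ≠ 0`). Otherwise `w v = w y > 1`; `W = y / v` satisfies `W^q - W = moore v y / v^(q+1) = v^-(q+1)`, of value `< 1`, so by
`Fix.small_sub` there is `c ∈ F` with `w (W - c) < 1`, i.e. `r = y - c v` has `w r < w v`. `r` is a root (`rt_add`, `rt_smul`), `r ≠ 0`
(otherwise `moore v y = c moore v v = 0`), and `w r > 1` is impossible (then `w r = w v`), `w r = 1` too. So `w r < 1`.
`small_unique`: `δ = moore v r` satisfies `δ ^ q = δ`, so it is in `F`, and `w δ < 1`, so `δ = 0`; use `Root.moore_eq_zero`.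
-/

set_option autoImplicit false

namespace Pool.Agent.AIC

open scoped WithZero

theorem two_le_card (F : Type*) [Field F] [Finite F] : 2 ≤ Nat.card F :=
  Finite.one_lt_card

/-- The sizes of the roots. -/
theorem size_root {L : Type*} [Field L] (w : Valuation L ℤᵐ⁰) (q : ℕ) (hq : 2 ≤ q) {f r : L}
    (hf : 1 < w f) (hr0 : r ≠ 0) (hr : Rt q f r) :
    w r < 1 ∨ (1 < w r ∧ (w r) ^ (q ^ 2 - q) = w f) := by
  rcases lt_trichotomy (w r) 1 with h | h | h
  · exact Or.inl h
  · exfalso
    have h1 : f * r ^ q = -(r ^ (q ^ 2) + r) := by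
      have := hr
      unfold Rt at this
      linear_combination this
    have h2 : w (f * r ^ q) = w f := by rw [map_mul, map_pow, h, one_pow, mul_one]
    have h3 : w (-(r ^ (q ^ 2) + r)) ≤ 1 := by
      rw [Valuation.map_neg]
      apply Valuation.map_add_le
      · rw [map_pow, h, one_pow]
      · rw [h]
    rw [← h1, h2] at h3
    exact absurd hf (not_lt.mpr h3)
  · refine Or.inr ⟨h, ?_⟩
    have hw0 : w r ≠ 0 := w.ne_zero_iff.mpr hr0
    have h1 : r ^ (q ^ 2) = -(r + f * r ^ q) := by
      have := hr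
      unfold Rt at this
      linear_combination this
    have h2 : w r < w (f * r ^ q) := by
      rw [map_mul, map_pow]
      calc w r = w r ^ 1 := (pow_one _).symm
        _ ≤ w r ^ q := pow_le_pow_right₀ h.le (by omega)
        _ = 1 * w r ^ q := (one_mul _).symm
        _ < w f * w r ^ q := by
          apply mul_lt_mul_of_pos_right hf
          exact pow_pos (zero_lt_iff.mpr hw0) q
    have h3 : w (r ^ (q ^ 2)) = w (f * r ^ q) := by
      rw [h1, Valuation.map_neg, Valuation.map_add_eq_of_lt_right w h2]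
    rw [map_mul, map_pow, map_pow] at h3
    have hqq : q ≤ q ^ 2 := by nlinarith
    have h4 : w r ^ (q ^ 2 - q) * w r ^ q = w f * w r ^ q := by
      rw [← pow_add, Nat.sub_add_cancel hqq, h3]
    exact mul_right_cancel₀ (pow_ne_zero q hw0) h4

section

variable {F L : Type*} [Field F] [Finite F] [Field L] [Algebra F L] {p n : ℕ} [Fact p.Prime]
  [CharP L p] (hp : Nat.card F = p ^ n) (w : Valuation L ℤᵐ⁰)
  (hF : ∀ c : F, c ≠ 0 → w (algebraMap F L c) = 1)

include hp hF

theorem exists_small (f : L) (hf : 1 < w f) (hs : ∃ s : Finset L, s.card = Nat.card F ^ 2 ∧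
      ∀ r ∈ s, Rt (Nat.card F) f r) :
    ∃ v : L, v ≠ 0 ∧ Rt (Nat.card F) f v ∧ w v < 1 := by
  have hq := two_le_card F
  have hqq : Nat.card F < (Nat.card F) ^ 2 := by nlinarith
  have hm : (Nat.card F) ^ 2 - Nat.card F ≠ 0 := by omega
  obtain ⟨S, hS1, hS2⟩ := hs
  have hS3 : 1 < S.card := by omega
  obtain ⟨v, hvS, hv0⟩ := Finset.exists_mem_ne hS3 0
  have hv := hS2 v hvS
  obtain ⟨y, hy, hvy⟩ := exists_compl hp ⟨S, hS1, hS2⟩ hv hv0
  have hy0 : y ≠ 0 := by
    rintro rfl
    unfold moore at hvy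
    rw [zero_pow (by omega)] at hvy
    simp at hvy
  rcases size_root w _ hq hf hv0 hv with h1 | ⟨h1, h1'⟩
  · exact ⟨v, hv0, hv, h1⟩
  rcases size_root w _ hq hf hy0 hy with h2 | ⟨h2, h2'⟩
  · exact ⟨y, hy0, hy, h2⟩
  have hwv0 : w v ≠ 0 := w.ne_zero_iff.mpr hv0
  have hW : (y / v) ^ (Nat.card F) - y / v = (v ^ (Nat.card F + 1))⁻¹ := by
    have e : v * y ^ (Nat.card F) - y * v ^ (Nat.card F) = 1 := hvy
    apply eq_inv_of_mul_eq_one_left
    have e1 : y ^ (Nat.card F) / v ^ (Nat.card F) * (v ^ (Nat.card F) * v) =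
        y ^ (Nat.card F) * v := by
      rw [← mul_assoc, div_mul_cancel₀ _ (pow_ne_zero _ hv0)]
    have e2 : y / v * (v ^ (Nat.card F) * v) = y * v ^ (Nat.card F) := by
      rw [mul_comm (v ^ (Nat.card F)) v, ← mul_assoc, div_mul_cancel₀ _ hv0]
    rw [div_pow, sub_mul, pow_succ, e1, e2]
    linear_combination e
  have hW2 : w ((y / v) ^ (Nat.card F) - y / v) < 1 := by
    rw [hW, map_inv₀, map_pow]
    apply inv_lt_one_of_one_lt₀
    exact one_lt_pow₀ h1 (by omega)
  obtain ⟨c, hc⟩ := small_sub w (y / v) hW2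
  have hr : Rt (Nat.card F) f (y + algebraMap F L (-c) * v) := rt_add hp hy (rt_smul hp (-c) hv)
  have hre : y + algebraMap F L (-c) * v = v * (y / v - algebraMap F L c) := by
    rw [map_neg]
    field_simp
    ring
  have hr0 : y + algebraMap F L (-c) * v ≠ 0 := by
    intro h0
    have hyc : y = algebraMap F L c * v := by
      rw [map_neg] at h0
      linear_combination h0
    unfold moore at hvy
    rw [hyc, mul_pow, ← map_pow, pow_natCard] at hvy
    have : (0 : L) = 1 := by
      rw [← hvy]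
      ring
    exact zero_ne_one this
  have hrlt : w (y + algebraMap F L (-c) * v) < w v := by
    rw [hre, map_mul]
    calc w v * w (y / v - algebraMap F L c) < w v * 1 :=
          mul_lt_mul_of_pos_left hc (zero_lt_iff.mpr hwv0)
      _ = w v := mul_one _
  rcases size_root w _ hq hf hr0 hr with h3 | ⟨_, h3'⟩
  · exact ⟨_, hr0, hr, h3⟩
  · exfalso
    have h4 : w (y + algebraMap F L (-c) * v) = w v :=
      (pow_left_inj₀ zero_le zero_le hm).mp (h3'.trans h1'.symm)
    exact absurd hrlt (by rw [h4]; exact lt_irrefl _)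

theorem small_unique (f : L) {v r : L} (hv : Rt (Nat.card F) f v) (hr : Rt (Nat.card F) f r)
    (hv0 : v ≠ 0) (hv1 : w v < 1) (hr1 : w r < 1) : ∃ c : F, r = algebraMap F L c * v := by
  have hq := two_le_card F
  apply moore_eq_zero hp hv0
  have h1 := moore_pow hp hv hr
  obtain ⟨c, hc⟩ := mem_range_of_pow_eq _ h1
  have hprod : ∀ a b : L, w a < 1 → w b < 1 → w (a * b ^ (Nat.card F)) < 1 := by
    intro a b ha hb
    rw [map_mul, map_pow]
    calc w a * w b ^ (Nat.card F) ≤ w a * 1 := by
          gcongr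
          exact pow_le_one₀ zero_le hb.le
      _ = w a := mul_one _
      _ < 1 := ha
  have h2 : w (moore (Nat.card F) v r) < 1 := by
    unfold moore
    exact Valuation.map_sub_lt w (hprod v r hv1 hr1) (hprod r v hr1 hv1)
  by_cases h0 : c = 0
  · rw [← hc, h0, map_zero]
  · rw [← hc, hF c h0] at h2
    exact absurd h2 (lt_irrefl _)

end

end Pool.Agent.AIC
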