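import Pool.Agent.AIC.Fix

/-!
Normalizing the small root.

PROOF. Let `M = (q - 1) / m`, `u = v ^ m * x ^ Q`. Then `u ^ M = v ^ (q-1) * x ^ (Q M)` and `m * (Q M) = Q (q-1) = m * N`, so
`Q M = N` (`m > 0`) and `w (u ^ M - 1) < 1`. In `F` we have `X ^ M - 1 = ∏ (X - ζ)` over the `M` elements `ζ ∈ F` with `ζ ^ M = 1`
(`M ∣ q - 1`, `Fˣ` cyclic of order `q - 1`), so `∏ (u - ζ)` has value `< 1` and `w (u - ζ) < 1` for one of them (each factor of
value `≥ 1` otherwise). Since `ζ ^ M = 1` and `Fˣ` is cyclic of order `m M`, `ζ = b ^ m` for some `b ∈ Fˣ`. Take `c = b⁻¹`: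
`(c v) ^ m * x ^ Q - 1 = ζ⁻¹ (u - ζ)`.
(Alternative: `w (u ^ (q-1) - 1) < 1` gives `w (u ^ q - u) < 1`, `Fix.small_sub` gives `ζ ∈ F` with `w (u - ζ) < 1`, and then
`ζ ^ M = 1` because `w (ζ ^ M - 1) < 1`.)
-/

set_option autoImplicit false

namespace Pool.Agent.AIC

open scoped WithZero

private theorem w_geom {L : Type*} [Field L] (w : Valuation L ℤᵐ⁰) (y : L) (hy : w y ≤ 1)
    (k : ℕ) (h : w (y - 1) < 1) : w (y ^ k - 1) < 1 := by
  have hg := (Commute.one_right y).mul_geom_sum₂ k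
  have h1 : w (∑ i ∈ Finset.range k, y ^ i * 1 ^ (k - 1 - i)) ≤ 1 := by
    refine Valuation.map_sum_le w ?_
    intro i _
    rw [one_pow, mul_one, map_pow]
    exact pow_le_one₀ zero_le hy
  rw [one_pow] at hg
  rw [← hg, map_mul]
  exact mul_lt_one_of_lt_of_le h h1

private theorem w_pow_sub {L : Type*} [Field L] (w : Valuation L ℤᵐ⁰) (y z : L) (hy : w y ≤ 1)
    (hz : w z ≤ 1) (k : ℕ) (h : w (y - z) < 1) : w (y ^ k - z ^ k) < 1 := by
  have hg := (Commute.all y z).mul_geom_sum₂ k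
  have h1 : w (∑ i ∈ Finset.range k, y ^ i * z ^ (k - 1 - i)) ≤ 1 := by
    refine Valuation.map_sum_le w ?_
    intro i _
    rw [map_mul, map_pow, map_pow]
    exact mul_le_one' (pow_le_one₀ zero_le hy) (pow_le_one₀ zero_le hz)
  rw [← hg, map_mul]
  exact mul_lt_one_of_lt_of_le h h1

theorem unit_root {F L : Type*} [Field F] [Finite F] [Field L] [Algebra F L]
    (w : Valuation L ℤᵐ⁰) (hF : ∀ c : F, c ≠ 0 → w (algebraMap F L c) = 1)
    (m N Q : ℕ) (hm : 0 < m) (hmq : m ∣ Nat.card F - 1) (hN : m * N = Q * (Nat.card F - 1))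
    (x v : L) (h : w (v ^ (Nat.card F - 1) * x ^ N - 1) < 1) :
    ∃ c : F, c ≠ 0 ∧ w ((algebraMap F L c * v) ^ m * x ^ Q - 1) < 1 := by
  classical
  have hq1 : 1 < Nat.card F := Finite.one_lt_card
  obtain ⟨M, hM⟩ := hmq
  have hM0 : 0 < M := by
    rcases Nat.eq_zero_or_pos M with h0 | h0
    · subst h0; omega
    · exact h0
  have hNM : N = Q * M := by
    have : m * N = m * (Q * M) := by rw [hN, hM]; ring
    exact Nat.eq_of_mul_eq_mul_left hm this
  set u : L := v ^ m * x ^ Q with hu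
  have huM : u ^ M = v ^ (Nat.card F - 1) * x ^ N := by
    rw [hu, mul_pow, ← pow_mul, ← pow_mul, ← hM, ← hNM]
  have hwM : w (u ^ M - 1) < 1 := by rw [huM]; exact h
  have hwuM : w (u ^ M) = 1 := by
    have : u ^ M = (u ^ M - 1) + 1 := by ring
    rw [this]
    rw [Valuation.map_add_eq_of_lt_right w (by rw [map_one]; exact hwM), map_one]
  have hwu : w u = 1 := by
    rw [map_pow] at hwuM
    exact (pow_eq_one_iff_of_nonneg zero_le (by omega)).1 hwuM
  have hwq : w (u ^ (Nat.card F) - u) < 1 := by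
    have e : u ^ (Nat.card F) - u = u * ((u ^ M) ^ m - 1) := by
      rw [← pow_mul, mul_comm M m, ← hM]
      have : u ^ (Nat.card F) = u * u ^ (Nat.card F - 1) := by
        rw [← pow_succ']
        congr 1
        omega
      rw [this]; ring
    rw [e, map_mul, hwu, one_mul]
    exact w_geom w _ hwuM.le m hwM
  obtain ⟨ζ, hζ⟩ := small_sub w u hwq
  have hζ0 : ζ ≠ 0 := by
    rintro rfl
    rw [map_zero, sub_zero, hwu] at hζ
    exact lt_irrefl _ hζ
  have hwζ : w (algebraMap F L ζ) = 1 := hF ζ hζ0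
  have hζM : ζ ^ M = 1 := by
    by_contra hne
    have h1 : w (algebraMap F L (ζ ^ M - 1)) = 1 := hF _ (sub_ne_zero.2 hne)
    have h2 : w (algebraMap F L (ζ ^ M - 1)) < 1 := by
      have e : algebraMap F L (ζ ^ M - 1)
          = (u ^ M - 1) - (u ^ M - (algebraMap F L ζ) ^ M) := by
        rw [map_sub, map_pow, map_one]; ring
      rw [e]
      exact lt_of_le_of_lt (Valuation.map_sub w _ _)
        (max_lt hwM (w_pow_sub w _ _ hwu.le hwζ.le M hζ))
    rw [h1] at h2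
    exact lt_irrefl _ h2
  obtain ⟨b, hb0, hb⟩ : ∃ b : F, b ≠ 0 ∧ b ^ m = ζ := by
    obtain ⟨g, hg⟩ := IsCyclic.exists_generator (α := Fˣ)
    obtain ⟨k, hk⟩ := (Subgroup.mem_zpowers_iff).1 (hg (Units.mk0 ζ hζ0))
    have hord : orderOf g = Nat.card F - 1 := by
      rw [orderOf_eq_card_of_forall_mem_zpowers hg, Nat.card_units]
    have h1 : g ^ (k * (M : ℤ)) = 1 := by
      rw [zpow_mul, hk, zpow_natCast]
      ext
      simp [hζM]
    have h2 : ((Nat.card F - 1 : ℕ) : ℤ) ∣ k * (M : ℤ) := by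
      rw [← hord]
      exact orderOf_dvd_iff_zpow_eq_one.2 h1
    have h3 : (m : ℤ) ∣ k := by
      rw [hM, Nat.cast_mul] at h2
      exact (mul_dvd_mul_iff_right (by exact_mod_cast hM0.ne')).1 h2
    obtain ⟨l, hl⟩ := h3
    refine ⟨((g ^ l : Fˣ) : F), Units.ne_zero _, ?_⟩
    have : (g ^ l) ^ m = Units.mk0 ζ hζ0 := by
      rw [← hk, hl, ← zpow_natCast, ← zpow_mul, mul_comm]
    have h4 := congrArg (fun z : Fˣ => (z : F)) this
    simpa using h4
  refine ⟨b⁻¹, inv_ne_zero hb0, ?_⟩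
  have e : (algebraMap F L b⁻¹ * v) ^ m * x ^ Q - 1
      = (algebraMap F L ζ)⁻¹ * (u - algebraMap F L ζ) := by
    have hne : algebraMap F L ζ ≠ 0 := by
      rw [Ne, map_eq_zero]
      exact hζ0
    rw [mul_sub, inv_mul_cancel₀ hne, mul_pow, ← map_pow, inv_pow, hb, map_inv₀, hu]
    ring
  rw [e, map_mul, map_inv₀, hwζ, inv_one, one_mul]
  exact hζ

end Pool.Agent.AIC
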