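import Pool.Agent.AIC.Defs

/-!
Elements of small ramified value from independent Artin-Schreier equations.

PROOF. Induction on `r`, for all `Ξ` and `Θ`. `r = 0`: `y = Ξ`. Step: `finrank S Θ = r + 1`; pick `θ₁ ∈ Θ`, `θ₁ ≠ 0`, and
`y₁` with `w (y₁^s - y₁ - θ₁ Ξ) < 1`. Since `w (θ₁ Ξ) = w Ξ > 1`, `w (y₁^s - y₁) = w Ξ > 1`, so `w y₁ > 1` and
`(w y₁)^s = w Ξ` (`s ≥ 2`). For `κ ∈ k` let `κ^{1/s}` be the unique `s`-th root (`k` is algebraically closed of characteristic
`p`, `s` a power of `p`; the `s`-power map is a bijective ring homomorphism). Let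
`φ : Θ → k`, `φ θ = (θ/θ₁)^{1/s} - θ/θ₁`; it is `S`-linear (for `σ ∈ S`: `σ^s = σ`, so `σ^{1/s} = σ`), and its kernel is
`{θ | (θ/θ₁)^s = θ/θ₁} = {σ θ₁ | σ ∈ S}` (the equation `X^s = X` has only the `s` solutions from `S`), of dimension `1`.
So `Θ' = range φ` has dimension `r`. For `θ ∈ Θ` with `y_θ`: `y' = y_θ - κ y₁`, `κ = (θ/θ₁)^{1/s}`, satisfies
`y'^s - y' - φ(θ) y₁ = (y_θ^s - y_θ - θ Ξ) - (θ/θ₁) (y₁^s - y₁ - θ₁ Ξ)` (check: `y'^s = y_θ^s - (θ/θ₁) y₁^s`,
`- y' - φ(θ) y₁ = - y_θ + κ y₁ - κ y₁ + (θ/θ₁) y₁`), which has value `< 1`. By induction for `Ξ' = y₁`, `Θ'` there is `y` with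
`(w y)^(s^r) = w y₁`, so `(w y)^(s^(r+1)) = (w y₁)^s = w Ξ`.
-/

set_option autoImplicit false

namespace Pool.Agent.AIC

open scoped WithZero

/-- The fixed points of `x ↦ x ^ s` are the elements of `S`. -/
theorem ValRootAux.fix_mem {S k : Type*} [Field S] [Finite S] [Field k] [Algebra S k] {s : ℕ}
    (hS : Nat.card S = s) (x : k) (hx : x ^ s = x) : ∃ σ : S, algebraMap S k σ = x := by
  classical
  have := Fintype.ofFinite S
  have hs1 : 1 < s := by
    rw [← hS, Nat.card_eq_fintype_card]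
    exact Fintype.one_lt_card
  have hne := FiniteField.X_pow_card_sub_X_ne_zero k hs1
  set R := (Polynomial.X ^ s - Polynomial.X : Polynomial k).roots.toFinset with hR
  have hmem : ∀ y : k, y ^ s = y → y ∈ R := by
    intro y hy
    rw [hR, Multiset.mem_toFinset, Polynomial.mem_roots hne, Polynomial.IsRoot.def]
    simp [hy]
  have hcard : R.card ≤ s :=
    (Multiset.toFinset_card_le _).trans ((Polynomial.card_roots' _).trans
      (FiniteField.X_pow_card_sub_X_natDegree_eq k hs1).le)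
  have himg : (Finset.univ.image (algebraMap S k)) ⊆ R := by
    intro y hy
    obtain ⟨σ, -, rfl⟩ := Finset.mem_image.1 hy
    apply hmem
    rw [← map_pow, ← hS, Nat.card_eq_fintype_card, FiniteField.pow_card]
  have hc : (Finset.univ.image (algebraMap S k)).card = s := by
    rw [Finset.card_image_of_injective _ (algebraMap S k).injective, Finset.card_univ, ← hS,
      Nat.card_eq_fintype_card]
  have he := Finset.eq_of_subset_of_card_le himg (by omega)
  have hxR := hmem x hx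
  rw [← he] at hxR
  obtain ⟨σ, -, h⟩ := Finset.mem_image.1 hxR
  exact ⟨σ, h⟩

theorem val_root {S k L : Type*} [Field S] [Finite S] [Field k] [IsAlgClosed k] [Algebra S k]
    [Field L] [Algebra k L] (p d s : ℕ) [Fact p.Prime] [CharP k p] (hsp : s = p ^ d)
    (hS : Nat.card S = s) (w : Valuation L ℤᵐ⁰)
    (hk : ∀ c : k, c ≠ 0 → w (algebraMap k L c) = 1) (r : ℕ) :
    ∀ (Θ : Submodule S k) (Ξ : L), Module.finrank S Θ = r → 1 < w Ξ →
      (∀ θ ∈ Θ, ∃ y : L, w (y ^ s - y - algebraMap k L θ * Ξ) < 1) →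
      ∃ y : L, (w y) ^ (s ^ r) = w Ξ := by
  have hs1 : 1 < s := by
    have := Fintype.ofFinite S
    rw [← hS, Nat.card_eq_fintype_card]
    exact Fintype.one_lt_card
  have hs0 : s ≠ 0 := by omega
  have hchL : CharP L p := charP_of_injective_algebraMap (algebraMap k L).injective p
  have hk1 : ∀ c : k, w (algebraMap k L c) ≤ 1 := by
    intro c
    rcases eq_or_ne c 0 with rfl | hc
    · simp
    · exact (hk c hc).le
  induction r with
  | zero =>
    intro Θ Ξ _ _ _
    exact ⟨Ξ, by simp⟩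
  | succ r ih =>
    intro Θ Ξ hΘ hΞ hy
    have hfin : FiniteDimensional S Θ := FiniteDimensional.of_finrank_pos (by omega)
    have hne : Θ ≠ ⊥ := by
      rintro rfl
      simp at hΘ
    obtain ⟨θ₁, h1, h10⟩ := Submodule.exists_mem_ne_zero_of_ne_bot hne
    obtain ⟨y₁, hy₁⟩ := hy θ₁ h1
    have hwθ : w (algebraMap k L θ₁ * Ξ) = w Ξ := by
      rw [map_mul, hk θ₁ h10, one_mul]
    have hA : w (y₁ ^ s - y₁) = w Ξ := by
      have e : y₁ ^ s - y₁ = (y₁ ^ s - y₁ - algebraMap k L θ₁ * Ξ) + algebraMap k L θ₁ * Ξ := by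
        ring
      rw [e, Valuation.map_add_eq_of_lt_right w (by rw [hwθ]; exact hy₁.trans hΞ), hwθ]
    have hw1 : 1 < w y₁ := by
      by_contra hle
      push Not at hle
      have h2 : w (y₁ ^ s - y₁) ≤ 1 := by
        refine Valuation.map_sub_le w ?_ hle
        rw [map_pow]
        exact pow_le_one₀ zero_le hle
      rw [hA] at h2
      exact absurd hΞ (not_lt.2 h2)
    have hws : (w y₁) ^ s = w Ξ := by
      rw [← hA, Valuation.map_sub_eq_of_lt_left w, map_pow]
      rw [map_pow]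
      calc w y₁ = (w y₁) ^ 1 := (pow_one _).symm
        _ < (w y₁) ^ s := pow_lt_pow_right₀ hw1 hs1
    -- the inverse of Frobenius
    have : PerfectRing k p := inferInstance
    set ρ : k ≃+* k := (iterateFrobeniusEquiv k p d).symm with hρd
    have hρ : ∀ c, (ρ c) ^ s = c := by
      intro c
      rw [hsp, ← iterateFrobeniusEquiv_def, hρd, RingEquiv.apply_symm_apply]
    have hρi : ∀ c, ρ (c ^ s) = c := by
      intro c
      rw [hsp, ← iterateFrobeniusEquiv_def, hρd, RingEquiv.symm_apply_apply]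
    have hρS : ∀ σ : S, ρ (algebraMap S k σ) = algebraMap S k σ := by
      intro σ
      have h := hρi (algebraMap S k σ)
      have := Fintype.ofFinite S
      rwa [← map_pow, ← hS, Nat.card_eq_fintype_card, FiniteField.pow_card] at h
    let ψ : k →ₗ[S] k :=
      { toFun := fun c => ρ (θ₁⁻¹ * c) - θ₁⁻¹ * c
        map_add' := fun x y => by rw [mul_add, map_add]; ring
        map_smul' := fun σ x => by
          simp only [Algebra.smul_def, RingHom.id_apply]
          rw [show θ₁⁻¹ * (algebraMap S k σ * x) = algebraMap S k σ * (θ₁⁻¹ * x) by ring, map_mul,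
            hρS]
          ring }
    have hψ : ∀ c, ψ c = ρ (θ₁⁻¹ * c) - θ₁⁻¹ * c := fun _ => rfl
    have hψ1 : ψ θ₁ = 0 := by
      rw [hψ, inv_mul_cancel₀ h10, map_one, sub_self]
    have hker : ∀ c, ψ c = 0 → ∃ σ : S, c = σ • θ₁ := by
      intro c hc
      rw [hψ, sub_eq_zero] at hc
      have h3 : (θ₁⁻¹ * c) ^ s = θ₁⁻¹ * c := by
        have := hρ (θ₁⁻¹ * c)
        rwa [hc] at this
      obtain ⟨σ, hσ⟩ := ValRootAux.fix_mem hS _ h3
      refine ⟨σ, ?_⟩
      rw [Algebra.smul_def, hσ]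
      field_simp
    have hrank : Module.finrank S (Θ.map ψ) = r := by
      have h4 := LinearMap.finrank_range_add_finrank_ker (ψ.domRestrict Θ)
      have h5 : Module.finrank S (LinearMap.ker (ψ.domRestrict Θ)) = 1 := by
        refine finrank_eq_one (⟨⟨θ₁, h1⟩, ?_⟩ : LinearMap.ker (ψ.domRestrict Θ)) ?_ ?_
        · rw [LinearMap.mem_ker]
          exact hψ1
        · intro h
          have h8 := congrArg (fun z : LinearMap.ker (ψ.domRestrict Θ) => ((z : Θ) : k)) h
          exact h10 h8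
        · rintro ⟨⟨c, hc⟩, hc2⟩
          rw [LinearMap.mem_ker] at hc2
          obtain ⟨σ, hσ⟩ := hker c hc2
          refine ⟨σ, ?_⟩
          apply Subtype.ext
          apply Subtype.ext
          exact hσ.symm
      have h6 : LinearMap.range (ψ.domRestrict Θ) = Θ.map ψ := by
        rw [LinearMap.domRestrict, LinearMap.range_comp, Submodule.range_subtype]
      rw [h6, h5, hΘ] at h4
      omega
    obtain ⟨y, hy2⟩ := ih (Θ.map ψ) y₁ hrank hw1 (by
      rintro _ ⟨θ, hθ, rfl⟩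
      obtain ⟨z, hz⟩ := hy θ hθ
      refine ⟨z - algebraMap k L (ρ (θ₁⁻¹ * θ)) * y₁, ?_⟩
      have e1 : (z - algebraMap k L (ρ (θ₁⁻¹ * θ)) * y₁) ^ s =
          z ^ s - algebraMap k L (θ₁⁻¹ * θ) * y₁ ^ s := by
        rw [hsp, sub_pow_char_pow, ← hsp, mul_pow, ← map_pow, hρ]
      have e2 : (z - algebraMap k L (ρ (θ₁⁻¹ * θ)) * y₁) ^ s -
          (z - algebraMap k L (ρ (θ₁⁻¹ * θ)) * y₁) - algebraMap k L (ψ θ) * y₁ =
          (z ^ s - z - algebraMap k L θ * Ξ) -
            algebraMap k L (θ₁⁻¹ * θ) * (y₁ ^ s - y₁ - algebraMap k L θ₁ * Ξ) := by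
        rw [e1, hψ, map_sub, map_mul (algebraMap k L) θ₁⁻¹ θ]
        have h7 : algebraMap k L θ₁⁻¹ * algebraMap k L θ₁ = 1 := by
          rw [← map_mul, inv_mul_cancel₀ h10, map_one]
        linear_combination (-(algebraMap k L θ) * Ξ) * h7
      rw [e2]
      refine lt_of_le_of_lt (Valuation.map_sub w _ _) (max_lt hz ?_)
      rw [map_mul]
      calc w (algebraMap k L (θ₁⁻¹ * θ)) * w (y₁ ^ s - y₁ - algebraMap k L θ₁ * Ξ)
          ≤ 1 * w (y₁ ^ s - y₁ - algebraMap k L θ₁ * Ξ) := by gcongr; exact hk1 _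
        _ < 1 := by rw [one_mul]; exact hy₁)
    refine ⟨y, ?_⟩
    rw [pow_succ, pow_mul, hy2, hws]

end Pool.Agent.AIC
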