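import Pool.Agent.AIC.Inert
import Pool.Agent.AIC.LC
import Pool.Agent.AIC.ASU
import Pool.Agent.AIC.ASL
import Pool.Agent.AIC.ValRoot
import Pool.Agent.AIC.Small
import Pool.Agent.AIC.URoot

/-!
Assembly of the local theorem at infinity.
-/

set_option autoImplicit false

namespace Pool.Agent.AIC

open Module
open scoped WithZero

section ram

variable {F : Type*} [Field F] [Finite F] (p : ℕ) [Fact p.Prime] [CharP F p] (S : Subfield F)

omit [Fact p.Prime] in
theorem card_S_pow : ∃ d : ℕ, Nat.card S = p ^ d := by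
  have h1 : CharP S p := inferInstance
  have := Fintype.ofFinite S
  obtain ⟨n, hn, h⟩ := FiniteField.card S p
  exact ⟨n, by rw [Nat.card_eq_fintype_card, h]⟩

theorem pow_S (σ : S) (i : ℕ) : (σ : F) ^ (Nat.card S ^ i) = σ := by
  induction i with
  | zero => simp
  | succ i ih =>
    have h : (σ : F) ^ Nat.card S = σ := by
      have := pow_natCard σ
      exact_mod_cast congrArg Subtype.val this
    rw [pow_succ, pow_mul, ih, h]

/-- `theta` as an `S`-linear map. -/
noncomputable def thetaL (n a : ℕ) (β : ℕ → F) : F →ₗ[S] F where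
  toFun := fun c => theta (Nat.card S) n a β c
  map_add' := by
    intro x y
    obtain ⟨d, hd⟩ := card_S_pow p S
    unfold theta
    rw [← Finset.sum_add_distrib]
    refine Finset.sum_congr rfl fun j _ => ?_
    have := ExpChar.prime (R := F) (Fact.out : p.Prime)
    rw [hd, ← pow_mul, mul_add, add_pow_expChar_pow]
  map_smul' := by
    intro σ x
    unfold theta
    rw [RingHom.id_apply, Algebra.smul_def, Algebra.smul_def, Finset.mul_sum]
    refine Finset.sum_congr rfl fun j _ => ?_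
    have h : algebraMap S F σ = (σ : F) := rfl
    rw [h, mul_left_comm, mul_pow, pow_S S σ]

theorem exists_ram {k L : Type*} [Field k] [IsAlgClosed k] [CharP k p] [Algebra F k] [Field L]
    [Algebra k L] [Algebra F L] [IsScalarTower F k L] [CharP L p] (B : Submodule S F)
    (β : ℕ → F) (a n : ℕ) (hB : finrank S B = a) (hn : finrank S F = n) (ha : a ≤ n)
    (hβ : ∀ c, theta (Nat.card S) n a β c = 0 ↔ c ∈ B) (w : Valuation L ℤᵐ⁰)
    (hk : ∀ c : k, c ≠ 0 → w (algebraMap k L c) = 1) (W Ξ : L) (hΞ : 1 < w Ξ)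
    (hW : w (W ^ (Nat.card S ^ n) - W - ∑ j ∈ Finset.range (a + 1),
      algebraMap F L (β j) * Ξ ^ (Nat.card S ^ j)) < 1) :
    ∃ y : L, (w y) ^ (Nat.card S ^ (n - a)) = w Ξ := by
  obtain ⟨d, hd⟩ := card_S_pow p S
  have hFn : ∀ c : F, c ^ (Nat.card S ^ n) = c := by
    intro c
    rw [← hn, ← Module.natCard_eq_pow_finrank, pow_natCard]
  have hF : ∀ c : F, c ≠ 0 → w (algebraMap F L c) = 1 := by
    intro c hc
    rw [IsScalarTower.algebraMap_apply F k L]
    exact hk _ (by simpa using hc)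
  let ι : F →ₗ[S] k := (IsScalarTower.toAlgHom S F k).toLinearMap
  have hι : Function.Injective ι := (algebraMap F k).injective
  let φ : F →ₗ[S] k := ι ∘ₗ thetaL p S n a β
  have hker : LinearMap.ker φ = B := by
    ext c
    rw [LinearMap.mem_ker]
    change ι (theta (Nat.card S) n a β c) = 0 ↔ _
    rw [map_eq_zero_iff ι hι, hβ]
  have hrank : finrank S (LinearMap.range φ) = n - a := by
    have h := LinearMap.finrank_range_add_finrank_ker φ
    rw [hker, hB, hn] at h
    omega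
  refine val_root (S := S) (k := k) (L := L) p d (Nat.card S) hd rfl w hk (n - a)
    (LinearMap.range φ) Ξ hrank hΞ ?_
  rintro _ ⟨c, rfl⟩
  obtain ⟨y, hy⟩ := as_lower p d n a (Nat.card S) hd ha hFn β w hF W Ξ hW c
  refine ⟨y, ?_⟩
  have : algebraMap k L (φ c) = algebraMap F L (theta (Nat.card S) n a β c) := by
    rw [IsScalarTower.algebraMap_apply F k L]
    rfl
  rw [this]
  exact hy

end ram

section pieces

variable {F L : Type*} [Field F] [Finite F] [Field L] [Algebra F L]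

/-- The polynomial function `f`. -/
def fx (N a : ℕ) (ε : ℕ → ℕ) (β : ℕ → L) (x : L) : L :=
  -x ^ N + ∑ j ∈ Finset.range a, β j * x ^ (ε j)

theorem rt_iff {q : ℕ} (hq : 1 ≤ q) {f v : L} (hv : v ≠ 0) :
    Rt q f v ↔ v ^ (q ^ 2 - 1) + f * v ^ (q - 1) + 1 = 0 := by
  have h1 : v ^ (q ^ 2) = v ^ (q ^ 2 - 1) * v := by
    rw [← pow_succ, Nat.sub_add_cancel (Nat.one_le_pow _ _ hq)]
  have h2 : v ^ q = v ^ (q - 1) * v := by
    rw [← pow_succ, Nat.sub_add_cancel hq]
  have h3 : v ^ (q ^ 2) + f * v ^ q + v = (v ^ (q ^ 2 - 1) + f * v ^ (q - 1) + 1) * v := by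
    rw [h1, h2]; ring
  unfold Rt
  rw [h3, mul_eq_zero]
  simp [hv]

theorem val_sum_lt (w : Valuation L ℤᵐ⁰) (N a : ℕ) (ε : ℕ → ℕ) (β : ℕ → L) (x : L)
    (hx : 1 < w x) (hβ : ∀ j, w (β j) ≤ 1) (hε : ∀ j, j < a → ε j < N) :
    w (∑ j ∈ Finset.range a, β j * x ^ (ε j)) < w (x ^ N) := by
  apply Valuation.map_sum_lt
  · have : x ≠ 0 := by
      rintro rfl
      rw [map_zero] at hx
      exact absurd hx (not_lt.2 zero_le)
    exact (Valuation.ne_zero_iff _).2 (pow_ne_zero _ this)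
  · intro j hj
    rw [Finset.mem_range] at hj
    rw [map_mul, map_pow, map_pow]
    calc w (β j) * w x ^ ε j ≤ 1 * w x ^ ε j := mul_le_mul_left (hβ j) _
      _ = w x ^ ε j := one_mul _
      _ < w x ^ N := pow_lt_pow_right₀ hx (hε j hj)

theorem val_fx (w : Valuation L ℤᵐ⁰) (N a : ℕ) (ε : ℕ → ℕ) (β : ℕ → L) (x : L)
    (hx : 1 < w x) (hβ : ∀ j, w (β j) ≤ 1) (hε : ∀ j, j < a → ε j < N) :
    w (fx N a ε β x) = w x ^ N := by
  have h := val_sum_lt w N a ε β x hx hβ hε
  unfold fx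
  rw [Valuation.map_add_eq_of_lt_left, Valuation.map_neg, map_pow]
  rw [Valuation.map_neg]
  exact h

theorem unit_small (w : Valuation L ℤᵐ⁰) (q N a : ℕ) (hq : 2 ≤ q) (ε : ℕ → ℕ) (β : ℕ → L)
    (x v : L) (hx : 1 < w x) (hβ : ∀ j, w (β j) ≤ 1) (hε : ∀ j, j < a → ε j < N) (hv0 : v ≠ 0)
    (hv : Rt q (fx N a ε β x) v) (hv1 : w v < 1) : w (v ^ (q - 1) * x ^ N - 1) < 1 := by
  rw [rt_iff (by omega) hv0] at hv
  set f := fx N a ε β x with hf
  have hwf : w f = w x ^ N := val_fx w N a ε β x hx hβ hε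
  have h1 : w (v ^ (q ^ 2 - 1)) < 1 := by
    rw [map_pow]
    have : q ^ 2 - 1 ≠ 0 := by
      have : 2 ^ 2 ≤ q ^ 2 := Nat.pow_le_pow_left hq 2
      omega
    exact pow_lt_one₀ zero_le hv1 this
  have h2 : w (f * v ^ (q - 1)) = 1 := by
    have : f * v ^ (q - 1) = -1 - v ^ (q ^ 2 - 1) := by linear_combination hv
    rw [this, sub_eq_add_neg, Valuation.map_add_eq_of_lt_left, Valuation.map_neg, map_one]
    rw [Valuation.map_neg, Valuation.map_neg, map_one]
    exact h1
  have h3 : v ^ (q - 1) * x ^ N - 1 =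
      v ^ (q ^ 2 - 1) + v ^ (q - 1) * ∑ j ∈ Finset.range a, β j * x ^ (ε j) := by
    have : f = -x ^ N + ∑ j ∈ Finset.range a, β j * x ^ (ε j) := rfl
    rw [this] at hv
    linear_combination (-1) * hv
  rw [h3]
  refine Valuation.map_add_lt _ h1 ?_
  have h4 := val_sum_lt w N a ε β x hx hβ hε
  rw [map_pow, ← hwf] at h4
  rw [← h2, map_mul, map_mul, mul_comm (w f)]
  have h5 : 0 < w (v ^ (q - 1)) := by
    rw [Valuation.pos_iff]
    exact pow_ne_zero _ hv0
  exact (mul_lt_mul_iff_right₀ h5).2 h4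

end pieces

end Pool.Agent.AIC
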