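import Pool.Agent.AIC.Local

/-!
Assembly of the local theorem at infinity, second part.
-/

set_option autoImplicit false

namespace Pool.Agent.AIC

open Module
open scoped WithZero

theorem card_eq_pow {F : Type*} [Field F] [Finite F] (S : Subfield F) (n : ℕ)
    (hn : finrank S F = n) : Nat.card F = Nat.card S ^ n := by
  rw [← hn, ← Module.natCard_eq_pow_finrank]

/-- The arithmetic of the exponents. -/
theorem eps_lt {m N a s q : ℕ} {ε : ℕ → ℕ} (hs : 2 ≤ s) (hq : 1 ≤ q)
    (hN : m * N = s ^ a * (q - 1)) (hε : ∀ j, j ≤ a → m * ε j + 2 * s ^ a = s ^ j * (q + 1))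
    (j : ℕ) (hj : j < a) : ε j < N := by
  have h1 := hε j hj.le
  have h2 : s ^ j < s ^ a := Nat.pow_lt_pow_right (by omega) hj
  have h3 : m * N + 2 * s ^ a = s ^ a * (q + 1) := by
    rw [hN]
    obtain ⟨r, rfl⟩ : ∃ r, q = r + 1 := ⟨q - 1, by omega⟩
    rw [Nat.add_sub_cancel]
    ring
  have h4 : s ^ j * (q + 1) < s ^ a * (q + 1) := Nat.mul_lt_mul_of_pos_right h2 (by omega)
  have h5 : m * ε j < m * N := by omega
  exact lt_of_mul_lt_mul_left h5 (Nat.zero_le m)

theorem W_eq {L : Type*} [Field L] {q : ℕ} {v y : L} (hv : v ≠ 0) (h : moore q v y = 1) :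
    (y / v) ^ q - y / v = (v ^ (q + 1))⁻¹ := by
  unfold moore at h
  rw [div_pow, pow_succ]
  have hq : v ^ q ≠ 0 := pow_ne_zero _ hv
  field_simp
  linear_combination h

theorem moore_lin {F L : Type*} [Field F] [Finite F] [Field L] [Algebra F L] {p n : ℕ}
    [Fact p.Prime] [CharP L p] (hp : Nat.card F = p ^ n) (v y : L) (α γ : F) :
    moore (Nat.card F) v (algebraMap F L α * v + algebraMap F L γ * y) =
      algebraMap F L γ * moore (Nat.card F) v y := by
  have hadd : ∀ z z' : L, (z + z') ^ (Nat.card F) = z ^ (Nat.card F) + z' ^ (Nat.card F) := by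
    intro z z'
    have := ExpChar.prime (R := L) (Fact.out : p.Prime)
    rw [hp, add_pow_expChar_pow]
  have hpow : ∀ c : F, (algebraMap F L c) ^ Nat.card F = algebraMap F L c := by
    intro c
    rw [← map_pow, pow_natCard]
  unfold moore
  rw [hadd, mul_pow, mul_pow, hpow, hpow]
  ring

theorem local_main (p : ℕ) [Fact p.Prime] (k : Type) [Field k] [IsAlgClosed k] [CharP k p]
    (F : Type) [Field F] [Finite F] [Algebra F k]
    (L : Type) [Field L] [Algebra k L] [Algebra (RatFunc k) L] [IsScalarTower k (RatFunc k) L]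
    [FiniteDimensional (RatFunc k) L] [IsGalois (RatFunc k) L] [Algebra F L]
    [IsScalarTower F k L] (S : Subfield F) (A B : Submodule S F) (t : Fˣ) (β : ℕ → F)
    (ε : ℕ → ℕ) (a n N : ℕ) (hs3 : 3 ≤ Nat.card S) (hn : finrank S F = n)
    (hB : finrank S B = a) (hab : a + finrank S A = n)
    (hA : ∀ b, b ∈ A ↔ ∀ c ∈ B, tr (Nat.card S) n (c * b) = 0)
    (hβa : β a = 1) (hβ : ∀ c, theta (Nat.card S) n a β c = 0 ↔ c ∈ B)
    (hmq : orderOf t ∣ Nat.card F - 1)
    (hN : orderOf t * N = Nat.card S ^ a * (Nat.card F - 1))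
    (hε : ∀ j, j ≤ a → orderOf t * ε j + 2 * Nat.card S ^ a = Nat.card S ^ j * (Nat.card F + 1))
    (hroots : ∃ s : Finset L, s.card = Nat.card F ^ 2 ∧ ∀ r ∈ s,
      Rt (Nat.card F) (fx N a ε (fun j => algebraMap F L (β j)) (xx k L)) r) :
    ∃ (P : Ideal (Bi k L)) (w : Valuation L ℤᵐ⁰) (I : Subgroup (L ≃ₐ[RatFunc k] L)) (v y : L),
      P.IsMaximal ∧ (∀ b : Bi k L, (b : L) = (xx k L)⁻¹ → b ∈ P) ∧
      (∀ g, g ∈ I ↔ ∀ b : Bi k L, ∃ c ∈ P, (c : L) = g (b : L) - (b : L)) ∧
      (∀ c : k, c ≠ 0 → w (algebraMap k L c) = 1) ∧ v ≠ 0 ∧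
      Rt (Nat.card F) (fx N a ε (fun j => algebraMap F L (β j)) (xx k L)) v ∧
      Rt (Nat.card F) (fx N a ε (fun j => algebraMap F L (β j)) (xx k L)) y ∧
      moore (Nat.card F) v y = 1 ∧ w v < 1 ∧ orderOf t * Nat.card A ≤ Nat.card I ∧
      ∀ g ∈ I, ∀ α γ α' γ' : F, g v = algebraMap F L α * v + algebraMap F L γ * y →
        g y = algebraMap F L α' * v + algebraMap F L γ' * y →
        γ = 0 ∧ α ^ (orderOf t) = 1 ∧ (α = 1 → γ' = 1 → α' ∈ A) := by
  have hcF : CharP F p := (algebraMap F k).charP_iff (algebraMap F k).injective p |>.2 ‹_›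
  have hcL : CharP L p := (algebraMap k L).charP_iff (algebraMap k L).injective p |>.1 ‹_›
  obtain ⟨d, hd⟩ := card_S_pow p S
  have hqs : Nat.card F = Nat.card S ^ n := card_eq_pow S n hn
  have hqp : Nat.card F = p ^ (d * n) := by rw [hqs, hd, pow_mul]
  have hn0 : 0 < n := by
    rw [← hn]
    exact Module.finrank_pos
  have hq3 : 3 ≤ Nat.card F := by
    rw [hqs]
    calc 3 ≤ Nat.card S := hs3
      _ = Nat.card S ^ 1 := (pow_one _).symm
      _ ≤ Nat.card S ^ n := Nat.pow_le_pow_right (by omega) hn0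
  obtain ⟨P, w, I, hP, hPx, hI, hk, hwx, hI1, hI2⟩ := inert k L
  set x := xx k L with hxdef
  set m := orderOf t with hm
  have hm0 : 0 < m := orderOf_pos t
  have hF : ∀ c : F, c ≠ 0 → w (algebraMap F L c) = 1 := by
    intro c hc
    rw [IsScalarTower.algebraMap_apply F k L]
    exact hk _ (by simpa using hc)
  have hF1 : ∀ c : F, w (algebraMap F L c) ≤ 1 := by
    intro c
    by_cases hc : c = 0
    · rw [hc, map_zero, map_zero]; exact zero_le
    · rw [hF c hc]
  have hIpos : 0 < Nat.card I := Nat.card_pos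
  have hx1 : 1 < w x := by
    rw [hwx, ← WithZero.exp_zero, WithZero.exp_lt_exp]
    exact_mod_cast hIpos
  have hx0 : x ≠ 0 := by
    intro h
    rw [h, map_zero] at hx1
    exact absurd hx1 (not_lt.2 zero_le)
  set f := fx N a ε (fun j => algebraMap F L (β j)) x with hf
  have hεN : ∀ j, j < a → ε j < N := eps_lt (by omega) (by omega) hN hε
  have hN0 : N ≠ 0 := by
    rintro h0
    rw [h0, mul_zero] at hN
    have h1 : 0 < Nat.card S ^ a := Nat.pow_pos (by omega)
    have h2 : 0 < Nat.card F - 1 := by omega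
    have := Nat.mul_pos h1 h2
    omega
  have hwf : w f = w x ^ N := val_fx w N a ε _ x hx1 (fun j => hF1 _) hεN
  have hf1 : 1 < w f := by
    rw [hwf]
    exact one_lt_pow₀ hx1 hN0
  obtain ⟨v₀, hv₀0, hv₀, hv₀1⟩ := exists_small hqp w hF f hf1 hroots
  obtain ⟨c₀, hc₀, hu⟩ := unit_root w hF m N (Nat.card S ^ a) hm0 hmq hN x v₀
    (unit_small w (Nat.card F) N a (by omega) ε _ x v₀ hx1 (fun j => hF1 _) hεN hv₀0 hv₀ hv₀1)
  set v := algebraMap F L c₀ * v₀ with hv
  have hv0 : v ≠ 0 := mul_ne_zero (by simpa using hc₀) hv₀0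
  have hvR : Rt (Nat.card F) f v := rt_smul hqp c₀ hv₀
  have hv1 : w v < 1 := by
    rw [hv, map_mul, hF c₀ hc₀, one_mul]
    exact hv₀1
  obtain ⟨y, hyR, hvy⟩ := exists_compl hqp hroots hvR hv0
  -- the exponents
  have hcop : Nat.Coprime m (Nat.card S ^ a) := by
    have h1 : Nat.Coprime (Nat.card F - 1) (Nat.card F) := by
      have := Nat.coprime_self_add_right (m := Nat.card F - 1) (n := 1)
      rw [Nat.sub_add_cancel (by omega)] at this
      exact this.2 (Nat.coprime_one_right _)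
    have h2 : Nat.Coprime m (Nat.card F) := Nat.Coprime.coprime_dvd_left hmq h1
    refine Nat.Coprime.coprime_dvd_right ?_ h2
    rw [hqs]
    exact pow_dvd_pow _ (by omega)
  have hwu : w (v ^ m * x ^ (Nat.card S ^ a)) = 1 := by
    have h := w.map_one_add_of_lt hu
    rwa [add_sub_cancel] at h
  have hwv0 : w v ≠ 0 := (Valuation.ne_zero_iff _).2 hv0
  obtain ⟨e, he⟩ : m ∣ Nat.card I := by
    have h1 : (m : ℤ) * WithZero.log (w v) + (Nat.card S ^ a : ℕ) * (Nat.card I : ℤ) = 0 := by
      have h2 := congrArg WithZero.log hwu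
      rw [map_mul, map_pow, map_pow, WithZero.log_mul (pow_ne_zero _ hwv0)
        (pow_ne_zero _ (by rw [hwx]; exact WithZero.exp_ne_zero)), WithZero.log_pow,
        WithZero.log_pow, hwx, WithZero.log_exp, WithZero.log_one] at h2
      simpa using h2
    have h3 : (m : ℤ) ∣ (Nat.card S ^ a : ℕ) * (Nat.card I : ℤ) :=
      ⟨-WithZero.log (w v), by linarith⟩
    have h4 : m ∣ Nat.card S ^ a * Nat.card I := by exact_mod_cast h3
    exact hcop.dvd_of_dvd_mul_left h4
  have he0 : 0 < e := by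
    rcases Nat.eq_zero_or_pos e with h | h
    · rw [h, mul_zero] at he; omega
    · exact h
  have hwx' : w x = WithZero.exp ((m : ℤ) * (e : ℤ)) := by
    rw [hwx, he]; push_cast; rfl
  obtain ⟨hwv, hwΞ, hmain⟩ := lc p d n a (Nat.card S) (Nat.card F) (Nat.card S ^ a) m e N ε
    (fun j => algebraMap F L (β j)) w hd hs3 hn0 hqs rfl hm0 he0 hmq hN hε (fun j => hF1 _)
    (by rw [hβa, map_one]) x v hwx' hv0 hvR hu
  set Ξ := x ^ (ε 0) / v ^ 2 with hΞ
  set W := y / v with hW
  have hWq : W ^ Nat.card F - W = (v ^ (Nat.card F + 1))⁻¹ := W_eq hv0 hvy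
  have hmain' : w (W ^ (Nat.card S ^ n) - W - ∑ j ∈ Finset.range (a + 1),
      algebraMap F L (β j) * Ξ ^ (Nat.card S ^ j)) < 1 := by
    rw [← hqs, hWq]
    exact hmain
  have hFn : ∀ c : F, c ^ (Nat.card S ^ n) = c := by
    intro c
    rw [← hqs, pow_natCard]
  have hrepr : ∀ α γ : F, algebraMap F L α * v + algebraMap F L γ * y = 0 → α = 0 ∧ γ = 0 := by
    intro α γ h
    have h0 : moore (Nat.card F) v (algebraMap F L α * v + algebraMap F L γ * y) = 0 := by
      rw [h]
      unfold moore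
      rw [zero_pow (by omega), mul_zero, zero_mul, sub_zero]
    have h1 := moore_lin (L := L) hqp v y α γ
    rw [h1, hvy, mul_one] at h0
    have hγ : γ = 0 := by simpa using h0
    refine ⟨?_, hγ⟩
    rw [hγ, map_zero, zero_mul, add_zero] at h
    rcases mul_eq_zero.1 h with h | h
    · simpa using h
    · exact absurd h hv0
  refine ⟨P, w, I, v, y, hP, hPx, hI, hk, hv0, hvR, hyR, hvy, hv1, ?_, ?_⟩
  · -- lower bound
    have hΞ1 : 1 < w Ξ := by
      rw [hwΞ, ← WithZero.exp_zero, WithZero.exp_lt_exp]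
      positivity
    obtain ⟨z, hz⟩ := exists_ram p S B β a n hB hn (by omega) hβ w hk W Ξ hΞ1 hmain'
    have hr : n - a = finrank S A := by omega
    have hcA : Nat.card A = Nat.card S ^ (n - a) := by
      rw [hr, ← Module.natCard_eq_pow_finrank]
    rw [← hcA] at hz
    have h1 : (Nat.card A : ℤ) * WithZero.log (w z) = ((Nat.card F : ℤ) + 1) * (e : ℤ) := by
      have h2 := congrArg WithZero.log hz
      rw [WithZero.log_pow, hwΞ, WithZero.log_exp] at h2
      simpa using h2
    have h3 : Nat.card A ∣ (Nat.card F + 1) * e := by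
      have : (Nat.card A : ℤ) ∣ ((Nat.card F : ℤ) + 1) * (e : ℤ) := ⟨_, h1.symm⟩
      exact_mod_cast this
    have h4 : Nat.Coprime (Nat.card A) (Nat.card F + 1) := by
      have h5 : Nat.card A ∣ Nat.card F := by
        rw [hcA, hqs]
        exact pow_dvd_pow _ (by omega)
      have h6 : Nat.Coprime (Nat.card F) (Nat.card F + 1) := by simp
      exact Nat.Coprime.coprime_dvd_left h5 h6
    have h7 : Nat.card A ∣ e := h4.dvd_of_dvd_mul_left h3
    rw [he]
    exact Nat.mul_le_mul_left _ (Nat.le_of_dvd he0 h7)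
  · intro g hg α γ α' γ' hgv hgy
    have hfx : g x = x := g.commutes _
    have hFg : ∀ c : F, g (algebraMap F L c) = algebraMap F L c := by
      intro c
      rw [IsScalarTower.algebraMap_apply F k L, IsScalarTower.algebraMap_apply k (RatFunc k) L]
      exact g.commutes _
    have hgf : g f = f := by
      rw [hf]
      unfold fx
      rw [map_add, map_neg, map_pow, hfx, map_sum]
      congr 1
      refine Finset.sum_congr rfl fun j _ => ?_
      rw [map_mul, map_pow, hfx, hFg]
    have hgvR : Rt (Nat.card F) f (g v) := by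
      have h1 := congrArg g hvR
      rw [map_add, map_add, map_mul, map_pow, map_pow, hgf, map_zero] at h1
      exact h1
    obtain ⟨c, hc⟩ := small_unique hqp w hF f hvR hgvR hv0 hv1 (by rw [hI1 g hg]; exact hv1)
    have hγ : γ = 0 := by
      refine (hrepr (α - c) γ ?_).2
      rw [map_sub]
      rw [hgv] at hc
      linear_combination hc
    have hgv' : g v = algebraMap F L α * v := by
      rw [hgv, hγ, map_zero, zero_mul, add_zero]
    refine ⟨hγ, ?_, ?_⟩
    · have h1 : g (v ^ m * x ^ (Nat.card S ^ a)) - v ^ m * x ^ (Nat.card S ^ a) =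
          algebraMap F L (α ^ m - 1) * (v ^ m * x ^ (Nat.card S ^ a)) := by
        rw [map_mul, map_pow, map_pow, hgv', hfx, map_sub, map_pow, map_one]
        ring
      have h2 := hI2 g hg _ hwu.le
      rw [h1, map_mul, hwu, mul_one] at h2
      by_contra h3
      rw [hF _ (sub_ne_zero.2 h3)] at h2
      exact lt_irrefl _ h2
    · intro hα hγ'
      rw [hα, map_one, one_mul] at hgv'
      rw [hγ', map_one, one_mul] at hgy
      rw [hA]
      intro c hc
      refine as_upper p d n a (Nat.card S) hd (by omega) (by omega) hFn β w hF W Ξ hmain'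
        (g : L ≃+* L).toRingHom hFg (hI2 g hg) ?_ α' ?_ c ((hβ c).2 hc)
      · change g Ξ = Ξ
        rw [hΞ, map_div₀, map_pow, map_pow, hfx, hgv']
      · change g W = W + _
        rw [hW, map_div₀, hgv', hgy]
        field_simp
        ring

end Pool.Agent.AIC
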