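import Pool.Agent.AIC.Defs

/-!
Transport of `Occ` along a group isomorphism: compose `e` with `φ.symm`.
-/

set_option autoImplicit false

namespace Pool.Agent.AIC


theorem occ_map (k : Type) [Field k] (G G' : Type) [Group G] [Group G'] (φ : G ≃* G')
    (I : Subgroup G) (h : Occ k G I) : Occ k G' (I.map φ.toMonoidHom) := by
  obtain ⟨L, i1, i2, i3, i4, i5, i6, e, het, P, hP, hP', hI⟩ := h
  refine ⟨L, i1, i2, i3, i4, i5, i6, φ.symm.trans e, het, P, hP, hP', fun g => ?_⟩
  have h1 : g ∈ I.map φ.toMonoidHom ↔ φ.symm g ∈ I := by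
    constructor
    · rintro ⟨x, hx, rfl⟩
      have : φ.symm (φ.toMonoidHom x) = x := φ.symm_apply_apply x
      rw [this]
      exact hx
    · intro hx
      exact ⟨φ.symm g, hx, φ.apply_symm_apply g⟩
  rw [h1, hI]
  rfl

end Pool.Agent.AIC
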