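import Pool.Agent.AIC.QInert
import Pool.Agent.AIC.EtIff

/-!
Quotients: if `I` is an inertia group for `G` then its image is one for `G ⧸ N`.

PROOF. Let `L`, `e : G ≃* Gal(L/K)`, `P = PL` be the data for `I`; `N' = N.map e`, `M = fixedField N'`, a Galois extension of `K` with
`Gal(L/K) ⧸ N' ≃* Gal(M/K)` by restriction (`IsGalois.normalAutEquivQuotient`, `IsGalois.of_fixedField_normal_subgroup`); so
`e' : G ⧸ N ≃* Gal(M/K)` with `algebraMap M L (e' (mk g) y) = e g (algebraMap M L y)`. Use `M` with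
`PM` from `QOver.quot_under` for `z₀ = X⁻¹` (rewrite `(algebraMap X)⁻¹ = algebraMap X⁻¹`; all statements about general `zM`, `zL` apply to
`zM = (algebraMap K M X)⁻¹`).
Etale: by `EtIff.et_iff` for `M` (`z₀ = X`): let `PM` be maximal and `g'` inertial at `PM`; take `PL` from `QOver.quot_over`; by
`QInert.quot_inert` `g'` is the restriction of some `g` inertial at `PL`, `g = 1` by `et_iff` for `L`, so `g' = 1`.
Inertia at infinity: `e' x` is inertial at `PM` iff it is the restriction of some `e g`, `g ∈ I`, iff `x = mk g`.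
-/

set_option autoImplicit false

namespace Pool.Agent.AIC

open IntermediateField IsDedekindDomain
open scoped WithZero

theorem occ_quot (k : Type) [Field k] [IsAlgClosed k] (G : Type) [Group G] [Finite G]
    (I : Subgroup G) (N : Subgroup G) [N.Normal] (h : Occ k G I) :
    Occ k (G ⧸ N) (I.map (QuotientGroup.mk' N)) := by
  obtain ⟨L, i1, i2, i3, i4, i5, i6, e, het, P, hP, hP', hI⟩ := h
  let N' : Subgroup (L ≃ₐ[RatFunc k] L) := N.map e.toMonoidHom
  have hN' : N'.Normal := Subgroup.Normal.map inferInstance _ e.surjective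
  let M : IntermediateField (RatFunc k) L := IntermediateField.fixedField N'
  have hM : IsGalois (RatFunc k) M := IsGalois.of_fixedField_normal_subgroup N'
  let e1 : G ⧸ N ≃* (L ≃ₐ[RatFunc k] L) ⧸ N' := QuotientGroup.congr N N' e rfl
  let e' : G ⧸ N ≃* (M ≃ₐ[RatFunc k] M) := e1.trans (IsGalois.normalAutEquivQuotient N')
  have he' : ∀ (g : G) (y : M),
      algebraMap M L (e' (QuotientGroup.mk' N g) y) = e g (algebraMap M L y) := by
    intro g y
    have h1 : e' (QuotientGroup.mk' N g) = AlgEquiv.restrictNormalHom M (e g) := rfl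
    rw [h1]
    exact AlgEquiv.restrictNormal_commutes (e g) M y
  have htr' : Transcendental k (RatFunc.X : RatFunc k)⁻¹ := by
    intro h
    exact RatFunc.transcendental_X (inv_inv (RatFunc.X : RatFunc k) ▸ h.inv)
  have htop' : k⟮(RatFunc.X : RatFunc k)⁻¹⟯ = ⊤ := by
    rw [eq_top_iff, ← RatFunc.adjoin_X, IntermediateField.adjoin_le_iff]
    rintro _ rfl
    have h1 : (RatFunc.X : RatFunc k)⁻¹ ∈ k⟮(RatFunc.X : RatFunc k)⁻¹⟯ :=
      IntermediateField.mem_adjoin_simple_self k _
    have h2 := IntermediateField.inv_mem _ h1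
    rwa [inv_inv] at h2
  obtain ⟨PM, hPM, hbelow⟩ := quot_under (k := k) (K := RatFunc k) (M := M) (L := L)
    (RatFunc.X : RatFunc k)⁻¹ (algebraMap (RatFunc k) M RatFunc.X)⁻¹ (map_inv₀ _ _)
    (algebraMap (RatFunc k) L RatFunc.X)⁻¹ (map_inv₀ _ _) P hP
  refine ⟨M, inferInstance, inferInstance, inferInstance, inferInstance, inferInstance, hM, e',
    ?_, PM, hPM, ?_, ?_⟩
  · rw [et_iff (RatFunc.X : RatFunc k) RatFunc.transcendental_X RatFunc.adjoin_X
      (algebraMap (RatFunc k) M RatFunc.X) rfl]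
    intro QM hQM g' hg'
    obtain ⟨QL, hQL, hb⟩ := quot_over (k := k) (K := RatFunc k) (M := M) (L := L)
      (RatFunc.X : RatFunc k) (algebraMap (RatFunc k) M RatFunc.X) rfl
      (algebraMap (RatFunc k) L RatFunc.X) rfl QM hQM
    obtain ⟨g, hg1, hg2⟩ := (quot_inert (RatFunc.X : RatFunc k) RatFunc.transcendental_X
      RatFunc.adjoin_X (algebraMap (RatFunc k) M RatFunc.X) rfl
      (algebraMap (RatFunc k) L RatFunc.X) rfl QM hQM QL hQL hb g').1 hg'
    have hg : g = 1 := (et_iff (RatFunc.X : RatFunc k) RatFunc.transcendental_X RatFunc.adjoin_X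
      (algebraMap (RatFunc k) L RatFunc.X) rfl).1 het QL hQL g hg2
    ext y
    have h1 := hg1 y
    rw [hg] at h1
    exact h1.symm
  · intro b hb
    have h1 : algebraMap M L b ∈
        integralClosure (Algebra.adjoin k {(algebraMap (RatFunc k) L RatFunc.X)⁻¹}) L :=
      mem_ic_of_mem (RatFunc.X : RatFunc k)⁻¹ (algebraMap (RatFunc k) M RatFunc.X)⁻¹
        (map_inv₀ _ _) (algebraMap (RatFunc k) L RatFunc.X)⁻¹ (map_inv₀ _ _) b
    rw [hbelow b ⟨_, h1⟩ rfl]
    apply hP'
    change algebraMap M L b = _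
    rw [hb, map_inv₀]
    rfl
  · intro x
    rw [quot_inert (RatFunc.X : RatFunc k)⁻¹ htr' htop'
      (algebraMap (RatFunc k) M RatFunc.X)⁻¹ (map_inv₀ _ _)
      (algebraMap (RatFunc k) L RatFunc.X)⁻¹ (map_inv₀ _ _) PM hPM P hP hbelow (e' x)]
    constructor
    · rintro ⟨g, hg, rfl⟩
      exact ⟨e g, fun y => (he' g y).symm, (hI g).1 hg⟩
    · rintro ⟨g, hg1, hg2⟩
      refine ⟨e.symm g, (hI _).2 ?_, ?_⟩
      · rw [e.apply_symm_apply]
        exact hg2
      · apply e'.injective
        ext y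
        have h1 := he' (e.symm g) y
        rw [e.apply_symm_apply, hg1 y] at h1
        exact h1

end Pool.Agent.AIC
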