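import Pool.Agent.AIC.EtIff
import Pool.Agent.AIC.PVal
import Pool.Agent.AIC.Ded

/-!
A cover etale over the affine line with trivial inertia at one point above infinity is etale over `k[z⁻¹]`.

PROOF. Use `EtIff.et_iff` for `z₀⁻¹` (transcendental, generates `K`): let `P'` be a maximal ideal of `B₁ = integralClosure k[z⁻¹] L` and
`g` inertial at `P'`; to show: `g = 1`.
CASE `z⁻¹ ∈ P'`. Both `P` and `P'` lie above the maximal ideal of `k[z⁻¹]` generated by `z⁻¹` (`Ded.exists_const`), so there is
`σ ∈ Gal(L/K)` with `σ P = P'` (transitivity, `Ideal.exists_smul_eq_of_isGaloisGroup` or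
`IsInvariant.exists_smul_of_under_eq`, as in `Inert1`). Then `σ⁻¹ g σ` is inertial at `P`: for `b ∈ B₁`,
`σ⁻¹ g σ b - b = σ⁻¹ (g (σ b) - σ b) ∈ σ⁻¹ P' = P`. So `σ⁻¹ g σ = 1`, `g = 1`.
CASE `z⁻¹ ∉ P'`. Let `w` be the valuation of `P'`; `w (z⁻¹) = 1`, so `w z = 1`, and `w b ≤ 1` for all `b ∈ B₀ = integralClosure k[z] L`.
`Q = {{b ∈ B₀ | w b < 1}}` is a prime ideal of `B₀`, and non-zero: by `Ded.exists_const` there is `a ∈ k` with `z⁻¹ - a ∈ P'`, `a ≠ 0`, so
`z - a⁻¹ = -(z a⁻¹) (z⁻¹ - a)` has value `< 1`. So `Q` is maximal (`B₀` is a Dedekind domain). By `PVal.place_val`, `w (g y - y) < 1`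
for all `y` with `w y ≤ 1`, so `g` is inertial at `Q`, and `g = 1` by `EtIff.et_iff` (→) for `z₀`.
-/

set_option autoImplicit false

namespace Pool.Agent.AIC

open IntermediateField IsDedekindDomain
open scoped WithZero IntermediateField.algebraAdjoinAdjoin

/-- Transitivity of the Galois group on the points above a point. -/
theorem scinf_trans {k K L : Type} [Field k] [IsAlgClosed k] [Field K] [Field L] [Algebra k K]
    [Algebra K L] [Algebra k L] [IsScalarTower k K L] [FiniteDimensional K L] [IsGalois K L]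
    (z₀ : K) (hz₀ : Transcendental k z₀) (htop : k⟮z₀⟯ = ⊤) (z : L) (hz : algebraMap K L z₀ = z)
    (P P' : Ideal (integralClosure (Algebra.adjoin k {z}) L)) (hP : P.IsMaximal)
    (hP' : P'.IsMaximal) (hPP : P.under (Algebra.adjoin k {z}) = P'.under (Algebra.adjoin k {z})) :
    ∃ σ : L ≃ₐ[K] L, (∀ b : integralClosure (Algebra.adjoin k {z}) L,
        ∃ c : integralClosure (Algebra.adjoin k {z}) L, (c : L) = σ (b : L)) ∧
      ∀ b ∈ P', ∃ c ∈ P, (c : L) = σ.symm (b : L) := by
  classical
  -- the image of `K` is `k⟮z⟯`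
  have hKz : ∀ a : K, algebraMap K L a ∈ k⟮z⟯ := by
    intro a
    have h1 : a ∈ k⟮z₀⟯ := by rw [htop]; trivial
    have h2 : (k⟮z₀⟯).map (IsScalarTower.toAlgHom k K L) = k⟮z⟯ := by
      rw [IntermediateField.adjoin_map, Set.image_singleton]
      congr 2
    rw [← h2]
    exact ⟨a, h1, rfl⟩
  let algK : Algebra K k⟮z⟯ := ((algebraMap K L).codRestrict (k⟮z⟯) hKz).toAlgebra
  have towK : IsScalarTower K k⟮z⟯ L := IsScalarTower.of_algebraMap_eq (fun _ => rfl)
  have : FiniteDimensional k⟮z⟯ L := Module.Finite.of_restrictScalars_finite K k⟮z⟯ L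
  have : Algebra.IsSeparable k⟮z⟯ L := Algebra.isSeparable_tower_top_of_isSeparable K k⟮z⟯ L
  have := isPrincipalIdealRing_adj (k := k) z
  have := finite_ic (k := k) z
  have := isDedekindDomain_ic (k := k) z
  have := isFractionRing_ic (k := k) z
  -- elements of `A` come from `K`
  have hA : ∀ a : Algebra.adjoin k {z}, ∃ a₀ : K, algebraMap K L a₀ = (a : L) := by
    intro a
    have h1 : Algebra.adjoin k {z} ≤ (IsScalarTower.toAlgHom k K L).range := by
      apply Algebra.adjoin_le
      rintro _ rfl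
      exact ⟨z₀, hz⟩
    obtain ⟨a₀, ha₀⟩ := h1 a.2
    exact ⟨a₀, ha₀⟩
  have hgA : ∀ (g : L ≃ₐ[K] L) (a : Algebra.adjoin k {z}), g (a : L) = a := by
    intro g a
    obtain ⟨a₀, ha₀⟩ := hA a
    rw [← ha₀, g.commutes]
  let gA : (L ≃ₐ[K] L) → (L →ₐ[Algebra.adjoin k {z}] L) := fun g =>
    { (g : L →+* L) with commutes' := fun a => hgA g a }
  have hgB : ∀ (g : L ≃ₐ[K] L) (b : integralClosure (Algebra.adjoin k {z}) L),
      g (b : L) ∈ integralClosure (Algebra.adjoin k {z}) L := by
    intro g b
    exact (b.2 : IsIntegral (Algebra.adjoin k {z}) (b : L)).map (gA g)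
  let act : MulSemiringAction (L ≃ₐ[K] L) (integralClosure (Algebra.adjoin k {z}) L) :=
    { smul := fun g b => ⟨g (b : L), hgB g b⟩
      one_smul := fun b => Subtype.ext rfl
      mul_smul := fun g h b => Subtype.ext rfl
      smul_zero := fun g => Subtype.ext (map_zero g)
      smul_add := fun g a b => Subtype.ext (map_add g (a : L) (b : L))
      smul_one := fun g => Subtype.ext (map_one g)
      smul_mul := fun g a b => Subtype.ext (map_mul g (a : L) (b : L)) }
  have act_coe : ∀ (g : L ≃ₐ[K] L) (b : integralClosure (Algebra.adjoin k {z}) L),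
      ((g • b : integralClosure (Algebra.adjoin k {z}) L) : L) = g (b : L) := fun _ _ => rfl
  have gal : IsGaloisGroup (L ≃ₐ[K] L) (Algebra.adjoin k {z})
      (integralClosure (Algebra.adjoin k {z}) L) :=
    { faithful := by
        refine ⟨fun {g h} hgh => ?_⟩
        ext x
        obtain ⟨a, b, hb, rfl⟩ := IsFractionRing.div_surjective
          (A := integralClosure (Algebra.adjoin k {z}) L) x
        have ha' := congrArg (Subtype.val) (hgh a)
        have hb' := congrArg (Subtype.val) (hgh b)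
        rw [map_div₀, map_div₀]
        change g (a : L) / g (b : L) = h (a : L) / h (b : L)
        rw [act_coe, act_coe] at ha' hb'
        rw [ha', hb']
      commutes := by
        refine ⟨fun g a b => ?_⟩
        apply Subtype.ext
        rw [act_coe]
        change g ((a : L) * (b : L)) = (a : L) * g (b : L)
        rw [map_mul, hgA]
      isInvariant := by
        refine ⟨fun b hb => ?_⟩
        have h1 : (b : L) ∈ Set.range (algebraMap K L) := by
          rw [IsGalois.mem_range_algebraMap_iff_fixed]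
          intro g
          have := congrArg Subtype.val (hb g)
          exact this
        obtain ⟨b₀, hb₀⟩ := h1
        have hbz : (b : L) ∈ k⟮z⟯ := by rw [← hb₀]; exact hKz b₀
        have h2 : IsIntegral (Algebra.adjoin k {z}) (⟨(b : L), hbz⟩ : k⟮z⟯) := by
          rw [← isIntegral_algebraMap_iff (algebraMap k⟮z⟯ L).injective]
          exact b.2
        obtain ⟨a, ha⟩ := IsIntegrallyClosed.isIntegral_iff.1 h2
        have ha' : ((algebraMap (Algebra.adjoin k {z}) k⟮z⟯ a : k⟮z⟯) : L) = (b : L) :=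
          congrArg (Subtype.val : k⟮z⟯ → L) ha
        refine ⟨a, Subtype.ext ?_⟩
        exact ha' }
  have : P.IsPrime := hP.isPrime
  have : P'.IsPrime := hP'.isPrime
  have : P.LiesOver (P.under (Algebra.adjoin k {z})) := ⟨rfl⟩
  have : P'.LiesOver (P.under (Algebra.adjoin k {z})) := ⟨hPP⟩
  obtain ⟨σ, hσ⟩ := Ideal.exists_smul_eq_of_isGaloisGroup (P.under (Algebra.adjoin k {z})) P P'
    (L ≃ₐ[K] L)
  refine ⟨σ, fun b => ⟨σ • b, rfl⟩, ?_⟩
  intro b hb
  refine ⟨σ⁻¹ • b, ?_, rfl⟩
  rw [← Ideal.mem_pointwise_smul_iff_inv_smul_mem, hσ]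
  exact hb

theorem etale_infty {k K L : Type} [Field k] [IsAlgClosed k] [Field K] [Field L] [Algebra k K]
    [Algebra K L] [Algebra k L] [IsScalarTower k K L] [FiniteDimensional K L] [IsGalois K L]
    (z₀ : K) (hz₀ : Transcendental k z₀) (htop : k⟮z₀⟯ = ⊤) (z : L) (hz : algebraMap K L z₀ = z)
    (h0 : Algebra.Etale (Algebra.adjoin k {z}) (integralClosure (Algebra.adjoin k {z}) L))
    (P : Ideal (integralClosure (Algebra.adjoin k {z⁻¹}) L)) (hP : P.IsMaximal)
    (hzP : ∀ b : integralClosure (Algebra.adjoin k {z⁻¹}) L, (b : L) = z⁻¹ → b ∈ P)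
    (hI : ∀ g : L ≃ₐ[K] L, (∀ b : integralClosure (Algebra.adjoin k {z⁻¹}) L,
      ∃ c ∈ P, (c : L) = g (b : L) - (b : L)) → g = 1) :
    Algebra.Etale (Algebra.adjoin k {z⁻¹}) (integralClosure (Algebra.adjoin k {z⁻¹}) L) := by
  have hz₀0 : z₀ ≠ 0 := by
    rintro rfl
    exact hz₀ isAlgebraic_zero
  have hz0 : z ≠ 0 := by
    rw [← hz]
    exact (map_ne_zero_iff _ (algebraMap K L).injective).2 hz₀0
  have hti : Transcendental k z₀⁻¹ := by
    intro h
    exact hz₀ (by simpa using h.inv)
  have htopi : k⟮z₀⁻¹⟯ = ⊤ := by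
    rw [← top_le_iff, ← htop, IntermediateField.adjoin_simple_le_iff]
    have h1 := (k⟮z₀⁻¹⟯).inv_mem (IntermediateField.mem_adjoin_simple_self k z₀⁻¹)
    rwa [inv_inv] at h1
  have hzi : algebraMap K L z₀⁻¹ = z⁻¹ := by rw [map_inv₀, hz]
  have hzt : Transcendental k z := by
    rw [← hz]
    exact (transcendental_algebraMap_iff (algebraMap K L).injective).2 hz₀
  have hzti : Transcendental k z⁻¹ := by
    rw [← hzi]
    exact (transcendental_algebraMap_iff (algebraMap K L).injective).2 hti
  obtain ⟨hfin, hsep⟩ := etIff_fs (k := k) z₀ htop z hz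
  obtain ⟨hfini, hsepi⟩ := etIff_fs (k := k) z₀⁻¹ htopi z⁻¹ hzi
  have hD0 := isDedekindDomain_ic (k := k) z
  have hD1 := isDedekindDomain_ic (k := k) z⁻¹
  have hF0 := isFractionRing_ic (k := k) z
  have hF1 := isFractionRing_ic (k := k) z⁻¹
  refine (et_iff z₀⁻¹ hti htopi z⁻¹ hzi).2 ?_
  intro P' hP' g hg
  have h0' := (et_iff z₀ hz₀ htop z hz).1 h0
  -- the element `z⁻¹` of the two rings
  set u : Algebra.adjoin k {z⁻¹} := ⟨z⁻¹, Algebra.self_mem_adjoin_singleton k z⁻¹⟩ with hu
  set uB : integralClosure (Algebra.adjoin k {z⁻¹}) L := algebraMap _ _ u with huB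
  have huB' : (uB : L) = z⁻¹ := rfl
  by_cases hc : uB ∈ P'
  · -- case A
    have key : ∀ (R : Ideal (integralClosure (Algebra.adjoin k {z⁻¹}) L)), R.IsMaximal →
        uB ∈ R → ∀ y : Algebra.adjoin k {z⁻¹}, y ∈ R.under (Algebra.adjoin k {z⁻¹}) ↔ u ∣ y := by
      intro R hR huR y
      obtain ⟨-, ⟨a, ha⟩, -⟩ := exists_const (k := k) z⁻¹ hzti R hR
      have h1 := (ha u).1 huR
      have ha0 : a = 0 := by
        by_contra hne
        have h2 : (u - algebraMap k (Algebra.adjoin k {z⁻¹}) a) ∣
            algebraMap k (Algebra.adjoin k {z⁻¹}) a := by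
          have h3 := dvd_sub h1 (dvd_refl (u - algebraMap k (Algebra.adjoin k {z⁻¹}) a))
          simpa using h3
        have h4 := (ha _).2 h2
        apply hR.ne_top
        refine R.eq_top_of_isUnit_mem h4 ?_
        exact ((IsUnit.mk0 _ hne).map _).map _
      have h5 := ha y
      rw [ha0, map_zero, sub_zero] at h5
      exact h5
    have hPP : P.under (Algebra.adjoin k {z⁻¹}) = P'.under (Algebra.adjoin k {z⁻¹}) := by
      ext y
      rw [key P hP (hzP uB huB') y, key P' hP' hc y]
    obtain ⟨σ, hσ1, hσ2⟩ := scinf_trans z₀⁻¹ hti htopi z⁻¹ hzi P P' hP hP' hPP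
    have h6 : (σ.trans g).trans σ.symm = 1 := by
      apply hI
      intro b
      obtain ⟨b', hb'⟩ := hσ1 b
      obtain ⟨c, hc, hcb⟩ := hg b'
      obtain ⟨d, hd, hdc⟩ := hσ2 c hc
      refine ⟨d, hd, ?_⟩
      rw [hdc, hcb, hb', map_sub]
      simp
    ext x
    have h7 := congrArg (fun τ : L ≃ₐ[K] L => τ (σ.symm x)) h6
    simp only [AlgEquiv.trans_apply, AlgEquiv.apply_symm_apply, AlgEquiv.one_apply] at h7
    have h8 := σ.symm.injective h7
    rw [h8]
    rfl
  · -- case B
    obtain ⟨hPbot, ⟨a, ha⟩, -⟩ := exists_const (k := k) z⁻¹ hzti P' hP'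
    let v : HeightOneSpectrum (integralClosure (Algebra.adjoin k {z⁻¹}) L) :=
      ⟨P', hP'.isPrime, hPbot⟩
    set w := v.valuation L with hw
    have hw1 : w z⁻¹ = 1 := by
      have h1 : w (algebraMap (integralClosure (Algebra.adjoin k {z⁻¹}) L) L uB) = 1 :=
        (HeightOneSpectrum.valuation_eq_one_iff_notMem v).2 hc
      exact h1
    have hwz : w z = 1 := by
      have h1 : w (z * z⁻¹) = 1 := by rw [mul_inv_cancel₀ hz0, map_one]
      rwa [map_mul, hw1, mul_one] at h1
    have hwk : ∀ c : k, w (algebraMap k L c) ≤ 1 := by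
      intro c
      exact v.valuation_le_one (algebraMap k (integralClosure (Algebra.adjoin k {z⁻¹}) L) c)
    have hwA : ∀ y ∈ Algebra.adjoin k {z}, w y ≤ 1 := by
      intro y hy
      have h1 : Algebra.adjoin k {z} ≤
          { (w.integer : Subring L) with algebraMap_mem' := fun c => hwk c } := by
        apply Algebra.adjoin_le
        rintro _ rfl
        exact hwz.le
      exact h1 hy
    have hwB : ∀ b : integralClosure (Algebra.adjoin k {z}) L, w (b : L) ≤ 1 := by
      intro b
      have h1 : IsIntegral (Algebra.adjoin k {z}) (b : L) := b.2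
      have hint : ∀ y : Algebra.adjoin k {z}, algebraMap (Algebra.adjoin k {z}) L y ∈ w.integer :=
        fun y => hwA _ y.2
      let f : Algebra.adjoin k {z} →+* w.integer := (algebraMap _ L).codRestrict w.integer hint
      have h2 : IsIntegral w.integer (b : L) := by
        obtain ⟨p, hp, hpb⟩ := h1
        refine ⟨p.map f, hp.map f, ?_⟩
        rw [Polynomial.eval₂_map]
        exact hpb
      have h3 := (Valuation.integer.integers w).mem_of_integral h2
      exact h3
    let Q : Ideal (integralClosure (Algebra.adjoin k {z}) L) :=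
      { carrier := {b | w (b : L) < 1}
        add_mem' := by
          intro b c hb hc
          exact (w.map_add _ _).trans_lt (max_lt hb hc)
        zero_mem' := by
          change w 0 < 1
          rw [map_zero]
          exact zero_lt_one
        smul_mem' := by
          intro b c hc
          change w ((b : L) * (c : L)) < 1
          rw [map_mul]
          exact mul_lt_one_of_nonneg_of_lt_one_right (hwB b) zero_le hc }
    have hQmem : ∀ b, b ∈ Q ↔ w (b : L) < 1 := fun b => Iff.rfl
    have hQp : Q.IsPrime := by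
      refine ⟨?_, ?_⟩
      · rw [Ne, Ideal.eq_top_iff_one, hQmem]
        change ¬ w (1 : L) < 1
        rw [map_one]
        exact lt_irrefl _
      · intro b c hbc
        rw [hQmem] at hbc
        change w ((b : L) * (c : L)) < 1 at hbc
        rw [map_mul] at hbc
        by_contra hno
        rw [not_or, hQmem, hQmem] at hno
        have h1 : w (b : L) = 1 := le_antisymm (hwB b) (not_lt.1 hno.1)
        have h2 : w (c : L) = 1 := le_antisymm (hwB c) (not_lt.1 hno.2)
        rw [h1, h2, mul_one] at hbc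
        exact lt_irrefl _ hbc
    have hQ0 : Q ≠ ⊥ := by
      -- `z⁻¹ - a` is in `P'`
      have h1 := (ha (u - algebraMap k (Algebra.adjoin k {z⁻¹}) a)).2 (dvd_refl _)
      have h2 : w (z⁻¹ - algebraMap k L a) < 1 := by
        have h3 : w (algebraMap (integralClosure (Algebra.adjoin k {z⁻¹}) L) L
            (algebraMap _ _ (u - algebraMap k (Algebra.adjoin k {z⁻¹}) a))) < 1 :=
          (HeightOneSpectrum.valuation_lt_one_iff_mem v _).2 h1
        exact h3
      have ha0 : a ≠ 0 := by
        rintro rfl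
        rw [map_zero, sub_zero, hw1] at h2
        exact lt_irrefl _ h2
      have ha0' : algebraMap k L a ≠ 0 :=
        (map_ne_zero_iff _ (algebraMap k L).injective).2 ha0
      set zB : integralClosure (Algebra.adjoin k {z}) L :=
        algebraMap (Algebra.adjoin k {z}) _ ⟨z, Algebra.self_mem_adjoin_singleton k z⟩ with hzB
      have h4 : zB - algebraMap k _ a⁻¹ ∈ Q := by
        rw [hQmem]
        change w (z - algebraMap k L a⁻¹) < 1
        have h5 : z - algebraMap k L a⁻¹ =
            -(z * algebraMap k L a⁻¹) * (z⁻¹ - algebraMap k L a) := by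
          rw [map_inv₀]
          field_simp
          ring
        rw [h5, map_mul, Valuation.map_neg, map_mul, hwz, one_mul]
        exact mul_lt_one_of_nonneg_of_lt_one_right (hwk _) zero_le h2
      intro hbot
      rw [hbot, Ideal.mem_bot] at h4
      have h6 : z - algebraMap k L a⁻¹ = 0 := congrArg Subtype.val h4
      apply hzt
      refine ⟨Polynomial.X - Polynomial.C a⁻¹, Polynomial.X_sub_C_ne_zero _, ?_⟩
      rw [map_sub, Polynomial.aeval_X, Polynomial.aeval_C, h6]
    have hQm : Q.IsMaximal := hQp.isMaximal hQ0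
    apply h0' Q hQm g
    have hpv := place_val v (g : L ≃+* L) hg
    intro b
    have hAg : ∀ y : Algebra.adjoin k {z}, g (y : L) = y := by
      intro y
      have h1 : Algebra.adjoin k {z} ≤ (IsScalarTower.toAlgHom k K L).range := by
        apply Algebra.adjoin_le
        rintro _ rfl
        exact ⟨z₀, hz⟩
      obtain ⟨a₀, ha₀⟩ := h1 y.2
      have ha₀' : algebraMap K L a₀ = (y : L) := ha₀
      rw [← ha₀', g.commutes]
    let gA : L →ₐ[Algebra.adjoin k {z}] L :=
      { (g : L →+* L) with commutes' := fun a => hAg a }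
    have hgb : g (b : L) ∈ integralClosure (Algebra.adjoin k {z}) L :=
      (b.2 : IsIntegral (Algebra.adjoin k {z}) (b : L)).map gA
    refine ⟨⟨g (b : L), hgb⟩ - b, ?_, rfl⟩
    rw [hQmem]
    exact hpv.2 (b : L) (hwB b)

end Pool.Agent.AIC
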