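import Pool.Agent.AIC.SCmain
import Pool.Agent.AIC.SCinf

/-!
The trivial group is an inertia group only for the trivial group.

PROOF. Unfold `Occ`. With `K = RatFunc k`, `z₀ = RatFunc.X` (transcendental, `k⟮X⟯ = ⊤`), `z = algebraMap _ L X`: every `σ : L ≃ₐ[K] L` is
`e g`, and if it is inertial at `P` then `g ∈ ⊥`, `g = 1`, `σ = 1`. So `SCinf.etale_infty` and `SCmain.sc_main` give that every
`σ` is `1`; so every `g` is `1`.
-/

set_option autoImplicit false

namespace Pool.Agent.AIC

open IntermediateField IsDedekindDomain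
open scoped WithZero

theorem occ_bot (p : ℕ) [Fact p.Prime] (k : Type) [Field k] [IsAlgClosed k] [CharP k p]
    (G : Type) [Group G] (h : Occ k G ⊥) (g : G) : g = 1 := by
  obtain ⟨L, _, _, _, _, _, _, e, h0, P, hP, hzP, hI⟩ := h
  have htr : Transcendental k (RatFunc.X : RatFunc k) := RatFunc.transcendental_X
  have htop : k⟮(RatFunc.X : RatFunc k)⟯ = ⊤ := RatFunc.adjoin_X
  have hinert : ∀ σ : L ≃ₐ[RatFunc k] L, (∀ b : integralClosure
      (Algebra.adjoin k {(algebraMap (RatFunc k) L RatFunc.X)⁻¹}) L,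
      ∃ c ∈ P, (c : L) = σ (b : L) - (b : L)) → σ = 1 := by
    intro σ hσ
    obtain ⟨g', rfl⟩ := e.surjective σ
    have h1 : g' ∈ (⊥ : Subgroup G) := (hI g').2 hσ
    rw [Subgroup.mem_bot] at h1
    rw [h1, map_one]
  have h1 := etale_infty (RatFunc.X : RatFunc k) htr htop
    (algebraMap (RatFunc k) L RatFunc.X) rfl h0 P hP hzP hinert
  have h2 := sc_main (RatFunc.X : RatFunc k) htr htop
    (algebraMap (RatFunc k) L RatFunc.X) rfl p h0 h1 (e g)
  exact e.injective (h2.trans (map_one e).symm)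

end Pool.Agent.AIC
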