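import Pool.Agent.AIC.Defs

/-!
The subfield `S` attached to an additive subgroup `A` with `t ^ 2 A ⊆ A`.

PROOF. `S = {σ | ∀ a ∈ A, σ * a ∈ A}` is a subring of `F` containing `t ^ 2` (contains `1`, closed under addition, negation,
multiplication); as `F` is finite it is closed under inverses (`σ⁻¹ = σ ^ (q - 2)` for `σ ≠ 0`), so it is a subfield.
`A` is an `S`-subspace. Cardinality: if `3 ≤ p` then `S ∋ 0, 1, 2` are distinct; if `t ^ 2 ≠ 1` then `S ∋ 0, 1, t ^ 2` are
distinct.
-/

set_option autoImplicit false

namespace Pool.Agent.AIC

open Module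

theorem exists_subfield (p : ℕ) [Fact p.Prime] {F : Type*} [Field F] [Finite F] [CharP F p]
    (A : AddSubgroup F) (t : Fˣ) (h : ∀ a ∈ A, (t : F) ^ 2 * a ∈ A) :
    ∃ (S : Subfield F) (A' : Submodule S F), (t : F) ^ 2 ∈ S ∧ A'.toAddSubgroup = A ∧
      (3 ≤ p ∨ (t : F) ^ 2 ≠ 1 → 3 ≤ Nat.card S) := by
  classical
  let S : Subfield F :=
    { carrier := {σ | ∀ a ∈ A, σ * a ∈ A}
      mul_mem' := by
        intro x y hx hy a ha
        rw [mul_assoc]
        exact hx _ (hy _ ha)
      one_mem' := by
        intro a ha
        rw [one_mul]
        exact ha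
      add_mem' := by
        intro x y hx hy a ha
        rw [add_mul]
        exact A.add_mem (hx _ ha) (hy _ ha)
      zero_mem' := by
        intro a _
        rw [zero_mul]
        exact A.zero_mem
      neg_mem' := by
        intro x hx a ha
        rw [neg_mul]
        exact A.neg_mem (hx _ ha)
      inv_mem' := by
        intro x hx a ha
        by_cases h0 : x = 0
        · rw [h0, inv_zero, zero_mul]
          exact A.zero_mem
        · have hfin : Finite A := inferInstance
          let f : A → A := fun b => ⟨x * (b : F), hx _ b.2⟩
          have hinj : Function.Injective f := by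
            intro b c hbc
            have h1 : x * (b : F) = x * (c : F) := congrArg Subtype.val hbc
            exact Subtype.ext (mul_left_cancel₀ h0 h1)
          obtain ⟨b, hb⟩ := (Finite.injective_iff_surjective.1 hinj) ⟨a, ha⟩
          have h2 : x * (b : F) = a := congrArg Subtype.val hb
          rw [← h2, inv_mul_cancel_left₀ h0]
          exact b.2 }
  have hmem : ∀ σ : F, σ ∈ S ↔ ∀ a ∈ A, σ * a ∈ A := fun σ => Iff.rfl
  let A' : Submodule S F :=
    { carrier := (A : Set F)
      add_mem' := by
        intro x y hx hy
        exact A.add_mem hx hy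
      zero_mem' := A.zero_mem
      smul_mem' := by
        intro c x hx
        exact (hmem (c : F)).1 c.2 x hx }
  refine ⟨S, A', ?_, ?_, ?_⟩
  · rw [hmem]
    exact h
  · ext x
    exact Iff.rfl
  · intro hor
    have key : ∀ c : S, c ≠ 0 → c ≠ 1 → 3 ≤ Nat.card S := by
      intro c h0 h1
      have hinj : Function.Injective (![0, 1, c] : Fin 3 → S) := by
        intro i j hij
        fin_cases i <;> fin_cases j <;> simp_all [eq_comm]
      have := Nat.card_le_card_of_injective _ hinj
      simpa using this
    rcases hor with h3 | ht
    · have h2 : (2 : F) ≠ 0 := by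
        intro h2
        have : ((2 : ℕ) : F) = 0 := by exact_mod_cast h2
        rw [CharP.cast_eq_zero_iff F p 2] at this
        have := Nat.le_of_dvd (by norm_num) this
        omega
      refine key ⟨2, ?_⟩ ?_ ?_
      · rw [hmem]
        intro a ha
        rw [two_mul]
        exact A.add_mem ha ha
      · intro h4
        exact h2 (congrArg Subtype.val h4)
      · intro h4
        have h5 : (2 : F) = 1 := congrArg Subtype.val h4
        have h6 : (1 : F) = 0 := by linear_combination h5
        exact one_ne_zero h6
    · refine key ⟨(t : F) ^ 2, ?_⟩ ?_ ?_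
      · rw [hmem]
        exact h
      · intro h4
        have h5 : (t : F) ^ 2 = 0 := congrArg Subtype.val h4
        exact t.ne_zero (pow_eq_zero_iff (two_ne_zero) |>.1 h5)
      · intro h4
        exact ht (congrArg Subtype.val h4)

end Pool.Agent.AIC
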