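import Pool.Agent.AIC.Core
import Pool.Agent.AIC.GConj
import Pool.Agent.AIC.SubS
import Pool.Agent.AIC.GLift
import Pool.Agent.AIC.Quot
import Pool.Agent.AIC.OccMap
import Pool.Agent.AIC.SCocc

/-!
Abhyankar's inertia conjecture for `SL(2, F)` and `PSL(2, F)`.
-/

set_option autoImplicit false

namespace Pool.Agent.AIC

open Matrix Module
open scoped MatrixGroups

/-- The case distinction of the theorem. -/
def Cond (p q : ℕ) {G : Type} [Group G] (G₁ : Subgroup G) (β : G) : Prop :=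
  (p = 2 → β ≠ 1) ∧ (Nat.card G₁ = 3 → q ≠ 9)

theorem card_pgroup_ge {p : ℕ} [Fact p.Prime] {G : Type} [Group G] [Finite G]
    (G₁ : Subgroup G) (hG₁ : IsPGroup p G₁) (hne : G₁ ≠ ⊥) : p ≤ Nat.card G₁ := by
  obtain ⟨n, hn⟩ := hG₁.exists_card_eq
  rw [hn]
  rcases Nat.eq_zero_or_pos n with h | h
  · rw [h, pow_zero] at hn
    exact absurd (Subgroup.eq_bot_of_card_eq G₁ hn) hne
  · calc p = p ^ 1 := (pow_one p).symm
      _ ≤ p ^ n := Nat.pow_le_pow_right (Fact.out : p.Prime).pos h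

theorem occ_SL (p : ℕ) [Fact p.Prime] (k : Type) [Field k] [IsAlgClosed k] [CharP k p]
    (F : Type) [Field F] [Finite F] [CharP F p] (G₁ : Subgroup SL(2, F)) (β : SL(2, F))
    (hG₁ : IsPGroup p G₁) (hne : G₁ ≠ ⊥) (hβ : (orderOf β).Coprime p)
    (hnorm : ∀ h, h ∈ G₁ ↔ β * h * β⁻¹ ∈ G₁) (hc : Cond p (Nat.card F) G₁ β) :
    Occ k SL(2, F) (G₁ ⊔ Subgroup.zpowers β) := by
  obtain ⟨g, A, t, hA, hcard, htA, ht1, heq⟩ := exists_conj p G₁ hG₁ hne β hβ hnorm
  obtain ⟨S, A', htS, hA', hS⟩ := exists_subfield p A t htA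
  have hs3 : 3 ≤ Nat.card S := by
    apply hS
    rcases (Fact.out : p.Prime).two_le.lt_or_eq with h | h
    · left; omega
    · right
      have hβ1 := hc.1 h.symm
      subst h
      intro ht
      apply hβ1
      apply ht1
      have h3 : ((t : F) - 1) ^ 2 = 0 := by
        have : (2 : F) = 0 := by exact_mod_cast CharP.cast_eq_zero F 2
        linear_combination ht + (1 - (t : F)) * this
      have h4 : (t : F) - 1 = 0 := by simpa using h3
      exact Units.ext (by rw [Units.val_one]; exact sub_eq_zero.1 h4)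
  have hcA : Nat.card A' = Nat.card G₁ := by
    rw [← hcard, ← hA']
    rfl
  have hA3 : 3 ≤ Nat.card A' := by
    have h1 : 0 < finrank S A' := by
      rcases Nat.eq_zero_or_pos (finrank S A') with h0 | h0
      · have h2 := Module.natCard_eq_pow_finrank (K := S) (V := A')
        rw [h0, pow_zero, hcA] at h2
        exact absurd (Subgroup.eq_bot_of_card_eq G₁ h2) hne
      · exact h0
    have h2 : Nat.card S ≤ Nat.card A' := by
      rw [Module.natCard_eq_pow_finrank (K := S) (V := A')]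
      calc Nat.card S = Nat.card S ^ 1 := (pow_one _).symm
        _ ≤ Nat.card S ^ finrank S A' := Nat.pow_le_pow_right (by omega) h1
    exact hs3.trans h2
  have h1 := core p k F S A' t htS hs3 hA3 (by rw [hcA]; exact hc.2)
  rw [hA'] at h1
  have h2 := occ_map k _ _ (MulAut.conj g) _ h1
  rw [heq]
  exact h2

theorem card_center_coprime (p : ℕ) [Fact p.Prime] (F : Type) [Field F] [Finite F] [CharP F p] :
    (Nat.card (Subgroup.center SL(2, F))).Coprime p := by
  rw [Nat.coprime_comm, (Fact.out : p.Prime).coprime_iff_not_dvd]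
  intro h
  obtain ⟨z, hz⟩ := exists_prime_orderOf_dvd_card' p h
  obtain ⟨r, _, hr⟩ := Matrix.SpecialLinearGroup.mem_center_iff.1 z.2
  have h1 : z ^ p = 1 := by rw [← hz]; exact pow_orderOf_eq_one z
  have h2 : r ^ p = 1 := by
    have h3 : ((z : SL(2, F)) : Matrix (Fin 2) (Fin 2) F) ^ p = 1 := by
      have h4 := congrArg (fun z : Subgroup.center SL(2, F) =>
        ((z : SL(2, F)) : Matrix (Fin 2) (Fin 2) F)) h1
      simpa using h4
    rw [← hr, ← map_pow] at h3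
    have h5 := congrFun (congrFun h3 0) 0
    simpa using h5
  have h3 : r = 1 := by
    have h4 : (r - 1) ^ p = 0 := by
      have := ExpChar.prime (R := F) (Fact.out : p.Prime)
      rw [sub_pow_expChar, h2, one_pow, sub_self]
    exact sub_eq_zero.1 (pow_eq_zero_iff (Fact.out : p.Prime).ne_zero |>.1 h4)
  have h4 : z = 1 := by
    apply Subtype.ext
    apply Matrix.SpecialLinearGroup.ext
    intro i j
    rw [← hr, h3]
    simp
  rw [h4, orderOf_one] at hz
  exact (Fact.out : p.Prime).one_lt.ne hz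

theorem occ_PSL (p : ℕ) [Fact p.Prime] (k : Type) [Field k] [IsAlgClosed k] [CharP k p]
    (F : Type) [Field F] [Finite F] [CharP F p] (G₁' : Subgroup (SL(2, F) ⧸ Subgroup.center SL(2, F)))
    (β' : SL(2, F) ⧸ Subgroup.center SL(2, F))
    (hG₁ : IsPGroup p G₁') (hne : G₁' ≠ ⊥) (hβ : (orderOf β').Coprime p)
    (hnorm : ∀ h, h ∈ G₁' ↔ β' * h * β'⁻¹ ∈ G₁') (hc : Cond p (Nat.card F) G₁' β') :
    Occ k (SL(2, F) ⧸ Subgroup.center SL(2, F)) (G₁' ⊔ Subgroup.zpowers β') := by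
  obtain ⟨G₁, β, hp, hβ1, hn, hmap, hcard, hβ2⟩ := exists_lift p (Subgroup.center SL(2, F)) le_rfl
    (card_center_coprime p F) G₁' hG₁ β' hβ hnorm
  have hne' : G₁ ≠ ⊥ := by
    rintro rfl
    rw [Subgroup.map_bot] at hmap
    exact hne hmap.symm
  have hc' : Cond p (Nat.card F) G₁ β := by
    refine ⟨?_, by rw [hcard]; exact hc.2⟩
    rintro hp2 rfl
    exact hc.1 hp2 (by rw [← hβ2, map_one])
  have h1 := occ_quot k SL(2, F) _ (Subgroup.center SL(2, F))
    (occ_SL p k F G₁ β hp hne' hβ1 hn hc')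
  rw [Subgroup.map_sup, MonoidHom.map_zpowers, hmap, hβ2] at h1
  exact h1

theorem occ_transport (p q : ℕ) (k : Type) [Field k] {G H : Type} [Group G] [Group H]
    (φ : G ≃* H)
    (hH : ∀ (H₁ : Subgroup H) (β : H), IsPGroup p H₁ → H₁ ≠ ⊥ → (orderOf β).Coprime p →
      (∀ h, h ∈ H₁ ↔ β * h * β⁻¹ ∈ H₁) → Cond p q H₁ β → Occ k H (H₁ ⊔ Subgroup.zpowers β))
    (G₁ : Subgroup G) (β : G) (hG₁ : IsPGroup p G₁) (hne : G₁ ≠ ⊥) (hβ : (orderOf β).Coprime p)
    (hnorm : ∀ h, h ∈ G₁ ↔ β * h * β⁻¹ ∈ G₁) (hc : Cond p q G₁ β) :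
    Occ k G (G₁ ⊔ Subgroup.zpowers β) := by
  have hmem : ∀ h, h ∈ G₁.map φ.toMonoidHom ↔ φ.symm h ∈ G₁ := by
    intro h
    constructor
    · rintro ⟨g, hg, rfl⟩
      have : φ.symm (φ.toMonoidHom g) = g := φ.symm_apply_apply g
      rwa [this]
    · intro hg
      exact ⟨φ.symm h, hg, φ.apply_symm_apply h⟩
  have hcard : Nat.card (G₁.map φ.toMonoidHom) = Nat.card G₁ :=
    Nat.card_congr (G₁.equivMapOfInjective φ.toMonoidHom φ.injective).toEquiv.symm
  have h1 := hH (G₁.map φ.toMonoidHom) (φ β)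
    (hG₁.map φ.toMonoidHom) (by
      intro h
      apply hne
      rwa [Subgroup.map_eq_bot_iff_of_injective _ φ.injective] at h)
    (by rw [MulEquiv.orderOf_eq]; exact hβ)
    (by
      intro h
      rw [hmem, hmem, hnorm, map_mul, map_mul, map_inv, MulEquiv.symm_apply_apply])
    ⟨fun h => by simpa using hc.1 h, by rw [hcard]; exact hc.2⟩
  have h2 := occ_map k H G φ.symm _ h1
  rw [Subgroup.map_sup, MonoidHom.map_zpowers, Subgroup.map_map] at h2
  have h3 : φ.symm.toMonoidHom.comp φ.toMonoidHom = MonoidHom.id G := by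
    ext g
    exact φ.symm_apply_apply g
  have h4 : φ.symm.toMonoidHom (φ β) = β := φ.symm_apply_apply β
  rw [h3, Subgroup.map_id, h4] at h2
  exact h2

/-- Abhyankar's inertia conjecture for `SL(2, F)` and `PSL(2, F)`. -/
theorem main (p : ℕ) [Fact p.Prime] (k : Type) [Field k] [IsAlgClosed k] [CharP k p]
    (F : Type) [Field F] [Finite F] [CharP F p] (G : Type) [Group G]
    (hG : Nonempty (G ≃* SL(2, F)) ∨ Nonempty (G ≃* ProjectiveSpecialLinearGroup (Fin 2) F))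
    (G₁ : Subgroup G) (β : G) (hG₁ : IsPGroup p G₁) (hne : G₁ ≠ ⊥) (hβ : (orderOf β).Coprime p)
    (hnorm : ∀ h, h ∈ G₁ ↔ β * h * β⁻¹ ∈ G₁) (hc : Cond p (Nat.card F) G₁ β) :
    Occ k G (G₁ ⊔ Subgroup.zpowers β) := by
  rcases hG with h | h
  · obtain ⟨φ⟩ := h
    exact occ_transport p (Nat.card F) k φ (fun H₁ β h1 h2 h3 h4 h5 => occ_SL p k F H₁ β h1 h2 h3 h4 h5)
      G₁ β hG₁ hne hβ hnorm hc
  · obtain ⟨φ⟩ := h
    exact occ_transport p (Nat.card F) k φ (fun H₁ β h1 h2 h3 h4 h5 => occ_PSL p k F H₁ β h1 h2 h3 h4 h5)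
      G₁ β hG₁ hne hβ hnorm hc

theorem up_ne_one {F : Type} [Field F] : up (1 : F) ≠ 1 := by
  intro h
  have h1 := congrArg (fun M : SL(2, F) => (M : Matrix (Fin 2) (Fin 2) F) 0 1) h
  simp [up_val] at h1

theorem up_not_mem_center {F : Type} [Field F] : up (1 : F) ∉ Subgroup.center SL(2, F) := by
  intro h
  obtain ⟨r, _, hr⟩ := Matrix.SpecialLinearGroup.mem_center_iff.1 h
  have h1 := congrFun (congrFun hr 0) 1
  rw [up_val] at h1
  simp at h1

theorem exists_ne_one {F G : Type} [Field F] [Group G]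
    (hG : Nonempty (G ≃* SL(2, F)) ∨ Nonempty (G ≃* ProjectiveSpecialLinearGroup (Fin 2) F)) :
    ∃ g : G, g ≠ 1 := by
  rcases hG with h | h
  · obtain ⟨φ⟩ := h
    exact ⟨φ.symm (up 1), by simpa using up_ne_one⟩
  · obtain ⟨φ⟩ := h
    refine ⟨φ.symm (QuotientGroup.mk (up 1)), ?_⟩
    intro h
    have h1 : (QuotientGroup.mk (up (1 : F)) : ProjectiveSpecialLinearGroup (Fin 2) F) = 1 := by
      simpa using h
    rw [QuotientGroup.eq_one_iff] at h1
    exact up_not_mem_center h1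

/-- Q1 for `SL(2, F)` and `PSL(2, F)`. -/
theorem main2 (p : ℕ) [Fact p.Prime] (k : Type) [Field k] [IsAlgClosed k] [CharP k p]
    (F : Type) [Field F] [Finite F] [CharP F p] (G : Type) [Group G]
    (hG : Nonempty (G ≃* SL(2, F)) ∨ Nonempty (G ≃* ProjectiveSpecialLinearGroup (Fin 2) F))
    (G₁ : Subgroup G) (β : G) (hG₁ : IsPGroup p G₁) (hβ : (orderOf β).Coprime p)
    (hnorm : ∀ h, h ∈ G₁ ↔ β * h * β⁻¹ ∈ G₁) (hc : Nat.card G₁ = 3 → Nat.card F ≠ 9)
    (hocc : Occ k G G₁) : Occ k G (G₁ ⊔ Subgroup.zpowers β) := by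
  rcases eq_or_ne G₁ ⊥ with rfl | hne
  · obtain ⟨g, hg⟩ := exists_ne_one hG
    exact absurd (occ_bot p k G hocc g) hg
  rcases eq_or_ne β 1 with rfl | hβ1
  · rw [Subgroup.zpowers_one_eq_bot, sup_bot_eq]
    exact hocc
  · exact main p k F G hG G₁ β hG₁ hne hβ hnorm ⟨fun _ => hβ1, hc⟩

end Pool.Agent.AIC
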