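import Pool.Agent.AIC.QOver

/-!
Inertia groups in quotients: an automorphism of `M` is inertial at `PM` iff it is the restriction of an automorphism of `L`
inertial at `PL`.

PROOF. (←) For `b ∈ B_M`: `c = g' b - b ∈ B_M` (`g'` fixes `k[zM]`), `algebraMap M L c = g b - b ∈ PL` (`b` viewed in `B_L`), so `c ∈ PM` by
`hbelow`.
(→) Extend `g'` to `g₁ : L ≃ₐ[K] L` (`AlgEquiv.liftNormal`, `L / K` normal). The prime `g₁ PL` of `B_L` lies above `g' PM = PM`
(`g' b ∈ PM ↔ b ∈ PM` since `g' b - b ∈ PM`). The group `Gal(L/M)` acts transitively on the primes of `B_L` above `PM`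
(`B_M` is integrally closed in `M`, `B_L` is its integral closure in `L`; use `Ideal.exists_smul_eq_of_isGaloisGroup`,
`IsInvariant.exists_smul_of_under_eq` or `Ideal.exists_map_eq_of_isGalois`; `L / M` is Galois). So there is `h ∈ Gal(L/M)` with
`h g₁ PL = PL`; put `g = h g₁`, `g` restricts to `g'` on `M`. For `b ∈ B_L` there is `c ∈ k` with `b - c ∈ PL`
(`Ded.exists_const`), so `g b - b = g (b - c) - (b - c) ∈ PL` (`g` fixes `c`). So `g` is inertial at `PL`.
-/

set_option autoImplicit false

namespace Pool.Agent.AIC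

open IntermediateField IsDedekindDomain
open scoped WithZero Pointwise

private theorem fix_adj {k K E : Type*} [Field k] [Field K] [Field E] [Algebra k K] [Algebra K E]
    [Algebra k E] [IsScalarTower k K E] (z₀ : K) (z : E) (hz : algebraMap K E z₀ = z)
    (σ : E ≃ₐ[K] E) (r : Algebra.adjoin k {z}) : σ (r : E) = r := by
  have h : Algebra.adjoin k {z} ≤
      AlgHom.equalizer (σ.restrictScalars k).toAlgHom (AlgHom.id k E) := by
    refine Algebra.adjoin_le ?_
    intro y hy
    rw [Set.mem_singleton_iff.1 hy]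
    show σ z = z
    rw [← hz]
    exact σ.commutes z₀
  exact h r.2

private theorem ic_stable {k K E : Type*} [Field k] [Field K] [Field E] [Algebra k K] [Algebra K E]
    [Algebra k E] [IsScalarTower k K E] (z₀ : K) (z : E) (hz : algebraMap K E z₀ = z)
    (σ : E ≃ₐ[K] E) (b : E) (hb : b ∈ integralClosure (Algebra.adjoin k {z}) E) :
    σ b ∈ integralClosure (Algebra.adjoin k {z}) E := by
  have hb' : IsIntegral (Algebra.adjoin k {z}) b := hb
  show IsIntegral (Algebra.adjoin k {z}) (σ b)
  refine hb'.map_of_comp_eq (RingHom.id _) (σ : E →+* E) ?_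
  ext r
  exact (fix_adj z₀ z hz σ r).symm

private theorem top_inst {k K L : Type*} [Field k] [Field K] [Field L] [Algebra k K]
    [Algebra K L] [Algebra k L] [IsScalarTower k K L] [FiniteDimensional K L]
    [IsGalois K L] (z₀ : K) (htop : k⟮z₀⟯ = ⊤) (z : L) (hz : algebraMap K L z₀ = z) :
    FiniteDimensional k⟮z⟯ L ∧ Algebra.IsSeparable k⟮z⟯ L := by
  have hr : ∀ x : K, algebraMap K L x ∈ k⟮z⟯ := by
    intro x
    have h1 : (k⟮z₀⟯).map (IsScalarTower.toAlgHom k K L) = k⟮z⟯ := by
      rw [IntermediateField.adjoin_map]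
      simp [hz]
    rw [← h1, htop]
    exact ⟨x, trivial, rfl⟩
  let _ : Algebra K k⟮z⟯ := ((algebraMap K L).codRestrict k⟮z⟯.toSubfield hr).toAlgebra
  have : IsScalarTower K k⟮z⟯ L := IsScalarTower.of_algebraMap_eq (fun x => rfl)
  exact ⟨FiniteDimensional.right K k⟮z⟯ L, Algebra.isSeparable_tower_top_of_isSeparable K k⟮z⟯ L⟩


section

variable {k K M L : Type} [Field k] [Field K] [Field M] [Field L] [Algebra k K] [Algebra K M]
  [Algebra K L] [Algebra M L] [Algebra k M] [Algebra k L] [IsScalarTower k K M]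
  [IsScalarTower k K L] [IsScalarTower K M L] [FiniteDimensional K L]

private theorem tower_kML (k K M L : Type) [Field k] [Field K] [Field M] [Field L] [Algebra k K]
    [Algebra K M] [Algebra K L] [Algebra M L] [Algebra k M] [Algebra k L] [IsScalarTower k K M]
    [IsScalarTower k K L] [IsScalarTower K M L] : IsScalarTower k M L := by
  refine IsScalarTower.of_algebraMap_eq fun x => ?_
  rw [IsScalarTower.algebraMap_apply k K L, IsScalarTower.algebraMap_apply k K M,
    ← IsScalarTower.algebraMap_apply K M L]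

/-- Descent of integrality. -/
private theorem descend (z₀ : K) (zM : M) (hM : algebraMap K M z₀ = zM) (zL : L)
    (hL : algebraMap K L z₀ = zL) (m : M)
    (h : algebraMap M L m ∈ integralClosure (Algebra.adjoin k {zL}) L) :
    m ∈ integralClosure (Algebra.adjoin k {zM}) M := by
  have ht : IsScalarTower k M L := tower_kML k K M L
  have hz : algebraMap M L zM = zL := by
    rw [← hM, ← IsScalarTower.algebraMap_apply K M L, hL]
  have e1 : (Algebra.adjoin k {zM}).map (IsScalarTower.toAlgHom k M L) =
      Algebra.adjoin k {zL} := by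
    rw [AlgHom.map_adjoin_singleton]
    rw [IsScalarTower.coe_toAlgHom', hz]
  have h' : IsIntegral (Algebra.adjoin k {zL}) (algebraMap M L m) := h
  -- the inverse isomorphism
  let φ := (((Algebra.adjoin k {zM}).equivMapOfInjective (IsScalarTower.toAlgHom k M L)
    (algebraMap M L).injective).trans (Subalgebra.equivOfEq _ _ e1)).symm
  have hφ : ∀ r : Algebra.adjoin k {zL}, algebraMap M L (φ r : M) = r := by
    intro r
    have h1 : φ.symm (φ r) = r := φ.symm_apply_apply r |>.symm ▸ by simp
    have h2 : ((φ.symm (φ r) : Algebra.adjoin k {zL}) : L) = algebraMap M L (φ r : M) := rfl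
    rw [← h2, h1]
  have h3 : IsIntegral (Algebra.adjoin k {zM}) (algebraMap M L m) := by
    refine h'.map_of_comp_eq (φ : Algebra.adjoin k {zL} →+* Algebra.adjoin k {zM})
      (RingHom.id L) ?_
    ext r
    exact hφ r
  exact (isIntegral_algebraMap_iff (algebraMap M L).injective).1 h3

private theorem trans_primes [IsGalois K L] (z₀ : K) (zM : M) (hM : algebraMap K M z₀ = zM)
    (zL : L) (hL : algebraMap K L z₀ = zL)
    (P Q : Ideal (integralClosure (Algebra.adjoin k {zL}) L)) (hP : P.IsPrime) (hQ : Q.IsPrime)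
    (hPQ : ∀ (m : integralClosure (Algebra.adjoin k {zM}) M),
      (⟨algebraMap M L m, mem_ic_of_mem z₀ zM hM zL hL m⟩ :
        integralClosure (Algebra.adjoin k {zL}) L) ∈ P ↔
      (⟨algebraMap M L m, mem_ic_of_mem z₀ zM hM zL hL m⟩ :
        integralClosure (Algebra.adjoin k {zL}) L) ∈ Q) :
    ∃ h : L ≃ₐ[M] L, ∀ b b' : integralClosure (Algebra.adjoin k {zL}) L, (b' : L) = h b →
      (b ∈ P ↔ b' ∈ Q) := by
  have hst : ∀ (h : L ≃ₐ[M] L) (b : integralClosure (Algebra.adjoin k {zL}) L),
      h (b : L) ∈ integralClosure (Algebra.adjoin k {zL}) L := fun h b =>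
    ic_stable z₀ zL hL (h.restrictScalars K) b b.2
  let ι : integralClosure (Algebra.adjoin k {zM}) M →+*
      integralClosure (Algebra.adjoin k {zL}) L :=
    { toFun := fun m => ⟨algebraMap M L m, mem_ic_of_mem z₀ zM hM zL hL m⟩
      map_one' := Subtype.ext (by simp)
      map_zero' := Subtype.ext (by simp)
      map_add' := fun a b => Subtype.ext (by simp)
      map_mul' := fun a b => Subtype.ext (by simp) }
  let _ : Algebra (integralClosure (Algebra.adjoin k {zM}) M)
    (integralClosure (Algebra.adjoin k {zL}) L) := ι.toAlgebra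
  let _ : MulSemiringAction (L ≃ₐ[M] L) (integralClosure (Algebra.adjoin k {zL}) L) :=
    { smul := fun h b => ⟨h b, hst h b⟩
      one_smul := fun b => Subtype.ext rfl
      mul_smul := fun h h' b => Subtype.ext rfl
      smul_zero := fun h => Subtype.ext (map_zero h)
      smul_add := fun h a b => Subtype.ext (map_add h _ _)
      smul_one := fun h => Subtype.ext (map_one h)
      smul_mul := fun h a b => Subtype.ext (map_mul h _ _) }
  have hsm : ∀ (h : L ≃ₐ[M] L) (b : integralClosure (Algebra.adjoin k {zL}) L),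
      ((h • b : integralClosure (Algebra.adjoin k {zL}) L) : L) = h b := fun h b => rfl
  have hcomm : SMulCommClass (L ≃ₐ[M] L) (integralClosure (Algebra.adjoin k {zM}) M)
      (integralClosure (Algebra.adjoin k {zL}) L) := by
    refine ⟨fun h a b => Subtype.ext ?_⟩
    rw [Algebra.smul_def, Algebra.smul_def, hsm]
    show h (algebraMap M L a * (b : L)) = algebraMap M L a * h b
    rw [map_mul, h.commutes]
  have hgal : IsGalois M L := IsGalois.tower_top_of_isGalois K M L
  have hfd : FiniteDimensional M L := FiniteDimensional.right K M L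
  have hinv : Algebra.IsInvariant (integralClosure (Algebra.adjoin k {zM}) M)
      (integralClosure (Algebra.adjoin k {zL}) L) (L ≃ₐ[M] L) := by
    refine ⟨fun b hb => ?_⟩
    have h1 : ∀ h : L ≃ₐ[M] L, h (b : L) = b := fun h => congrArg Subtype.val (hb h)
    obtain ⟨m, hm⟩ := (IsGalois.mem_range_algebraMap_iff_fixed (F := M) (b : L)).2 h1
    refine ⟨⟨m, descend z₀ zM hM zL hL m ?_⟩, Subtype.ext hm⟩
    rw [hm]
    exact b.2
  obtain ⟨g, hg⟩ := Algebra.IsInvariant.exists_smul_of_under_eq
    (integralClosure (Algebra.adjoin k {zM}) M)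
    (integralClosure (Algebra.adjoin k {zL}) L) (L ≃ₐ[M] L) P Q
    (Ideal.ext fun m => by
      rw [Ideal.under_def, Ideal.under_def, Ideal.mem_comap, Ideal.mem_comap]
      exact hPQ m)
  refine ⟨g, fun b b' hb => ?_⟩
  have h2 : b' = g • b := Subtype.ext hb
  rw [h2, hg, Ideal.smul_mem_pointwise_smul_iff]

theorem quot_inert {k K M L : Type} [Field k] [IsAlgClosed k] [Field K] [Field M] [Field L]
    [Algebra k K] [Algebra K M] [Algebra K L] [Algebra M L] [Algebra k M] [Algebra k L]
    [IsScalarTower k K M] [IsScalarTower k K L] [IsScalarTower K M L] [FiniteDimensional K L]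
    [IsGalois K L] [IsGalois K M] (z₀ : K) (hz₀ : Transcendental k z₀) (htop : k⟮z₀⟯ = ⊤)
    (zM : M) (hM : algebraMap K M z₀ = zM) (zL : L) (hL : algebraMap K L z₀ = zL)
    (PM : Ideal (integralClosure (Algebra.adjoin k {zM}) M)) (hPM : PM.IsMaximal)
    (PL : Ideal (integralClosure (Algebra.adjoin k {zL}) L)) (hPL : PL.IsMaximal)
    (hbelow : Below zM zL PM PL) (g' : M ≃ₐ[K] M) :
    (∀ b : integralClosure (Algebra.adjoin k {zM}) M, ∃ c ∈ PM, (c : M) = g' (b : M) - (b : M)) ↔
      ∃ g : L ≃ₐ[K] L, (∀ y : M, g (algebraMap M L y) = algebraMap M L (g' y)) ∧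
        ∀ b : integralClosure (Algebra.adjoin k {zL}) L, ∃ c ∈ PL, (c : L) = g (b : L) - (b : L) := by
  constructor
  · intro hin
    let g₁ : L ≃ₐ[K] L := g'.liftNormal L
    have hg₁ : ∀ y : M, g₁ (algebraMap M L y) = algebraMap M L (g' y) :=
      fun y => g'.liftNormal_commutes L y
    let G₁ : integralClosure (Algebra.adjoin k {zL}) L →+*
        integralClosure (Algebra.adjoin k {zL}) L :=
      { toFun := fun b => ⟨g₁ b, ic_stable z₀ zL hL g₁ b b.2⟩
        map_one' := Subtype.ext (by simp)
        map_zero' := Subtype.ext (by simp)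
        map_add' := fun a b => Subtype.ext (by simp)
        map_mul' := fun a b => Subtype.ext (by simp) }
    have hprime : PL.IsPrime := hPL.isPrime
    have hQ : (PL.comap G₁).IsPrime := Ideal.comap_isPrime G₁ PL
    have hcond : ∀ (m : integralClosure (Algebra.adjoin k {zM}) M),
      (⟨algebraMap M L m, mem_ic_of_mem z₀ zM hM zL hL m⟩ :
        integralClosure (Algebra.adjoin k {zL}) L) ∈ PL ↔
      (⟨algebraMap M L m, mem_ic_of_mem z₀ zM hM zL hL m⟩ :
        integralClosure (Algebra.adjoin k {zL}) L) ∈ PL.comap G₁ := by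
      intro m
      rw [← hbelow m ⟨algebraMap M L m, mem_ic_of_mem z₀ zM hM zL hL m⟩ rfl, Ideal.mem_comap]
      obtain ⟨c, hc, hc'⟩ := hin m
      have h1 : ((m + c : integralClosure (Algebra.adjoin k {zM}) M) : M) = g' m := by
        push_cast
        rw [hc']
        ring
      rw [← hbelow (m + c) (G₁ ⟨algebraMap M L m, mem_ic_of_mem z₀ zM hM zL hL m⟩)
        (by rw [h1]; exact hg₁ m)]
      constructor
      · intro h; exact PM.add_mem h hc
      · intro h
        have := PM.sub_mem h hc
        rwa [add_sub_cancel_right] at this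
    obtain ⟨h, hh⟩ := trans_primes z₀ zM hM zL hL PL (PL.comap G₁) hprime hQ hcond
    refine ⟨(h.restrictScalars K).trans g₁, ?_, ?_⟩
    · intro y
      show g₁ (h (algebraMap M L y)) = _
      rw [h.commutes, hg₁]
    · intro b
      obtain ⟨hf, hs⟩ := top_inst (L := L) z₀ htop zL hL
      have hzL : Transcendental k zL := by
        rw [← hL]
        exact (transcendental_algebraMap_iff (algebraMap K L).injective).2 hz₀
      obtain ⟨-, -, hcst⟩ := exists_const zL hzL PL hPL
      obtain ⟨c, hc⟩ := hcst b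
      have hstb := ic_stable z₀ zL hL (h.restrictScalars K) _
        (b - algebraMap k (integralClosure (Algebra.adjoin k {zL}) L) c).2
      have h2 : G₁ ⟨_, hstb⟩ ∈ PL :=
        (hh (b - algebraMap k (integralClosure (Algebra.adjoin k {zL}) L) c) ⟨_, hstb⟩ rfl).1 hc
      refine ⟨_, PL.sub_mem h2 hc, ?_⟩
      have h3 : ((algebraMap k (integralClosure (Algebra.adjoin k {zL}) L) c :
          integralClosure (Algebra.adjoin k {zL}) L) : L) = algebraMap k L c := rfl
      have h4 : h (algebraMap k L c) = algebraMap k L c := by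
        rw [IsScalarTower.algebraMap_apply k K L, IsScalarTower.algebraMap_apply K M L]
        exact h.commutes _
      have h5 : g₁ (algebraMap k L c) = algebraMap k L c := by
        rw [IsScalarTower.algebraMap_apply k K L]
        exact g₁.commutes _
      show g₁ (h ((b : L) - algebraMap k L c)) - ((b : L) - algebraMap k L c) =
        g₁ (h (b : L)) - b
      rw [map_sub, map_sub, h4, h5]
      ring
  · rintro ⟨g, hg, hin⟩ b
    obtain ⟨c, hc, hc'⟩ := hin ⟨algebraMap M L b, mem_ic_of_mem z₀ zM hM zL hL b⟩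
    let c₀ : integralClosure (Algebra.adjoin k {zM}) M :=
      ⟨g' b, ic_stable z₀ zM hM g' b b.2⟩ - b
    have h1 : (c₀ : M) = g' b - b := rfl
    refine ⟨c₀, (hbelow c₀ c ?_).2 hc, h1⟩
    rw [hc', h1, map_sub]
    show g (algebraMap M L b) - _ = _
    rw [hg]

end

end Pool.Agent.AIC
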