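import Pool.Agent.AIC.Ded

/-!
Primes in a tower `K ⊆ M ⊆ L`.

PROOF. Let `B_M`, `B_L` be the integral closures. `b ↦ algebraMap M L b` maps `B_M` to `B_L` (an integral ring extension,
because `B_L` is integral over `k[z]`). `quot_under`: `PM = PL ∩ B_M` is maximal (`Ideal.isMaximal_comap_of_isIntegral_of_isMaximal`).
`quot_over`: lying over (`Ideal.exists_ideal_over_maximal_of_isIntegral`). (Define the ring homomorphism `B_M → B_L`, make it an
algebra.)
-/

set_option autoImplicit false

namespace Pool.Agent.AIC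

open IntermediateField IsDedekindDomain
open scoped WithZero

section

variable {k K M L : Type} [Field k] [Field K] [Field M] [Field L] [Algebra k K] [Algebra K M]
  [Algebra K L] [Algebra M L] [Algebra k M] [Algebra k L] [IsScalarTower k K M]
  [IsScalarTower k K L] [IsScalarTower K M L] [FiniteDimensional K L]

/-- `PM` is the prime of `M` below the prime `PL` of `L`. -/
def Below (zM : M) (zL : L) (PM : Ideal (integralClosure (Algebra.adjoin k {zM}) M))
    (PL : Ideal (integralClosure (Algebra.adjoin k {zL}) L)) : Prop :=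
  ∀ (b : integralClosure (Algebra.adjoin k {zM}) M)
    (b' : integralClosure (Algebra.adjoin k {zL}) L), (b' : L) = algebraMap M L b →
    (b ∈ PM ↔ b' ∈ PL)

private lemma qo_tower (k K M L : Type) [Field k] [Field K] [Field M] [Field L] [Algebra k K]
    [Algebra K M] [Algebra K L] [Algebra M L] [Algebra k M] [Algebra k L] [IsScalarTower k K M]
    [IsScalarTower k K L] [IsScalarTower K M L] : IsScalarTower k M L := by
  refine IsScalarTower.of_algebraMap_eq fun c => ?_
  rw [IsScalarTower.algebraMap_apply k K M, ← IsScalarTower.algebraMap_apply K M L,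
    ← IsScalarTower.algebraMap_apply k K L]

private lemma qo_hom (z₀ : K) (zM : M) (hM : algebraMap K M z₀ = zM) (zL : L)
    (hL : algebraMap K L z₀ = zL) :
    ∃ φ : Algebra.adjoin k {zM} →+* Algebra.adjoin k {zL}, Function.Surjective φ ∧
      ∀ x, (φ x : L) = algebraMap M L (x : M) := by
  have : IsScalarTower k M L := qo_tower k K M L
  have hz : algebraMap M L zM = zL := by
    rw [← hM, ← IsScalarTower.algebraMap_apply K M L, hL]
  have hmap : (Algebra.adjoin k {zM}).map (IsScalarTower.toAlgHom k M L) =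
      Algebra.adjoin k {zL} := by
    rw [AlgHom.map_adjoin, Set.image_singleton]
    congr 2
  have hmem : ∀ x : Algebra.adjoin k {zM}, algebraMap M L (x : M) ∈ Algebra.adjoin k {zL} := by
    intro x
    rw [← hmap]
    exact ⟨(x : M), x.2, rfl⟩
  refine ⟨((IsScalarTower.toAlgHom k M L).comp (Algebra.adjoin k {zM}).val).codRestrict
    (Algebra.adjoin k {zL}) hmem, ?_, fun x => rfl⟩
  rintro ⟨y, hy⟩
  have hy' := hy
  rw [← hmap] at hy'
  obtain ⟨x, hx, hxy⟩ := hy'
  exact ⟨⟨x, hx⟩, Subtype.ext hxy⟩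

theorem mem_ic_of_mem (z₀ : K) (zM : M) (hM : algebraMap K M z₀ = zM) (zL : L)
    (hL : algebraMap K L z₀ = zL) (b : integralClosure (Algebra.adjoin k {zM}) M) :
    algebraMap M L b ∈ integralClosure (Algebra.adjoin k {zL}) L := by
  obtain ⟨φ, _, hφ⟩ := qo_hom (k := k) z₀ zM hM zL hL
  have hb : IsIntegral (Algebra.adjoin k {zM}) (b : M) := b.2
  refine IsIntegral.map_of_comp_eq φ (algebraMap M L) ?_ hb
  ext x
  exact hφ x

private lemma qo_Phi (z₀ : K) (zM : M) (hM : algebraMap K M z₀ = zM) (zL : L)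
    (hL : algebraMap K L z₀ = zL) :
    ∃ Φ : integralClosure (Algebra.adjoin k {zM}) M →+*
        integralClosure (Algebra.adjoin k {zL}) L, Φ.IsIntegral ∧ Function.Injective Φ ∧
      ∀ x, (Φ x : L) = algebraMap M L (x : M) := by
  obtain ⟨φ, hφs, hφ⟩ := qo_hom (k := k) z₀ zM hM zL hL
  let Φ : integralClosure (Algebra.adjoin k {zM}) M →+*
      integralClosure (Algebra.adjoin k {zL}) L :=
    RingHom.codRestrict ((algebraMap M L).comp
      (integralClosure (Algebra.adjoin k {zM}) M).val.toRingHom)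
      (integralClosure (Algebra.adjoin k {zL}) L)
      (fun b => mem_ic_of_mem (k := k) z₀ zM hM zL hL b)
  have hΦ : ∀ x, (Φ x : L) = algebraMap M L (x : M) := fun x => rfl
  refine ⟨Φ, ?_, ?_, hΦ⟩
  · have h1 : (algebraMap (Algebra.adjoin k {zL})
        (integralClosure (Algebra.adjoin k {zL}) L)).IsIntegral :=
      algebraMap_isIntegral_iff.2 inferInstance
    have h2 : φ.IsIntegral := RingHom.isIntegral_of_surjective φ hφs
    have h3 := RingHom.IsIntegral.trans φ _ h2 h1
    have h4 : (algebraMap (Algebra.adjoin k {zL})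
        (integralClosure (Algebra.adjoin k {zL}) L)).comp φ =
        Φ.comp (algebraMap (Algebra.adjoin k {zM})
          (integralClosure (Algebra.adjoin k {zM}) M)) := by
      ext x
      exact hφ x
    rw [h4] at h3
    exact RingHom.IsIntegral.tower_top _ _ h3
  · intro x y hxy
    have h1 : (Φ x : L) = (Φ y : L) := congrArg _ hxy
    rw [hΦ, hΦ] at h1
    exact Subtype.ext ((algebraMap M L).injective h1)

theorem quot_under (z₀ : K) (zM : M) (hM : algebraMap K M z₀ = zM) (zL : L)
    (hL : algebraMap K L z₀ = zL) (PL : Ideal (integralClosure (Algebra.adjoin k {zL}) L))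
    (hPL : PL.IsMaximal) :
    ∃ PM : Ideal (integralClosure (Algebra.adjoin k {zM}) M), PM.IsMaximal ∧
      Below zM zL PM PL := by
  obtain ⟨Φ, h1, _, hΦ⟩ := qo_Phi (k := k) z₀ zM hM zL hL
  refine ⟨PL.comap Φ, Ideal.isMaximal_comap_of_isIntegral_of_isMaximal' Φ h1 PL, ?_⟩
  intro b b' hb
  have : b' = Φ b := Subtype.ext (by rw [hb, hΦ])
  rw [this, Ideal.mem_comap]

theorem quot_over (z₀ : K) (zM : M) (hM : algebraMap K M z₀ = zM) (zL : L)
    (hL : algebraMap K L z₀ = zL) (PM : Ideal (integralClosure (Algebra.adjoin k {zM}) M))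
    (hPM : PM.IsMaximal) :
    ∃ PL : Ideal (integralClosure (Algebra.adjoin k {zL}) L), PL.IsMaximal ∧
      Below zM zL PM PL := by
  obtain ⟨Φ, h1, h2, hΦ⟩ := qo_Phi (k := k) z₀ zM hM zL hL
  have h3 : ∃ PL : Ideal (integralClosure (Algebra.adjoin k {zL}) L), PL.IsMaximal ∧
      PL.comap Φ = PM := by
    letI : Algebra (integralClosure (Algebra.adjoin k {zM}) M)
      (integralClosure (Algebra.adjoin k {zL}) L) := Φ.toAlgebra
    haveI : Algebra.IsIntegral (integralClosure (Algebra.adjoin k {zM}) M)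
      (integralClosure (Algebra.adjoin k {zL}) L) := ⟨h1⟩
    refine Ideal.exists_ideal_over_maximal_of_isIntegral PM ?_
    have h4 : RingHom.ker (algebraMap (integralClosure (Algebra.adjoin k {zM}) M)
      (integralClosure (Algebra.adjoin k {zL}) L)) = ⊥ :=
      (RingHom.injective_iff_ker_eq_bot _).1 h2
    rw [h4]
    exact bot_le
  obtain ⟨PL, hPL, hc⟩ := h3
  refine ⟨PL, hPL, ?_⟩
  intro b b' hb
  have : b' = Φ b := Subtype.ext (by rw [hb, hΦ])
  rw [this, ← hc, Ideal.mem_comap]

end

end Pool.Agent.AIC
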