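import Pool.Agent.AIC.Fix

/-!
The `F`-vector space of the roots of `Y^(q^2) + f Y^q + Y` and the Moore determinant.

PROOF. Put `q = Nat.card F = p ^ n`. `y ↦ y ^ q` is additive on `L` and fixes `algebraMap F L c`; this gives `rt_add`, `rt_smul`.
`moore_pow`: `(v w^q - w v^q)^q = v^q w^(q^2) - w^q v^(q^2) = v^q (- f w^q - w) - w^q (- f v^q - v) = v w^q - w v^q`.
`rt_span`: `γ := moore v r` is in `F` by `moore_pow` and `Fix.mem_range_of_pow_eq`. `r' := r - γ w` satisfies
`moore v r' = γ - γ * moore v w = 0` (`moore` is `F`-linear in the second argument), i.e. `(r' / v) ^ q = r' / v` (`v ≠ 0` because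
`moore v w = 1`), so `r' / v ∈ F`.
`moore_eq_zero`: if `moore v r = 0` and `v ≠ 0` then `(r / v) ^ q = r / v`, so `r / v ∈ F`.
`exists_compl`: the `F`-multiples of `v` form a set with `q < q ^ 2` elements, so there is a root `r` which is not a multiple
of `v`; `δ = moore v r` is non-zero by `moore_eq_zero` and in `F`; take `w = δ⁻¹ r`.
-/

set_option autoImplicit false

namespace Pool.Agent.AIC


private theorem add_q {L : Type*} [Field L] {p n q : ℕ} [Fact p.Prime] [CharP L p] (hp : q = p ^ n)
    (x y : L) : (x + y) ^ q = x ^ q + y ^ q := by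
  rw [hp]
  exact add_pow_char_pow x y p n

private theorem sub_q {L : Type*} [Field L] {p n q : ℕ} [Fact p.Prime] [CharP L p] (hp : q = p ^ n)
    (x y : L) : (x - y) ^ q = x ^ q - y ^ q := by
  rw [hp]
  exact sub_pow_char_pow x y n

private theorem F_q {F L : Type*} [Field F] [Finite F] [Field L] [Algebra F L] (c : F) :
    (algebraMap F L c) ^ (Nat.card F) = algebraMap F L c := by
  rw [← map_pow, pow_natCard]

section

variable {F L : Type*} [Field F] [Finite F] [Field L] [Algebra F L] {p n : ℕ} [Fact p.Prime]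
  [CharP L p] (hp : Nat.card F = p ^ n)

include hp

theorem rt_add {f v w : L} (hv : Rt (Nat.card F) f v) (hw : Rt (Nat.card F) f w) :
    Rt (Nat.card F) f (v + w) := by
  unfold Rt at *
  rw [pow_two, pow_mul] at *
  rw [add_q hp, add_q hp]
  linear_combination hv + hw

theorem rt_smul {f v : L} (c : F) (hv : Rt (Nat.card F) f v) :
    Rt (Nat.card F) f (algebraMap F L c * v) := by
  unfold Rt at *
  rw [pow_two, pow_mul] at *
  rw [mul_pow, mul_pow, F_q, F_q]
  linear_combination algebraMap F L c * hv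

theorem moore_pow {f v w : L} (hv : Rt (Nat.card F) f v) (hw : Rt (Nat.card F) f w) :
    (moore (Nat.card F) v w) ^ (Nat.card F) = moore (Nat.card F) v w := by
  unfold Rt at *
  unfold moore
  rw [pow_two, pow_mul] at *
  rw [sub_q hp, mul_pow, mul_pow]
  linear_combination v ^ Nat.card F * hw - w ^ Nat.card F * hv

theorem moore_eq_zero {v r : L} (hv : v ≠ 0) (h : moore (Nat.card F) v r = 0) :
    ∃ c : F, r = algebraMap F L c * v := by
  unfold moore at h
  obtain ⟨c, hc⟩ := mem_range_of_pow_eq (F := F) (r / v) (by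
    rw [div_pow, div_eq_div_iff (pow_ne_zero _ hv) hv]
    linear_combination h)
  refine ⟨c, ?_⟩
  rw [hc, div_mul_cancel₀ _ hv]

theorem rt_span {f v w r : L} (hv : Rt (Nat.card F) f v) (hw : Rt (Nat.card F) f w)
    (hr : Rt (Nat.card F) f r) (h : moore (Nat.card F) v w = 1) :
    ∃ α γ : F, r = algebraMap F L α * v + algebraMap F L γ * w := by
  obtain ⟨γ, hγ⟩ := mem_range_of_pow_eq (F := F) (moore (Nat.card F) v r) (moore_pow hp hv hr)
  have hv0 : v ≠ 0 := by
    rintro rfl
    unfold moore at h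
    rw [zero_pow (by have := Nat.card_pos (α := F); omega)] at h
    simp at h
  obtain ⟨α, hα⟩ := moore_eq_zero hp (r := r - algebraMap F L γ * w) hv0 (by
    unfold moore at *
    rw [sub_q hp, mul_pow, F_q]
    linear_combination -hγ - algebraMap F L γ * h)
  refine ⟨α, γ, ?_⟩
  rw [← hα]
  ring

theorem exists_compl {f v : L} (hs : ∃ s : Finset L, s.card = Nat.card F ^ 2 ∧
      ∀ r ∈ s, Rt (Nat.card F) f r) (hv : Rt (Nat.card F) f v) (hv0 : v ≠ 0) :
    ∃ w : L, Rt (Nat.card F) f w ∧ moore (Nat.card F) v w = 1 := by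
  classical
  obtain ⟨s, hs1, hs2⟩ := hs
  have := Fintype.ofFinite F
  have hq : 1 < Nat.card F := Finite.one_lt_card
  have hex : ∃ r ∈ s, r ∉ Finset.univ.image (fun c : F => algebraMap F L c * v) := by
    by_contra hcon
    push Not at hcon
    have h1 := Finset.card_le_card (fun r hr => hcon r hr : s ⊆ _)
    have h2 : (Finset.univ.image (fun c : F => algebraMap F L c * v)).card ≤ Nat.card F := by
      rw [Nat.card_eq_fintype_card]
      exact Finset.card_image_le
    rw [hs1] at h1
    nlinarith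
  obtain ⟨r, hrs, hr⟩ := hex
  have hδ0 : moore (Nat.card F) v r ≠ 0 := by
    intro h0
    obtain ⟨c, hc⟩ := moore_eq_zero hp hv0 h0
    exact hr (Finset.mem_image.2 ⟨c, Finset.mem_univ _, hc.symm⟩)
  obtain ⟨d, hd⟩ := mem_range_of_pow_eq (F := F) (moore (Nat.card F) v r) (moore_pow hp hv (hs2 r hrs))
  have hd0 : algebraMap F L d ≠ 0 := by rw [hd]; exact hδ0
  refine ⟨algebraMap F L d⁻¹ * r, rt_smul hp _ (hs2 r hrs), ?_⟩
  have h1 : moore (Nat.card F) v (algebraMap F L d⁻¹ * r) =
      algebraMap F L d⁻¹ * moore (Nat.card F) v r := by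
    unfold moore
    rw [mul_pow, F_q]
    ring
  rw [h1, ← hd, map_inv₀, inv_mul_cancel₀ hd0]

end

end Pool.Agent.AIC
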