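import Pool.Agent.AIC.Ded

/-!
Functions without poles are constant; polynomials regular at infinity; bounded poles.

PROOF. `z` is transcendental. (1) `f` integral over `k[z]` and over `k[z⁻¹]`: the minimal polynomial of `f` over
`K = k(z)` has coefficients in `k[z]` (integrally closed) and in `k[z⁻¹]`, so in `k[z] ∩ k[z⁻¹] = k`. So `f` is algebraic over
the algebraically closed field `k`, `f ∈ k`.
(2) If `P ∈ k[X]` and `(z⁻¹)^r * P(z)` is integral over `k[z⁻¹]` then, as `k[z⁻¹]` is integrally closed in `k(z)`, it is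
`R(z⁻¹)` for some `R ∈ k[X]`, so `P(z) = z^r R(z⁻¹)`, hence `natDegree P ≤ r` (multiply by a power of `z` and compare
polynomials).
(3) Let `f` be integral over `k[z]`: `f^n + a_1(z) f^(n-1) + .. + a_n(z) = 0`. Choose `r` with `natDegree a_i ≤ r i` for all `i`.
Then `g = (z⁻¹)^r f` satisfies `g^n + (z⁻¹)^r a_1(z) g^(n-1) + .. + (z⁻¹)^(r n) a_n(z) = 0` with coefficients in `k[z⁻¹]`.
-/

set_option autoImplicit false

namespace Pool.Agent.AIC

open IntermediateField IsDedekindDomain
open scoped WithZero IntermediateField.algebraAdjoinAdjoin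

section aux

variable {k L : Type*} [Field k] [Field L] [Algebra k L]

private theorem exists_eq_of_mem {w x : L}
    (h : x ∈ integralClosure (Algebra.adjoin k {w}) L) :
    ∃ (n : ℕ) (A : ℕ → Polynomial k),
      x ^ n + ∑ i ∈ Finset.range n, Polynomial.aeval w (A i) * x ^ i = 0 := by
  obtain ⟨p, hm, hp⟩ := h
  have h1 : ∀ a : Algebra.adjoin k {w}, ∃ q : Polynomial k, Polynomial.aeval w q = (a : L) := by
    rintro ⟨a, ha⟩
    rw [Algebra.adjoin_singleton_eq_range_aeval] at ha
    exact ha
  choose A hA using h1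
  refine ⟨p.natDegree, fun i => A (p.coeff i), ?_⟩
  rw [Polynomial.eval₂_eq_sum_range, Finset.sum_range_succ, hm.coeff_natDegree, map_one,
    one_mul, add_comm] at hp
  simp_rw [hA]
  exact hp

private theorem mem_of_eq {w x : L} {n : ℕ} {A : ℕ → Polynomial k}
    (h : x ^ n + ∑ i ∈ Finset.range n, Polynomial.aeval w (A i) * x ^ i = 0) :
    x ∈ integralClosure (Algebra.adjoin k {w}) L := by
  refine ⟨Polynomial.X ^ n + ∑ i ∈ Finset.range n,
    Polynomial.C (⟨Polynomial.aeval w (A i), Polynomial.aeval_mem_adjoin_singleton k w⟩ :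
      Algebra.adjoin k {w}) * Polynomial.X ^ i, ?_, ?_⟩
  · apply Polynomial.monic_X_pow_add
    refine lt_of_le_of_lt (Polynomial.degree_sum_le _ _) ?_
    refine (Finset.sup_lt_iff (WithBot.bot_lt_coe n)).2 ?_
    intro i hi
    refine lt_of_le_of_lt (Polynomial.degree_C_mul_X_pow_le i _) ?_
    exact WithBot.coe_lt_coe.2 (Finset.mem_range.1 hi)
  · rw [Polynomial.eval₂_add, Polynomial.eval₂_X_pow, Polynomial.eval₂_finsetSum, ← h]
    congr 1
    refine Finset.sum_congr rfl fun i _ => ?_
    rw [Polynomial.eval₂_mul, Polynomial.eval₂_C, Polynomial.eval₂_X_pow]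
    rfl

/-- polynomials in `z` and `z⁻¹` -/
private theorem reverse_aeval {z : L} (hz : z ≠ 0) (P : Polynomial k) :
    Polynomial.aeval z⁻¹ P.reverse * z ^ P.natDegree = Polynomial.aeval z P := by
  have := invertibleOfNonzero hz
  have h := Polynomial.eval₂_reverse_mul_pow (algebraMap k L) z P
  rw [invOf_eq_inv] at h
  exact h

private theorem pow_mul_aeval {z : L} (hz : z ≠ 0) (P : Polynomial k) {r : ℕ}
    (hr : P.natDegree ≤ r) :
    z⁻¹ ^ r * Polynomial.aeval z P =
      Polynomial.aeval z⁻¹ (Polynomial.X ^ (r - P.natDegree) * P.reverse) := by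
  obtain ⟨d, hd⟩ := Nat.exists_eq_add_of_le hr
  rw [← reverse_aeval hz P, map_mul, map_pow, Polynomial.aeval_X]
  rw [show r - P.natDegree = d by omega]
  have h1 : z⁻¹ ^ r = z⁻¹ ^ d * z⁻¹ ^ P.natDegree := by rw [← pow_add, hd, add_comm]
  have h2 : z⁻¹ ^ P.natDegree * z ^ P.natDegree = 1 := by
    rw [← mul_pow, inv_mul_cancel₀ hz, one_pow]
  rw [h1]
  linear_combination (z⁻¹ ^ d * Polynomial.aeval z⁻¹ P.reverse) * h2

private theorem adj_int {z b : L} (hb : b ∈ k⟮z⟯)
    (h : b ∈ integralClosure (Algebra.adjoin k {z}) L) : b ∈ Algebra.adjoin k {z} := by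
  have := isPrincipalIdealRing_adj (k := k) z
  have h2 : IsIntegral (Algebra.adjoin k {z}) (⟨b, hb⟩ : k⟮z⟯) := by
    rw [← isIntegral_algebraMap_iff (algebraMap k⟮z⟯ L).injective]
    exact h
  obtain ⟨a, ha⟩ := IsIntegrallyClosed.isIntegral_iff.1 h2
  have ha' : ((algebraMap (Algebra.adjoin k {z}) k⟮z⟯ a : k⟮z⟯) : L) = b :=
    congrArg (Subtype.val : k⟮z⟯ → L) ha
  rw [← ha']
  exact a.2

private theorem natDegree_le_aux {z : L} (hzt : Transcendental k z) (P : Polynomial k) (r : ℕ)
    (h : z⁻¹ ^ r * Polynomial.aeval z P ∈ integralClosure (Algebra.adjoin k {z⁻¹}) L) :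
    P.natDegree ≤ r := by
  by_contra hlt
  push Not at hlt
  have hz : z ≠ 0 := by
    rintro rfl
    exact hzt isAlgebraic_zero
  have hwt : Transcendental k z⁻¹ := fun h => hzt (by simpa using h.inv)
  obtain ⟨s, A, hA⟩ := exists_eq_of_mem h
  obtain ⟨m, hm⟩ := Nat.exists_eq_add_of_lt hlt
  -- `P.natDegree = r + m + 1`
  set w := z⁻¹ with hw
  set x := w ^ r * Polynomial.aeval z P with hx
  have hwz : w * z = 1 := inv_mul_cancel₀ hz
  have h1 : w ^ (m + 1) * x = Polynomial.aeval w P.reverse := by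
    rw [hx, ← reverse_aeval hz P, hm]
    have h2 : w ^ (r + m + 1) * z ^ (r + m + 1) = 1 := by rw [← mul_pow, hwz, one_pow]
    rw [show w ^ (m + 1) * (w ^ r * (Polynomial.aeval z⁻¹ P.reverse * z ^ (r + m + 1))) =
      (w ^ (r + m + 1) * z ^ (r + m + 1)) * Polynomial.aeval z⁻¹ P.reverse by ring, h2, one_mul]
  have h3 : Polynomial.aeval w (P.reverse ^ s + ∑ i ∈ Finset.range s,
      A i * Polynomial.X ^ ((m + 1) * (s - i)) * P.reverse ^ i) = 0 := by
    rw [map_add, map_pow, map_sum, ← h1]
    have h4 : (w ^ (m + 1)) ^ s * (x ^ s + ∑ i ∈ Finset.range s,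
        Polynomial.aeval w (A i) * x ^ i) = 0 := by rw [hA, mul_zero]
    rw [mul_add, Finset.mul_sum] at h4
    rw [← h4]
    congr 1
    · rw [mul_pow]
    · refine Finset.sum_congr rfl fun i hi => ?_
      have hi' := Finset.mem_range.1 hi
      rw [map_mul, map_mul, map_pow, map_pow, Polynomial.aeval_X, ← h1, mul_pow]
      have h5 : (w ^ (m + 1)) ^ s = w ^ ((m + 1) * (s - i)) * (w ^ (m + 1)) ^ i := by
        rw [← pow_mul, ← pow_mul, ← pow_add, ← mul_add]
        congr 2
        omega
      rw [h5]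
      ring
  have h6 := (transcendental_iff.1 hwt) _ h3
  have h7 := congrArg (Polynomial.eval 0) h6
  rw [Polynomial.eval_add, Polynomial.eval_pow, Polynomial.eval_finsetSum,
    Polynomial.eval_zero] at h7
  have h8 : ∑ i ∈ Finset.range s, Polynomial.eval 0
      (A i * Polynomial.X ^ ((m + 1) * (s - i)) * P.reverse ^ i) = 0 := by
    refine Finset.sum_eq_zero fun i hi => ?_
    have hi' := Finset.mem_range.1 hi
    have h9 : (m + 1) * (s - i) ≠ 0 := by
      apply Nat.mul_ne_zero
      · omega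
      · omega
    rw [Polynomial.eval_mul, Polynomial.eval_mul, Polynomial.eval_pow, Polynomial.eval_X,
      zero_pow h9, mul_zero, zero_mul]
  rw [h8, add_zero] at h7
  have h10 : Polynomial.eval 0 P.reverse = 0 := by
    by_contra hne
    exact pow_ne_zero s hne h7
  rw [← Polynomial.coeff_zero_eq_eval_zero, Polynomial.coeff_zero_reverse,
    Polynomial.leadingCoeff_eq_zero] at h10
  rw [h10, Polynomial.natDegree_zero] at hlt
  omega

end aux

theorem mem_const {k K L : Type} [Field k] [IsAlgClosed k] [Field K] [Field L] [Algebra k K]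
    [Algebra K L] [Algebra k L] [IsScalarTower k K L] [FiniteDimensional K L] [IsGalois K L]
    (z₀ : K) (hz₀ : Transcendental k z₀) (htop : k⟮z₀⟯ = ⊤) (z : L) (hz : algebraMap K L z₀ = z)
    (f : L) (h1 : f ∈ integralClosure (Algebra.adjoin k {z}) L)
    (h2 : f ∈ integralClosure (Algebra.adjoin k {z⁻¹}) L) : ∃ c : k, f = algebraMap k L c := by
  classical
  have hzt : Transcendental k z := by
    rw [← hz]
    exact (transcendental_algebraMap_iff (algebraMap K L).injective).2 hz₀
  -- the image of `K` is `k⟮z⟯`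
  have hKz : ∀ a : K, algebraMap K L a ∈ k⟮z⟯ := by
    intro a
    have h1 : a ∈ k⟮z₀⟯ := by rw [htop]; trivial
    have h2 : (k⟮z₀⟯).map (IsScalarTower.toAlgHom k K L) = k⟮z⟯ := by
      rw [IntermediateField.adjoin_map, Set.image_singleton]
      congr 2
    rw [← h2]
    exact ⟨a, h1, rfl⟩
  -- elements of `K` integral over both rings are constants
  have hconst : ∀ b : L, b ∈ k⟮z⟯ → b ∈ integralClosure (Algebra.adjoin k {z}) L →
      b ∈ integralClosure (Algebra.adjoin k {z⁻¹}) L → b ∈ (algebraMap k L).range := by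
    intro b hb hb1 hb2
    have h3 := adj_int hb hb1
    rw [Algebra.adjoin_singleton_eq_range_aeval] at h3
    obtain ⟨P, hP⟩ := h3
    have h4 : P.natDegree ≤ 0 := by
      apply natDegree_le_aux hzt P 0
      rw [pow_zero, one_mul]
      have : Polynomial.aeval z P = b := hP
      rw [this]
      exact hb2
    rw [Polynomial.eq_C_of_natDegree_le_zero h4] at hP
    refine ⟨P.coeff 0, ?_⟩
    rw [← hP]
    exact (Polynomial.aeval_C z _).symm
  -- the Galois group preserves the integral closures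
  have hgal : ∀ w : L, (∀ g : L ≃ₐ[K] L, g w = w) → ∀ x : L,
      x ∈ integralClosure (Algebra.adjoin k {w}) L → ∀ g : L ≃ₐ[K] L,
      g x ∈ integralClosure (Algebra.adjoin k {w}) L := by
    intro w hw x hx g
    obtain ⟨n, A, hA⟩ := exists_eq_of_mem hx
    apply mem_of_eq (n := n) (A := A)
    have h3 := congrArg g hA
    rw [map_add, map_pow, map_sum, map_zero] at h3
    rw [← h3]
    congr 1
    refine Finset.sum_congr rfl fun i _ => ?_
    rw [map_mul, map_pow]
    congr 1
    have h4 := Polynomial.aeval_algHom_apply ((g : L →ₐ[K] L).restrictScalars k) w (A i)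
    have h5 : ((g : L →ₐ[K] L).restrictScalars k) w = w := hw g
    rw [h5] at h4
    exact h4
  have hgz : ∀ g : L ≃ₐ[K] L, g z = z := by
    intro g
    rw [← hz]
    exact g.commutes z₀
  have hgz' : ∀ g : L ≃ₐ[K] L, g z⁻¹ = z⁻¹ := by
    intro g
    rw [map_inv₀, hgz]
  set p : Polynomial L := ∏ g : L ≃ₐ[K] L, (Polynomial.X - Polynomial.C (g f)) with hp
  have hpm : p.Monic := Polynomial.monic_prod_of_monic _ _ fun g _ => Polynomial.monic_X_sub_C _
  have hpf : p.eval f = 0 := by
    rw [hp, Polynomial.eval_prod]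
    refine Finset.prod_eq_zero (Finset.mem_univ (1 : L ≃ₐ[K] L)) ?_
    simp
  -- the coefficients
  have hpint : ∀ w : L, (∀ g : L ≃ₐ[K] L, g w = w) →
      f ∈ integralClosure (Algebra.adjoin k {w}) L → ∀ n,
      p.coeff n ∈ integralClosure (Algebra.adjoin k {w}) L := by
    intro w hw hf n
    set S := integralClosure (Algebra.adjoin k {w}) L with hS
    have h3 : p = (∏ g : L ≃ₐ[K] L, (Polynomial.X - Polynomial.C
        (⟨g f, hgal w hw f hf g⟩ : S))).map (algebraMap S L) := by
      rw [Polynomial.map_prod]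
      refine Finset.prod_congr rfl fun g _ => ?_
      rw [Polynomial.map_sub, Polynomial.map_X, Polynomial.map_C]
      rfl
    rw [h3, Polynomial.coeff_map]
    exact Subtype.property _
  have hpfix : ∀ (h : L ≃ₐ[K] L) n, h (p.coeff n) = p.coeff n := by
    intro h n
    have h3 : p.map (h : L →+* L) = p := by
      rw [hp, Polynomial.map_prod]
      refine Fintype.prod_equiv (Equiv.mulLeft h) _ _ fun g => ?_
      rw [Polynomial.map_sub, Polynomial.map_X, Polynomial.map_C]
      rfl
    have h4 := congrArg (fun q => Polynomial.coeff q n) h3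
    simp only [Polynomial.coeff_map] at h4
    exact h4
  have hpk : ∀ n, p.coeff n ∈ Set.range (algebraMap k L) := by
    intro n
    have h3 : p.coeff n ∈ Set.range (algebraMap K L) := by
      rw [IsGalois.mem_range_algebraMap_iff_fixed]
      intro g
      exact hpfix g n
    obtain ⟨b, hb⟩ := h3
    have h4 := hconst (p.coeff n) (by rw [← hb]; exact hKz b) (hpint z hgz h1 n)
      (hpint z⁻¹ hgz' h2 n)
    obtain ⟨c, hc⟩ := h4
    exact ⟨c, hc⟩
  have hlift : p ∈ Polynomial.lifts (algebraMap k L) :=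
    (Polynomial.lifts_iff_coeff_lifts p).2 hpk
  obtain ⟨q, hq1, -, hq3⟩ := Polynomial.lifts_and_natDegree_eq_and_monic hlift hpm
  have hfint : IsIntegral k f := by
    refine ⟨q, hq3, ?_⟩
    rw [Polynomial.eval₂_eq_eval_map, hq1, hpf]
  have hirr := minpoly.irreducible hfint
  have hdeg := IsAlgClosed.degree_eq_one_of_irreducible k hirr
  obtain ⟨c, hc⟩ := minpoly.mem_range_of_degree_eq_one k f hdeg
  exact ⟨c, hc.symm⟩

theorem natDegree_le_of_mem {k K L : Type} [Field k] [IsAlgClosed k] [Field K] [Field L] [Algebra k K]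
    [Algebra K L] [Algebra k L] [IsScalarTower k K L] [FiniteDimensional K L] [IsGalois K L]
    (z₀ : K) (hz₀ : Transcendental k z₀) (htop : k⟮z₀⟯ = ⊤) (z : L) (hz : algebraMap K L z₀ = z)
    (P : Polynomial k) (r : ℕ)
    (h : z⁻¹ ^ r * Polynomial.aeval z P ∈ integralClosure (Algebra.adjoin k {z⁻¹}) L) :
    P.natDegree ≤ r := by
  have hzt : Transcendental k z := by
    rw [← hz]
    exact (transcendental_algebraMap_iff (algebraMap K L).injective).2 hz₀
  exact natDegree_le_aux hzt P r h

theorem exists_pole_bound {k K L : Type} [Field k] [IsAlgClosed k] [Field K] [Field L] [Algebra k K]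
    [Algebra K L] [Algebra k L] [IsScalarTower k K L] [FiniteDimensional K L] [IsGalois K L]
    (z₀ : K) (hz₀ : Transcendental k z₀) (htop : k⟮z₀⟯ = ⊤) (z : L) (hz : algebraMap K L z₀ = z)
    (f : L) (h1 : f ∈ integralClosure (Algebra.adjoin k {z}) L) :
    ∃ r : ℕ, z⁻¹ ^ r * f ∈ integralClosure (Algebra.adjoin k {z⁻¹}) L := by
  have hzt : Transcendental k z := by
    rw [← hz]
    exact (transcendental_algebraMap_iff (algebraMap K L).injective).2 hz₀
  have hz0 : z ≠ 0 := by
    rintro h0
    exact hzt (h0 ▸ isAlgebraic_zero)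
  obtain ⟨n, A, hA⟩ := exists_eq_of_mem h1
  set r := (Finset.range n).sup fun i => (A i).natDegree with hr
  refine ⟨r, mem_of_eq (n := n) (A := fun i => Polynomial.X ^ (r * (n - i) - (A i).natDegree) *
    (A i).reverse) ?_⟩
  have h2 : (z⁻¹ ^ r) ^ n * (f ^ n + ∑ i ∈ Finset.range n,
      Polynomial.aeval z (A i) * f ^ i) = 0 := by rw [hA, mul_zero]
  rw [mul_add, Finset.mul_sum] at h2
  rw [← h2]
  congr 1
  · rw [mul_pow]
  · refine Finset.sum_congr rfl fun i hi => ?_
    have hi' := Finset.mem_range.1 hi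
    have h3 : (A i).natDegree ≤ r * (n - i) := by
      have h4 : (A i).natDegree ≤ r := by
        rw [hr]
        exact Finset.le_sup (f := fun i => (A i).natDegree) hi
      calc (A i).natDegree ≤ r * 1 := by rw [mul_one]; exact h4
        _ ≤ r * (n - i) := Nat.mul_le_mul_left r (by omega)
    rw [← pow_mul_aeval hz0 (A i) h3, mul_pow]
    have h5 : (z⁻¹ ^ r) ^ n = z⁻¹ ^ (r * (n - i)) * (z⁻¹ ^ r) ^ i := by
      rw [← pow_mul, ← pow_mul, ← pow_add, ← mul_add]
      congr 2
      omega
    rw [h5]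
    ring

end Pool.Agent.AIC
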