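import Pool.Agent.AIC.Ded

/-!
The derivation `d/dz` of a function field, and the fact that it preserves the integral closure of `k[z]` if this is
etale over `k[z]`.

PROOF. Write `A = Algebra.adjoin k {z}` (isomorphic to `k[X]`, as `z` is transcendental) and `B = integralClosure A L`.
`Ω[A⁄k]` is free with basis `d z`. As `B` is (formally) etale over `A`, `B ⊗[A] Ω[A⁄k] → Ω[B⁄k]` is an isomorphism
(`KaehlerDifferential.tensorKaehlerEquivOfFormallyEtale` or similar), so there is a `k`-derivation `D_B : B → B` with
`D_B z = 1`. It extends to the fraction field `L` of `B` (`Ded.isFractionRing_ic`) by the quotient rule (e.g. because a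
localization is formally etale: `Algebra.FormallyEtale.of_isLocalization`, apply the same argument to `B → L`).
Alternative: `D` on `L` by lifting `d/dz` from `K = k(z)` to the separable extension `L` (formally etale), `D_B` by the same
for `B`, and uniqueness of derivations on a separable algebraic extension.
-/

set_option autoImplicit false

namespace Pool.Agent.AIC

open IntermediateField IsDedekindDomain
open scoped WithZero

/-- Derivations extend along formally etale algebras. -/
theorem der_ext {R S T : Type*} [CommRing R] [CommRing S] [CommRing T] [Algebra R S] [Algebra R T]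
    [Algebra S T] [IsScalarTower R S T] [Algebra.FormallyEtale S T] (d : Derivation R S T) :
    ∃ D : Derivation R T T, ∀ s, D (algebraMap S T s) = d s := by
  have hb := KaehlerDifferential.isBaseChange_of_formallyEtale R S T
  refine ⟨(hb.lift d.liftKaehlerDifferential).compDer (KaehlerDifferential.D R T), fun s => ?_⟩
  have h1 := hb.lift_eq d.liftKaehlerDifferential (KaehlerDifferential.D R S s)
  rw [KaehlerDifferential.map_D, Derivation.liftKaehlerDifferential_comp_D] at h1
  exact h1

private theorem scder_fs {k K L : Type*} [Field k] [Field K] [Field L] [Algebra k K]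
    [Algebra K L] [Algebra k L] [IsScalarTower k K L] [FiniteDimensional K L]
    [Algebra.IsSeparable K L] (z₀ : K) (htop : k⟮z₀⟯ = ⊤) (z : L) (hz : algebraMap K L z₀ = z) :
    FiniteDimensional k⟮z⟯ L ∧ Algebra.IsSeparable k⟮z⟯ L := by
  have hmem : ∀ x : K, algebraMap K L x ∈ k⟮z⟯ := by
    intro x
    have hx : x ∈ k⟮z₀⟯ := by rw [htop]; trivial
    have h1 : (IsScalarTower.toAlgHom k K L) x ∈
        (k⟮z₀⟯).map (IsScalarTower.toAlgHom k K L) := ⟨x, hx, rfl⟩
    rw [IntermediateField.adjoin_map] at h1
    simpa [hz] using h1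
  letI : Algebra K k⟮z⟯ := (RingHom.codRestrict (algebraMap K L) k⟮z⟯ hmem).toAlgebra
  haveI : IsScalarTower K k⟮z⟯ L := IsScalarTower.of_algebraMap_eq (fun x => rfl)
  exact ⟨Module.Finite.of_restrictScalars_finite K _ L,
    Algebra.isSeparable_tower_top_of_isSeparable K _ L⟩

/-- The derivation `d/dz` of `k[z]`. -/
private theorem der_adjoin {k L : Type*} [Field k] [Field L] [Algebra k L] {z : L}
    (hz : Transcendental k z) : ∃ d : Derivation k (Algebra.adjoin k {z}) (Algebra.adjoin k {z}),
      d ⟨z, Algebra.self_mem_adjoin_singleton k z⟩ = 1 := by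
  let φ : Polynomial k →ₐ[k] Algebra.adjoin k {z} :=
    (Polynomial.aeval z).codRestrict (Algebra.adjoin k {z})
      (fun p => Polynomial.aeval_mem_adjoin_singleton k z)
  have hφ : Function.Bijective φ := by
    constructor
    · intro p q hpq
      exact (transcendental_iff_injective.1 hz) (congrArg Subtype.val hpq)
    · rintro ⟨a, ha⟩
      rw [Algebra.adjoin_singleton_eq_range_aeval] at ha
      obtain ⟨p, hp⟩ := ha
      exact ⟨p, Subtype.ext hp⟩
  let e := AlgEquiv.ofBijective φ hφ
  have he : e Polynomial.X = ⟨z, Algebra.self_mem_adjoin_singleton k z⟩ :=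
    Subtype.ext (Polynomial.aeval_X z)
  refine ⟨Derivation.mk' (e.toLinearMap ∘ₗ Polynomial.derivative ∘ₗ e.symm.toLinearMap) ?_, ?_⟩
  · intro a b
    show e (Polynomial.derivative (e.symm (a * b))) =
      a • e (Polynomial.derivative (e.symm b)) + b • e (Polynomial.derivative (e.symm a))
    rw [map_mul, Polynomial.derivative_mul, map_add, map_mul, map_mul, e.apply_symm_apply,
      e.apply_symm_apply, smul_eq_mul, smul_eq_mul]
    ring
  · show e (Polynomial.derivative (e.symm ⟨z, Algebra.self_mem_adjoin_singleton k z⟩)) = 1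
    rw [← he, e.symm_apply_apply, Polynomial.derivative_X, map_one]

theorem exists_der {k K L : Type} [Field k] [IsAlgClosed k] [Field K] [Field L] [Algebra k K]
    [Algebra K L] [Algebra k L] [IsScalarTower k K L] [FiniteDimensional K L] [IsGalois K L]
    (z₀ : K) (hz₀ : Transcendental k z₀) (htop : k⟮z₀⟯ = ⊤) (z : L) (hz : algebraMap K L z₀ = z)
    (het : Algebra.Etale (Algebra.adjoin k {z}) (integralClosure (Algebra.adjoin k {z}) L)) :
    ∃ D : Derivation k L L, D z = 1 ∧
      ∀ b : L, b ∈ integralClosure (Algebra.adjoin k {z}) L →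
        D b ∈ integralClosure (Algebra.adjoin k {z}) L := by
  obtain ⟨hfin, hsep⟩ := scder_fs (k := k) z₀ htop z hz
  have hz' : Transcendental k z := by
    subst hz
    exact (transcendental_algebraMap_iff (algebraMap K L).injective).mpr hz₀
  have hfr := isFractionRing_ic (k := k) z
  obtain ⟨dA, hdA⟩ := der_adjoin hz'
  set A := Algebra.adjoin k {z} with hA
  set B := integralClosure A L with hB
  obtain ⟨DB, hDB⟩ := der_ext (R := k) (S := A) (T := B)
    ((Algebra.linearMap A B).compDer dA)
  have hfe : Algebra.FormallyEtale B L :=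
    Algebra.FormallyEtale.of_isLocalization (Rₘ := L) (nonZeroDivisors B)
  obtain ⟨D, hD⟩ := der_ext (R := k) (S := B) (T := L) ((Algebra.linearMap B L).compDer DB)
  refine ⟨D, ?_, fun b hb => ?_⟩
  · have h1 := hD (algebraMap A B ⟨z, Algebra.self_mem_adjoin_singleton k z⟩)
    have h2 := hDB ⟨z, Algebra.self_mem_adjoin_singleton k z⟩
    have h3 : ((Algebra.linearMap A B).compDer dA) ⟨z, Algebra.self_mem_adjoin_singleton k z⟩ =
        1 := by
      show algebraMap A B (dA _) = 1
      rw [hdA, map_one]
    rw [h3] at h2
    have h4 : ((Algebra.linearMap B L).compDer DB)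
        (algebraMap A B ⟨z, Algebra.self_mem_adjoin_singleton k z⟩) = 1 := by
      show algebraMap B L (DB _) = 1
      rw [h2, map_one]
    rw [h4] at h1
    exact h1
  · have h1 := hD ⟨b, hb⟩
    have h2 : D b = ((DB ⟨b, hb⟩ : B) : L) := h1
    rw [h2]
    exact (DB ⟨b, hb⟩).2

end Pool.Agent.AIC
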