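import Pool.Agent.AIC.SCp

/-!
The kernel of `D` and `D^p = 0`.

PROOF. Write `f = ∑ i ∈ range p, (a i)^p z^i` (`SCp.exists_pow_sum`). `D` kills `p`-th powers (characteristic `p`), so it is linear over
`p`-th powers, and `D (z^i) = i z^(i-1)`. So `D^[j] f = ∑ i, (a i)^p * (i)_j * z^(i-j)` with the falling factorial
`(i)_j = i (i-1) .. (i-j+1)`. (2): `(i)_p = 0` in `L` for `i < p` (indeed `(i)_p = 0` as a natural number). (1): suppose `D f = 0` and let
`i₀` be the largest `i < p` with `a i ≠ 0`; if `i₀ ≥ 1` then `D^[i₀] f = i₀! (a i₀)^p ≠ 0` (`i₀ < p`), but `D^[i₀] f = 0` as `D f = 0`,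
contradiction; so `f = (a 0)^p`.
(3): For a polynomial `P = ∑ c_i X^i` over `k` with `D^[p-1] (P(z)) = 0`: `D (Q(z)) = Q'(z)`, so `(P^(p-1))(z) = 0`, so the
`(p-1)`-st derivative of `P` is `0` (`z` transcendental), i.e. `(i)_(p-1) c_i = 0`, and `(i)_(p-1)` is non-zero mod `p`
iff `i ≡ p - 1 mod p`; so `c_i = 0` for `i ≡ -1 mod p`. Put `Q = ∑_{{i+1 ≢ 0}} c_i / (i+1) X^(i+1)`; `Q' = P` and
`natDegree Q ≤ natDegree P + 1`.
-/

set_option autoImplicit false

namespace Pool.Agent.AIC

open IntermediateField IsDedekindDomain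
open scoped WithZero

private theorem iter_sum {k L ι : Type*} [Field k] [Field L] [Algebra k L] (D : Derivation k L L)
    (s : Finset ι) (j : ℕ) : ∀ g : ι → L, (⇑D)^[j] (∑ i ∈ s, g i) = ∑ i ∈ s, (⇑D)^[j] (g i) := by
  induction j with
  | zero => intro g; rfl
  | succ j ih =>
    intro g
    rw [Function.iterate_succ_apply, map_sum, ih]
    rfl

private theorem iter_zero {k L : Type*} [Field k] [Field L] [Algebra k L] (D : Derivation k L L)
    (j : ℕ) : (⇑D)^[j] (0 : L) = 0 := by
  induction j with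
  | zero => rfl
  | succ j ih => rw [Function.iterate_succ_apply, map_zero, ih]

private theorem der_pp {k L : Type*} [Field k] [Field L] [Algebra k L] (D : Derivation k L L)
    (p : ℕ) [CharP L p] (a : L) : D (a ^ p) = 0 := by
  rw [D.leibniz_pow, nsmul_eq_mul, CharP.cast_eq_zero, zero_mul]

private theorem iter_term {k L : Type*} [Field k] [Field L] [Algebra k L] (D : Derivation k L L)
    (p : ℕ) [CharP L p] {z : L} (hD : D z = 1) (a : L) (i j : ℕ) :
    (⇑D)^[j] (a ^ p * z ^ i) = a ^ p * ((i.descFactorial j : ℕ) : L) * z ^ (i - j) := by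
  induction j with
  | zero => simp
  | succ j ih =>
    rw [Function.iterate_succ_apply', ih, mul_assoc, D.leibniz, der_pp D p, D.leibniz,
      D.leibniz_pow, hD, D.map_natCast, Nat.descFactorial_succ]
    simp only [smul_eq_mul, nsmul_eq_mul, mul_zero, add_zero, mul_one, Nat.cast_mul]
    rw [Nat.sub_sub]
    ring

private theorem iter_aeval {k L : Type*} [Field k] [Field L] [Algebra k L] (D : Derivation k L L)
    {z : L} (hD : D z = 1) (j : ℕ) : ∀ P : Polynomial k,
    (⇑D)^[j] (Polynomial.aeval z P) = Polynomial.aeval z ((⇑Polynomial.derivative)^[j] P) := by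
  induction j with
  | zero => intro P; rfl
  | succ j ih =>
    intro P
    rw [Function.iterate_succ_apply, D.map_aeval, hD, smul_eq_mul, mul_one, ih,
      ← Function.iterate_succ_apply]

private theorem desc_ne {p : ℕ} (hp : p.Prime) {m : ℕ} (hm : p ∣ m) :
    ¬ p ∣ (m + (p - 1)).descFactorial (p - 1) := by
  rw [Nat.descFactorial_eq_prod_range]
  intro h
  obtain ⟨i, hi, hdvd⟩ := (hp.prime.dvd_finset_prod_iff _).1 h
  rw [Finset.mem_range] at hi
  rw [show m + (p - 1) - i = m + (p - 1 - i) by omega, Nat.dvd_add_right hm] at hdvd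
  exact absurd (Nat.le_of_dvd (by omega) hdvd) (by omega)

section

theorem ker_der {k K L : Type} [Field k] [IsAlgClosed k] [Field K] [Field L] [Algebra k K]
    [Algebra K L] [Algebra k L] [IsScalarTower k K L] [FiniteDimensional K L] [IsGalois K L]
    (z₀ : K) (hz₀ : Transcendental k z₀) (htop : k⟮z₀⟯ = ⊤) (z : L) (hz : algebraMap K L z₀ = z)
    (p : ℕ) [Fact p.Prime] [CharP k p] (D : Derivation k L L) (hD : D z = 1) (f : L)
    (hf : D f = 0) : ∃ h : L, f = h ^ p := by
  classical
  have hp : p.Prime := Fact.out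
  haveI hcp : CharP L p := charP_of_injective_algebraMap (algebraMap k L).injective p
  obtain ⟨a, ha⟩ := exists_pow_sum z₀ hz₀ htop z hz p f
  have key : ∀ i ∈ Finset.range p, 1 ≤ i → a i = 0 := by
    by_contra hcon
    push Not at hcon
    obtain ⟨i1, hi1, hi1', hai1⟩ := hcon
    obtain ⟨i0, hi0, hmax⟩ := Finset.exists_max_image
      ((Finset.range p).filter fun i => 1 ≤ i ∧ a i ≠ 0) (fun i => i)
      ⟨i1, Finset.mem_filter.2 ⟨hi1, hi1', hai1⟩⟩
    obtain ⟨h1, h2, h3⟩ := Finset.mem_filter.1 hi0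
    rw [Finset.mem_range] at h1
    have h4 : (⇑D)^[i0] f = 0 := by
      obtain ⟨j, rfl⟩ : ∃ j, i0 = j + 1 := ⟨i0 - 1, by omega⟩
      rw [Function.iterate_succ_apply, hf, iter_zero]
    rw [ha, iter_sum, Finset.sum_eq_single i0] at h4
    · rw [iter_term D p hD, Nat.descFactorial_self, Nat.sub_self, pow_zero, mul_one] at h4
      rcases mul_eq_zero.1 h4 with h5 | h5
      · exact h3 (pow_eq_zero_iff (hp.ne_zero) |>.1 h5)
      · rw [CharP.cast_eq_zero_iff L p, hp.dvd_factorial] at h5
        omega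
    · intro i hi hne
      rw [iter_term D p hD]
      rcases Nat.lt_or_ge i i0 with h5 | h5
      · rw [Nat.descFactorial_of_lt h5]
        simp
      · have h6 : a i = 0 := by
          by_contra h7
          have := hmax i (Finset.mem_filter.2 ⟨hi, by omega, h7⟩)
          omega
        rw [h6, zero_pow hp.ne_zero]
        simp
    · intro h5
      exact absurd (Finset.mem_range.2 h1) h5
  refine ⟨a 0, ?_⟩
  rw [ha, Finset.sum_eq_single 0]
  · rw [pow_zero, mul_one]
  · intro i hi hne
    rw [key i hi (by omega), zero_pow hp.ne_zero, zero_mul]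
  · intro h
    exact absurd (Finset.mem_range.2 hp.pos) h

theorem iterate_der {k K L : Type} [Field k] [IsAlgClosed k] [Field K] [Field L] [Algebra k K]
    [Algebra K L] [Algebra k L] [IsScalarTower k K L] [FiniteDimensional K L] [IsGalois K L]
    (z₀ : K) (hz₀ : Transcendental k z₀) (htop : k⟮z₀⟯ = ⊤) (z : L) (hz : algebraMap K L z₀ = z)
    (p : ℕ) [Fact p.Prime] [CharP k p] (D : Derivation k L L) (hD : D z = 1) (f : L) :
    (⇑D)^[p] f = 0 := by
  haveI hcp : CharP L p := charP_of_injective_algebraMap (algebraMap k L).injective p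
  obtain ⟨a, ha⟩ := exists_pow_sum z₀ hz₀ htop z hz p f
  rw [ha, iter_sum]
  refine Finset.sum_eq_zero fun i hi => ?_
  rw [iter_term D p hD, Nat.descFactorial_of_lt (Finset.mem_range.1 hi)]
  simp

theorem exists_integral {k K L : Type} [Field k] [IsAlgClosed k] [Field K] [Field L] [Algebra k K]
    [Algebra K L] [Algebra k L] [IsScalarTower k K L] [FiniteDimensional K L] [IsGalois K L]
    (z₀ : K) (hz₀ : Transcendental k z₀) (htop : k⟮z₀⟯ = ⊤) (z : L) (hz : algebraMap K L z₀ = z)
    (p : ℕ) [Fact p.Prime] [CharP k p] (D : Derivation k L L) (hD : D z = 1) (P : Polynomial k)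
    (hP : (⇑D)^[p - 1] (Polynomial.aeval z P) = 0) :
    ∃ Q : Polynomial k, Q.natDegree ≤ P.natDegree + 1 ∧
      D (Polynomial.aeval z Q) = Polynomial.aeval z P := by
  have hp : p.Prime := Fact.out
  have hz' : Transcendental k z := by
    subst hz
    exact (transcendental_algebraMap_iff (algebraMap K L).injective).mpr hz₀
  rw [iter_aeval D hD] at hP
  have hP' : (⇑Polynomial.derivative)^[p - 1] P = 0 := by
    refine (transcendental_iff_injective.1 hz') ?_
    rw [hP, map_zero]
  have hc : ∀ i, ((i + 1 : ℕ) : k) = 0 → P.coeff i = 0 := by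
    intro i hi
    rw [CharP.cast_eq_zero_iff k p] at hi
    obtain ⟨t, ht⟩ := hi
    have ht0 : t ≠ 0 := by
      rintro rfl
      omega
    have hi2 : i = p * (t - 1) + (p - 1) := by
      have h1 : p * t = p * (t - 1) + p := by
        obtain ⟨u, rfl⟩ : ∃ u, t = u + 1 := ⟨t - 1, by omega⟩
        rw [Nat.add_sub_cancel]
        ring
      have := hp.pos
      omega
    have h2 := congrArg (fun q => Polynomial.coeff q (p * (t - 1))) hP'
    simp only [Polynomial.coeff_iterate_derivative, Polynomial.coeff_zero] at h2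
    rw [← hi2, nsmul_eq_mul] at h2
    refine (mul_eq_zero.1 h2).resolve_left ?_
    rw [CharP.cast_eq_zero_iff k p, hi2]
    exact desc_ne hp ⟨_, rfl⟩
  refine ⟨∑ i ∈ Finset.range (P.natDegree + 1),
    Polynomial.C (P.coeff i / ((i + 1 : ℕ) : k)) * Polynomial.X ^ (i + 1), ?_, ?_⟩
  · refine Polynomial.natDegree_sum_le_of_forall_le _ _ fun i hi => ?_
    rw [Finset.mem_range] at hi
    exact (Polynomial.natDegree_C_mul_X_pow_le _ _).trans (by omega)
  · rw [D.map_aeval, hD, smul_eq_mul, mul_one]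
    congr 1
    conv_rhs => rw [P.as_sum_range_C_mul_X_pow]
    rw [map_sum]
    refine Finset.sum_congr rfl fun i _ => ?_
    rw [Polynomial.derivative_C_mul_X_pow, Nat.add_sub_cancel]
    congr 2
    by_cases h : ((i + 1 : ℕ) : k) = 0
    · rw [h, hc i h]
      simp
    · rw [div_mul_cancel₀ _ h]

end

end Pool.Agent.AIC
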