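import Pool.Agent.AIC.Defs

/-!
Two `k`-derivations of `L` which agree on `z` are equal, if `L` is a separable algebraic extension of `k(z)`.

PROOF. `E = D - D'` kills `k` and `z`, so it kills `K = k(z)` (`htop`: induction on `IntermediateField.adjoin`, quotient rule;
`E (algebraMap K L u) = 0`), so it is `K`-linear, and a `K`-derivation of a separable algebraic extension is `0`
(for `f ∈ L` with minimal polynomial `P` over `K`: `0 = E (P(f)) = P'(f) E f`, `P'(f) ≠ 0`; or
`Algebra.FormallyUnramified` / `Ω[L⁄K] = 0`).
-/

set_option autoImplicit false

namespace Pool.Agent.AIC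

open IntermediateField IsDedekindDomain
open scoped WithZero

theorem der_unique {k K L : Type} [Field k] [IsAlgClosed k] [Field K] [Field L] [Algebra k K]
    [Algebra K L] [Algebra k L] [IsScalarTower k K L] [FiniteDimensional K L] [IsGalois K L]
    (z₀ : K) (hz₀ : Transcendental k z₀) (htop : k⟮z₀⟯ = ⊤) (z : L) (hz : algebraMap K L z₀ = z)
    (D D' : Derivation k L L) (h : D z = D' z) : D = D' := by
  classical
  have hE : ∀ u : K, D (algebraMap K L u) = D' (algebraMap K L u) := by
    intro u
    have hu : u ∈ k⟮z₀⟯ := by rw [htop]; exact IntermediateField.mem_top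
    induction hu using IntermediateField.adjoin_induction with
    | mem x hx =>
      have hx' : x = z₀ := by simpa using hx
      subst hx'
      rw [hz]
      exact h
    | algebraMap x =>
      rw [← IsScalarTower.algebraMap_apply k K L]
      rw [D.map_algebraMap, D'.map_algebraMap]
    | add x y _ _ hx hy => rw [map_add, map_add, map_add, hx, hy]
    | inv x _ hx =>
      by_cases hx0 : x = 0
      · subst hx0
        simp
      · have hne : algebraMap K L x ≠ 0 := (map_ne_zero _).mpr hx0
        have h1 : ∀ G : Derivation k L L, G (algebraMap K L x⁻¹) =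
            -(algebraMap K L x⁻¹) ^ 2 * G (algebraMap K L x) := by
          intro G
          have h2 : G (algebraMap K L x * algebraMap K L x⁻¹) = 0 := by
            rw [← map_mul, mul_inv_cancel₀ hx0, map_one, G.map_one_eq_zero]
          rw [G.leibniz] at h2
          simp only [smul_eq_mul] at h2
          have h3 : algebraMap K L x⁻¹ * algebraMap K L x = 1 := by
            rw [← map_mul, inv_mul_cancel₀ hx0, map_one]
          have h4 : algebraMap K L x⁻¹ * (algebraMap K L x * G (algebraMap K L x⁻¹) +
              algebraMap K L x⁻¹ * G (algebraMap K L x)) = 0 := by rw [h2, mul_zero]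
          have h5 : algebraMap K L x⁻¹ * (algebraMap K L x * G (algebraMap K L x⁻¹) +
              algebraMap K L x⁻¹ * G (algebraMap K L x)) =
              (algebraMap K L x⁻¹ * algebraMap K L x) * G (algebraMap K L x⁻¹) +
                (algebraMap K L x⁻¹) ^ 2 * G (algebraMap K L x) := by ring
          rw [h5, h3, one_mul] at h4
          rw [neg_mul]
          exact eq_neg_of_add_eq_zero_left h4
        rw [h1 D, h1 D', hx]
    | mul x y _ _ hx hy =>
      rw [map_mul, D.leibniz, D'.leibniz, hx, hy]
  let E : Derivation K L L :=
    { toFun := fun x => D x - D' x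
      map_add' := fun x y => by rw [map_add, map_add]; ring
      map_smul' := fun u x => by
        simp only [RingHom.id_apply]
        rw [Algebra.smul_def u x, D.leibniz, D'.leibniz, hE u, Algebra.smul_def u]
        simp only [smul_eq_mul]
        ring
      map_one_eq_zero' := by
        show D 1 - D' 1 = 0
        rw [D.map_one_eq_zero, D'.map_one_eq_zero, sub_zero]
      leibniz' := fun x y => by
        show D (x * y) - D' (x * y) = x • (D y - D' y) + y • (D x - D' x)
        rw [D.leibniz, D'.leibniz]
        simp only [smul_eq_mul]
        ring }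
  refine Derivation.ext fun f => ?_
  have hsep : (minpoly K f).Separable := Algebra.IsSeparable.isSeparable K f
  have h1 := E.map_aeval (minpoly K f) f
  rw [minpoly.aeval, map_zero, smul_eq_mul] at h1
  have h2 : Polynomial.aeval f (Polynomial.derivative (minpoly K f)) ≠ 0 :=
    hsep.aeval_derivative_ne_zero (minpoly.aeval K f)
  rcases mul_eq_zero.mp h1.symm with h3 | h3
  · exact absurd h3 h2
  · exact sub_eq_zero.mp h3

end Pool.Agent.AIC
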