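import Pool.Agent.AIC.SCder
import Pool.Agent.AIC.SCuniq
import Pool.Agent.AIC.SCker
import Pool.Agent.AIC.SCconst
import Pool.Agent.AIC.Ded

/-!
The projective line has no unramified covers.

PROOF. Let `t = z⁻¹`, `B₀ = integralClosure k[z] L`, `B₁ = integralClosure k[t] L`; `D` (with `D z = 1`, `D B₀ ⊆ B₀`) and `E` (with `E t = 1`,
`E B₁ ⊆ B₁`) from `SCder.exists_der` (for `z` and for `t`, `K = k(z₀⁻¹)`). `- t^2 E` is a derivation with value `-t^2 * (-(t^-2)) = 1` at `z = t⁻¹`
(`E (t⁻¹) = - t^-2 E t`), so `D = - t^2 • E` by `SCuniq.der_unique`.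
CLAIM: for all `r` and all `f ∈ B₀` with `t^r f ∈ B₁` there is `P ∈ k[X]` with `f = P(z)`. Strong induction on `r`. `r = 0`: `SCconst.mem_const`.
Let `r ≥ 1`, `g = t^r f ∈ B₁`, `f = z^r g`. `t^(r-1) D f = t^(r-1) (r z^(r-1) g + z^r (-t^2) E g) = r g - t E g ∈ B₁`, and `D f ∈ B₀`. By induction
`D f = P(z)`; `natDegree P ≤ r - 1` (`SCconst.natDegree_le_of_mem`). By `SCker.iterate_der` `D^[p-1] (P(z)) = D^[p] f = 0`, so
(`SCker.exists_integral`) there is `Q`, `natDegree Q ≤ r`, with `D (Q(z)) = D f`; by `SCker.ker_der` `f - Q(z) = h^p`. `h ∈ B₀` (integrally closed: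
`h^p ∈ B₀`, so `h` is integral over `B₀`). `t^r h^p = g - t^r Q(z) ∈ B₁` (`t^r Q(z) ∈ k[t]` as `natDegree Q ≤ r`). If
`t^i h^p ∈ B₁`, `i ≥ 1` and `p ∤ i` then `E (t^i h^p) = i t^(i-1) h^p ∈ B₁` so `t^(i-1) h^p ∈ B₁`; so `t^(p r') h^p ∈ B₁` where
`r' = r / p` (floor; start from `r` and descend to the multiple `p r'` of `p`). So `(t^r' h)^p ∈ B₁`, `t^r' h ∈ B₁`, and `r' < r`. By induction
`h = R(z)`, so `f = Q(z) + R(z)^p`.
Hence `B₀ = k[z]` (`SCconst.exists_pole_bound`), and `L` is the fraction field of `B₀` (`Ded.isFractionRing_ic`), so every element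
of `L` is in the image of `K`, and `g = 1` for all `g : L ≃ₐ[K] L`.
-/

set_option autoImplicit false

namespace Pool.Agent.AIC

open IntermediateField IsDedekindDomain
open scoped WithZero

/-- If `K = k(z₀)` then `L` is finite and separable over `k(z)`, `z` the image of `z₀`. -/
theorem scm_fs {k K L : Type} [Field k] [Field K] [Field L] [Algebra k K]
    [Algebra K L] [Algebra k L] [IsScalarTower k K L] [FiniteDimensional K L]
    [Algebra.IsSeparable K L] (z₀ : K) (htop : k⟮z₀⟯ = ⊤) (z : L) (hz : algebraMap K L z₀ = z) :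
    FiniteDimensional k⟮z⟯ L ∧ Algebra.IsSeparable k⟮z⟯ L := by
  have hmem : ∀ x : K, algebraMap K L x ∈ k⟮z⟯ := by
    intro x
    have hx : x ∈ k⟮z₀⟯ := by rw [htop]; trivial
    have h1 : (IsScalarTower.toAlgHom k K L) x ∈
        (k⟮z₀⟯).map (IsScalarTower.toAlgHom k K L) := ⟨x, hx, rfl⟩
    rw [IntermediateField.adjoin_map] at h1
    simpa [hz] using h1
  let _ : Algebra K k⟮z⟯ := (RingHom.codRestrict (algebraMap K L) k⟮z⟯ hmem).toAlgebra
  have : IsScalarTower K k⟮z⟯ L := IsScalarTower.of_algebraMap_eq (fun x => rfl)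
  exact ⟨Module.Finite.of_restrictScalars_finite K _ L,
    Algebra.isSeparable_tower_top_of_isSeparable K _ L⟩

/-- Elements of `k[z]` are integral over `k[z]`. -/
theorem scm_adj {k L : Type} [Field k] [Field L] [Algebra k L] {z y : L}
    (h : y ∈ Algebra.adjoin k {z}) : y ∈ integralClosure (Algebra.adjoin k {z}) L := by
  have h1 : IsIntegral (Algebra.adjoin k {z}) (algebraMap (Algebra.adjoin k {z}) L ⟨y, h⟩) :=
    isIntegral_algebraMap
  exact h1

theorem scm_aeval {k L : Type} [Field k] [Field L] [Algebra k L] (z : L) (P : Polynomial k) :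
    Polynomial.aeval z P ∈ integralClosure (Algebra.adjoin k {z}) L :=
  scm_adj (Polynomial.aeval_mem_adjoin_singleton k z)

theorem scm_pole {k L : Type} [Field k] [Field L] [Algebra k L] {z : L} (hz : z ≠ 0)
    (P : Polynomial k) {n : ℕ} (hn : P.natDegree ≤ n) :
    z⁻¹ ^ n * Polynomial.aeval z P ∈ integralClosure (Algebra.adjoin k {z⁻¹}) L := by
  apply scm_adj
  rw [Polynomial.aeval_eq_sum_range' (Nat.lt_succ_of_le hn), Finset.mul_sum]
  apply Subalgebra.sum_mem
  intro i hi
  have hi' : i ≤ n := Nat.lt_succ_iff.1 (Finset.mem_range.1 hi)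
  have e : z⁻¹ ^ n * (P.coeff i • z ^ i) = P.coeff i • z⁻¹ ^ (n - i) := by
    obtain ⟨j, rfl⟩ := Nat.exists_eq_add_of_le hi'
    rw [mul_smul_comm, Nat.add_sub_cancel_left, pow_add, inv_pow, inv_pow]
    congr 1
    field_simp
  rw [e]
  exact Subalgebra.smul_mem _ (Subalgebra.pow_mem _ (Algebra.self_mem_adjoin_singleton k _) _) _

/-- Descent of the order of the pole. -/
theorem scm_descent {k L : Type} [Field k] [Field L] [Algebra k L] {t u : L} (p : ℕ)
    [Fact p.Prime] [CharP k p] (E : Derivation k L L) (hEt : E t = 1) (hEu : E u = 0)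
    (hE : ∀ b : L, b ∈ integralClosure (Algebra.adjoin k {t}) L →
      E b ∈ integralClosure (Algebra.adjoin k {t}) L) (i : ℕ)
    (hi : t ^ i * u ∈ integralClosure (Algebra.adjoin k {t}) L) :
    t ^ (p * (i / p)) * u ∈ integralClosure (Algebra.adjoin k {t}) L := by
  induction i with
  | zero =>
    rw [Nat.zero_div, mul_zero]
    exact hi
  | succ i ih =>
    by_cases hd : p ∣ i + 1
    · rwa [Nat.mul_div_cancel' hd]
    · have hdiv : (i + 1) / p = i / p := by
        rw [Nat.succ_div, if_neg hd, add_zero]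
      rw [hdiv]
      apply ih
      have h1 := hE _ hi
      have h2 : E (t ^ (i + 1) * u) = algebraMap k L ((i + 1 : ℕ) : k) * (t ^ i * u) := by
        rw [Derivation.leibniz, hEu, smul_zero, zero_add, Derivation.leibniz_pow, hEt]
        simp only [Nat.add_sub_cancel, nsmul_eq_mul, smul_eq_mul, mul_one, map_natCast]
        ring
      rw [h2] at h1
      have h3 : ((i + 1 : ℕ) : k) ≠ 0 := by
        intro h
        exact hd ((CharP.cast_eq_zero_iff k p (i + 1)).1 h)
      have h4 : algebraMap k L (((i + 1 : ℕ) : k)⁻¹) ∈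
          integralClosure (Algebra.adjoin k {t}) L :=
        scm_adj (Subalgebra.algebraMap_mem _ _)
      have h5 := mul_mem h4 h1
      rw [← mul_assoc, ← map_mul, inv_mul_cancel₀ h3, map_one, one_mul] at h5
      exact h5

theorem sc_main {k K L : Type} [Field k] [IsAlgClosed k] [Field K] [Field L] [Algebra k K]
    [Algebra K L] [Algebra k L] [IsScalarTower k K L] [FiniteDimensional K L] [IsGalois K L]
    (z₀ : K) (hz₀ : Transcendental k z₀) (htop : k⟮z₀⟯ = ⊤) (z : L) (hz : algebraMap K L z₀ = z)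
    (p : ℕ) [Fact p.Prime] [CharP k p]
    (h0 : Algebra.Etale (Algebra.adjoin k {z}) (integralClosure (Algebra.adjoin k {z}) L))
    (h1 : Algebra.Etale (Algebra.adjoin k {z⁻¹})
      (integralClosure (Algebra.adjoin k {z⁻¹}) L)) (g : L ≃ₐ[K] L) : g = 1 := by
  classical
  have hzt : Transcendental k z := by
    rw [← hz]
    exact (transcendental_algebraMap_iff (algebraMap K L).injective).2 hz₀
  have hz0 : z ≠ 0 := by
    rintro rfl
    exact hzt (isAlgebraic_zero)
  have hz₀' : Transcendental k z₀⁻¹ := by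
    intro h
    apply hz₀
    have := h.inv
    rwa [inv_inv] at this
  have htop' : k⟮z₀⁻¹⟯ = ⊤ := by
    rw [eq_top_iff, ← htop, IntermediateField.adjoin_simple_le_iff]
    have h := inv_mem (IntermediateField.mem_adjoin_simple_self k z₀⁻¹)
    rwa [inv_inv] at h
  have hz' : algebraMap K L z₀⁻¹ = z⁻¹ := by rw [map_inv₀, hz]
  obtain ⟨D, hDz, hDB⟩ := exists_der z₀ hz₀ htop z hz h0
  obtain ⟨E, hEt, hEB⟩ := exists_der z₀⁻¹ hz₀' htop' z⁻¹ hz' h1
  have hp0 : (p : L) = 0 := by
    have h := CharP.cast_eq_zero k p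
    have h2 := congrArg (algebraMap k L) h
    rwa [map_natCast, map_zero] at h2
  have hp2 : 2 ≤ p := (Fact.out : p.Prime).two_le
  have hEz : E z = -z ^ 2 := by
    have h := E.leibniz z z⁻¹
    rw [mul_inv_cancel₀ hz0, Derivation.map_one_eq_zero, hEt] at h
    simp only [smul_eq_mul, mul_one] at h
    have h2 : E z = -z ^ 2 + z * (z + z⁻¹ * E z) := by
      rw [mul_add, ← mul_assoc, mul_inv_cancel₀ hz0]
      ring
    rw [h2, ← h]
    ring
  have hDE : ∀ f : L, D f = -(z⁻¹ ^ 2 * E f) := by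
    have h := der_unique z₀ hz₀ htop z hz D ((-(z⁻¹ ^ 2)) • E) (by
      rw [hDz, Derivation.smul_apply, hEz, smul_eq_mul]
      field_simp)
    intro f
    rw [h, Derivation.smul_apply, smul_eq_mul, neg_mul]
  have htB : z⁻¹ ∈ integralClosure (Algebra.adjoin k {z⁻¹}) L :=
    scm_adj (Algebra.self_mem_adjoin_singleton k _)
  have claim : ∀ (r : ℕ) (f : L), f ∈ integralClosure (Algebra.adjoin k {z}) L →
      z⁻¹ ^ r * f ∈ integralClosure (Algebra.adjoin k {z⁻¹}) L →
      ∃ P : Polynomial k, f = Polynomial.aeval z P := by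
    intro r
    induction r using Nat.strong_induction_on with
    | _ r ih =>
      intro f hf0 hf1
      rcases r with _ | s
      · rw [pow_zero, one_mul] at hf1
        obtain ⟨c, hc⟩ := mem_const z₀ hz₀ htop z hz f hf0 hf1
        exact ⟨Polynomial.C c, by rw [Polynomial.aeval_C, hc]⟩
      · have hEg := hEB _ hf1
        have e1 : z⁻¹ ^ s * D f =
            ((s + 1 : ℕ) : L) * (z⁻¹ ^ (s + 1) * f) - z⁻¹ * E (z⁻¹ ^ (s + 1) * f) := by
          rw [hDE, Derivation.leibniz, Derivation.leibniz_pow, hEt]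
          simp only [Nat.add_sub_cancel, nsmul_eq_mul, smul_eq_mul, mul_one]
          ring
        have h2 : z⁻¹ ^ s * D f ∈ integralClosure (Algebra.adjoin k {z⁻¹}) L := by
          rw [e1]
          exact sub_mem (mul_mem (natCast_mem _ _) hf1) (mul_mem htB hEg)
        obtain ⟨P, hP⟩ := ih s (Nat.lt_succ_self s) (D f) (hDB f hf0) h2
        rw [hP] at h2
        have hdeg := natDegree_le_of_mem z₀ hz₀ htop z hz P s h2
        have hit : (⇑D)^[p - 1] (Polynomial.aeval z P) = 0 := by
          have e3 : (p - 1).succ = p := by omega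
          rw [← hP, ← Function.iterate_succ_apply, e3]
          exact iterate_der z₀ hz₀ htop z hz p D hDz f
        obtain ⟨Q, hQ1, hQ2⟩ := exists_integral z₀ hz₀ htop z hz p D hDz P hit
        obtain ⟨h, hh⟩ := ker_der z₀ hz₀ htop z hz p D hDz (f - Polynomial.aeval z Q) (by
          rw [map_sub, hQ2, hP, sub_self])
        have hh0 : h ∈ integralClosure (Algebra.adjoin k {z}) L := by
          have h3 : h ^ p ∈ integralClosure (Algebra.adjoin k {z}) L := by
            rw [← hh]
            exact sub_mem hf0 (scm_aeval z Q)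
          exact IsIntegral.of_pow (by omega) h3
        have hh1 : z⁻¹ ^ (s + 1) * h ^ p ∈ integralClosure (Algebra.adjoin k {z⁻¹}) L := by
          rw [← hh, mul_sub]
          exact sub_mem hf1 (scm_pole hz0 Q (by omega))
        have hEu : E (h ^ p) = 0 := by
          rw [Derivation.leibniz_pow, nsmul_eq_mul, hp0, zero_mul]
        have hh2 := scm_descent p E hEt hEu hEB (s + 1) hh1
        have hh3 : z⁻¹ ^ ((s + 1) / p) * h ∈ integralClosure (Algebra.adjoin k {z⁻¹}) L := by
          have e2 : z⁻¹ ^ (p * ((s + 1) / p)) * h ^ p = (z⁻¹ ^ ((s + 1) / p) * h) ^ p := by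
            rw [mul_pow, ← pow_mul, mul_comm p]
          rw [e2] at hh2
          exact IsIntegral.of_pow (by omega) hh2
        obtain ⟨R, hR⟩ := ih ((s + 1) / p) (Nat.div_lt_self (by omega) (by omega)) h hh0 hh3
        refine ⟨Q + R ^ p, ?_⟩
        rw [map_add, map_pow, ← hR, ← hh]
        ring
  -- every element of `L` comes from `K`
  obtain ⟨hfin, hsep⟩ := scm_fs (k := k) z₀ htop z hz
  have hB : ∀ f : L, f ∈ integralClosure (Algebra.adjoin k {z}) L →
      ∃ x : K, algebraMap K L x = f := by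
    intro f hf
    obtain ⟨r, hr⟩ := exists_pole_bound z₀ hz₀ htop z hz f hf
    obtain ⟨P, hP⟩ := claim r f hf hr
    refine ⟨Polynomial.aeval z₀ P, ?_⟩
    rw [hP, ← hz, Polynomial.aeval_algebraMap_apply]
  have hfrac := isFractionRing_ic (k := k) z
  ext y
  obtain ⟨a, b, hb, hab⟩ := IsFractionRing.div_surjective
    (A := integralClosure (Algebra.adjoin k {z}) L) y
  obtain ⟨a', ha'⟩ := hB _ a.2
  obtain ⟨b', hb'⟩ := hB _ b.2
  have hy : y = algebraMap K L (a' / b') := by
    rw [← hab, map_div₀, ha', hb']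
    rfl
  rw [hy, AlgEquiv.commutes, AlgEquiv.one_apply]

end Pool.Agent.AIC
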