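import Pool.Agent.AIC.Defs

/-!
`L = L^p[z]`.

PROOF. Let `M` be the set of all `f ∈ L` of the form `∑ i ∈ range p, (a i)^p * z^i`. It is closed under addition (`(a+b)^p = a^p + b^p`)
and under multiplication (`z^i z^j = z^(i+j)`, and `z^(i+j) = z^p * z^(i+j-p)` if `i + j ≥ p`), contains all `p`-th
powers and `z`, hence constants (`k` is algebraically closed, each constant is a `p`-th power), and inverses:
`f⁻¹ = f^(p-1) * (f⁻¹)^p`. So `M` is a subfield of `L` containing `k(z) = K` and `L^p`. `L / K` is separable algebraic, and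
`L / M` is both separable and purely inseparable (`f^p ∈ M`), so `L = M`. (Mathlib:
`IsPurelyInseparable`, `isPurelyInseparable_iff_pow_mem`; a separable and purely inseparable extension is trivial,
`IsPurelyInseparable.surjective_algebraMap_of_isSeparable`.)
-/

set_option autoImplicit false

namespace Pool.Agent.AIC

open IntermediateField IsDedekindDomain
open scoped WithZero

theorem exists_pow_sum {k K L : Type} [Field k] [IsAlgClosed k] [Field K] [Field L] [Algebra k K]
    [Algebra K L] [Algebra k L] [IsScalarTower k K L] [FiniteDimensional K L] [IsGalois K L]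
    (z₀ : K) (hz₀ : Transcendental k z₀) (htop : k⟮z₀⟯ = ⊤) (z : L) (hz : algebraMap K L z₀ = z)
    (p : ℕ) [Fact p.Prime] [CharP k p] (f : L) :
    ∃ a : ℕ → L, f = ∑ i ∈ Finset.range p, (a i) ^ p * z ^ i := by
  haveI hcp : CharP L p := charP_of_injective_algebraMap (algebraMap k L).injective p
  haveI : ExpChar L p := ExpChar.prime Fact.out
  have hp : 0 < p := (Fact.out : p.Prime).pos
  set F : Subfield L := (frobenius L p).fieldRange with hF
  have hpow : ∀ x : L, x ^ p ∈ F := fun x => ⟨x, rfl⟩
  set N : IntermediateField F L := F⟮z⟯ with hN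
  have hFN : ∀ x ∈ F, x ∈ N := fun x hx => N.algebraMap_mem ⟨x, hx⟩
  have hzN : z ∈ N := mem_adjoin_simple_self F z
  -- the image of `K` lies in `N`
  have hKN : ∀ x : K, algebraMap K L x ∈ N := by
    have hk : ∀ c : k, algebraMap k K c ∈ N.toSubfield.comap (algebraMap K L) := by
      intro c
      rw [Subfield.mem_comap]
      obtain ⟨d, hd⟩ := IsAlgClosed.exists_pow_nat_eq c hp
      have : algebraMap K L (algebraMap k K c) = (algebraMap k L d) ^ p := by
        rw [← hd, map_pow, map_pow, ← IsScalarTower.algebraMap_apply]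
      rw [this]
      exact hFN _ (hpow _)
    have hle : k⟮z₀⟯ ≤ (N.toSubfield.comap (algebraMap K L)).toIntermediateField hk := by
      rw [adjoin_simple_le_iff]
      show algebraMap K L z₀ ∈ N
      rw [hz]
      exact hzN
    rw [htop] at hle
    intro x
    exact hle (mem_top (x := x))
  letI : Algebra K N := ((algebraMap K L).codRestrict N.toSubfield hKN).toAlgebra
  haveI : IsScalarTower K N L := IsScalarTower.of_algebraMap_eq' rfl
  haveI : Algebra.IsSeparable N L := Algebra.isSeparable_tower_top_of_isSeparable K N L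
  haveI : CharP N p := (algebraMap N L).charP (algebraMap N L).injective p
  haveI : ExpChar N p := ExpChar.prime Fact.out
  haveI : IsPurelyInseparable N L := by
    rw [isPurelyInseparable_iff_pow_mem N p]
    intro x
    refine ⟨1, ⟨⟨x ^ p ^ 1, ?_⟩, rfl⟩⟩
    rw [pow_one]
    exact hFN _ (hpow x)
  obtain ⟨y, hy⟩ := IsPurelyInseparable.surjective_algebraMap_of_isSeparable N L f
  have hfN : f ∈ N := by rw [← hy]; exact y.2
  -- polynomials
  have hzp : z ^ p ∈ F := hpow z
  set m : Polynomial F := Polynomial.X ^ p - Polynomial.C ⟨z ^ p, hzp⟩ with hm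
  have hmonic : m.Monic := Polynomial.monic_X_pow_sub_C _ hp.ne'
  have hroot : Polynomial.aeval z m = 0 := by
    rw [hm, map_sub, map_pow, Polynomial.aeval_X, Polynomial.aeval_C]
    exact sub_self _
  have hint : IsIntegral F z := ⟨m, hmonic, hroot⟩
  have hfA : f ∈ Algebra.adjoin F {z} := by
    rw [← adjoin_simple_toSubalgebra_of_isAlgebraic hint.isAlgebraic]
    exact hfN
  rw [Algebra.adjoin_singleton_eq_range_aeval] at hfA
  obtain ⟨q, hq⟩ := hfA
  have hq' : Polynomial.aeval z (q %ₘ m) = f := by
    rw [← hq]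
    conv_rhs => rw [← Polynomial.modByMonic_add_div q m]
    show _ = Polynomial.aeval z _
    rw [map_add, map_mul, hroot, zero_mul, add_zero]
  have hdeg : (q %ₘ m).natDegree < p := by
    have h1 : m.natDegree = p := Polynomial.natDegree_X_pow_sub_C
    have h2 : m ≠ 1 := by
      intro h
      rw [h, Polynomial.natDegree_one] at h1
      omega
    have := Polynomial.natDegree_modByMonic_lt q hmonic h2
    rwa [h1] at this
  have hcoef : ∀ i, ∃ b : L, b ^ p = (((q %ₘ m).coeff i : F) : L) := fun i =>
    ((q %ₘ m).coeff i).2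
  choose a ha using hcoef
  refine ⟨a, ?_⟩
  rw [← hq', Polynomial.aeval_eq_sum_range' hdeg]
  refine Finset.sum_congr rfl fun i _ => ?_
  rw [ha i]
  rfl

end Pool.Agent.AIC
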